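import Mathlib
set_option autoImplicit false
open MeasureTheory Set
namespace Geo

/-- the circle -/
abbrev S := UnitAddCircle

/-- `1, a, b` are linearly independent over the rationals -/
def Free (a b : ℝ) : Prop := ∀ m n k : ℤ, (m : ℝ) * a + n * b = k → m = 0 ∧ n = 0

/-- the rotation number of a lattice vector -/
noncomputable def sh (a b : ℝ) (v : ℤ × ℤ) : S := v.1 • (a : S) + v.2 • (b : S)

/-- open arc of length `l` starting at `c` -/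
def arcO (c l : ℝ) : Set S := (fun t : ℝ => (t : S)) '' Ioo c (c + l)
/-- closed arc of length `l` starting at `c` -/
def arcC (c l : ℝ) : Set S := (fun t : ℝ => (t : S)) '' Icc c (c + l)

open Classical in
/-- number of boundary edges of a finite subset of the square lattice -/
noncomputable def per (F : Finset (ℤ × ℤ)) : ℕ :=
  (F.filter (fun v => (v.1 + 1, v.2) ∉ F)).card + (F.filter (fun v => (v.1 - 1, v.2) ∉ F)).card +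
  (F.filter (fun v => (v.1, v.2 + 1) ∉ F)).card + (F.filter (fun v => (v.1, v.2 - 1) ∉ F)).card

/-- sup norm at most `L` -/
def le (v : ℤ × ℤ) (L : ℤ) : Prop := |v.1| ≤ L ∧ |v.2| ≤ L

/-- box `[0,N)^2` -/
def inBox (v : ℤ × ℤ) (N : ℤ) : Prop := 0 ≤ v.1 ∧ v.1 < N ∧ 0 ≤ v.2 ∧ v.2 < N

/-- isometry of the circle: `(true,c)` is `x ↦ x + c`, `(false,c)` is `x ↦ -x + c` -/
def isoS (g : Bool × S) (x : S) : S := if g.1 then x + g.2 else -x + g.2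

open Classical in
/-- the multi-scale cut condition (proved elsewhere) -/
def CutStmt : Prop := ∀ (K : ℕ) (N D : ℕ → ℕ), 1 ≤ N 0 → (∀ k, 4 * N k ≤ N (k + 1)) →
    (∀ k, 2 * N k ≤ D k ∧ D k < 3 * N k) →
    ∀ (Bs Sr : ℕ → Set (ℤ × ℤ)),
    (∀ k, ∀ w ∈ Bs k, ∀ w' ∈ Bs k, |w.1 - w'.1| ≤ 64 * (N k : ℤ) ^ 2 →
      |w.2 - w'.2| ≤ 64 * (N k : ℤ) ^ 2 → w = w') →
    (∀ k, ∀ v ∈ Sr k, ∃ w ∈ Bs k, w.1 ≤ v.1 ∧ v.1 < w.1 + N k ∧ w.2 ≤ v.2 ∧ v.2 < w.2 + N k) →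
    (∀ k : ℕ, ∀ r a : ℤ, ∑ x ∈ Finset.Ico a (a + N k), ∑ j ∈ Finset.Ico k K,
      (if ((x, r) : ℤ × ℤ) ∈ Sr j then 1 else 0 : ℤ) ≤ 12) →
    (∀ k : ℕ, ∀ r a : ℤ, ∑ x ∈ Finset.Ico a (a + N k), ∑ j ∈ Finset.Ico k K,
      (if ((x - D j, r) : ℤ × ℤ) ∈ Sr j then 1 else 0 : ℤ) ≤ 12) →
    ∀ F : Finset (ℤ × ℤ), |∑ v ∈ F, ∑ k ∈ Finset.range K,
      ((if v ∈ Sr k then 1 else 0 : ℤ) - (if ((v.1 - D k, v.2) : ℤ × ℤ) ∈ Sr k then 1 else 0))| ≤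
      100 * (per F : ℤ)

open Classical in
/-- matching on the lattice from the cut condition (proved elsewhere) -/
def MatchStmt : Prop := ∀ (C s : ℕ), 1 ≤ s → ∀ (A B : Set (ℤ × ℤ)),
    (∀ F : Finset (ℤ × ℤ),
      |∑ v ∈ F, ((if v ∈ A then 1 else 0 : ℤ) - (if v ∈ B then 1 else 0))| ≤ C * (per F : ℤ)) →
    (∀ i j : ℤ, 4 * (s : ℤ) * C ≤
      ((((Finset.Ico (i * s) (i * s + s)) ×ˢ (Finset.Ico (j * s) (j * s + s))).filter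
        (fun v : ℤ × ℤ => v ∈ A ∧ v ∈ B)).card : ℤ)) →
    ∃ φ : ℤ × ℤ → ℤ × ℤ, Set.BijOn φ A B ∧
      ∀ v ∈ A, |(φ v).1 - v.1| ≤ 2 * s ∧ |(φ v).2 - v.2| ≤ 2 * s

open Classical in
/-- `N` is a good denominator for `a` -/
def Hit (a : ℝ) (N : ℕ) : Prop := 1 ≤ N ∧
    (∀ (x : S) (c l : ℝ), l ≤ 1 → 3 ≤ N * l → ∃ j : ℕ, j < N ∧ x + j • (a : S) ∈ arcO c l) ∧
    (∀ (x : S) (c l : ℝ), 0 ≤ l → l ≤ 1 →
      (((Finset.range N).filter (fun j : ℕ => x + j • (a : S) ∈ arcC c l)).card : ℝ) ≤ N * l + 3) ∧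
    (∀ (x : S) (c l : ℝ), 0 ≤ l → l ≤ 1 →
      N * l - 3 ≤ (((Finset.range N).filter (fun j : ℕ => x + j • (a : S) ∈ arcO c l)).card : ℝ))

open Classical in
/-- uniform row comparison for sets with null boundary (proved elsewhere) -/
def UnifStmt (a : ℝ) : Prop := ∀ (P : Set S), volume (frontier P) = 0 → ∀ ε : ℝ, 0 < ε →
    ∃ N0 : ℕ, ∀ N : ℕ, N0 ≤ N → ∀ x y : S,
      |(∑ j ∈ Finset.range N, (if x + j • (a : S) ∈ P then 1 else 0 : ℝ)) -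
        ∑ j ∈ Finset.range N, (if y + j • (a : S) ∈ P then 1 else 0 : ℝ)| ≤ ε * N

open Classical in
/-- transversal Folner sets (proved elsewhere) -/
def TransStmt : Prop := ∀ (a b : S) (C : Finset S),
    ∃ K : ℕ, ∀ N : ℕ, 1 ≤ N → ∃ Y : Finset S, Y.Nonempty ∧ Y.card ≤ K * N ^ K ∧
      (∀ y ∈ Y, ∀ y' ∈ Y, ∀ m n : ℤ, y' = y + (m • a + n • b) → y = y') ∧
      ∀ c ∈ C, ∃ (Yc : Finset S) (σ : S → S) (w : S → ℤ × ℤ), Yc ⊆ Y ∧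
        (∀ y ∈ Yc, σ y ∈ Y) ∧ Set.InjOn σ Yc ∧
        (∀ y ∈ Yc, y + c = σ y + ((w y).1 • a + (w y).2 • b) ∧ |(w y).1| ≤ K ∧ |(w y).2| ≤ K) ∧
        N ^ 2 * (Y \ Yc).card ≤ Y.card

open Classical in
/-- near invariance of box unions (proved elsewhere) -/
def ShiftStmt (a b : ℝ) : Prop := ∀ (h ψ : S → ℝ), (∀ x, 0 ≤ h x) → (∀ x, h x ≤ 1) → (∀ x, 0 ≤ ψ x) →
    ∀ (N K : ℕ) (ε : ℝ), 0 ≤ ε →
    (∀ p q : S, |(∑ j ∈ Finset.range N, h (p + j • (a : S))) -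
      ∑ j ∈ Finset.range N, h (q + j • (a : S))| ≤ ε * N + ∑ j ∈ Finset.range N, ψ (p + j • (a : S))) →
    (∀ p q : S, |(∑ j ∈ Finset.range N, h (p + j • (b : S))) -
      ∑ j ∈ Finset.range N, h (q + j • (b : S))| ≤ ε * N + ∑ j ∈ Finset.range N, ψ (p + j • (b : S))) →
    ∀ (Y Yc : Finset S) (σ : S → S) (w : S → ℤ × ℤ) (c : S), Yc ⊆ Y → (∀ y ∈ Yc, σ y ∈ Y) →
    Set.InjOn σ Yc →
    (∀ y ∈ Yc, y + c = σ y + ((w y).1 • (a : S) + (w y).2 • (b : S)) ∧ |(w y).1| ≤ K ∧ |(w y).2| ≤ K) →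
    N ^ 2 * (Y \ Yc).card ≤ Y.card →
    |∑ y ∈ Y, ∑ v ∈ (Finset.Ico (0 : ℤ) N) ×ˢ (Finset.Ico (0 : ℤ) N),
      (h (y + sh a b v + c) - h (y + sh a b v))| ≤
    Y.card * (2 * K * ε * N + 2) +
      ∑ y ∈ Y, ((∑ v ∈ (Finset.Ico (-K : ℤ) K) ×ˢ (Finset.Ico (0 : ℤ) N), ψ (y + sh a b v)) +
        ∑ v ∈ (Finset.Ico (-K : ℤ) (N + K)) ×ˢ (Finset.Ico (-K : ℤ) K), ψ (y + sh a b v))

/-- richness of a subset of the circle -/
def RichFor (a b : ℝ) (B : Set S) (n L : ℕ) (ρ : ℝ) : Prop :=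
    ∀ (G Z : Finset (Bool × S)), (∀ g ∈ G, ∀ z ∈ Z, ∀ v, le v L → z ≠ (g.1, g.2 + sh a b v)) →
      (∀ g ∈ G, ∀ g' ∈ G, ∀ v, g' = (g.1, g.2 + sh a b v) → g = g') →
      G.card * (2 * L + 1) ^ 2 + Z.card ≤ n → ∀ x0 : S,
      ∃ U : Set S, IsOpen U ∧ U.Nonempty ∧ U ⊆ Metric.ball x0 ρ ∧
        ∀ x ∈ U, (∀ g ∈ G, isoS g x ∈ B) ∧ (∀ g ∈ Z, isoS g x ∉ B)

/-- richness parameter -/
def Ghat (N : ℕ) : ℕ := N ^ (N + 1) * ((2 * (64 * N ^ 2) + 1) ^ 2 + 25 * N ^ 2)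

/-- A geometric body: bounded, regular open, Jordan measurable (the boundary, a compact set, has measure zero). -/
def Body {X : Type*} [PseudoMetricSpace X] [MeasureSpace X] (A : Set X) : Prop :=
  Bornology.IsBounded A ∧ interior (closure A) = A ∧ volume (frontier A) = 0

/-- Equidecomposability with arbitrary pieces under all isometries. -/
def ArbEq {X : Type*} [PseudoMetricSpace X] (A B : Set X) : Prop :=
  ∃ (k : ℕ) (P : Fin k → Set X) (g : Fin k → X ≃ᵢ X),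
    (Pairwise fun i j => Disjoint (P i) (P j)) ∧ A = ⋃ i, P i ∧
    (Pairwise fun i j => Disjoint (g i '' P i) (g j '' P j)) ∧ B = ⋃ i, g i '' P i

/-- Equidecomposability as geometric bodies under all isometries (joins are interiors of closures of unions). -/
def BodyEq {X : Type*} [PseudoMetricSpace X] [MeasureSpace X] (A B : Set X) : Prop :=
  ∃ (k : ℕ) (P : Fin k → Set X) (g : Fin k → X ≃ᵢ X), (∀ i, Body (P i)) ∧
    (Pairwise fun i j => Disjoint (P i) (P j)) ∧ A = interior (closure (⋃ i, P i)) ∧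
    (Pairwise fun i j => Disjoint (g i '' P i) (g j '' P j)) ∧ B = interior (closure (⋃ i, g i '' P i))

open scoped ComplexConjugate

/-- rotation of the plane about the origin -/
noncomputable def rot (θ : S) (z : ℂ) : ℂ := ((AddCircle.toCircle θ : Circle) : ℂ) * z

/-- isometry of the plane: `z ↦ rot θ z + c` or `z ↦ rot θ (conj z) + c` -/
noncomputable def isoC (g : Bool × S × ℂ) (z : ℂ) : ℂ :=
  if g.1 then rot g.2.1 z + g.2.2 else rot g.2.1 (conj z) + g.2.2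

/-- the open annulus -/
def Ann : Set ℂ := {z | 1 < ‖z‖ ∧ ‖z‖ < 2}

/-- the angle of a point of the plane -/
noncomputable def ang (z : ℂ) : S := ((Complex.arg z / (2 * Real.pi) : ℝ) : S)

/-- richness of a subset of the annulus -/
def RichForC (a b : ℝ) (B : Set ℂ) (n L : ℕ) (ρ : ℝ) : Prop :=
    ∀ (G Z : Finset (Bool × S × ℂ)),
      (∀ g ∈ G, ∀ z ∈ Z, ∀ v, le v L → z ≠ (g.1, g.2.1 + sh a b v, rot (sh a b v) g.2.2)) →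
      (∀ g ∈ G, ∀ g' ∈ G, ∀ v, g' = (g.1, g.2.1 + sh a b v, rot (sh a b v) g.2.2) → g = g') →
      G.card * (2 * L + 1) ^ 2 + Z.card ≤ n → ∀ z0 : ℂ,
      (∀ g ∈ G, ∀ z ∈ Metric.ball z0 ρ, isoC g z ∈ Ann) →
      ∃ U : Set ℂ, IsOpen U ∧ U.Nonempty ∧ U ⊆ Metric.ball z0 ρ ∧
        ∀ z ∈ U, (∀ g ∈ G, isoC g z ∈ B) ∧ (∀ g ∈ Z, isoC g z ∉ B)

/-- richness parameter for the plane -/
def GhatC (N : ℕ) : ℕ :=
  N ^ (N + 1) * (N ^ 2) ^ (N ^ (N + 4)) * ((2 * (64 * N ^ 2) + 1) ^ 2 + 25 * N ^ 2)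

open Classical in
/-- upper bound for one moved piece (proved elsewhere) -/
def UpStmt (a b : ℝ) : Prop := ∀ (N K : ℕ) (ε : ℝ), 0 ≤ ε → ∀ (Q : Set ℂ), Q ⊆ Ann →
    ∀ (ψ : ℂ → ℝ), (∀ z, 0 ≤ ψ z) →
    (∀ (z : ℂ) (θ θ' : S),
      |(∑ j ∈ Finset.range N, (if rot (θ + j • (a : S)) z ∈ Q then 1 else 0 : ℝ)) -
        ∑ j ∈ Finset.range N, (if rot (θ' + j • (a : S)) z ∈ Q then 1 else 0 : ℝ)| ≤
        ε * N + ∑ j ∈ Finset.range N, ψ (rot (θ + j • (a : S)) z) ∧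
      |(∑ j ∈ Finset.range N, (if rot (θ + j • (b : S)) z ∈ Q then 1 else 0 : ℝ)) -
        ∑ j ∈ Finset.range N, (if rot (θ' + j • (b : S)) z ∈ Q then 1 else 0 : ℝ)| ≤
        ε * N + ∑ j ∈ Finset.range N, ψ (rot (θ + j • (b : S)) z)) →
    ∀ (Y Yc : Finset S) (σ : S → S) (w : S → ℤ × ℤ) (ρ' : S), Yc ⊆ Y → (∀ y ∈ Yc, σ y ∈ Y) →
    Set.InjOn σ Yc →
    (∀ y ∈ Yc, y + ρ' = σ y + ((w y).1 • (a : S) + (w y).2 • (b : S)) ∧ |(w y).1| ≤ K ∧ |(w y).2| ≤ K) →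
    N ^ 2 * (Y \ Yc).card ≤ Y.card →
    ∀ (r : ℕ) (m : Fin r → ℂ) (c' : ℂ) (dom : S → ℤ × ℤ → Finset (Fin r)) (τ : S → ℤ × ℤ → Fin r → Fin r),
    (∀ y ∈ Y, ∀ v ∈ (Finset.Ico (0 : ℤ) N) ×ˢ (Finset.Ico (0 : ℤ) N), Set.InjOn (τ y v) (dom y v) ∧
      ∀ n ∈ dom y v, m (τ y v n) = m n - rot (-(y + sh a b v)) c') →
    ∀ (z : ℂ),
    |∑ n, ∑ y ∈ Y, ∑ v ∈ (Finset.Ico (0 : ℤ) N) ×ˢ (Finset.Ico (0 : ℤ) N),
      ((if rot (y + sh a b v) (z + m n) ∈ Q then 1 else 0 : ℝ) -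
        (if rot ρ' (rot (y + sh a b v) (z + m n) - c') ∈ Q then 1 else 0))| ≤
    (∑ n, if z + m n ∈ Ann then
      (Y.card * (2 * K * ε * N + 2) +
        ∑ y ∈ Y, ((∑ v ∈ (Finset.Ico (-K : ℤ) K) ×ˢ (Finset.Ico (0 : ℤ) N), ψ (rot (y + sh a b v) (z + m n))) +
          ∑ v ∈ (Finset.Ico (-K : ℤ) (N + K)) ×ˢ (Finset.Ico (-K : ℤ) K), ψ (rot (y + sh a b v) (z + m n))))
      else 0) +
    ∑ y ∈ Y, ∑ v ∈ (Finset.Ico (0 : ℤ) N) ×ˢ (Finset.Ico (0 : ℤ) N),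
      ((∑ n ∈ (dom y v)ᶜ, (if z + m n - rot (-(y + sh a b v)) c' ∈ Ann then 1 else 0 : ℝ)) +
        ∑ n ∈ ((dom y v).image (τ y v))ᶜ, (if z + m n ∈ Ann then 1 else 0 : ℝ))

open Classical in
/-- row comparison on circles for bounded plane sets with null boundary (proved elsewhere) -/
def JordStmt (a b : ℝ) : Prop := ∀ (P : Set ℂ), Bornology.IsBounded P → volume (frontier P) = 0 →
    ∀ ε : ℝ, 0 < ε → ∃ (ψ : ℂ → ℝ) (N0 : ℕ), Continuous ψ ∧ HasCompactSupport ψ ∧ (∀ z, 0 ≤ ψ z) ∧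
      ∫ z, ψ z ≤ ε ∧ ∀ N : ℕ, N0 ≤ N → ∀ (z : ℂ) (θ θ' : S),
      |(∑ j ∈ Finset.range N, (if rot (θ + j • (a : S)) z ∈ P then 1 else 0 : ℝ)) -
        ∑ j ∈ Finset.range N, (if rot (θ' + j • (a : S)) z ∈ P then 1 else 0 : ℝ)| ≤
        ε * N + ∑ j ∈ Finset.range N, ψ (rot (θ + j • (a : S)) z) ∧
      |(∑ j ∈ Finset.range N, (if rot (θ + j • (b : S)) z ∈ P then 1 else 0 : ℝ)) -
        ∑ j ∈ Finset.range N, (if rot (θ' + j • (b : S)) z ∈ P then 1 else 0 : ℝ)| ≤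
        ε * N + ∑ j ∈ Finset.range N, ψ (rot (θ + j • (b : S)) z)

open Classical in
/-- weighted Folner sets in the plane (proved elsewhere) -/
def WeightStmt : Prop := ∀ (T : Finset ℂ) (X : ℕ), 1 ≤ X → ∃ (r : ℕ) (m : Fin r → ℂ), 1 ≤ r ∧
    r ≤ X ^ T.card ∧ ∀ d ∈ T, ∃ (dom : Finset (Fin r)) (τ : Fin r → Fin r), Set.InjOn τ dom ∧
      (∀ n ∈ dom, m (τ n) = m n + d) ∧ X * domᶜ.card ≤ r

end Geo
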