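import Pool.Agent.Helper183.Geo.Base

set_option autoImplicit false
namespace Geo
namespace C1
/-- directions -/
def dirs : Finset (ℤ × ℤ) := {(1, 0), (-1, 0), (0, 1), (0, -1)}

open Classical in
/-- boundary edges in a direction -/
noncomputable def pd (d : ℤ × ℤ) (F : Finset (ℤ × ℤ)) : ℕ := (F.filter (fun v => v + d ∉ F)).card

theorem per_eq (F : Finset (ℤ × ℤ)) :
    per F = pd (1, 0) F + pd (-1, 0) F + pd (0, 1) F + pd (0, -1) F := by
  classical
  unfold per pd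
  have e1 : ∀ v : ℤ × ℤ, v + (1, 0) = (v.1 + 1, v.2) := fun v => Prod.ext (by simp) (by simp)
  have e2 : ∀ v : ℤ × ℤ, v + (-1, 0) = (v.1 - 1, v.2) := fun v =>
    Prod.ext (by simp [sub_eq_add_neg]) (by simp)
  have e3 : ∀ v : ℤ × ℤ, v + (0, 1) = (v.1, v.2 + 1) := fun v => Prod.ext (by simp) (by simp)
  have e4 : ∀ v : ℤ × ℤ, v + (0, -1) = (v.1, v.2 - 1) := fun v =>
    Prod.ext (by simp) (by simp [sub_eq_add_neg])
  simp only [e1, e2, e3, e4]

theorem pd_split {d : ℤ × ℤ} {A B : Finset (ℤ × ℤ)} (hdisj : Disjoint A B)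
    (hAB : ∀ v ∈ A, v + d ∉ B) (hBA : ∀ v ∈ B, v + d ∉ A) : pd d (A ∪ B) = pd d A + pd d B := by
  classical
  unfold pd
  rw [Finset.filter_union, Finset.card_union_of_disjoint]
  · congr 2
    · apply Finset.filter_congr
      intro v hv
      rw [Finset.mem_union]
      have := hAB v hv
      tauto
    · apply Finset.filter_congr
      intro v hv
      rw [Finset.mem_union]
      have := hBA v hv
      tauto
  · exact Finset.disjoint_filter_filter hdisj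

theorem pd_fill {d : ℤ × ℤ} {F H : Finset (ℤ × ℤ)} (hdisj : Disjoint F H)
    (h1 : ∀ v ∈ H, v + d ∈ F ∪ H) (h2 : ∀ v ∈ H, v + -d ∈ F ∪ H) :
    pd d F = pd d (F ∪ H) + pd (-d) H := by
  classical
  unfold pd
  have e1 : (F ∪ H).filter (fun v => v + d ∉ F ∪ H) = F.filter (fun v => v + d ∉ F ∪ H) := by
    ext v
    rw [Finset.mem_filter, Finset.mem_filter, Finset.mem_union]
    constructor
    · rintro ⟨h3 | h3, h4⟩
      · exact ⟨h3, h4⟩
      · exact absurd (h1 v h3) h4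
    · rintro ⟨h3, h4⟩
      exact ⟨Or.inl h3, h4⟩
  have e2 : F.filter (fun v => v + d ∉ F) = F.filter (fun v => v + d ∉ F ∪ H) ∪
      F.filter (fun v => v + d ∈ H) := by
    ext v
    simp only [Finset.mem_filter, Finset.mem_union]
    constructor
    · rintro ⟨h3, h4⟩
      by_cases h5 : v + d ∈ H
      · exact Or.inr ⟨h3, h5⟩
      · exact Or.inl ⟨h3, by tauto⟩
    · rintro (⟨h3, h4⟩ | ⟨h3, h4⟩)
      · exact ⟨h3, by tauto⟩
      · exact ⟨h3, fun h5 => Finset.disjoint_left.1 hdisj h5 h4⟩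
  rw [e1, e2, Finset.card_union_of_disjoint]
  · congr 1
    apply Finset.card_nbij' (fun v => v + d) (fun v => v + -d)
    · intro v hv
      have hv := Finset.mem_filter.1 (Finset.mem_coe.1 hv)
      apply Finset.mem_coe.2
      rw [Finset.mem_filter]
      refine ⟨hv.2, ?_⟩
      rw [add_neg_cancel_right]
      exact fun h => Finset.disjoint_left.1 hdisj hv.1 h
    · intro v hv
      have hv := Finset.mem_filter.1 (Finset.mem_coe.1 hv)
      apply Finset.mem_coe.2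
      rw [Finset.mem_filter]
      have h3 := h2 v hv.1
      rw [Finset.mem_union] at h3
      refine ⟨by tauto, ?_⟩
      rw [neg_add_cancel_right]
      exact hv.1
    · intro v _; simp
    · intro v _; simp
  · rw [Finset.disjoint_left]
    intro v hv hv'
    rw [Finset.mem_filter] at hv hv'
    exact hv.2 (Finset.mem_union_right _ hv'.2)

/-- square -/
def InS (w : ℤ × ℤ) (r : ℤ) (p : ℤ × ℤ) : Prop :=
  w.1 - r ≤ p.1 ∧ p.1 ≤ w.1 + r ∧ w.2 - r ≤ p.2 ∧ p.2 ≤ w.2 + r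

/-- cycle -/
def Cyc (w : ℤ × ℤ) (r : ℤ) (p : ℤ × ℤ) : Prop := InS w r p ∧ ¬ InS w (r - 1) p

theorem mem_dirs {d : ℤ × ℤ} : d ∈ dirs ↔ d = (1, 0) ∨ d = (-1, 0) ∨ d = (0, 1) ∨ d = (0, -1) := by
  unfold dirs; simp

theorem cyc_of_exit {w : ℤ × ℤ} {r : ℤ} {p d : ℤ × ℤ} (hd : d ∈ dirs) (h1 : InS w r p)
    (h2 : ¬ InS w r (p + d)) : Cyc w r p := by
  refine ⟨h1, fun h3 => h2 ?_⟩
  rcases mem_dirs.1 hd with rfl | rfl | rfl | rfl <;>
    simp only [InS, Prod.fst_add, Prod.snd_add] at * <;> omega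

theorem in_of_inner {w : ℤ × ℤ} {r : ℤ} {p d : ℤ × ℤ} (hd : d ∈ dirs) (h1 : InS w r p)
    (h2 : ¬ Cyc w r p) : InS w r (p + d) := by
  by_contra h3
  exact h2 (cyc_of_exit hd h1 h3)

theorem neg_mem_dirs {d : ℤ × ℤ} (hd : d ∈ dirs) : -d ∈ dirs := by
  rcases mem_dirs.1 hd with rfl | rfl | rfl | rfl <;> rw [mem_dirs] <;> simp

theorem per_out {F : Finset (ℤ × ℤ)} {w : ℤ × ℤ} {r : ℤ} (h : ∀ p, Cyc w r p → p ∉ F)
    (A B : Finset (ℤ × ℤ)) (hA : ∀ p, p ∈ A ↔ p ∈ F ∧ InS w r p)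
    (hB : ∀ p, p ∈ B ↔ p ∈ F ∧ ¬ InS w r p) : per F = per A + per B := by
  have hF : F = A ∪ B := by
    ext p
    rw [Finset.mem_union, hA, hB]; tauto
  have hdisj : Disjoint A B := by
    rw [Finset.disjoint_left]
    intro p hp hp'
    exact ((hB p).1 hp').2 ((hA p).1 hp).2
  have key : ∀ d ∈ dirs, pd d F = pd d A + pd d B := by
    intro d hd
    rw [hF]
    apply pd_split hdisj
    · intro v hv hv'
      obtain ⟨h1, h2⟩ := (hA v).1 hv
      obtain ⟨h3, h4⟩ := (hB _).1 hv'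
      exact h v (cyc_of_exit hd h2 h4) h1
    · intro v hv hv'
      obtain ⟨h1, h2⟩ := (hB v).1 hv
      obtain ⟨h3, h4⟩ := (hA _).1 hv'
      have h5 : ¬ InS w r (v + d + -d) := by rwa [add_neg_cancel_right]
      exact h _ (cyc_of_exit (neg_mem_dirs hd) h4 h5) h3
  rw [per_eq, per_eq, per_eq, key (1, 0) (by simp [dirs]), key (-1, 0) (by simp [dirs]),
    key (0, 1) (by simp [dirs]), key (0, -1) (by simp [dirs])]
  omega

theorem per_in {F : Finset (ℤ × ℤ)} {w : ℤ × ℤ} {r : ℤ} (h : ∀ p, Cyc w r p → p ∈ F)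
    (H : Finset (ℤ × ℤ)) (hH : ∀ p, p ∈ H ↔ p ∉ F ∧ InS w r p) : per F = per (F ∪ H) + per H := by
  have hdisj : Disjoint F H := by
    rw [Finset.disjoint_left]
    intro p hp hp'
    exact ((hH p).1 hp').1 hp
  have hstep : ∀ d ∈ dirs, ∀ v ∈ H, v + d ∈ F ∪ H := by
    intro d hd v hv
    obtain ⟨h1, h2⟩ := (hH v).1 hv
    have h3 := in_of_inner hd h2 (fun hc => h1 (h v hc))
    rw [Finset.mem_union]
    by_cases h4 : v + d ∈ F
    · exact Or.inl h4
    · exact Or.inr ((hH _).2 ⟨h4, h3⟩)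
  have key : ∀ d ∈ dirs, pd d F = pd d (F ∪ H) + pd (-d) H := by
    intro d hd
    exact pd_fill hdisj (hstep d hd) (hstep (-d) (neg_mem_dirs hd))
  rw [per_eq F, per_eq (F ∪ H), per_eq H, key (1, 0) (by simp [dirs]),
    key (-1, 0) (by simp [dirs]), key (0, 1) (by simp [dirs]), key (0, -1) (by simp [dirs])]
  have n1 : -((1 : ℤ), (0 : ℤ)) = (-1, 0) := by simp
  have n2 : -((-1 : ℤ), (0 : ℤ)) = (1, 0) := by simp
  have n3 : -((0 : ℤ), (1 : ℤ)) = (0, -1) := by simp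
  have n4 : -((0 : ℤ), (-1 : ℤ)) = (0, 1) := by simp
  rw [n1, n2, n3, n4]
  omega

theorem per_pos {F : Finset (ℤ × ℤ)} (hF : F.Nonempty) : 0 < per F := by
  classical
  obtain ⟨v, hv, hmax⟩ := F.exists_max_image (fun p => p.1) hF
  have h1 : 0 < (F.filter (fun v => (v.1 + 1, v.2) ∉ F)).card := by
    rw [Finset.card_pos]
    refine ⟨v, Finset.mem_filter.2 ⟨hv, fun h => ?_⟩⟩
    have := hmax _ h
    simp only at this
    omega
  unfold per
  omega

/-- indecomposable sets -/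
def Irr (F : Finset (ℤ × ℤ)) : Prop := ∀ (w : ℤ × ℤ) (r : ℤ),
  ((∀ p, Cyc w r p → p ∉ F) → (∀ p ∈ F, ¬ InS w r p) ∨ (∀ p ∈ F, InS w r p)) ∧
  ((∀ p, Cyc w r p → p ∈ F) → ∀ p, InS w r p → p ∈ F)

theorem red_irr (g : ℤ × ℤ → ℤ) (C : ℤ)
    (h : ∀ F : Finset (ℤ × ℤ), Irr F → |∑ v ∈ F, g v| ≤ C * (per F : ℤ)) :
    ∀ F : Finset (ℤ × ℤ), |∑ v ∈ F, g v| ≤ C * (per F : ℤ) := by
  classical
  have main : ∀ n : ℕ, ∀ F : Finset (ℤ × ℤ), per F = n → |∑ v ∈ F, g v| ≤ C * (per F : ℤ) := by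
    intro n
    induction n using Nat.strong_induction_on with
    | _ n ih =>
      intro F hFn
      by_cases hirr : Irr F
      · exact h F hirr
      · unfold Irr at hirr
        push Not at hirr
        obtain ⟨w, r, hwr⟩ := hirr
        by_cases hout : (∀ p, Cyc w r p → p ∉ F) ∧ (∃ p ∈ F, InS w r p) ∧ ∃ p ∈ F, ¬ InS w r p
        · obtain ⟨h1, ⟨p, hp, hp'⟩, q, hq, hq'⟩ := hout
          have hA : ∀ x, x ∈ F.filter (InS w r) ↔ x ∈ F ∧ InS w r x := fun x => Finset.mem_filter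
          have hB : ∀ x, x ∈ F.filter (fun x => ¬ InS w r x) ↔ x ∈ F ∧ ¬ InS w r x :=
            fun x => Finset.mem_filter
          have hper := per_out h1 _ _ hA hB
          have hA0 := per_pos (F := F.filter (InS w r)) ⟨p, (hA p).2 ⟨hp, hp'⟩⟩
          have hB0 := per_pos (F := F.filter (fun x => ¬ InS w r x)) ⟨q, (hB q).2 ⟨hq, hq'⟩⟩
          have iA := ih _ (by omega) (F.filter (InS w r)) rfl
          have iB := ih _ (by omega) (F.filter (fun x => ¬ InS w r x)) rfl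
          rw [← Finset.sum_filter_add_sum_filter_not F (InS w r)]
          refine (abs_add_le _ _).trans ?_
          rw [hper]
          push_cast
          linarith
        · have hin : (∀ p, Cyc w r p → p ∈ F) ∧ ∃ p, InS w r p ∧ p ∉ F := by
            by_contra hcon
            apply hout
            by_cases h3 : (∀ p, Cyc w r p → p ∉ F) ∧
                ¬ ((∀ p ∈ F, ¬ InS w r p) ∨ (∀ p ∈ F, InS w r p))
            · obtain ⟨h4, h5⟩ := h3
              push Not at h5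
              exact ⟨h4, h5.1, h5.2⟩
            · exfalso
              apply hcon
              have h6 := hwr (by tauto)
              exact h6
          obtain ⟨h1, p, hp, hp'⟩ := hin
          set H : Finset (ℤ × ℤ) := (Finset.Icc (w.1 - r) (w.1 + r) ×ˢ
            Finset.Icc (w.2 - r) (w.2 + r)).filter (fun p => p ∉ F) with hHdef
          have hH : ∀ p, p ∈ H ↔ p ∉ F ∧ InS w r p := by
            intro p
            rw [hHdef, Finset.mem_filter, Finset.mem_product, Finset.mem_Icc, Finset.mem_Icc, InS]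
            tauto
          have hper := per_in h1 H hH
          have hHp : p ∈ H := (hH p).2 ⟨hp', hp⟩
          have hH0 := per_pos (F := H) ⟨p, hHp⟩
          have hU0 := per_pos (F := F ∪ H) ⟨p, Finset.mem_union_right _ hHp⟩
          have iA := ih _ (by omega) (F ∪ H) rfl
          have iB := ih _ (by omega) H rfl
          have hdisj : Disjoint F H := by
            rw [Finset.disjoint_left]
            intro p hp hp'
            exact ((hH p).1 hp').1 hp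
          rw [Finset.sum_union hdisj] at iA
          have e : ∑ v ∈ F, g v = (∑ v ∈ F, g v + ∑ v ∈ H, g v) - ∑ v ∈ H, g v := by ring
          rw [e, hper]
          refine (abs_sub _ _).trans ?_
          push_cast
          linarith
  exact fun F => main _ F rfl

open Classical in
theorem cols_le (F : Finset (ℤ × ℤ)) : (F.image Prod.fst).card ≤ per F := by
  have h1 : F.image Prod.fst ⊆ (F.filter (fun v => (v.1, v.2 + 1) ∉ F)).image Prod.fst := by
    intro x hx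
    obtain ⟨p, hp, rfl⟩ := Finset.mem_image.1 hx
    obtain ⟨q, hq, hmax⟩ := (F.filter (fun q => q.1 = p.1)).exists_max_image (fun q => q.2)
      ⟨p, Finset.mem_filter.2 ⟨hp, rfl⟩⟩
    obtain ⟨hq1, hq2⟩ := Finset.mem_filter.1 hq
    refine Finset.mem_image.2 ⟨q, Finset.mem_filter.2 ⟨hq1, fun h => ?_⟩, hq2⟩
    have := hmax _ (Finset.mem_filter.2 ⟨h, hq2⟩)
    simp only at this
    omega
  have h2 := (Finset.card_le_card h1).trans Finset.card_image_le
  unfold per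
  omega

open Classical in
theorem run_end (F : Finset (ℤ × ℤ)) (n : ℕ) (hn : per F < n) (v : ℤ × ℤ) (hv : v ∈ F) :
    ∃ b ∈ F.filter (fun v => (v.1 + 1, v.2) ∉ F), v.2 = b.2 ∧ b.1 - n + 1 ≤ v.1 ∧ v.1 < b.1 + 1 := by
  have hex : ∃ t : ℕ, (v.1 + t + 1, v.2) ∉ F := by
    obtain ⟨q, hq, hmax⟩ := F.exists_max_image (fun q => q.1) ⟨v, hv⟩
    have h1 := hmax v hv
    refine ⟨(q.1 - v.1).toNat, fun h => ?_⟩
    have h2 := hmax _ h
    simp only at h1 h2
    omega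
  set t := Nat.find hex with ht
  have ht1 : (v.1 + t + 1, v.2) ∉ F := Nat.find_spec hex
  have ht2 : ∀ j < t, (v.1 + j + 1, v.2) ∈ F := fun j hj => by
    have := Nat.find_min hex hj
    push Not at this
    exact this
  have hall : ∀ i ≤ t, (v.1 + (i : ℤ), v.2) ∈ F := by
    intro i hi
    rcases i with _ | j
    · simpa using hv
    · have := ht2 j (by omega)
      have e : v.1 + ((j + 1 : ℕ) : ℤ) = v.1 + j + 1 := by push_cast; ring
      rw [e]; exact this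
  have hcard : t + 1 ≤ (F.image Prod.fst).card := by
    have h1 : (Finset.range (t + 1)).image (fun i : ℕ => v.1 + (i : ℤ)) ⊆ F.image Prod.fst := by
      intro x hx
      obtain ⟨i, hi, rfl⟩ := Finset.mem_image.1 hx
      exact Finset.mem_image.2 ⟨_, hall i (Nat.lt_succ_iff.1 (Finset.mem_range.1 hi)), rfl⟩
    have h2 := Finset.card_le_card h1
    rw [Finset.card_image_of_injective _ (fun a b h => by
      have h' : v.1 + (a : ℤ) = v.1 + (b : ℤ) := h
      omega), Finset.card_range] at h2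
    exact h2
  have h3 := cols_le F
  refine ⟨(v.1 + t, v.2), Finset.mem_filter.2 ⟨hall t le_rfl, ht1⟩, rfl, ?_, ?_⟩
  · simp only; omega
  · simp only; omega

open Classical in
theorem run_bound (F : Finset (ℤ × ℤ)) (n : ℕ) (hn : per F < n) (h : ℤ × ℤ → ℤ)
    (h0 : ∀ v, 0 ≤ h v) (h12 : ∀ r a : ℤ, ∑ x ∈ Finset.Ico a (a + n), h (x, r) ≤ 12) :
    ∑ v ∈ F, h v ≤ 12 * (per F : ℤ) := by
  set RB := F.filter (fun v => (v.1 + 1, v.2) ∉ F) with hRB
  have h1 : ∑ v ∈ F, h v ≤ ∑ v ∈ F, ∑ b ∈ RB,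
      if v.2 = b.2 ∧ b.1 - n + 1 ≤ v.1 ∧ v.1 < b.1 + 1 then h v else 0 := by
    apply Finset.sum_le_sum
    intro v hv
    obtain ⟨b, hb, hb'⟩ := run_end F n hn v hv
    have h2 := Finset.single_le_sum (s := RB)
      (f := fun b => if v.2 = b.2 ∧ b.1 - n + 1 ≤ v.1 ∧ v.1 < b.1 + 1 then h v else 0)
      (fun b _ => by
        by_cases hc : v.2 = b.2 ∧ b.1 - n + 1 ≤ v.1 ∧ v.1 < b.1 + 1
        · simp only [if_pos hc]; exact h0 v
        · simp only [if_neg hc]; exact le_rfl) hb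
    simp only [if_pos hb'] at h2
    exact h2
  refine h1.trans ?_
  rw [Finset.sum_comm]
  have h3 : ∀ b ∈ RB, ∑ v ∈ F, (if v.2 = b.2 ∧ b.1 - n + 1 ≤ v.1 ∧ v.1 < b.1 + 1 then h v else 0)
      ≤ 12 := by
    intro b _
    refine le_trans ?_ (h12 b.2 (b.1 - n + 1))
    rw [← Finset.sum_filter]
    have h4 : ∑ x ∈ Finset.Ico (b.1 - n + 1) (b.1 - n + 1 + n), h (x, b.2) =
        ∑ p ∈ (Finset.Ico (b.1 - n + 1) (b.1 - n + 1 + n)).image (fun x => (x, b.2)), h p := by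
      rw [Finset.sum_image]
      intro x _ y _ hxy
      exact (Prod.mk.inj hxy).1
    rw [h4]
    apply Finset.sum_le_sum_of_subset_of_nonneg
    · intro v hv
      obtain ⟨_, h5, h6, h7⟩ := Finset.mem_filter.1 hv
      refine Finset.mem_image.2 ⟨v.1, Finset.mem_Ico.2 ⟨h6, by omega⟩, ?_⟩
      exact Prod.ext rfl h5.symm
    · intro v _ _
      exact h0 v
  refine (Finset.sum_le_sum h3).trans ?_
  rw [Finset.sum_const, nsmul_eq_mul]
  have h4 : RB.card ≤ per F := by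
    unfold per; rw [hRB]; omega
  have h5 : (RB.card : ℤ) ≤ (per F : ℤ) := by exact_mod_cast h4
  linarith

/-! pigeonhole -/

open Classical in
/-- boundary edges -/
noncomputable def BE (F : Finset (ℤ × ℤ)) : Finset ((ℤ × ℤ) × (ℤ × ℤ)) :=
  (F ×ˢ dirs).filter (fun q => q.1 + q.2 ∉ F)

theorem card_BE (F : Finset (ℤ × ℤ)) : (BE F).card = per F := by
  classical
  rw [per_eq]
  unfold BE
  rw [Finset.card_filter, Finset.sum_product_right]
  have e : ∀ d ∈ dirs, ∑ v ∈ F, (if ((v, d) : (ℤ × ℤ) × (ℤ × ℤ)).1 + (v, d).2 ∉ F then 1 else 0) =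
      pd d F := by
    intro d _
    unfold pd
    rw [Finset.card_filter]
  rw [Finset.sum_congr rfl e]
  simp [dirs, add_assoc]

/-- sup distance -/
def dst (p w : ℤ × ℤ) : ℤ := max |p.1 - w.1| |p.2 - w.2|

theorem dst_le {p w : ℤ × ℤ} {r : ℤ} : dst p w ≤ r ↔ InS w r p := by
  unfold dst InS
  rw [max_le_iff, abs_le, abs_le]
  constructor
  · rintro ⟨⟨h1, h2⟩, h3, h4⟩
    exact ⟨by omega, by omega, by omega, by omega⟩
  · rintro ⟨h1, h2, h3, h4⟩
    exact ⟨⟨by omega, by omega⟩, by omega, by omega⟩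

theorem dst_eq {p w : ℤ × ℤ} {r : ℤ} : Cyc w r p ↔ dst p w = r := by
  unfold Cyc
  rw [← dst_le, ← dst_le]
  omega

theorem InS_mono {w p : ℤ × ℤ} {r r' : ℤ} (h : r ≤ r') (hp : InS w r p) : InS w r' p := by
  unfold InS at *
  omega

theorem InS_step {w p d : ℤ × ℤ} {r : ℤ} (hd : d ∈ dirs) (hp : InS w r p) :
    InS w (r + 1) (p + d) := by
  rcases mem_dirs.1 hd with rfl | rfl | rfl | rfl <;>
    simp only [InS, Prod.fst_add, Prod.snd_add] at * <;> omega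

theorem seg_const (P : ℤ → Prop) (a b : ℤ) (h : ∀ x, a ≤ x → x < b → (P x ↔ P (x + 1))) :
    ∀ x, a ≤ x → x ≤ b → (P x ↔ P b) := by
  have main : ∀ n : ℕ, a ≤ b - n → (P (b - n) ↔ P b) := by
    intro n
    induction n with
    | zero => intro _; simp
    | succ n ih =>
      intro hn
      have h1 := h (b - ((n + 1 : ℕ) : ℤ)) hn (by omega)
      have e : b - ((n + 1 : ℕ) : ℤ) + 1 = b - (n : ℤ) := by push_cast; ring
      rw [e] at h1
      exact h1.trans (ih (by omega))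
  intro x h1 h2
  have h3 := main (b - x).toNat (by omega)
  have e : b - ((b - x).toNat : ℤ) = x := by omega
  rwa [e] at h3

theorem cyc_const {F : Finset (ℤ × ℤ)} {w : ℤ × ℤ} {r : ℤ} (hr : 0 ≤ r)
    (hcl : ∀ p, Cyc w r p → ∀ d ∈ dirs, (p ∈ F ↔ p + d ∈ F)) :
    ∀ p, Cyc w r p → (p ∈ F ↔ (w.1 + r, w.2 + r) ∈ F) := by
  have hx : ∀ x y : ℤ, Cyc w r (x, y) → ((x, y) ∈ F ↔ (x + 1, y) ∈ F) := by
    intro x y h
    have := hcl _ h (1, 0) (by simp [dirs])
    simpa using this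
  have hy : ∀ x y : ℤ, Cyc w r (x, y) → ((x, y) ∈ F ↔ (x, y + 1) ∈ F) := by
    intro x y h
    have := hcl _ h (0, 1) (by simp [dirs])
    simpa using this
  have top : ∀ x, w.1 - r ≤ x → x ≤ w.1 + r → ((x, w.2 + r) ∈ F ↔ (w.1 + r, w.2 + r) ∈ F) :=
    seg_const (fun x => (x, w.2 + r) ∈ F) _ _ fun x h1 h2 => hx x _ (by
      unfold Cyc InS; simp only; omega)
  have right : ∀ y, w.2 - r ≤ y → y ≤ w.2 + r → ((w.1 + r, y) ∈ F ↔ (w.1 + r, w.2 + r) ∈ F) :=
    seg_const (fun y => (w.1 + r, y) ∈ F) _ _ fun y h1 h2 => hy _ y (by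
      unfold Cyc InS; simp only; omega)
  have left : ∀ y, w.2 - r ≤ y → y ≤ w.2 + r → ((w.1 - r, y) ∈ F ↔ (w.1 - r, w.2 + r) ∈ F) :=
    seg_const (fun y => (w.1 - r, y) ∈ F) _ _ fun y h1 h2 => hy _ y (by
      unfold Cyc InS; simp only; omega)
  have bot : ∀ x, w.1 - r ≤ x → x ≤ w.1 + r → ((x, w.2 - r) ∈ F ↔ (w.1 + r, w.2 - r) ∈ F) :=
    seg_const (fun x => (x, w.2 - r) ∈ F) _ _ fun x h1 h2 => hx x _ (by
      unfold Cyc InS; simp only; omega)
  rintro ⟨x, y⟩ ⟨h1, h2⟩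
  unfold InS at h1 h2
  simp only at h1 h2
  have hcase : x = w.1 - r ∨ x = w.1 + r ∨ y = w.2 - r ∨ y = w.2 + r := by omega
  rcases hcase with rfl | rfl | rfl | rfl
  · exact (left y h1.2.2.1 h1.2.2.2).trans (top _ (by omega) (by omega))
  · exact right y h1.2.2.1 h1.2.2.2
  · exact (bot x h1.1 h1.2.1).trans (right _ (by omega) (by omega))
  · exact top x h1.1 h1.2.1

theorem dichotomy {F : Finset (ℤ × ℤ)} (hirr : Irr F) {N : ℕ} (hN : 1 ≤ N) {w : ℤ × ℤ}
    (h1 : ∃ p ∈ F, InS w (4 * N) p) (h2 : ∃ p, p ∉ F ∧ InS w (4 * N) p)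
    (B : Finset ((ℤ × ℤ) × (ℤ × ℤ))) (hB : ∀ q, q ∈ B ↔ q ∈ BE F ∧ InS w (16 * (N : ℤ) ^ 2) q.1) :
    6 * N ^ 2 ≤ B.card ∨ ∀ p ∈ F, InS w (16 * (N : ℤ) ^ 2) p := by
  classical
  by_contra hcon
  rw [not_or] at hcon
  obtain ⟨hc1, hc2⟩ := hcon
  set Sp : Finset ℤ := B.image (fun q => dst q.1 w) ∪ B.image (fun q => dst (q.1 + q.2) w) with hSp
  have hcard : Sp.card < (Finset.Ico (4 * (N : ℤ)) (16 * (N : ℤ) ^ 2)).card := by
    have h3 : Sp.card ≤ B.card + B.card :=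
      (Finset.card_union_le _ _).trans (add_le_add Finset.card_image_le Finset.card_image_le)
    rw [Int.card_Ico]
    have h4 : (N : ℤ) ≤ (N : ℤ) ^ 2 := by
      have : (1 : ℤ) ≤ N := by exact_mod_cast hN
      nlinarith
    have h5 : (B.card : ℤ) < 6 * (N : ℤ) ^ 2 := by
      have : B.card < 6 * N ^ 2 := not_le.1 hc1
      exact_mod_cast this
    have h6 : (Sp.card : ℤ) ≤ B.card + B.card := by exact_mod_cast h3
    omega
  obtain ⟨r, hr, hr'⟩ := Finset.exists_mem_notMem_of_card_lt_card hcard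
  rw [Finset.mem_Ico] at hr
  have hcl : ∀ p, Cyc w r p → ∀ d ∈ dirs, (p ∈ F ↔ p + d ∈ F) := by
    intro p hp d hd
    have hdst := dst_eq.1 hp
    constructor
    · intro h3
      by_contra h4
      apply hr'
      rw [hSp, Finset.mem_union]
      left
      refine Finset.mem_image.2 ⟨(p, d), (hB _).2 ⟨?_, ?_⟩, hdst⟩
      · unfold BE
        exact Finset.mem_filter.2 ⟨Finset.mem_product.2 ⟨h3, hd⟩, h4⟩
      · exact InS_mono (by omega) hp.1
    · intro h3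
      by_contra h4
      apply hr'
      rw [hSp, Finset.mem_union]
      right
      refine Finset.mem_image.2 ⟨(p + d, -d), (hB _).2 ⟨?_, ?_⟩, ?_⟩
      · unfold BE
        refine Finset.mem_filter.2 ⟨Finset.mem_product.2 ⟨h3, neg_mem_dirs hd⟩, ?_⟩
        simp only
        rwa [add_neg_cancel_right]
      · exact InS_mono (by omega) (InS_step hd hp.1)
      · simp only
        rw [add_neg_cancel_right]
        exact hdst
  have hconst := cyc_const (by omega) hcl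
  obtain ⟨p, hp, hp'⟩ := h1
  obtain ⟨q, hq, hq'⟩ := h2
  by_cases hcor : (w.1 + r, w.2 + r) ∈ F
  · exact hq ((hirr w r).2 (fun x hx => (hconst x hx).2 hcor) q (InS_mono hr.1 hq'))
  · rcases (hirr w r).1 (fun x hx h => hcor ((hconst x hx).1 h)) with h3 | h3
    · exact h3 p hp (InS_mono hr.1 hp')
    · exact hc2 fun x hx => InS_mono hr.2.le (h3 x hx)

open Classical in
theorem stage {F : Finset (ℤ × ℤ)} (hirr : Irr F) {N D : ℕ} (hN : 1 ≤ N) (hD1 : 2 * N ≤ D)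
    (hD2 : D < 3 * N) (Bs Sr : Set (ℤ × ℤ))
    (hsep : ∀ w ∈ Bs, ∀ w' ∈ Bs, |w.1 - w'.1| ≤ 64 * (N : ℤ) ^ 2 →
      |w.2 - w'.2| ≤ 64 * (N : ℤ) ^ 2 → w = w')
    (hsub : ∀ v ∈ Sr, ∃ w ∈ Bs, w.1 ≤ v.1 ∧ v.1 < w.1 + N ∧ w.2 ≤ v.2 ∧ v.2 < w.2 + N)
    (hsrc : ∀ r a : ℤ, ∑ x ∈ Finset.Ico a (a + N), (if ((x, r) : ℤ × ℤ) ∈ Sr then 1 else 0 : ℤ) ≤ 12) :
    ∃ W : ℕ, |∑ v ∈ F, ((if v ∈ Sr then 1 else 0 : ℤ) -
      (if ((v.1 - D, v.2) : ℤ × ℤ) ∈ Sr then 1 else 0))| ≤ 12 * (N : ℤ) * W ∧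
      (W ≤ 1 ∨ 6 * N ^ 2 * W ≤ per F) := by
  choose! b hb using hsub
  set A := F.filter (fun v => v ∈ Sr) with hA
  set A' := F.filter (fun v => ((v.1 - D, v.2) : ℤ × ℤ) ∈ Sr) with hA'
  set B := A'.image (fun v => ((v.1 - D, v.2) : ℤ × ℤ)) with hBdef
  have hBc : B.card = A'.card := by
    apply Finset.card_image_of_injective
    intro x y hxy
    have h1 := Prod.mk.inj hxy
    exact Prod.ext (by omega) h1.2
  have hAm : ∀ v, v ∈ A ↔ v ∈ F ∧ v ∈ Sr := fun v => Finset.mem_filter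
  have hBm : ∀ v, v ∈ B ↔ (v.1 + D, v.2) ∈ F ∧ v ∈ Sr := by
    intro v
    rw [hBdef, Finset.mem_image]
    constructor
    · rintro ⟨u, hu, rfl⟩
      obtain ⟨h1, h2⟩ := Finset.mem_filter.1 hu
      refine ⟨?_, h2⟩
      simp only [sub_add_cancel]
      exact h1
    · rintro ⟨h1, h2⟩
      refine ⟨(v.1 + D, v.2), Finset.mem_filter.2 ⟨h1, ?_⟩, ?_⟩
      · simp only [add_sub_cancel_right]; exact h2
      · simp only [add_sub_cancel_right]
  have hsum : ∑ v ∈ F, ((if v ∈ Sr then 1 else 0 : ℤ) -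
      (if ((v.1 - D, v.2) : ℤ × ℤ) ∈ Sr then 1 else 0)) = (A.card : ℤ) - B.card := by
    rw [Finset.sum_sub_distrib, ← Finset.sum_filter, ← Finset.sum_filter, hBc]
    simp [hA, hA']
  set T := (A \ B) ∪ (B \ A) with hT
  have hTm : ∀ v ∈ T, v ∈ Sr ∧ ((v ∈ F ∧ (v.1 + (D : ℤ), v.2) ∉ F) ∨
      (v ∉ F ∧ (v.1 + (D : ℤ), v.2) ∈ F)) := by
    intro v hv
    rw [hT, Finset.mem_union, Finset.mem_sdiff, Finset.mem_sdiff, hAm, hBm] at hv
    tauto
  have habs : |(A.card : ℤ) - B.card| ≤ T.card := by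
    have h1 := Finset.card_sdiff_add_card_inter A B
    have h2 := Finset.card_sdiff_add_card_inter B A
    rw [Finset.inter_comm B A] at h2
    have h3 : T.card = (A \ B).card + (B \ A).card := by
      rw [hT, Finset.card_union_of_disjoint]
      rw [Finset.disjoint_left]
      intro x hx hx'
      rw [Finset.mem_sdiff] at hx hx'
      exact hx.2 hx'.1
    rw [abs_le]
    constructor <;> omega
  set W := T.image b with hW
  have hfib : ∀ w ∈ W, (T.filter (fun v => b v = w)).card ≤ 12 * N := by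
    intro w _
    have h1 : T.filter (fun v => b v = w) ⊆
        (Finset.Ico w.1 (w.1 + N) ×ˢ Finset.Ico w.2 (w.2 + N)).filter (fun v => v ∈ Sr) := by
      intro v hv
      obtain ⟨h2, rfl⟩ := Finset.mem_filter.1 hv
      have h3 := (hTm v h2).1
      obtain ⟨h4, h5, h6, h7, h8⟩ := hb v h3
      exact Finset.mem_filter.2 ⟨Finset.mem_product.2 ⟨Finset.mem_Ico.2 ⟨h5, h6⟩,
        Finset.mem_Ico.2 ⟨h7, h8⟩⟩, h3⟩
    have h2 : (((Finset.Ico w.1 (w.1 + N) ×ˢ Finset.Ico w.2 (w.2 + N)).filter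
        (fun v => v ∈ Sr)).card : ℤ) ≤ 12 * N := by
      rw [Finset.card_filter, Finset.sum_product_right]
      push_cast
      refine (Finset.sum_le_sum fun y _ => hsrc y w.1).trans ?_
      rw [Finset.sum_const, Int.card_Ico, nsmul_eq_mul]
      have : (w.2 + (N : ℤ) - w.2).toNat = N := by omega
      rw [this]
      linarith
    have h3 := Finset.card_le_card h1
    have h4 : ((T.filter (fun v => b v = w)).card : ℤ) ≤ 12 * N := le_trans (by exact_mod_cast h3) h2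
    exact_mod_cast h4
  have hTW : T.card ≤ 12 * N * W.card := Finset.card_le_mul_card_image T (12 * N) hfib
  refine ⟨W.card, ?_, ?_⟩
  · rw [hsum]
    refine habs.trans ?_
    exact_mod_cast hTW
  · have hWprop : ∀ w ∈ W, w ∈ Bs ∧ (∃ p ∈ F, InS w (4 * N) p) ∧ ∃ p, p ∉ F ∧ InS w (4 * N) p := by
      intro w hw
      obtain ⟨v, hv, rfl⟩ := Finset.mem_image.1 hw
      obtain ⟨h1, h2⟩ := hTm v hv
      obtain ⟨h4, h5, h6, h7, h8⟩ := hb v h1
      have i1 : InS (b v) (4 * N) v := by unfold InS; omega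
      have i2 : InS (b v) (4 * N) (v.1 + (D : ℤ), v.2) := by unfold InS; simp only; omega
      refine ⟨h4, ?_⟩
      rcases h2 with ⟨h9, h10⟩ | ⟨h9, h10⟩
      · exact ⟨⟨_, h9, i1⟩, ⟨_, h10, i2⟩⟩
      · exact ⟨⟨_, h10, i2⟩, ⟨_, h9, i1⟩⟩
    have hN2 : (N : ℤ) ≤ (N : ℤ) ^ 2 := by
      have : (1 : ℤ) ≤ N := by exact_mod_cast hN
      nlinarith
    by_cases hex : ∃ w0 ∈ W, ∀ p ∈ F, InS w0 (16 * (N : ℤ) ^ 2) p
    · left
      obtain ⟨w0, hw0, hw0'⟩ := hex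
      apply Finset.card_le_one_iff.2
      have huniq : ∀ w ∈ W, w = w0 := by
        intro w hw
        obtain ⟨h1, ⟨p, hp, hp'⟩, -⟩ := hWprop w hw
        have h2 := hw0' p hp
        unfold InS at h2 hp'
        apply hsep w h1 w0 (hWprop w0 hw0).1
        · rw [abs_le]; omega
        · rw [abs_le]; omega
      intro x y hx hy
      rw [huniq x hx, huniq y hy]
    · right
      have hall : ∀ w ∈ W, 6 * N ^ 2 ≤ ((BE F).filter (fun q => InS w (16 * (N : ℤ) ^ 2) q.1)).card := by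
        intro w hw
        obtain ⟨-, h1, h2⟩ := hWprop w hw
        rcases dichotomy hirr hN h1 h2 ((BE F).filter (fun q => InS w (16 * (N : ℤ) ^ 2) q.1))
          (fun q => Finset.mem_filter) with h3 | h3
        · exact h3
        · exact absurd ⟨w, hw, h3⟩ hex
      have h1 : (W.biUnion fun w => (BE F).filter (fun q => InS w (16 * (N : ℤ) ^ 2) q.1)).card =
          ∑ w ∈ W, ((BE F).filter (fun q => InS w (16 * (N : ℤ) ^ 2) q.1)).card := by
        apply Finset.card_biUnion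
        intro w hw w' hw' hne
        rw [Function.onFun, Finset.disjoint_left]
        intro q hq hq'
        apply hne
        have h2 := (Finset.mem_filter.1 hq).2
        have h3 := (Finset.mem_filter.1 hq').2
        unfold InS at h2 h3
        apply hsep w (hWprop w hw).1 w' (hWprop w' hw').1
        · rw [abs_le]; omega
        · rw [abs_le]; omega
      have h2 : (W.biUnion fun w => (BE F).filter (fun q => InS w (16 * (N : ℤ) ^ 2) q.1)).card ≤
          per F := by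
        rw [← card_BE]
        apply Finset.card_le_card
        intro q hq
        obtain ⟨w, _, hq⟩ := Finset.mem_biUnion.1 hq
        exact (Finset.mem_filter.1 hq).1
      rw [h1] at h2
      refine le_trans ?_ h2
      have h3 := Finset.card_nsmul_le_sum W _ _ hall
      rw [smul_eq_mul] at h3
      rw [mul_comm]
      exact h3

theorem geom1 (N : ℕ → ℕ) (hN : ∀ k, 4 * N k ≤ N (k + 1)) (n : ℕ) :
    3 * ∑ k ∈ Finset.range n, N k ≤ N n := by
  induction n with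
  | zero => simp
  | succ n ih =>
    rw [Finset.sum_range_succ, mul_add]
    have := hN n
    omega

theorem geom2 (N : ℕ → ℕ) (hN0 : 1 ≤ N 0) (hN : ∀ k, 4 * N k ≤ N (k + 1)) (n : ℕ) :
    4 ^ n ≤ N n := by
  induction n with
  | zero => simpa using hN0
  | succ n ih =>
    rw [pow_succ]
    have := hN n
    omega

theorem geom3 (n : ℕ) : ∑ k ∈ Finset.range n, ((1 : ℝ) / 4) ^ k ≤ 4 / 3 := by
  have h1 : ∀ n : ℕ, ∑ k ∈ Finset.range n, ((1 : ℝ) / 4) ^ k = 4 / 3 - 4 / 3 * (1 / 4) ^ n := by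
    intro n
    induction n with
    | zero => simp
    | succ n ih => rw [Finset.sum_range_succ, ih, pow_succ]; ring
  rw [h1]
  have : (0 : ℝ) ≤ 4 / 3 * (1 / 4) ^ n := by positivity
  linarith

open Classical in
/-- Multi-scale sources and sinks, isolated at every scale, satisfy the cut condition. -/
theorem cut_bound (K : ℕ) (N D : ℕ → ℕ) (hN0 : 1 ≤ N 0) (hN : ∀ k, 4 * N k ≤ N (k + 1))
    (hD : ∀ k, 2 * N k ≤ D k ∧ D k < 3 * N k)
    (Bs Sr : ℕ → Set (ℤ × ℤ))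
    (hsep : ∀ k, ∀ w ∈ Bs k, ∀ w' ∈ Bs k, |w.1 - w'.1| ≤ 64 * (N k : ℤ) ^ 2 →
      |w.2 - w'.2| ≤ 64 * (N k : ℤ) ^ 2 → w = w')
    (hsub : ∀ k, ∀ v ∈ Sr k, ∃ w ∈ Bs k, w.1 ≤ v.1 ∧ v.1 < w.1 + N k ∧ w.2 ≤ v.2 ∧ v.2 < w.2 + N k)
    (hsrc : ∀ k : ℕ, ∀ r a : ℤ, ∑ x ∈ Finset.Ico a (a + N k), ∑ j ∈ Finset.Ico k K,
      (if ((x, r) : ℤ × ℤ) ∈ Sr j then 1 else 0 : ℤ) ≤ 12)
    (hsnk : ∀ k : ℕ, ∀ r a : ℤ, ∑ x ∈ Finset.Ico a (a + N k), ∑ j ∈ Finset.Ico k K,
      (if ((x - D j, r) : ℤ × ℤ) ∈ Sr j then 1 else 0 : ℤ) ≤ 12)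
    (F : Finset (ℤ × ℤ)) :
    |∑ v ∈ F, ∑ k ∈ Finset.range K,
      ((if v ∈ Sr k then 1 else 0 : ℤ) - (if ((v.1 - D k, v.2) : ℤ × ℤ) ∈ Sr k then 1 else 0))| ≤
      100 * (per F : ℤ) := by
  revert F
  apply red_irr
  intro F hirr
  set m := per F with hm
  have hex : ∃ k, K ≤ k ∨ m < N k := ⟨K, Or.inl le_rfl⟩
  set k0 := Nat.find hex with hk0
  have hk0spec : K ≤ k0 ∨ m < N k0 := Nat.find_spec hex
  have hk0K : k0 ≤ K := Nat.find_min' hex (Or.inl le_rfl)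
  have hk0lt : ∀ k < k0, k < K ∧ N k ≤ m := by
    intro k hk
    have := Nat.find_min hex hk
    push Not at this
    exact this
  have hN1 : ∀ k, 1 ≤ N k := fun k => (Nat.one_le_pow _ _ (by norm_num)).trans (geom2 N hN0 hN k)
  -- split the sum
  have hsplit : ∑ v ∈ F, ∑ k ∈ Finset.range K,
      ((if v ∈ Sr k then 1 else 0 : ℤ) - (if ((v.1 - D k, v.2) : ℤ × ℤ) ∈ Sr k then 1 else 0)) =
      (∑ k ∈ Finset.range k0, ∑ v ∈ F, ((if v ∈ Sr k then 1 else 0 : ℤ) -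
        (if ((v.1 - D k, v.2) : ℤ × ℤ) ∈ Sr k then 1 else 0))) +
      ((∑ v ∈ F, ∑ k ∈ Finset.Ico k0 K, (if v ∈ Sr k then 1 else 0 : ℤ)) -
        ∑ v ∈ F, ∑ k ∈ Finset.Ico k0 K,
          (if ((v.1 - D k, v.2) : ℤ × ℤ) ∈ Sr k then 1 else 0 : ℤ)) := by
    rw [Finset.sum_comm (s := Finset.range k0), ← Finset.sum_sub_distrib, ← Finset.sum_add_distrib]
    apply Finset.sum_congr rfl
    intro v _
    rw [← Finset.sum_sub_distrib, Finset.sum_range_add_sum_Ico _ hk0K]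
  rw [hsplit]
  have hnn1 : ∀ v : ℤ × ℤ, 0 ≤ ∑ k ∈ Finset.Ico k0 K, (if v ∈ Sr k then 1 else 0 : ℤ) :=
    fun v => Finset.sum_nonneg fun k _ => by split_ifs <;> norm_num
  have hnn2 : ∀ v : ℤ × ℤ, 0 ≤ ∑ k ∈ Finset.Ico k0 K,
      (if ((v.1 - D k, v.2) : ℤ × ℤ) ∈ Sr k then 1 else 0 : ℤ) :=
    fun v => Finset.sum_nonneg fun k _ => by split_ifs <;> norm_num
  have hbig1 : ∑ v ∈ F, ∑ k ∈ Finset.Ico k0 K, (if v ∈ Sr k then 1 else 0 : ℤ) ≤ 12 * (m : ℤ) := by
    rcases hk0spec with h | h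
    · have : k0 = K := le_antisymm hk0K h
      rw [this]
      simp
    · exact run_bound F (N k0) h (fun v => ∑ k ∈ Finset.Ico k0 K, (if v ∈ Sr k then 1 else 0 : ℤ))
        hnn1 (hsrc k0)
  have hbig2 : ∑ v ∈ F, ∑ k ∈ Finset.Ico k0 K,
      (if ((v.1 - D k, v.2) : ℤ × ℤ) ∈ Sr k then 1 else 0 : ℤ) ≤ 12 * (m : ℤ) := by
    rcases hk0spec with h | h
    · have : k0 = K := le_antisymm hk0K h
      rw [this]
      simp
    · exact run_bound F (N k0) h (fun v => ∑ k ∈ Finset.Ico k0 K,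
        (if ((v.1 - D k, v.2) : ℤ × ℤ) ∈ Sr k then 1 else 0 : ℤ)) hnn2 (hsnk k0)
  have hb1 : 0 ≤ ∑ v ∈ F, ∑ k ∈ Finset.Ico k0 K, (if v ∈ Sr k then 1 else 0 : ℤ) :=
    Finset.sum_nonneg fun v _ => hnn1 v
  have hb2 : 0 ≤ ∑ v ∈ F, ∑ k ∈ Finset.Ico k0 K,
      (if ((v.1 - D k, v.2) : ℤ × ℤ) ∈ Sr k then 1 else 0 : ℤ) :=
    Finset.sum_nonneg fun v _ => hnn2 v
  -- small stages
  have hstage : ∀ k ∈ Finset.range k0, ((|∑ v ∈ F, ((if v ∈ Sr k then 1 else 0 : ℤ) -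
      (if ((v.1 - D k, v.2) : ℤ × ℤ) ∈ Sr k then 1 else 0))| : ℤ) : ℝ) ≤
      12 * (N k : ℝ) + 2 * (m : ℝ) * (1 / 4) ^ k := by
    intro k hk
    obtain ⟨hkK, hkm⟩ := hk0lt k (Finset.mem_range.1 hk)
    obtain ⟨W, hW1, hW2⟩ := stage hirr (hN1 k) (hD k).1 (hD k).2 (Bs k) (Sr k) (hsep k) (hsub k) (by
      intro r a
      refine le_trans ?_ (hsrc k r a)
      apply Finset.sum_le_sum
      intro x _
      exact Finset.single_le_sum (s := Finset.Ico k K)
        (f := fun j => (if ((x, r) : ℤ × ℤ) ∈ Sr j then 1 else 0 : ℤ))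
        (fun j _ => by split_ifs <;> norm_num) (Finset.mem_Ico.2 ⟨le_rfl, hkK⟩))
    have hW1' : ((|∑ v ∈ F, ((if v ∈ Sr k then 1 else 0 : ℤ) -
      (if ((v.1 - D k, v.2) : ℤ × ℤ) ∈ Sr k then 1 else 0))| : ℤ) : ℝ) ≤ 12 * (N k : ℝ) * W := by
      have : ((|∑ v ∈ F, ((if v ∈ Sr k then 1 else 0 : ℤ) -
      (if ((v.1 - D k, v.2) : ℤ × ℤ) ∈ Sr k then 1 else 0))| : ℤ) : ℝ) ≤
        ((12 * (N k : ℤ) * W : ℤ) : ℝ) := Int.cast_le.2 hW1
      refine this.trans (le_of_eq ?_)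
      push_cast
      ring
    refine hW1'.trans ?_
    have hNk : (1 : ℝ) ≤ N k := by exact_mod_cast hN1 k
    rcases hW2 with h | h
    · have h2 : (W : ℝ) ≤ 1 := by exact_mod_cast h
      have h3 : (0 : ℝ) ≤ 2 * (m : ℝ) * (1 / 4) ^ k := by positivity
      nlinarith
    · have h2 : 6 * (N k : ℝ) ^ 2 * W ≤ m := by exact_mod_cast h
      have h4 : (4 : ℝ) ^ k ≤ N k := by exact_mod_cast geom2 N hN0 hN k
      have h5 : 12 * (N k : ℝ) * W ≤ 2 * (m : ℝ) * (1 / 4) ^ k := by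
        have h6 : (N k : ℝ) * (12 * (N k : ℝ) * W) ≤ 2 * m := by nlinarith
        have h7 : (0 : ℝ) ≤ 12 * (N k : ℝ) * W := by positivity
        have h8 : (4 : ℝ) ^ k * (12 * (N k : ℝ) * W) ≤ 2 * m :=
          (mul_le_mul_of_nonneg_right h4 h7).trans h6
        have h9 : (0 : ℝ) < 4 ^ k := by positivity
        rw [one_div, inv_pow, ← div_eq_mul_inv, le_div_iff₀ h9, mul_comm]
        exact h8
      have h6 : (0 : ℝ) ≤ 12 * (N k : ℝ) := by positivity
      linarith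
  have hsmall : ((|∑ k ∈ Finset.range k0, ∑ v ∈ F, ((if v ∈ Sr k then 1 else 0 : ℤ) -
        (if ((v.1 - D k, v.2) : ℤ × ℤ) ∈ Sr k then 1 else 0))| : ℤ) : ℝ) ≤ 20 * (m : ℝ) := by
    have h1 : ((|∑ k ∈ Finset.range k0, ∑ v ∈ F, ((if v ∈ Sr k then 1 else 0 : ℤ) -
        (if ((v.1 - D k, v.2) : ℤ × ℤ) ∈ Sr k then 1 else 0))| : ℤ) : ℝ) ≤
        ((∑ k ∈ Finset.range k0, |∑ v ∈ F, ((if v ∈ Sr k then 1 else 0 : ℤ) -
        (if ((v.1 - D k, v.2) : ℤ × ℤ) ∈ Sr k then 1 else 0))| : ℤ) : ℝ) :=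
      Int.cast_le.2 (Finset.abs_sum_le_sum_abs _ _)
    refine h1.trans ?_
    rw [Int.cast_sum]
    refine (Finset.sum_le_sum hstage).trans ?_
    rw [Finset.sum_add_distrib, ← Finset.mul_sum, ← Finset.mul_sum]
    have h2 : ∑ k ∈ Finset.range k0, (N k : ℝ) ≤ 4 / 3 * m := by
      rcases Nat.eq_zero_or_pos k0 with h | h
      · rw [h]; simp
      · obtain ⟨n, hn⟩ : ∃ n, k0 = n + 1 := ⟨k0 - 1, by omega⟩
        have h3 := geom1 N hN n
        have h4 := (hk0lt n (by omega)).2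
        rw [hn, Finset.sum_range_succ]
        have h5 : 3 * ∑ k ∈ Finset.range n, (N k : ℝ) ≤ N n := by exact_mod_cast h3
        have h6 : (N n : ℝ) ≤ m := by exact_mod_cast h4
        linarith
    have h3 := geom3 k0
    have hm0 : (0 : ℝ) ≤ m := by positivity
    nlinarith
  have hsmall' : |∑ k ∈ Finset.range k0, ∑ v ∈ F, ((if v ∈ Sr k then 1 else 0 : ℤ) -
        (if ((v.1 - D k, v.2) : ℤ × ℤ) ∈ Sr k then 1 else 0))| ≤ 20 * (m : ℤ) := by
    exact_mod_cast hsmall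
  refine (abs_add_le _ _).trans ?_
  have h3 : |(∑ v ∈ F, ∑ k ∈ Finset.Ico k0 K, (if v ∈ Sr k then 1 else 0 : ℤ)) -
        ∑ v ∈ F, ∑ k ∈ Finset.Ico k0 K,
          (if ((v.1 - D k, v.2) : ℤ × ℤ) ∈ Sr k then 1 else 0 : ℤ)| ≤ 12 * (m : ℤ) := by
    rw [abs_le]
    constructor <;> linarith
  linarith
end C1
end Geo

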