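import Pool.Agent.Helper183.Geo.Base

set_option autoImplicit false
open MeasureTheory Set
namespace Geo
namespace C10

theorem bl_circ {s t : ℝ} (h0 : 0 < s - t) (h1 : s - t < 1) : (s : S) ≠ (t : S) := by
  intro h
  have h2 : ((s - t : ℝ) : S) = 0 := by
    rw [AddCircle.coe_sub, h, sub_self]
  rw [AddCircle.coe_eq_zero_iff] at h2
  obtain ⟨n, hn⟩ := h2
  rw [zsmul_eq_mul, mul_one] at hn
  rw [← hn] at h0 h1
  have h3 : (0 : ℤ) < n := by exact_mod_cast h0
  have h4 : n < (1 : ℤ) := by exact_mod_cast h1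
  omega

theorem bl_N_mono {N : ℕ → ℕ} (hN : ∀ k, 4 * N k ≤ N (k + 1)) {i j : ℕ} (h : i ≤ j) :
    N i ≤ N j := by
  induction j, h using Nat.le_induction with
  | base => exact le_rfl
  | succ j _ ih => have := hN j; omega

theorem bl_N_four {N : ℕ → ℕ} (hN : ∀ k, 4 * N k ≤ N (k + 1)) {i j : ℕ} (h : i < j) :
    4 * N i ≤ N j := le_trans (hN i) (bl_N_mono hN h)

theorem bl_sh_add (a b : ℝ) (u v : ℤ × ℤ) : sh a b (u + v) = sh a b u + sh a b v := by
  unfold sh
  rw [Prod.fst_add, Prod.snd_add, add_smul, add_smul]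
  abel

theorem bl_pt {X : Type*} (P M : ℕ → Set X) (I A B : Set X)
    (hdis : ∀ i j y, i < j → y ∈ P i → y ∉ P j)
    (hIP : ∀ k x, x ∈ P k → x ∉ I) (hIM : ∀ k x, x ∈ M k → x ∉ I)
    (hA : A = I ∪ ⋃ k, P k) (hB : B = I ∪ ⋃ k, M k) (k : ℕ) (y : X)
    [Decidable (y ∈ A)] [Decidable (y ∈ B)] [∀ j, Decidable (y ∈ P j)] [∀ j, Decidable (y ∈ M j)]
    [Decidable (∃ j, k < j ∧ y ∈ M j)] :
    ∑ j ∈ Finset.range k, ((if y ∈ P j then 1 else 0 : ℝ) - (if y ∈ M j then 1 else 0)) +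
      ((if y ∈ P k then 1 else 0 : ℝ) - (if y ∈ M k then 1 else 0)) -
      (if ∃ j, k < j ∧ y ∈ M j then 1 else 0 : ℝ) ≤
      (if y ∈ A then 1 else 0 : ℝ) - (if y ∈ B then 1 else 0) := by
  classical
  rw [← Finset.sum_range_succ, Finset.sum_sub_distrib]
  have h1 : ∑ j ∈ Finset.range (k + 1), (if y ∈ P j then 1 else 0 : ℝ) ≤
      (if ∃ j, y ∈ P j then 1 else 0 : ℝ) := by
    by_cases h : ∃ j, y ∈ P j
    · obtain ⟨j0, hj0⟩ := h
      rw [if_pos ⟨j0, hj0⟩]
      calc ∑ j ∈ Finset.range (k + 1), (if y ∈ P j then 1 else 0 : ℝ)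
          ≤ ∑ j ∈ Finset.range (k + 1), (if j = j0 then 1 else 0 : ℝ) := by
            apply Finset.sum_le_sum
            intro j _
            by_cases hj : j = j0
            · rw [if_pos hj]
              split_ifs <;> norm_num
            · rw [if_neg hj, if_neg]
              intro hyj
              rcases lt_or_gt_of_ne hj with h | h
              · exact hdis j j0 y h hyj hj0
              · exact hdis j0 j y h hj0 hyj
        _ ≤ 1 := by
            rw [Finset.sum_ite_eq']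
            split_ifs <;> norm_num
    · rw [if_neg h]
      apply le_of_eq
      apply Finset.sum_eq_zero
      intro j _
      rw [if_neg (fun hj => h ⟨j, hj⟩)]
  have h2 : (if ∃ j, y ∈ M j then 1 else 0 : ℝ) ≤
      ∑ j ∈ Finset.range (k + 1), (if y ∈ M j then 1 else 0 : ℝ) +
      (if ∃ j, k < j ∧ y ∈ M j then 1 else 0 : ℝ) := by
    have hnn : 0 ≤ ∑ j ∈ Finset.range (k + 1), (if y ∈ M j then 1 else 0 : ℝ) := by
      apply Finset.sum_nonneg
      intro j _
      split_ifs <;> norm_num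
    have hnn2 : (0 : ℝ) ≤ (if ∃ j, k < j ∧ y ∈ M j then 1 else 0 : ℝ) := by
      split_ifs <;> norm_num
    by_cases h : ∃ j, y ∈ M j
    · obtain ⟨j0, hj0⟩ := h
      rw [if_pos (⟨j0, hj0⟩ : ∃ j, y ∈ M j)]
      by_cases hk : k < j0
      · rw [if_pos (⟨j0, hk, hj0⟩ : ∃ j, k < j ∧ y ∈ M j)]
        linarith
      · have h3 : (if y ∈ M j0 then 1 else 0 : ℝ) ≤
            ∑ j ∈ Finset.range (k + 1), (if y ∈ M j then 1 else 0 : ℝ) := by
          apply Finset.single_le_sum (f := fun j => (if y ∈ M j then 1 else 0 : ℝ))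
          · intro j _
            split_ifs <;> norm_num
          · rw [Finset.mem_range]
            omega
        rw [if_pos hj0] at h3
        linarith
    · rw [if_neg h]
      linarith
  have h3 : (if y ∈ A then 1 else 0 : ℝ) =
      (if y ∈ I then 1 else 0 : ℝ) + (if ∃ j, y ∈ P j then 1 else 0 : ℝ) := by
    have hAy : y ∈ A ↔ y ∈ I ∨ ∃ j, y ∈ P j := by
      rw [hA, mem_union, mem_iUnion]
    by_cases hI : y ∈ I
    · rw [if_pos (hAy.2 (Or.inl hI)), if_pos hI, if_neg, add_zero]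
      rintro ⟨j, hj⟩
      exact hIP j y hj hI
    · rw [if_neg hI, zero_add]
      by_cases h : ∃ j, y ∈ P j
      · rw [if_pos h, if_pos (hAy.2 (Or.inr h))]
      · rw [if_neg h, if_neg]
        intro h'
        rcases hAy.1 h' with h'' | h''
        · exact hI h''
        · exact h h''
  have h4 : (if y ∈ B then 1 else 0 : ℝ) =
      (if y ∈ I then 1 else 0 : ℝ) + (if ∃ j, y ∈ M j then 1 else 0 : ℝ) := by
    have hAy : y ∈ B ↔ y ∈ I ∨ ∃ j, y ∈ M j := by
      rw [hB, mem_union, mem_iUnion]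
    by_cases hI : y ∈ I
    · rw [if_pos (hAy.2 (Or.inl hI)), if_pos hI, if_neg, add_zero]
      rintro ⟨j, hj⟩
      exact hIM j y hj hI
    · rw [if_neg hI, zero_add]
      by_cases h : ∃ j, y ∈ M j
      · rw [if_pos h, if_pos (hAy.2 (Or.inr h))]
      · rw [if_neg h, if_neg]
        intro h'
        rcases hAy.1 h' with h'' | h''
        · exact hI h''
        · exact h h''
  rw [h3, h4]
  linarith

open Classical in
/-- Lower bound of the discrepancy on an active / inactive box. -/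
theorem box_lower (a b : ℝ) (hfree : Free a b)
    {X : Type*} (act : ℤ × ℤ → X → X) (act0 : ∀ x, act 0 x = x)
    (actadd : ∀ u v x, act (u + v) x = act u (act v x))
    (arg : X → S) (harg : ∀ v x, arg (act v x) = arg x + sh a b v)
    (N D : ℕ → ℕ) (hN0 : 100 ≤ N 0) (hN : ∀ k, 4 * N k ≤ N (k + 1))
    (hNhit : ∀ k, Hit a (N k))
    (hD : ∀ k, 2 * N k ≤ D k ∧ D k < 3 * N k)
    (p0 q0 : ℝ)
    (hDq : ∀ k, ∃ t : ℝ, 0 ≤ t ∧ t ≤ 3 / N k ∧ (D k) • (a : S) = ((q0 - p0 + t : ℝ) : S))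
    (Bs P0 P : ℕ → Set X)
    (hiso : ∀ k, ∀ x ∈ Bs k, ∀ v, le v (64 * (N k : ℤ) ^ 2) → v ≠ 0 → act v x ∉ Bs k)
    (hP0 : ∀ k x, x ∈ P0 k ↔ arg x ∈ arcO (p0 + 3 / N k) (3 / N k) ∧
      ∃ v, inBox v (N k) ∧ act (-v) x ∈ Bs k)
    (hsub : ∀ k, P0 k ⊆ P k)
    (harc : ∀ k, ∀ x ∈ P k, arg x ∈ arcC (p0 + 3 / N k) (3 / N k))
    (I : Set X) (hIP : ∀ k x, x ∈ P k → x ∉ I)
    (hIM : ∀ k x, act (-((D k : ℤ), 0)) x ∈ P k → x ∉ I)
    (hsmall : ∀ k v, le v (2 * (N k : ℤ)) → v ≠ 0 → ∀ (x : S) (c : ℝ),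
      x ∈ arcC c (9 / N (k + 1)) → x + sh a b v ∉ arcC c (9 / N (k + 1)))
    (A B : Set X) (hA : A = I ∪ ⋃ k, P k) (hB : B = I ∪ ⋃ k, {x | act (-((D k : ℤ), 0)) x ∈ P k})
    (k : ℕ) (x : X) :
    (x ∈ Bs k → (∀ v, act v x ∈ P k → act v x ∈ P0 k) →
      (N k : ℝ) - (∑ j ∈ Finset.range k,
        |∑ v ∈ (Finset.Ico (0 : ℤ) (N k)) ×ˢ (Finset.Ico (0 : ℤ) (N k)),
          ((if act v x ∈ P j then 1 else 0 : ℝ) - (if act (v - ((D j : ℤ), 0)) x ∈ P j then 1 else 0))|) - 1 ≤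
      ∑ v ∈ (Finset.Ico (0 : ℤ) (N k)) ×ˢ (Finset.Ico (0 : ℤ) (N k)),
        ((if act v x ∈ A then 1 else 0 : ℝ) - (if act v x ∈ B then 1 else 0))) ∧
    ((∀ v, inBox v (N k) → act v x ∉ P k ∧ act (v - ((D k : ℤ), 0)) x ∉ P k) →
      - (∑ j ∈ Finset.range k,
        |∑ v ∈ (Finset.Ico (0 : ℤ) (N k)) ×ˢ (Finset.Ico (0 : ℤ) (N k)),
          ((if act v x ∈ P j then 1 else 0 : ℝ) - (if act (v - ((D j : ℤ), 0)) x ∈ P j then 1 else 0))|) - 1 ≤
      ∑ v ∈ (Finset.Ico (0 : ℤ) (N k)) ×ˢ (Finset.Ico (0 : ℤ) (N k)),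
        ((if act v x ∈ A then 1 else 0 : ℝ) - (if act v x ∈ B then 1 else 0))) := by
  have hNbig : ∀ j, 100 ≤ N j := fun j => le_trans hN0 (bl_N_mono hN (Nat.zero_le j))
  have hNpos : ∀ j, (100 : ℝ) ≤ N j := fun j => by exact_mod_cast hNbig j
  have hinv : ∀ j, (N j : ℝ)⁻¹ ≤ 1 / 100 := fun j => by
    rw [← one_div]
    exact one_div_le_one_div_of_le (by norm_num) (hNpos j)
  have hinvpos : ∀ j, (0 : ℝ) < (N j : ℝ)⁻¹ := fun j => by
    have := hNpos j
    positivity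
  have hdiv : ∀ (c : ℝ) (j : ℕ), c / N j = c * (N j : ℝ)⁻¹ := fun c j => div_eq_mul_inv _ _
  have hinv4 : ∀ i j, i < j → (N j : ℝ)⁻¹ ≤ (N i : ℝ)⁻¹ / 4 := by
    intro i j hij
    have h1 : (4 : ℝ) * N i ≤ N j := by exact_mod_cast bl_N_four hN hij
    have h2 := hNpos i
    calc (N j : ℝ)⁻¹ ≤ (4 * N i : ℝ)⁻¹ := by
          rw [← one_div, ← one_div]
          exact one_div_le_one_div_of_le (by positivity) h1
      _ = (N i : ℝ)⁻¹ / 4 := by
          rw [mul_inv]
          ring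
  have hdis : ∀ i j y, i < j → y ∈ P i → y ∉ P j := by
    intro i j y hij hi hj
    obtain ⟨s, hs, hsy⟩ := harc i y hi
    obtain ⟨t, ht, hty⟩ := harc j y hj
    simp only [mem_Icc, hdiv] at hs ht
    have h1 := hinv4 i j hij
    have h2 := hinv i
    have h3 := hinvpos i
    have h4 := hinvpos j
    refine bl_circ (s := s) (t := t) ?_ ?_ (hsy.trans hty.symm)
    · linarith [hs.1, ht.2]
    · linarith [hs.2, ht.1]
  have hMarc : ∀ j y, act (-((D j : ℤ), 0)) y ∈ P j →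
      ∃ u : ℝ, 3 / N j ≤ u ∧ u ≤ 9 / N j ∧ arg y = ((q0 + u : ℝ) : S) := by
    intro j y hy
    obtain ⟨s, hs, hsy⟩ := harc j _ hy
    obtain ⟨t, ht0, ht1, ht⟩ := hDq j
    rw [harg] at hsy
    have h1 : sh a b (-((D j : ℤ), 0)) = -((D j) • (a : S)) := by
      unfold sh
      simp
    rw [h1, ht] at hsy
    refine ⟨s - p0 + t, ?_, ?_, ?_⟩
    · simp only [mem_Icc, hdiv] at hs ⊢
      linarith [hs.1]
    · simp only [mem_Icc, hdiv] at hs ht1 ⊢
      linarith [hs.2]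
    · have h2 : arg y = (s : S) + ((q0 - p0 + t : ℝ) : S) := by
        have h3 : (s : S) = arg y + -((q0 - p0 + t : ℝ) : S) := hsy
        rw [h3]
        abel
      rw [h2, ← AddCircle.coe_add]
      congr 1
      ring
  have hMarc2 : ∀ j y, k < j → act (-((D j : ℤ), 0)) y ∈ P j → arg y ∈ arcC q0 (9 / N (k + 1)) := by
    intro j y hkj hy
    obtain ⟨u, hu1, hu2, hu⟩ := hMarc j y hy
    refine ⟨q0 + u, ?_, hu.symm⟩
    have h1 : (N (k + 1) : ℝ) ≤ N j := by exact_mod_cast bl_N_mono hN hkj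
    have h2 := hNpos (k + 1)
    have h3 : (9 : ℝ) / N j ≤ 9 / N (k + 1) :=
      div_le_div_of_nonneg_left (by norm_num) (by linarith) h1
    have h4 : (0 : ℝ) ≤ 3 / N j := by
      have := hNpos j
      positivity
    rw [mem_Icc]
    constructor <;> linarith
  have hactsub : ∀ (v : ℤ × ℤ) (j : ℕ), act (v - ((D j : ℤ), 0)) x =
      act (-((D j : ℤ), 0)) (act v x) := by
    intro v j
    rw [← actadd]
    congr 1
    abel
  have hone : ∑ v ∈ (Finset.Ico (0 : ℤ) (N k)) ×ˢ (Finset.Ico (0 : ℤ) (N k)),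
      (if ∃ j, k < j ∧ act (-((D j : ℤ), 0)) (act v x) ∈ P j then 1 else 0 : ℝ) ≤ 1 := by
    rw [Finset.sum_boole]
    have h1 : (((Finset.Ico (0 : ℤ) (N k)) ×ˢ (Finset.Ico (0 : ℤ) (N k))).filter
      (fun v => ∃ j, k < j ∧ act (-((D j : ℤ), 0)) (act v x) ∈ P j)).card ≤ 1 := by
      rw [Finset.card_le_one]
      intro v hv v' hv'
      rw [Finset.mem_filter, Finset.mem_product, Finset.mem_Ico, Finset.mem_Ico] at hv hv'
      by_contra hne
      obtain ⟨⟨⟨a1, a2⟩, a3, a4⟩, j, hkj, hj⟩ := hv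
      obtain ⟨⟨⟨b1, b2⟩, b3, b4⟩, j', hkj', hj'⟩ := hv'
      have e1 := hMarc2 j _ hkj hj
      have e2 := hMarc2 j' _ hkj' hj'
      have hle : le (v' - v) (2 * (N k : ℤ)) := by
        unfold le
        rw [Prod.fst_sub, Prod.snd_sub, abs_le, abs_le]
        refine ⟨⟨?_, ?_⟩, ?_, ?_⟩ <;> omega
      have h3 := hsmall k (v' - v) hle (sub_ne_zero.2 (Ne.symm hne)) (arg (act v x)) q0 e1
      apply h3
      have h4 : arg (act v x) + sh a b (v' - v) = arg (act v' x) := by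
        rw [harg, harg, add_assoc, ← bl_sh_add]
        congr 2
        abel
      rw [h4]
      exact e2
    exact_mod_cast h1
  -- common bound
  have hcommon : -(∑ j ∈ Finset.range k,
        |∑ v ∈ (Finset.Ico (0 : ℤ) (N k)) ×ˢ (Finset.Ico (0 : ℤ) (N k)),
          ((if act v x ∈ P j then 1 else 0 : ℝ) - (if act (v - ((D j : ℤ), 0)) x ∈ P j then 1 else 0))|) +
      ∑ v ∈ (Finset.Ico (0 : ℤ) (N k)) ×ˢ (Finset.Ico (0 : ℤ) (N k)),
        ((if act v x ∈ P k then 1 else 0 : ℝ) - (if act (v - ((D k : ℤ), 0)) x ∈ P k then 1 else 0)) - 1 ≤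
      ∑ v ∈ (Finset.Ico (0 : ℤ) (N k)) ×ˢ (Finset.Ico (0 : ℤ) (N k)),
        ((if act v x ∈ A then 1 else 0 : ℝ) - (if act v x ∈ B then 1 else 0)) := by
    have h1 : ∑ v ∈ (Finset.Ico (0 : ℤ) (N k)) ×ˢ (Finset.Ico (0 : ℤ) (N k)),
        (∑ j ∈ Finset.range k, ((if act v x ∈ P j then 1 else 0 : ℝ) -
            (if act (v - ((D j : ℤ), 0)) x ∈ P j then 1 else 0)) +
          ((if act v x ∈ P k then 1 else 0 : ℝ) - (if act (v - ((D k : ℤ), 0)) x ∈ P k then 1 else 0)) -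
          (if ∃ j, k < j ∧ act (-((D j : ℤ), 0)) (act v x) ∈ P j then 1 else 0 : ℝ)) ≤
        ∑ v ∈ (Finset.Ico (0 : ℤ) (N k)) ×ˢ (Finset.Ico (0 : ℤ) (N k)),
        ((if act v x ∈ A then 1 else 0 : ℝ) - (if act v x ∈ B then 1 else 0)) := by
      apply Finset.sum_le_sum
      intro v _
      have h2 := bl_pt P (fun j => {x | act (-((D j : ℤ), 0)) x ∈ P j}) I A B hdis hIP hIM hA hB k
        (act v x)
      simp only [hactsub]
      exact h2
    rw [Finset.sum_sub_distrib, Finset.sum_add_distrib, Finset.sum_comm] at h1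
    have h3 : -(∑ j ∈ Finset.range k,
        |∑ v ∈ (Finset.Ico (0 : ℤ) (N k)) ×ˢ (Finset.Ico (0 : ℤ) (N k)),
          ((if act v x ∈ P j then 1 else 0 : ℝ) - (if act (v - ((D j : ℤ), 0)) x ∈ P j then 1 else 0))|) ≤
        ∑ j ∈ Finset.range k,
        ∑ v ∈ (Finset.Ico (0 : ℤ) (N k)) ×ˢ (Finset.Ico (0 : ℤ) (N k)),
          ((if act v x ∈ P j then 1 else 0 : ℝ) - (if act (v - ((D j : ℤ), 0)) x ∈ P j then 1 else 0)) := by
      rw [← Finset.sum_neg_distrib]
      apply Finset.sum_le_sum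
      intro j _
      exact neg_abs_le _
    linarith
  constructor
  · intro hx hxP
    have hM0 : ∑ v ∈ (Finset.Ico (0 : ℤ) (N k)) ×ˢ (Finset.Ico (0 : ℤ) (N k)),
        (if act (v - ((D k : ℤ), 0)) x ∈ P k then 1 else 0 : ℝ) = 0 := by
      apply Finset.sum_eq_zero
      intro v hv
      rw [Finset.mem_product, Finset.mem_Ico, Finset.mem_Ico] at hv
      rw [if_neg]
      intro hvP
      obtain ⟨-, u, hu, hub⟩ := (hP0 k _).1 (hxP _ hvP)
      rw [← actadd] at hub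
      obtain ⟨⟨a1, a2⟩, a3, a4⟩ := hv
      obtain ⟨b1, b2, b3, b4⟩ := hu
      have hDk := hD k
      have hNk := hNbig k
      have hsq : (N k : ℤ) ≤ (N k : ℤ) ^ 2 := by nlinarith
      have hw1 : (-u + (v - ((D k : ℤ), 0))).1 = -u.1 + (v.1 - D k) := by simp
      have hw2 : (-u + (v - ((D k : ℤ), 0))).2 = -u.2 + v.2 := by simp
      refine hiso k x hx (-u + (v - ((D k : ℤ), 0))) ?_ ?_ hub
      · unfold le
        rw [hw1, hw2, abs_le, abs_le]
        refine ⟨⟨?_, ?_⟩, ?_, ?_⟩ <;> omega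
      · intro h0
        have := congrArg Prod.fst h0
        rw [hw1] at this
        simp only [Prod.fst_zero] at this
        omega
    have hP1 : (N k : ℝ) ≤ ∑ v ∈ (Finset.Ico (0 : ℤ) (N k)) ×ˢ (Finset.Ico (0 : ℤ) (N k)),
        (if act v x ∈ P k then 1 else 0 : ℝ) := by
      rw [Finset.sum_product_right]
      have h1 : ∀ r ∈ Finset.Ico (0 : ℤ) (N k), (1 : ℝ) ≤
          ∑ j ∈ Finset.Ico (0 : ℤ) (N k), (if act (j, r) x ∈ P k then 1 else 0 : ℝ) := by
        intro r hr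
        rw [Finset.mem_Ico] at hr
        obtain ⟨-, hhit, -, -⟩ := hNhit k
        have hl1 : (3 : ℝ) / N k ≤ 1 := by
          have := hinv k
          rw [hdiv]
          linarith
        have hl2 : (3 : ℝ) ≤ N k * (3 / N k) := by
          have := hNpos k
          have h0 : (N k : ℝ) ≠ 0 := by positivity
          field_simp
          exact le_rfl
        obtain ⟨j, hj, hjarc⟩ := hhit (arg x + r • (b : S)) (p0 + 3 / N k) (3 / N k) hl1 hl2
        have hmem : act ((j : ℤ), r) x ∈ P k := by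
          apply hsub
          rw [hP0]
          constructor
          · rw [harg]
            have : arg x + sh a b ((j : ℤ), r) = arg x + r • (b : S) + j • (a : S) := by
              unfold sh
              simp only [natCast_zsmul]
              abel
            rw [this]
            exact hjarc
          · refine ⟨((j : ℤ), r), ⟨by simp, by simpa using hj, hr.1, hr.2⟩, ?_⟩
            rw [← actadd, neg_add_cancel, act0]
            exact hx
        have h2 : (if act ((j : ℤ), r) x ∈ P k then 1 else 0 : ℝ) ≤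
            ∑ j ∈ Finset.Ico (0 : ℤ) (N k), (if act (j, r) x ∈ P k then 1 else 0 : ℝ) := by
          apply Finset.single_le_sum
            (f := fun j : ℤ => (if act (j, r) x ∈ P k then 1 else 0 : ℝ))
          · intro i _
            split_ifs <;> norm_num
          · rw [Finset.mem_Ico]
            constructor <;> omega
        rw [if_pos hmem] at h2
        exact h2
      calc (N k : ℝ) = ∑ r ∈ Finset.Ico (0 : ℤ) (N k), (1 : ℝ) := by
            rw [Finset.sum_const, Int.card_Ico]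
            simp
        _ ≤ _ := Finset.sum_le_sum h1
    rw [Finset.sum_sub_distrib (s := (Finset.Ico (0 : ℤ) (N k)) ×ˢ (Finset.Ico (0 : ℤ) (N k)))
      (f := fun v => (if act v x ∈ P k then 1 else 0 : ℝ)), hM0] at hcommon
    linarith
  · intro hin
    have h0 : ∑ v ∈ (Finset.Ico (0 : ℤ) (N k)) ×ˢ (Finset.Ico (0 : ℤ) (N k)),
        ((if act v x ∈ P k then 1 else 0 : ℝ) - (if act (v - ((D k : ℤ), 0)) x ∈ P k then 1 else 0)) = 0 := by
      apply Finset.sum_eq_zero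
      intro v hv
      rw [Finset.mem_product, Finset.mem_Ico, Finset.mem_Ico] at hv
      have h1 := hin v ⟨hv.1.1, hv.1.2, hv.2.1, hv.2.2⟩
      rw [if_neg h1.1, if_neg h1.2, sub_zero]
    rw [h0] at hcommon
    linarith

end C10
end Geo

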