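import Pool.Agent.Helper183.Geo.Base

set_option autoImplicit false
open MeasureTheory Set
namespace Geo
namespace C11

theorem Ico_succ' (t : ℤ) (n : ℕ) :
    Finset.Ico t (t + ((n + 1 : ℕ) : ℤ)) = insert (t + n) (Finset.Ico t (t + n)) := by
  ext x
  simp only [Finset.mem_insert, Finset.mem_Ico]
  push_cast
  omega

theorem sum_Ico_succ' (g : ℤ → ℝ) (t : ℤ) (n : ℕ) :
    ∑ i ∈ Finset.Ico t (t + ((n + 1 : ℕ) : ℤ)), g i = ∑ i ∈ Finset.Ico t (t + n), g i + g (t + n) := by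
  rw [Ico_succ', Finset.sum_insert (by simp), add_comm]

theorem sum_shift (g : ℤ → ℝ) (t : ℤ) (n : ℕ) :
    ∑ i ∈ Finset.Ico t (t + n), g i = ∑ k ∈ Finset.range n, g (t + k) := by
  induction n with
  | zero => simp
  | succ n ih => rw [sum_Ico_succ', ih, Finset.sum_range_succ]

theorem tele {f e : ℤ → ℝ} {c : ℝ} (h : ∀ t, |f (t + 1) - f t| ≤ c + e t) (a : ℤ) (n : ℕ) :
    |f (a + n) - f a| ≤ n * c + ∑ t ∈ Finset.Ico a (a + n), e t := by
  induction n with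
  | zero => simp
  | succ n ih =>
    rw [sum_Ico_succ']
    have h1 := h (a + n)
    have h2 : f (a + ((n + 1 : ℕ) : ℤ)) - f a = (f (a + n + 1) - f (a + n)) + (f (a + n) - f a) := by
      push_cast
      rw [← add_assoc]
      ring
    rw [h2]
    refine (abs_add_le _ _).trans ?_
    push_cast
    linarith

theorem tele' {f e : ℤ → ℝ} {c : ℝ} (hc : 0 ≤ c) (he : ∀ t, 0 ≤ e t)
    (h : ∀ t, |f (t + 1) - f t| ≤ c + e t) (K : ℕ) (w : ℤ) (hw : |w| ≤ K) :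
    |f w - f 0| ≤ K * c + ∑ t ∈ Finset.Ico (-K : ℤ) K, e t := by
  have hsum : ∀ a b : ℤ, -(K : ℤ) ≤ a → b ≤ K → ∑ t ∈ Finset.Ico a b, e t ≤
      ∑ t ∈ Finset.Ico (-K : ℤ) K, e t := by
    intro a b ha hb
    refine Finset.sum_le_sum_of_subset_of_nonneg ?_ fun t _ _ => he t
    exact Finset.Ico_subset_Ico ha hb
  obtain ⟨hw1, hw2⟩ := abs_le.1 hw
  rcases le_total 0 w with h0 | h0
  · obtain ⟨n, rfl⟩ := Int.eq_ofNat_of_zero_le h0
    have h1 := tele h 0 n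
    rw [zero_add] at h1
    have h2 : (n : ℝ) ≤ K := by exact_mod_cast hw2
    have h3 := hsum 0 n (by omega) hw2
    have h4 := mul_le_mul_of_nonneg_right h2 hc
    linarith
  · obtain ⟨n, hn⟩ := Int.eq_ofNat_of_zero_le (show 0 ≤ -w by omega)
    have h1 := tele h w n
    have hwn : w + n = 0 := by omega
    rw [hwn, abs_sub_comm] at h1
    have h2 : (n : ℝ) ≤ K := by
      have : (n : ℤ) ≤ K := by omega
      exact_mod_cast this
    have h3 := hsum w 0 hw1 (by omega)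
    have h4 := mul_le_mul_of_nonneg_right h2 hc
    linarith

/-- the count in a box -/
noncomputable def cnt (G : ℤ → ℤ → ℝ) (N : ℕ) (t u : ℤ) : ℝ :=
  ∑ i ∈ Finset.Ico t (t + N), ∑ j ∈ Finset.Ico u (u + N), G i j

theorem cnt_bound (G P : ℤ → ℤ → ℝ) (N K : ℕ) (ε : ℝ) (hε : 0 ≤ ε) (hP : ∀ i j, 0 ≤ P i j)
    (hra : ∀ i i' j j' : ℤ, |∑ x ∈ Finset.Ico i (i + N), G x j - ∑ x ∈ Finset.Ico i' (i' + N), G x j'|
      ≤ ε * N + ∑ x ∈ Finset.Ico i (i + N), P x j)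
    (hrb : ∀ i i' j j' : ℤ, |∑ x ∈ Finset.Ico j (j + N), G i x - ∑ x ∈ Finset.Ico j' (j' + N), G i' x|
      ≤ ε * N + ∑ x ∈ Finset.Ico j (j + N), P i x)
    (w u : ℤ) (hw : |w| ≤ K) (hu : |u| ≤ K) :
    |cnt G N w u - cnt G N 0 0| ≤ 2 * K * ε * N +
      (∑ i ∈ Finset.Ico (-K : ℤ) K, ∑ j ∈ Finset.Ico (0 : ℤ) N, P i j +
       ∑ i ∈ Finset.Ico (-K : ℤ) (N + K), ∑ j ∈ Finset.Ico (-K : ℤ) K, P i j) := by
  have hεN : 0 ≤ ε * N := by positivity
  have hsh : ∀ (g : ℤ → ℝ) (t : ℤ), ∑ i ∈ Finset.Ico (t + 1) (t + 1 + N), g i -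
      ∑ i ∈ Finset.Ico t (t + N), g i = g (t + N) - g t := by
    intro g t
    have h1 := sum_Ico_succ' g t N
    have h2 : ∑ i ∈ Finset.Ico t (t + ((N + 1 : ℕ) : ℤ)), g i =
        g t + ∑ i ∈ Finset.Ico (t + 1) (t + 1 + N), g i := by
      have : Finset.Ico t (t + ((N + 1 : ℕ) : ℤ)) = insert t (Finset.Ico (t + 1) (t + 1 + N)) := by
        ext x
        simp only [Finset.mem_insert, Finset.mem_Ico]
        push_cast
        omega
      rw [this, Finset.sum_insert (by simp)]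
    linarith
  -- first step
  have s1 : |cnt G N w 0 - cnt G N 0 0| ≤ K * (ε * N) +
      ∑ i ∈ Finset.Ico (-K : ℤ) K, ∑ j ∈ Finset.Ico (0 : ℤ) N, P i j := by
    refine tele' (f := fun t => cnt G N t 0) (e := fun i => ∑ j ∈ Finset.Ico (0 : ℤ) N, P i j) hεN
      (fun t => Finset.sum_nonneg fun j _ => hP _ _) ?_ K w hw
    intro t
    dsimp only [cnt]
    rw [hsh (fun i => ∑ j ∈ Finset.Ico (0 : ℤ) (0 + N), G i j) t, abs_sub_comm]
    have := hrb t (t + N) 0 0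
    rw [zero_add] at this ⊢
    exact this
  -- second step
  have s2 : |cnt G N w u - cnt G N w 0| ≤ K * (ε * N) +
      ∑ j ∈ Finset.Ico (-K : ℤ) K, ∑ i ∈ Finset.Ico (-K : ℤ) (N + K), P i j := by
    refine tele' (f := fun t => cnt G N w t)
      (e := fun j => ∑ i ∈ Finset.Ico (-K : ℤ) (N + K), P i j) hεN
      (fun t => Finset.sum_nonneg fun j _ => hP _ _) ?_ K u hu
    intro t
    have hc : ∀ t, cnt G N w t = ∑ j ∈ Finset.Ico t (t + N), ∑ i ∈ Finset.Ico w (w + N), G i j :=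
      fun t => Finset.sum_comm
    rw [hc, hc, hsh (fun j => ∑ i ∈ Finset.Ico w (w + N), G i j) t, abs_sub_comm]
    refine (hra w w t (t + N)).trans ?_
    have : ∑ x ∈ Finset.Ico w (w + N), P x t ≤ ∑ i ∈ Finset.Ico (-K : ℤ) (N + K), P i t := by
      refine Finset.sum_le_sum_of_subset_of_nonneg ?_ fun i _ _ => hP _ _
      obtain ⟨h1, h2⟩ := abs_le.1 hw
      exact Finset.Ico_subset_Ico h1 (by omega)
    linarith
  rw [Finset.sum_comm] at s2
  have h3 : cnt G N w u - cnt G N 0 0 = (cnt G N w u - cnt G N w 0) +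
      (cnt G N w 0 - cnt G N 0 0) := by ring
  rw [h3]
  refine (abs_add_le _ _).trans ?_
  linarith

open Classical in
/-- Near invariance of box unions `Y + [0,N)^2` for functions with almost constant row sums. -/
theorem shift_bound (a b : ℝ) (h ψ : S → ℝ) (h0 : ∀ x, 0 ≤ h x) (h1 : ∀ x, h x ≤ 1) (hψ : ∀ x, 0 ≤ ψ x)
    (N K : ℕ) (ε : ℝ) (hε : 0 ≤ ε)
    (hra : ∀ p q : S, |(∑ j ∈ Finset.range N, h (p + j • (a : S))) -
      ∑ j ∈ Finset.range N, h (q + j • (a : S))| ≤ ε * N + ∑ j ∈ Finset.range N, ψ (p + j • (a : S)))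
    (hrb : ∀ p q : S, |(∑ j ∈ Finset.range N, h (p + j • (b : S))) -
      ∑ j ∈ Finset.range N, h (q + j • (b : S))| ≤ ε * N + ∑ j ∈ Finset.range N, ψ (p + j • (b : S)))
    (Y Yc : Finset S) (σ : S → S) (w : S → ℤ × ℤ) (c : S) (hsub : Yc ⊆ Y) (hσ : ∀ y ∈ Yc, σ y ∈ Y)
    (hinj : Set.InjOn σ Yc)
    (hw : ∀ y ∈ Yc, y + c = σ y + ((w y).1 • (a : S) + (w y).2 • (b : S)) ∧ |(w y).1| ≤ K ∧ |(w y).2| ≤ K)
    (hexit : N ^ 2 * (Y \ Yc).card ≤ Y.card) :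
    |∑ y ∈ Y, ∑ v ∈ (Finset.Ico (0 : ℤ) N) ×ˢ (Finset.Ico (0 : ℤ) N),
      (h (y + sh a b v + c) - h (y + sh a b v))| ≤
    Y.card * (2 * K * ε * N + 2) +
      ∑ y ∈ Y, ((∑ v ∈ (Finset.Ico (-K : ℤ) K) ×ˢ (Finset.Ico (0 : ℤ) N), ψ (y + sh a b v)) +
        ∑ v ∈ (Finset.Ico (-K : ℤ) (N + K)) ×ˢ (Finset.Ico (-K : ℤ) K), ψ (y + sh a b v)) := by
  set G : S → ℤ → ℤ → ℝ := fun y i j => h (y + sh a b (i, j)) with hG
  set P : S → ℤ → ℤ → ℝ := fun y i j => ψ (y + sh a b (i, j)) with hPdef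
  set A : S → ℝ := fun y => ∑ v ∈ (Finset.Ico (0 : ℤ) N) ×ˢ (Finset.Ico (0 : ℤ) N),
    h (y + sh a b v + c) with hA
  set Bf : S → ℝ := fun y => ∑ v ∈ (Finset.Ico (0 : ℤ) N) ×ˢ (Finset.Ico (0 : ℤ) N),
    h (y + sh a b v) with hBf
  set Er : S → ℝ := fun y =>
    ((∑ v ∈ (Finset.Ico (-K : ℤ) K) ×ˢ (Finset.Ico (0 : ℤ) N), ψ (y + sh a b v)) +
        ∑ v ∈ (Finset.Ico (-K : ℤ) (N + K)) ×ˢ (Finset.Ico (-K : ℤ) K), ψ (y + sh a b v)) with hEr
  have hEr0 : ∀ y, 0 ≤ Er y := fun y =>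
    add_nonneg (Finset.sum_nonneg fun v _ => hψ _) (Finset.sum_nonneg fun v _ => hψ _)
  have hcard : ((Finset.Ico (0 : ℤ) N) ×ˢ (Finset.Ico (0 : ℤ) N)).card = N ^ 2 := by
    rw [Finset.card_product, Int.card_Ico]
    simp [sq]
  have hA0 : ∀ y, 0 ≤ A y := fun y => Finset.sum_nonneg fun v _ => h0 _
  have hB0 : ∀ y, 0 ≤ Bf y := fun y => Finset.sum_nonneg fun v _ => h0 _
  have hA1 : ∀ y, A y ≤ (N : ℝ) ^ 2 := by
    intro y
    calc A y ≤ ∑ v ∈ (Finset.Ico (0 : ℤ) N) ×ˢ (Finset.Ico (0 : ℤ) N), (1 : ℝ) :=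
          Finset.sum_le_sum fun v _ => h1 _
      _ = (N : ℝ) ^ 2 := by rw [Finset.sum_const, hcard]; simp
  have hB1 : ∀ y, Bf y ≤ (N : ℝ) ^ 2 := by
    intro y
    calc Bf y ≤ ∑ v ∈ (Finset.Ico (0 : ℤ) N) ×ˢ (Finset.Ico (0 : ℤ) N), (1 : ℝ) :=
          Finset.sum_le_sum fun v _ => h1 _
      _ = (N : ℝ) ^ 2 := by rw [Finset.sum_const, hcard]; simp
  -- the main estimate
  have main : ∀ y ∈ Yc, |A y - Bf (σ y)| ≤ 2 * K * ε * N + Er (σ y) := by
    intro y hy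
    obtain ⟨e1, e2, e3⟩ := hw y hy
    have hAc : A y = cnt (G (σ y)) N (w y).1 (w y).2 := by
      simp only [hA, cnt, hG]
      rw [Finset.sum_product]
      rw [sum_shift (fun i => ∑ j ∈ Finset.Ico (w y).2 ((w y).2 + N), h (σ y + sh a b (i, j)))]
      have e4 := sum_shift (fun i => ∑ j ∈ Finset.Ico (0 : ℤ) N, h (y + sh a b (i, j) + c)) 0 N
      rw [zero_add] at e4
      rw [e4]
      refine Finset.sum_congr rfl fun i _ => ?_
      rw [sum_shift (fun j => h (σ y + sh a b ((w y).1 + i, j)))]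
      have e5 := sum_shift (fun j => h (y + sh a b (0 + i, j) + c)) 0 N
      rw [zero_add] at e5
      rw [e5]
      refine Finset.sum_congr rfl fun j _ => ?_
      congr 1
      have e6 : y + sh a b (0 + i, 0 + j) + c = (y + c) + sh a b (0 + i, 0 + j) := by abel
      rw [e6, e1]
      simp only [sh, zero_add, add_smul]
      abel
    have hBc : Bf (σ y) = cnt (G (σ y)) N 0 0 := by
      simp only [hBf, cnt, hG, zero_add]
      rw [Finset.sum_product]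
    rw [hAc, hBc]
    have hE : Er (σ y) = (∑ i ∈ Finset.Ico (-K : ℤ) K, ∑ j ∈ Finset.Ico (0 : ℤ) N, P (σ y) i j +
       ∑ i ∈ Finset.Ico (-K : ℤ) (N + K), ∑ j ∈ Finset.Ico (-K : ℤ) K, P (σ y) i j) := by
      simp only [hEr, hPdef]
      rw [Finset.sum_product, Finset.sum_product]
    rw [hE]
    refine cnt_bound (G (σ y)) (P (σ y)) N K ε hε (fun i j => hψ _) ?_ ?_ _ _ e2 e3
    · intro i i' j j'
      rw [sum_shift, sum_shift, sum_shift]
      have key : ∀ (f : S → ℝ) (i j : ℤ), ∑ k ∈ Finset.range N, f (σ y + sh a b (i + k, j)) =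
          ∑ k ∈ Finset.range N, f (σ y + sh a b (i, j) + k • (a : S)) := by
        intro f i j
        refine Finset.sum_congr rfl fun k _ => ?_
        congr 1
        simp only [sh, add_smul, natCast_zsmul]
        abel
      simp only [hG, hPdef]
      rw [key h, key h, key ψ]
      exact hra _ _
    · intro i i' j j'
      rw [sum_shift, sum_shift, sum_shift]
      have key : ∀ (f : S → ℝ) (i j : ℤ), ∑ k ∈ Finset.range N, f (σ y + sh a b (i, j + k)) =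
          ∑ k ∈ Finset.range N, f (σ y + sh a b (i, j) + k • (b : S)) := by
        intro f i j
        refine Finset.sum_congr rfl fun k _ => ?_
        congr 1
        simp only [sh, add_smul, natCast_zsmul]
        abel
      simp only [hG, hPdef]
      rw [key h, key h, key ψ]
      exact hrb _ _
  -- summation
  have himg : Yc.image σ ⊆ Y := by
    intro z hz
    obtain ⟨y, hy, rfl⟩ := Finset.mem_image.1 hz
    exact hσ y hy
  have hc1 : (Y \ Yc.image σ).card = (Y \ Yc).card := by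
    rw [Finset.card_sdiff_of_subset himg, Finset.card_sdiff_of_subset hsub,
      Finset.card_image_of_injOn hinj]
  have hexit' : (N : ℝ) ^ 2 * ((Y \ Yc).card : ℝ) ≤ (Y.card : ℝ) := by exact_mod_cast hexit
  have t1 : ∑ y ∈ Y, ∑ v ∈ (Finset.Ico (0 : ℤ) N) ×ˢ (Finset.Ico (0 : ℤ) N),
      (h (y + sh a b v + c) - h (y + sh a b v)) = ∑ y ∈ Y, A y - ∑ y ∈ Y, Bf y := by
    rw [← Finset.sum_sub_distrib]
    refine Finset.sum_congr rfl fun y _ => ?_
    rw [Finset.sum_sub_distrib]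
  have t2 : ∑ y ∈ Y, A y = ∑ y ∈ Y \ Yc, A y + ∑ y ∈ Yc, A y := (Finset.sum_sdiff hsub).symm
  have t3 : ∑ y ∈ Y, Bf y = ∑ y ∈ Y \ Yc.image σ, Bf y + ∑ y ∈ Yc, Bf (σ y) := by
    rw [← Finset.sum_sdiff himg, Finset.sum_image fun x hx y hy hxy => hinj hx hy hxy]
  have t4 : ∑ y ∈ Y \ Yc, A y ≤ Y.card := by
    calc ∑ y ∈ Y \ Yc, A y ≤ ∑ _y ∈ Y \ Yc, (N : ℝ) ^ 2 := Finset.sum_le_sum fun y _ => hA1 y
      _ = (N : ℝ) ^ 2 * ((Y \ Yc).card : ℝ) := by rw [Finset.sum_const, nsmul_eq_mul]; ring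
      _ ≤ Y.card := hexit'
  have t5 : ∑ y ∈ Y \ Yc.image σ, Bf y ≤ Y.card := by
    calc ∑ y ∈ Y \ Yc.image σ, Bf y ≤ ∑ _y ∈ Y \ Yc.image σ, (N : ℝ) ^ 2 :=
          Finset.sum_le_sum fun y _ => hB1 y
      _ = (N : ℝ) ^ 2 * ((Y \ Yc).card : ℝ) := by
          rw [Finset.sum_const, nsmul_eq_mul, hc1]; ring
      _ ≤ Y.card := hexit'
  have t6 : 0 ≤ ∑ y ∈ Y \ Yc, A y := Finset.sum_nonneg fun y _ => hA0 y
  have t7 : 0 ≤ ∑ y ∈ Y \ Yc.image σ, Bf y := Finset.sum_nonneg fun y _ => hB0 y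
  have t8 : |∑ y ∈ Yc, A y - ∑ y ∈ Yc, Bf (σ y)| ≤ Y.card * (2 * K * ε * N) + ∑ y ∈ Y, Er y := by
    rw [← Finset.sum_sub_distrib]
    refine (Finset.abs_sum_le_sum_abs _ _).trans ?_
    calc ∑ y ∈ Yc, |A y - Bf (σ y)| ≤ ∑ y ∈ Yc, (2 * K * ε * N + Er (σ y)) :=
          Finset.sum_le_sum main
      _ = ∑ z ∈ Yc.image σ, (2 * K * ε * N + Er z) :=
          (Finset.sum_image (f := fun z => 2 * K * ε * N + Er z)
            fun x hx y hy hxy => hinj hx hy hxy).symm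
      _ ≤ ∑ z ∈ Y, (2 * K * ε * N + Er z) :=
          Finset.sum_le_sum_of_subset_of_nonneg himg fun z _ _ =>
            add_nonneg (by positivity) (hEr0 z)
      _ = Y.card * (2 * K * ε * N) + ∑ y ∈ Y, Er y := by
          rw [Finset.sum_add_distrib, Finset.sum_const, nsmul_eq_mul]
  have hYc : (0 : ℝ) ≤ Y.card := Nat.cast_nonneg _
  rw [t1, t2, t3]
  obtain ⟨u1, u2⟩ := abs_le.1 t8
  rw [abs_le]
  constructor
  · linarith
  · linarith

end C11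
end Geo

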