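import Pool.Agent.Helper183.Geo.Base

set_option autoImplicit false
open MeasureTheory Set
namespace Geo
namespace C12

theorem ae_pos_add {p : S → Prop} (h : ∀ᵐ x : S, p x) (R : S) : ∀ᵐ x : S, p (x + R) :=
  (measurePreserving_add_right (volume : Measure S) R).quasiMeasurePreserving.ae h

theorem ae_neg_add {p : S → Prop} (h : ∀ᵐ x : S, p x) (R : S) : ∀ᵐ x : S, p (-(x + R)) := by
  have h1 : ∀ᵐ x : S, p (-x) :=
    (Measure.measurePreserving_neg (volume : Measure S)).quasiMeasurePreserving.ae h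
  exact ae_pos_add h1 R

theorem mem_iso (g : Bool × S) (Q : Set S) (p : S) :
    p ∈ isoS g '' Q ↔ (if g.1 then p - g.2 else -p + g.2) ∈ Q := by
  obtain ⟨e, c⟩ := g
  cases e
  · simp only [isoS, Set.mem_image, Bool.false_eq_true, if_false]
    constructor
    · rintro ⟨z, hz, rfl⟩
      have : -(-z + c) + c = z := by abel
      rw [this]; exact hz
    · intro h
      exact ⟨_, h, by abel⟩
  · simp only [isoS, Set.mem_image, if_true]
    constructor
    · rintro ⟨z, hz, rfl⟩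
      have : z + c - c = z := by abel
      rw [this]; exact hz
    · intro h
      exact ⟨_, h, by abel⟩

theorem frontier_neg_null (Q : Set S) (h : volume (frontier Q) = 0) :
    volume (frontier {x : S | -x ∈ Q}) = 0 := by
  have h1 : frontier {x : S | -x ∈ Q} = (fun x : S => -x) ⁻¹' (frontier Q) := by
    have := (Homeomorph.neg S).preimage_frontier Q
    exact this.symm
  rw [h1]
  exact (Measure.measurePreserving_neg (volume : Measure S)).quasiMeasurePreserving.preimage_null h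

theorem sh_add (a b : ℝ) (v w : ℤ × ℤ) : sh a b (v + w) = sh a b v + sh a b w := by
  simp only [sh, Prod.fst_add, Prod.snd_add, add_smul]
  abel

theorem sh_sub (a b : ℝ) (v w : ℤ × ℤ) : sh a b (v - w) = sh a b v - sh a b w := by
  simp only [sh, Prod.fst_sub, Prod.snd_sub, sub_smul]
  abel

theorem grow (N : ℕ → ℕ) (hN0 : 100 ≤ N 0) (hN : ∀ k, 4 * N k ≤ N (k + 1)) (k : ℕ) : k + 100 ≤ N k := by
  induction k with
  | zero => simpa using hN0
  | succ k ih => have := hN k; omega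

open Classical in
/-- real indicator -/
noncomputable def ind (P : Set S) (x : S) : ℝ := if x ∈ P then 1 else 0

theorem ind_nonneg (P : Set S) (x : S) : 0 ≤ ind P x := by
  unfold ind; split_ifs <;> norm_num

theorem ind_le (P : Set S) (x : S) : ind P x ≤ 1 := by
  unfold ind; split_ifs <;> norm_num

theorem ind_iso (g : Bool × S) (Q : Set S) (p : S) :
    ind (isoS g '' Q) p = ind Q (if g.1 then p - g.2 else -p + g.2) := by
  unfold ind
  by_cases h : p ∈ isoS g '' Q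
  · rw [if_pos h, if_pos ((mem_iso g Q p).1 h)]
  · rw [if_neg h, if_neg (fun h' => h ((mem_iso g Q p).2 h'))]

/-- first translation -/
def c1 (g : Bool × S) : S := if g.1 then -g.2 else g.2
/-- second translation -/
def c2 (g : Bool × S) : S := if g.1 then g.2 else -g.2

theorem pair_id (g : Bool × S) (Q : Set S) (z : S) :
    (ind Q z - ind (isoS g '' Q) z) + (ind Q (-z) - ind (isoS g '' Q) (-z)) =
    (ind Q z - ind Q (z + c1 g)) + (ind Q (-z) - ind Q (-(z + c2 g))) := by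
  rw [ind_iso, ind_iso]
  obtain ⟨e, c⟩ := g
  cases e
  · simp only [c1, c2, Bool.false_eq_true, if_false]
    have e1 : -z + c = -(z + -c) := by abel
    have e2 : - -z + c = z + c := by abel
    rw [e1, e2]; ring
  · simp only [c1, c2, if_true]
    have e1 : z - c = z + -c := by abel
    have e2 : -z - c = -(z + c) := by abel
    rw [e1, e2]

theorem upper_part (a b : ℝ) (hsh : ShiftStmt a b) (h : S → ℝ) (h0 : ∀ x, 0 ≤ h x) (h1 : ∀ x, h x ≤ 1)
    (M K : ℕ) (ε : ℝ) (hε : 0 ≤ ε)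
    (ha : ∀ p q : S, |(∑ j ∈ Finset.range M, h (p + j • (a : S))) -
      ∑ j ∈ Finset.range M, h (q + j • (a : S))| ≤ ε * M)
    (hb : ∀ p q : S, |(∑ j ∈ Finset.range M, h (p + j • (b : S))) -
      ∑ j ∈ Finset.range M, h (q + j • (b : S))| ≤ ε * M) (x : S)
    (Y Yc : Finset S) (σ : S → S) (w : S → ℤ × ℤ) (c : S) (hYc : Yc ⊆ Y) (hσ : ∀ y ∈ Yc, σ y ∈ Y)
    (hinj : Set.InjOn σ Yc)
    (hw : ∀ y ∈ Yc, y + c = σ y + ((w y).1 • (a : S) + (w y).2 • (b : S)) ∧ |(w y).1| ≤ K ∧ |(w y).2| ≤ K)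
    (hcard : M ^ 2 * (Y \ Yc).card ≤ Y.card) :
    |∑ y ∈ Y, ∑ v ∈ (Finset.Ico (0 : ℤ) M) ×ˢ (Finset.Ico (0 : ℤ) M),
      (h (x + (y + sh a b v) + c) - h (x + (y + sh a b v)))| ≤ Y.card * (2 * K * ε * M + 2) := by
  classical
  have key := hsh (fun z => h (x + z)) (fun _ => 0) (fun z => h0 _) (fun z => h1 _) (fun _ => le_refl _)
    M K ε hε (fun p q => by
      have := ha (x + p) (x + q)
      simpa [add_assoc] using this) (fun p q => by
      have := hb (x + p) (x + q)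
      simpa [add_assoc] using this) Y Yc σ w c hYc hσ hinj hw (by convert hcard)
  simp only [Finset.sum_const_zero, add_zero] at key
  simpa [add_assoc] using key

open Classical in
/-- The two bodies on the circle are not equidecomposable with Jordan measurable pieces (up to null sets). -/
theorem ne1 (a b : ℝ) (hfree : Free a b) (hua : UnifStmt a) (hub : UnifStmt b) (htr : TransStmt)
    (hsh : ShiftStmt a b) (N D : ℕ → ℕ) (hN0 : 100 ≤ N 0) (hN : ∀ k, 4 * N k ≤ N (k + 1))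
    (hD : ∀ k, 2 * N k ≤ D k ∧ D k < 3 * N k)
    (Bs P0 P : ℕ → Set S)
    (hrich : ∀ k, RichFor a b (Bs k) (Ghat (N k)) (64 * (N k) ^ 2) (1 / N k))
    (hP0 : ∀ k, ∀ x ∈ P0 k, ∃ v, inBox v (N k) ∧ x - sh a b v ∈ Bs k)
    (hPP0 : ∀ k, volume (P k \ P0 k) = 0)
    (A B : Set S)
    (hact : ∀ k x, x ∈ Bs k → (∀ v, x + sh a b v ∈ P k → x + sh a b v ∈ P0 k) →
      7 / 8 * (N k : ℝ) ≤ ∑ v ∈ (Finset.Ico (0 : ℤ) (N k)) ×ˢ (Finset.Ico (0 : ℤ) (N k)),
        ((if x + sh a b v ∈ A then 1 else 0 : ℝ) - (if x + sh a b v ∈ B then 1 else 0)))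
    (hina : ∀ k x, (∀ v, inBox v (N k) → x + sh a b v ∉ P k ∧ x + sh a b (v - ((D k : ℤ), 0)) ∉ P k) →
      - (1 / 8 * (N k : ℝ)) ≤ ∑ v ∈ (Finset.Ico (0 : ℤ) (N k)) ×ˢ (Finset.Ico (0 : ℤ) (N k)),
        ((if x + sh a b v ∈ A then 1 else 0 : ℝ) - (if x + sh a b v ∈ B then 1 else 0))) :
    ¬ ∃ (l : ℕ) (Q : Fin l → Set S) (g : Fin l → Bool × S), (∀ i, volume (frontier (Q i)) = 0) ∧
      (∀ᵐ x : S, (if x ∈ A then 1 else 0 : ℝ) = ∑ i, (if x ∈ Q i then 1 else 0 : ℝ)) ∧
      (∀ᵐ x : S, (if x ∈ B then 1 else 0 : ℝ) = ∑ i, (if x ∈ isoS (g i) '' Q i then 1 else 0 : ℝ)) := by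
  rintro ⟨l, Q, g, hQ, hA, hB⟩
  classical
  set C : Finset S := (Finset.univ.image (fun i => c1 (g i))) ∪ (Finset.univ.image (fun i => c2 (g i))) with hC
  obtain ⟨K, hK⟩ := htr (a : S) (b : S) C
  set ε : ℝ := 1 / (32 * ((l : ℝ) + 1) * ((K : ℝ) + 1)) with hε
  have hεpos : 0 < ε := by positivity
  choose n1 hn1 using fun i => hua (Q i) (hQ i) ε hεpos
  choose n2 hn2 using fun i => hub (Q i) (hQ i) ε hεpos
  choose n3 hn3 using fun i => hua {x : S | -x ∈ Q i} (frontier_neg_null _ (hQ i)) ε hεpos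
  choose n4 hn4 using fun i => hub {x : S | -x ∈ Q i} (frontier_neg_null _ (hQ i)) ε hεpos
  set k : ℕ := K + 32 * (l + 1) + 8 + ∑ i, (n1 i + n2 i + n3 i + n4 i) with hk
  have hgrow := grow N hN0 hN k
  set M : ℕ := N k with hM
  have hbig : ∀ i, n1 i + n2 i + n3 i + n4 i ≤ ∑ i, (n1 i + n2 i + n3 i + n4 i) := fun i =>
    Finset.single_le_sum (f := fun i => n1 i + n2 i + n3 i + n4 i) (fun _ _ => Nat.zero_le _) (Finset.mem_univ i)
  have hM1 : 1 ≤ M := by omega
  have hMK : K ≤ M := by omega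
  have hMl : 32 * (l + 1) + 8 ≤ M := by omega
  have ht1 : ∀ i, n1 i ≤ M := fun i => by have := hbig i; omega
  have ht2 : ∀ i, n2 i ≤ M := fun i => by have := hbig i; omega
  have ht3 : ∀ i, n3 i ≤ M := fun i => by have := hbig i; omega
  have ht4 : ∀ i, n4 i ≤ M := fun i => by have := hbig i; omega
  obtain ⟨Y, hYne, hYcard, hYtr, hYc⟩ := hK M hM1
  -- the sets G and Z
  set Gs : Finset (Bool × S) := Y.image (fun y => (true, y)) with hGs
  set Zs : Finset (Bool × S) := (Y ×ˢ ((Finset.Ico (0 : ℤ) (5 * M)) ×ˢ (Finset.Ico (0 : ℤ) (5 * M)))).image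
    (fun p => (false, -p.1 - sh a b p.2)) with hZs
  have hGc : Gs.card ≤ Y.card := Finset.card_image_le
  have hZc : Zs.card ≤ Y.card * (25 * M ^ 2) := by
    refine le_trans Finset.card_image_le ?_
    rw [Finset.card_product, Finset.card_product, Int.card_Ico]
    have : (5 * (M : ℤ) - 0).toNat = 5 * M := by omega
    rw [this]
    apply le_of_eq; ring
  have hYb : Y.card ≤ M ^ (M + 1) := by
    calc Y.card ≤ K * M ^ K := hYcard
      _ ≤ M * M ^ M := Nat.mul_le_mul hMK (Nat.pow_le_pow_right hM1 hMK)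
      _ = M ^ (M + 1) := by rw [pow_succ]; ring
  have hcount : Gs.card * (2 * (64 * M ^ 2) + 1) ^ 2 + Zs.card ≤ Ghat M := by
    unfold Ghat
    calc Gs.card * (2 * (64 * M ^ 2) + 1) ^ 2 + Zs.card
        ≤ Y.card * (2 * (64 * M ^ 2) + 1) ^ 2 + Y.card * (25 * M ^ 2) :=
          Nat.add_le_add (Nat.mul_le_mul_right _ hGc) hZc
      _ = Y.card * ((2 * (64 * M ^ 2) + 1) ^ 2 + 25 * M ^ 2) := by ring
      _ ≤ M ^ (M + 1) * ((2 * (64 * M ^ 2) + 1) ^ 2 + 25 * M ^ 2) := Nat.mul_le_mul_right _ hYb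
  obtain ⟨U, hUo, hUne, -, hU⟩ := hrich k Gs Zs (by
      intro g' hg' z hz v _ heq
      rw [hGs, Finset.mem_image] at hg'
      rw [hZs, Finset.mem_image] at hz
      obtain ⟨y, _, rfl⟩ := hg'
      obtain ⟨p, _, rfl⟩ := hz
      have := congrArg Prod.fst heq
      simp at this) (by
      intro g' hg' g'' hg'' v heq
      rw [hGs, Finset.mem_image] at hg' hg''
      obtain ⟨y, hy, rfl⟩ := hg'
      obtain ⟨y', hy', rfl⟩ := hg''
      have h2 : y' = y + sh a b v := congrArg Prod.snd heq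
      have h3 := hYtr y hy y' hy' v.1 v.2 h2
      rw [h3]) hcount 0
  -- generic point
  have hgen : ∀ᵐ x : S, (∀ y ∈ Y, ∀ v : ℤ × ℤ,
      ((x + (y + sh a b v) ∈ P k → x + (y + sh a b v) ∈ P0 k) ∧
       (-(x + (y + sh a b v)) ∈ P k → -(x + (y + sh a b v)) ∈ P0 k)) ∧
      (((if x + (y + sh a b v) ∈ A then 1 else 0 : ℝ) = ∑ i, (if x + (y + sh a b v) ∈ Q i then 1 else 0 : ℝ)) ∧
       ((if -(x + (y + sh a b v)) ∈ A then 1 else 0 : ℝ) = ∑ i, (if -(x + (y + sh a b v)) ∈ Q i then 1 else 0 : ℝ))) ∧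
      (((if x + (y + sh a b v) ∈ B then 1 else 0 : ℝ) = ∑ i, (if x + (y + sh a b v) ∈ isoS (g i) '' Q i then 1 else 0 : ℝ)) ∧
       ((if -(x + (y + sh a b v)) ∈ B then 1 else 0 : ℝ) = ∑ i, (if -(x + (y + sh a b v)) ∈ isoS (g i) '' Q i then 1 else 0 : ℝ)))) := by
    have hPae : ∀ᵐ x : S, x ∈ P k → x ∈ P0 k := by
      have := hPP0 k
      rw [ae_iff]
      convert this using 2
      ext x; simp
    rw [Filter.eventually_all_finset]
    intro y _
    rw [ae_all_iff]
    intro v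
    have q1 := ae_pos_add hPae (y + sh a b v)
    have q2 := ae_neg_add hPae (y + sh a b v)
    have q3 := ae_pos_add hA (y + sh a b v)
    have q4 := ae_neg_add hA (y + sh a b v)
    have q5 := ae_pos_add hB (y + sh a b v)
    have q6 := ae_neg_add hB (y + sh a b v)
    filter_upwards [q1, q2, q3, q4, q5, q6] with x r1 r2 r3 r4 r5 r6
    exact ⟨⟨r1, r2⟩, ⟨r3, r4⟩, ⟨r5, r6⟩⟩
  have hdense := Measure.dense_of_ae hgen
  obtain ⟨x, hxU, hx⟩ := hdense.inter_open_nonempty U hUo hUne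
  simp only [Set.mem_ofPred_eq] at hx
  obtain ⟨hxG, hxZ⟩ := hU x hxU
  have hYBs : ∀ y ∈ Y, x + y ∈ Bs k := by
    intro y hy
    have := hxG (true, y) (Finset.mem_image.2 ⟨y, hy, rfl⟩)
    simpa [isoS] using this
  have hZBs : ∀ y ∈ Y, ∀ w : ℤ × ℤ, 0 ≤ w.1 → w.1 < 5 * M → 0 ≤ w.2 → w.2 < 5 * M →
      -(x + (y + sh a b w)) ∉ Bs k := by
    intro y hy w h1 h2 h3 h4
    have := hxZ (false, -y - sh a b w) (Finset.mem_image.2 ⟨(y, w), by
      simp only [Finset.mem_product, Finset.mem_Ico]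
      exact ⟨hy, ⟨h1, h2⟩, h3, h4⟩, rfl⟩)
    simp only [isoS, Bool.false_eq_true, if_false] at this
    have e : -x + (-y - sh a b w) = -(x + (y + sh a b w)) := by abel
    rw [e] at this
    exact this
  set box := (Finset.Ico (0 : ℤ) M) ×ˢ (Finset.Ico (0 : ℤ) M) with hbox
  set f : S → ℝ := fun p => ind A p - ind B p with hf
  -- lower bound
  have hlow : ∀ y ∈ Y, (3 / 4 : ℝ) * M ≤ ∑ v ∈ box, (f (x + (y + sh a b v)) + f (-(x + (y + sh a b v)))) := by
    intro y hy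
    rw [Finset.sum_add_distrib]
    have hp := hact k (x + y) (hYBs y hy) (by
      intro v hv
      have := (hx y hy v).1.1
      rw [← add_assoc] at this
      exact this hv)
    have hp' : ∑ v ∈ box, f (x + (y + sh a b v)) = ∑ v ∈ (Finset.Ico (0 : ℤ) (N k)) ×ˢ (Finset.Ico (0 : ℤ) (N k)),
        ((if x + y + sh a b v ∈ A then 1 else 0 : ℝ) - (if x + y + sh a b v ∈ B then 1 else 0)) := by
      apply Finset.sum_congr rfl
      intro v _
      simp only [hf, ind, add_assoc]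
    have hq := hina k (x := -(x + (y + sh a b ((M : ℤ) - 1, (M : ℤ) - 1)))) (by
      intro v hv
      obtain ⟨v1, v2, v3, v4⟩ := hv
      have e1 : -(x + (y + sh a b ((M : ℤ) - 1, (M : ℤ) - 1))) + sh a b v =
          -(x + (y + sh a b (((M : ℤ) - 1, (M : ℤ) - 1) - v))) := by
        rw [sh_sub]; abel
      have e2 : -(x + (y + sh a b ((M : ℤ) - 1, (M : ℤ) - 1))) + sh a b (v - ((D k : ℤ), 0)) =
          -(x + (y + sh a b (((M : ℤ) - 1, (M : ℤ) - 1) - v + ((D k : ℤ), 0)))) := by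
        rw [sh_sub, sh_add, sh_sub]; abel
      have hDk := hD k
      constructor
      · intro hmem
        rw [e1] at hmem
        have hmem0 := (hx y hy _).1.2 hmem
        obtain ⟨u, hu, huB⟩ := hP0 k _ hmem0
        have e3 : -(x + (y + sh a b (((M : ℤ) - 1, (M : ℤ) - 1) - v))) - sh a b u =
            -(x + (y + sh a b (((M : ℤ) - 1, (M : ℤ) - 1) - v + u))) := by
          rw [sh_add]; abel
        rw [e3] at huB
        obtain ⟨u1, u2, u3, u4⟩ := hu
        refine hZBs y hy _ ?_ ?_ ?_ ?_ huB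
        all_goals simp only [Prod.fst_add, Prod.snd_add, Prod.fst_sub, Prod.snd_sub]
        all_goals omega
      · intro hmem
        rw [e2] at hmem
        have hmem0 := (hx y hy _).1.2 hmem
        obtain ⟨u, hu, huB⟩ := hP0 k _ hmem0
        have e3 : -(x + (y + sh a b (((M : ℤ) - 1, (M : ℤ) - 1) - v + ((D k : ℤ), 0)))) - sh a b u =
            -(x + (y + sh a b (((M : ℤ) - 1, (M : ℤ) - 1) - v + ((D k : ℤ), 0) + u))) := by
          rw [sh_add a b _ u]; abel
        rw [e3] at huB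
        obtain ⟨u1, u2, u3, u4⟩ := hu
        refine hZBs y hy _ ?_ ?_ ?_ ?_ huB
        all_goals simp only [Prod.fst_add, Prod.snd_add, Prod.fst_sub, Prod.snd_sub]
        all_goals omega)
    have hq' : ∑ v ∈ box, f (-(x + (y + sh a b v))) = ∑ v ∈ (Finset.Ico (0 : ℤ) (N k)) ×ˢ (Finset.Ico (0 : ℤ) (N k)),
        ((if -(x + (y + sh a b ((M : ℤ) - 1, (M : ℤ) - 1))) + sh a b v ∈ A then 1 else 0 : ℝ) -
          (if -(x + (y + sh a b ((M : ℤ) - 1, (M : ℤ) - 1))) + sh a b v ∈ B then 1 else 0)) := by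
      apply Finset.sum_bij' (fun v _ => ((M : ℤ) - 1, (M : ℤ) - 1) - v) (fun v _ => ((M : ℤ) - 1, (M : ℤ) - 1) - v)
      · intro v hv
        simp only [hbox, Finset.mem_product, Finset.mem_Ico, Prod.fst_sub, Prod.snd_sub] at hv ⊢
        rw [← hM]
        omega
      · intro v hv
        simp only [hbox, Finset.mem_product, Finset.mem_Ico, Prod.fst_sub, Prod.snd_sub] at hv ⊢
        rw [← hM] at hv
        omega
      · intro v _; simp
      · intro v _; simp
      · intro v _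
        have e1 : -(x + (y + sh a b ((M : ℤ) - 1, (M : ℤ) - 1))) + sh a b (((M : ℤ) - 1, (M : ℤ) - 1) - v) =
          -(x + (y + sh a b v)) := by
          rw [sh_sub]; abel
        simp only [hf, ind, e1]
    rw [hp', hq']
    have hNM : (N k : ℝ) = (M : ℝ) := by rw [hM]
    rw [hNM] at hp hq
    linarith
  have hΦlow : (Y.card : ℝ) * ((3 / 4 : ℝ) * M) ≤
      ∑ y ∈ Y, ∑ v ∈ box, (f (x + (y + sh a b v)) + f (-(x + (y + sh a b v)))) := by
    have := Finset.card_nsmul_le_sum Y _ _ hlow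
    simpa [nsmul_eq_mul] using this
  -- upper bound
  have hid : ∀ y ∈ Y, ∀ v ∈ box, f (x + (y + sh a b v)) + f (-(x + (y + sh a b v))) =
      ∑ i, (-(ind (Q i) (x + (y + sh a b v) + c1 (g i)) - ind (Q i) (x + (y + sh a b v))) +
        -(ind (Q i) (-(x + (y + sh a b v) + c2 (g i))) - ind (Q i) (-(x + (y + sh a b v))))) := by
    intro y hy v _
    obtain ⟨-, ⟨a1, a2⟩, ⟨b1, b2⟩⟩ := hx y hy v
    have t1 : f (x + (y + sh a b v)) = ∑ i, (ind (Q i) (x + (y + sh a b v)) - ind (isoS (g i) '' Q i) (x + (y + sh a b v))) := by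
      simp only [hf, ind]
      rw [a1, b1, Finset.sum_sub_distrib]
    have t2 : f (-(x + (y + sh a b v))) = ∑ i, (ind (Q i) (-(x + (y + sh a b v))) - ind (isoS (g i) '' Q i) (-(x + (y + sh a b v)))) := by
      simp only [hf, ind]
      rw [a2, b2, Finset.sum_sub_distrib]
    rw [t1, t2, ← Finset.sum_add_distrib]
    apply Finset.sum_congr rfl
    intro i _
    rw [pair_id]
    ring
  have hΦ : ∑ y ∈ Y, ∑ v ∈ box, (f (x + (y + sh a b v)) + f (-(x + (y + sh a b v)))) =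
      ∑ i, (-(∑ y ∈ Y, ∑ v ∈ box, (ind (Q i) (x + (y + sh a b v) + c1 (g i)) - ind (Q i) (x + (y + sh a b v)))) +
        -(∑ y ∈ Y, ∑ v ∈ box, (ind (Q i) (-(x + (y + sh a b v) + c2 (g i))) - ind (Q i) (-(x + (y + sh a b v)))))) := by
    rw [Finset.sum_congr rfl (fun y hy => Finset.sum_congr rfl (hid y hy))]
    simp only [Finset.sum_add_distrib, Finset.sum_neg_distrib]
    congr 1
    · congr 1
      rw [Finset.sum_congr rfl (fun y _ => Finset.sum_comm), Finset.sum_comm]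
    · congr 1
      rw [Finset.sum_congr rfl (fun y _ => Finset.sum_comm), Finset.sum_comm]
  have hup : ∀ i : Fin l, -(∑ y ∈ Y, ∑ v ∈ box, (ind (Q i) (x + (y + sh a b v) + c1 (g i)) - ind (Q i) (x + (y + sh a b v)))) +
        -(∑ y ∈ Y, ∑ v ∈ box, (ind (Q i) (-(x + (y + sh a b v) + c2 (g i))) - ind (Q i) (-(x + (y + sh a b v))))) ≤
        2 * (Y.card * (2 * K * ε * M + 2)) := by
    intro i
    have hm1 : c1 (g i) ∈ C := by
      rw [hC, Finset.mem_union]; left; exact Finset.mem_image.2 ⟨i, Finset.mem_univ _, rfl⟩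
    have hm2 : c2 (g i) ∈ C := by
      rw [hC, Finset.mem_union]; right; exact Finset.mem_image.2 ⟨i, Finset.mem_univ _, rfl⟩
    obtain ⟨Y1, σ1, w1, s1, s2, s3, s4, s5⟩ := hYc _ hm1
    obtain ⟨Y2, σ2, w2, r1, r2, r3, r4, r5⟩ := hYc _ hm2
    have B1 := upper_part a b hsh (fun z => ind (Q i) z) (fun _ => ind_nonneg _ _) (fun _ => ind_le _ _) M K ε hεpos.le
      (fun p q => by have := hn1 i M (ht1 i) p q; simpa [ind] using this)
      (fun p q => by have := hn2 i M (ht2 i) p q; simpa [ind] using this) x Y Y1 σ1 w1 (c1 (g i)) s1 s2 s3 s4 (by convert s5)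
    have B2 := upper_part a b hsh (fun z => ind (Q i) (-z)) (fun _ => ind_nonneg _ _) (fun _ => ind_le _ _) M K ε hεpos.le
      (fun p q => by have := hn3 i M (ht3 i) p q; simpa [ind] using this)
      (fun p q => by have := hn4 i M (ht4 i) p q; simpa [ind] using this) x Y Y2 σ2 w2 (c2 (g i)) r1 r2 r3 r4 (by convert r5)
    have B1' := (abs_le.1 B1).1
    have B2' := (abs_le.1 B2).1
    beta_reduce at B1' B2'
    rw [← hbox] at B1' B2'
    linarith
  have hΦup : ∑ y ∈ Y, ∑ v ∈ box, (f (x + (y + sh a b v)) + f (-(x + (y + sh a b v)))) ≤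
      (l : ℝ) * (2 * (Y.card * (2 * K * ε * M + 2))) := by
    rw [hΦ]
    have := Finset.sum_le_card_nsmul Finset.univ _ _ (fun i _ => hup i)
    simpa [nsmul_eq_mul] using this
  -- contradiction
  have hYpos : (0 : ℝ) < Y.card := by exact_mod_cast Finset.card_pos.2 hYne
  have hfin : (Y.card : ℝ) * ((3 / 4 : ℝ) * M) ≤ (Y.card : ℝ) * ((l : ℝ) * (2 * (2 * K * ε * M + 2))) := by
    have := le_trans hΦlow hΦup
    nlinarith [this]
  have hfin2 := le_of_mul_le_mul_left hfin hYpos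
  have hMr : (32 * ((l : ℝ) + 1) + 8) ≤ M := by exact_mod_cast hMl
  have hKε : (l : ℝ) * (K : ℝ) * ε ≤ 1 / 32 := by
    rw [hε, mul_one_div, div_le_div_iff₀ (by positivity) (by norm_num)]
    have hl0 : (0 : ℝ) ≤ l := Nat.cast_nonneg _
    have hK0 : (0 : ℝ) ≤ K := Nat.cast_nonneg _
    nlinarith [mul_nonneg hl0 hK0]
  have hMpos : (0 : ℝ) < M := by exact_mod_cast hM1
  have h9 : (l : ℝ) * (2 * (2 * K * ε * M + 2)) = 4 * ((l : ℝ) * K * ε) * M + 4 * l := by ring
  rw [h9] at hfin2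
  have h10 : 4 * ((l : ℝ) * K * ε) * M ≤ 4 * (1 / 32) * M := by
    apply mul_le_mul_of_nonneg_right _ hMpos.le
    linarith
  linarith

end C12
end Geo

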