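import Pool.Agent.Helper183.Geo.Base

set_option autoImplicit false
open MeasureTheory Set
namespace Geo
namespace C13

theorem c13_arcO_open (c l : ℝ) : IsOpen (arcO c l) :=
  QuotientAddGroup.isOpenMap_coe _ isOpen_Ioo

theorem c13_pt (x : S) : volume ({x} : Set S) = 0 := by
  have h := AddCircle.volume_closedBall (T := 1) (x := x) 0
  rw [Metric.closedBall_zero] at h
  rw [h]; simp

theorem c13_union {A B : Set S} (hA : volume (frontier A) = 0) (hB : volume (frontier B) = 0) :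
    volume (frontier (A ∪ B)) = 0 := by
  refine measure_mono_null (frontier_union_subset A B) ?_
  exact measure_union_null (measure_mono_null inter_subset_left hA)
    (measure_mono_null inter_subset_right hB)

theorem c13_inter {A B : Set S} (hA : volume (frontier A) = 0) (hB : volume (frontier B) = 0) :
    volume (frontier (A ∩ B)) = 0 := by
  refine measure_mono_null (frontier_inter_subset A B) ?_
  exact measure_union_null (measure_mono_null inter_subset_left hA)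
    (measure_mono_null inter_subset_right hB)

theorem c13_biUnion {ι : Type} (s : Finset ι) (A : ι → Set S)
    (h : ∀ i ∈ s, volume (frontier (A i)) = 0) : volume (frontier (⋃ i ∈ s, A i)) = 0 := by
  classical
  induction s using Finset.induction_on with
  | empty => simp
  | insert i s hi ih =>
    rw [Finset.set_biUnion_insert]
    exact c13_union (h i (Finset.mem_insert_self _ _))
      (ih fun j hj => h j (Finset.mem_insert_of_mem hj))

theorem c13_shift {B : Set S} (hB : volume (frontier B) = 0) (s : S) :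
    volume (frontier {x | x - s ∈ B}) = 0 := by
  have e : {x | x - s ∈ B} = (Homeomorph.addRight (-s)) ⁻¹' B := by
    ext x; simp [sub_eq_add_neg]
  rw [e, ← Homeomorph.preimage_frontier]
  show volume ((fun x => x + -s) ⁻¹' frontier B) = 0
  rw [measure_preimage_add_right]; exact hB

theorem c13_arcO_frontier (c l : ℝ) : volume (frontier (arcO c l)) = 0 := by
  have h1 : closure (arcO c l) ⊆ arcC c l := by
    refine closure_minimal (image_mono Ioo_subset_Icc_self) ?_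
    exact (isCompact_Icc.image (AddCircle.continuous_mk' 1)).isClosed
  have h2 : frontier (arcO c l) ⊆ {((c : ℝ) : S)} ∪ {((c + l : ℝ) : S)} := by
    rw [(c13_arcO_open c l).frontier_eq]
    rintro x ⟨hx1, hx2⟩
    obtain ⟨t, ht, rfl⟩ := h1 hx1
    rcases eq_or_lt_of_le ht.1 with h | h
    · left; rw [← h]; rfl
    · rcases eq_or_lt_of_le ht.2 with h' | h'
      · right; rw [h']; rfl
      · exact absurd ⟨t, ⟨h, h'⟩, rfl⟩ hx2
  exact measure_mono_null h2 (measure_union_null (c13_pt _) (c13_pt _))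

theorem c13_norm_pos {a b : ℝ} (hfree : Free a b) (v : ℤ × ℤ) (hv : v ≠ 0) :
    0 < ‖sh a b v‖ := by
  rw [norm_pos_iff]
  intro h
  have e : sh a b v = (((v.1 : ℝ) * a + v.2 * b : ℝ) : S) := by
    unfold sh
    rw [AddCircle.coe_add, ← AddCircle.coe_zsmul, ← AddCircle.coe_zsmul, zsmul_eq_mul, zsmul_eq_mul]
  rw [e, AddCircle.coe_eq_zero_iff] at h
  obtain ⟨n, hn⟩ := h
  have := hfree v.1 v.2 n (by rw [← hn]; simp)
  exact hv (Prod.ext this.1 this.2)

theorem c13_small {a b : ℝ} (hfree : Free a b) (s : Finset (ℤ × ℤ)) :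
    ∃ η : ℝ, 0 < η ∧ ∀ v ∈ s, v ≠ 0 → η ≤ ‖sh a b v‖ := by
  classical
  induction s using Finset.induction_on with
  | empty => exact ⟨1, one_pos, by simp⟩
  | insert i s hi ih =>
    obtain ⟨η, h0, h⟩ := ih
    by_cases hi0 : i = 0
    · refine ⟨η, h0, fun v hv hv0 => ?_⟩
      rcases Finset.mem_insert.1 hv with h1 | h1
      · exact absurd (h1.trans hi0) hv0
      · exact h v h1 hv0
    · refine ⟨min η ‖sh a b i‖, lt_min h0 (c13_norm_pos hfree i hi0), fun v hv hv0 => ?_⟩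
      rcases Finset.mem_insert.1 hv with h1 | h1
      · rw [h1]; exact min_le_right _ _
      · exact (min_le_left _ _).trans (h v h1 hv0)

theorem c13_arc {a b : ℝ} {v : ℤ × ℤ} {c l : ℝ} {x : S} (h1 : x ∈ arcC c l)
    (h2 : x + sh a b v ∈ arcC c l) : ‖sh a b v‖ ≤ l := by
  obtain ⟨s, hs, rfl⟩ := h1
  obtain ⟨t, ht, hts⟩ := h2
  have e : sh a b v = ((t - s : ℝ) : S) := by
    rw [AddCircle.coe_sub]
    simp only at hts
    rw [hts]; abel
  rw [e]
  refine (QuotientAddGroup.norm_mk_le_norm (m := (t - s : ℝ))).trans ?_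
  rw [Real.norm_eq_abs, abs_le]
  exact ⟨by linarith [hs.1, hs.2, ht.1, ht.2], by linarith [hs.1, hs.2, ht.1, ht.2]⟩

theorem c13_ico (M : ℕ) (g : ℤ → ℝ) :
    ∑ i ∈ Finset.Ico (0 : ℤ) M, g i = ∑ i ∈ Finset.range M, g (i : ℤ) := by
  refine Finset.sum_nbij' (i := Int.toNat) (j := fun n => (n : ℤ)) ?_ ?_ ?_ ?_ ?_
  · intro i hi; simp only [Finset.mem_Ico] at hi; simp only [Finset.mem_range]; omega
  · intro i hi; simp only [Finset.mem_range] at hi; simp only [Finset.mem_Ico]; omega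
  · intro i hi; simp only [Finset.mem_Ico] at hi; exact Int.toNat_of_nonneg hi.1
  · intro i hi; simp
  · intro i hi; simp only [Finset.mem_Ico] at hi
    rw [Int.toNat_of_nonneg hi.1]

theorem c13_tel (F : ℤ → ℝ) (M D : ℕ) :
    ∑ i ∈ Finset.Ico (0 : ℤ) M, (F i - F (i - D)) =
      ∑ t ∈ Finset.range D, (F (M - t - 1) - F (-t - 1)) := by
  rw [c13_ico]
  induction D with
  | zero => simp
  | succ D ih =>
    rw [Finset.sum_range_succ, ← ih]
    have h := Finset.sum_range_sub (fun i : ℕ => F ((i : ℤ) - D - 1)) M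
    have e2 : F ((M : ℤ) - D - 1) - F (-(D : ℤ) - 1) =
        F ((M : ℤ) - D - 1) - F (((0 : ℕ) : ℤ) - D - 1) := by
      simp
    rw [e2, ← h, ← Finset.sum_add_distrib]
    refine Finset.sum_congr rfl fun i _ => ?_
    have e3 : (((i + 1 : ℕ) : ℤ) - D - 1) = (i : ℤ) - D := by push_cast; ring
    have e4 : ((i : ℤ) - ((D + 1 : ℕ) : ℤ)) = (i : ℤ) - D - 1 := by push_cast; ring
    rw [e3, e4]; ring

open Classical in
theorem c13_ineq (a b : ℝ) (hub : UnifStmt b) (P : Set S) (hP : volume (frontier P) = 0)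
    (N D : ℕ) (hN : 1 ≤ N) (hD : 1 ≤ D) :
    ∃ M0 : ℕ, ∀ M, M0 ≤ M → ∀ x : S,
      |∑ v ∈ (Finset.Ico (0 : ℤ) M) ×ˢ (Finset.Ico (0 : ℤ) M),
        ((if x + sh a b v ∈ P then 1 else 0 : ℝ) -
          (if x + sh a b (v - ((D : ℤ), 0)) ∈ P then 1 else 0))| ≤ M / (8 * N) := by
  have hN' : (0 : ℝ) < N := by exact_mod_cast hN
  have hD' : (0 : ℝ) < D := by exact_mod_cast hD
  obtain ⟨M0, hM0⟩ := hub P hP (1 / (8 * N * D)) (by positivity)
  refine ⟨M0, fun M hM x => ?_⟩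
  let F : ℤ → ℝ := fun i => ∑ j ∈ Finset.Ico (0 : ℤ) M, (if x + sh a b (i, j) ∈ P then 1 else 0 : ℝ)
  have e1 : ∑ v ∈ (Finset.Ico (0 : ℤ) M) ×ˢ (Finset.Ico (0 : ℤ) M),
        ((if x + sh a b v ∈ P then 1 else 0 : ℝ) -
          (if x + sh a b (v - ((D : ℤ), 0)) ∈ P then 1 else 0)) =
      ∑ i ∈ Finset.Ico (0 : ℤ) M, (F i - F (i - D)) := by
    rw [Finset.sum_product]
    refine Finset.sum_congr rfl fun i _ => ?_
    rw [← Finset.sum_sub_distrib]
    refine Finset.sum_congr rfl fun j _ => ?_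
    simp only [Prod.mk_sub_mk, sub_zero]
  have e2 : ∀ i : ℤ, F i = ∑ j ∈ Finset.range M,
      (if (x + i • (a : S)) + j • (b : S) ∈ P then 1 else 0 : ℝ) := by
    intro i
    show ∑ j ∈ Finset.Ico (0 : ℤ) M, (if x + sh a b (i, j) ∈ P then 1 else 0 : ℝ) = _
    rw [c13_ico]
    refine Finset.sum_congr rfl fun j _ => ?_
    have : x + sh a b (i, (j : ℤ)) = (x + i • (a : S)) + j • (b : S) := by
      unfold sh
      simp only [natCast_zsmul]
      abel
    rw [this]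
  rw [e1, c13_tel]
  calc |∑ t ∈ Finset.range D, (F (M - t - 1) - F (-t - 1))|
      ≤ ∑ t ∈ Finset.range D, |F (M - t - 1) - F (-t - 1)| := Finset.abs_sum_le_sum_abs _ _
    _ ≤ ∑ _t ∈ Finset.range D, (1 / (8 * N * D)) * (M : ℝ) := by
        refine Finset.sum_le_sum fun t _ => ?_
        rw [e2, e2]
        exact hM0 M hM _ _
    _ = M / (8 * N) := by
        rw [Finset.sum_const, Finset.card_range, nsmul_eq_mul]
        field_simp

open Classical in
/-- choice of all scales for the example on the circle -/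
theorem exists_system (a b : ℝ) (hfree : Free a b) (hhit : ∀ m : ℕ, ∃ N : ℕ, m ≤ N ∧ Hit a N)
    (hub : UnifStmt b)
    (hrich : ∀ (n L : ℕ) (ρ : ℝ), 0 < ρ → ∃ B : Set S, IsOpen B ∧ volume (frontier B) = 0 ∧
      (∀ x ∈ B, ∀ v, le v L → v ≠ 0 → x + sh a b v ∉ B) ∧ RichFor a b B n L ρ) :
    ∃ (N D : ℕ → ℕ) (Bs P0 P : ℕ → Set S), 1000 ≤ N 0 ∧ (∀ k, 4 * N k ≤ N (k + 1)) ∧
      (∀ k, Hit a (N k)) ∧ (∀ k, 2 * N k ≤ D k ∧ D k < 3 * N k) ∧
      (∀ k, ∃ t : ℝ, 0 ≤ t ∧ t ≤ 3 / N k ∧ (D k) • (a : S) = ((1 / 2 + t : ℝ) : S)) ∧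
      (∀ k, ∀ x ∈ Bs k, ∀ v, le v (64 * (N k : ℤ) ^ 2) → v ≠ 0 → x + sh a b v ∉ Bs k) ∧
      (∀ k, RichFor a b (Bs k) (Ghat (N k)) (64 * (N k) ^ 2) (1 / N k)) ∧
      (∀ k x, x ∈ P0 k ↔ x ∈ arcO (1 / 8 + 3 / N k) (3 / N k) ∧
        ∃ v, inBox v (N k) ∧ x - sh a b v ∈ Bs k) ∧
      (∀ k, IsOpen (P0 k)) ∧ (∀ k, volume (frontier (P0 k)) = 0) ∧
      (∀ k, P k = interior (closure (P0 k))) ∧
      (∀ j k, j < k → ∀ x, |∑ v ∈ (Finset.Ico (0 : ℤ) (N k)) ×ˢ (Finset.Ico (0 : ℤ) (N k)),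
        ((if x + sh a b v ∈ P j then 1 else 0 : ℝ) -
          (if x + sh a b (v - ((D j : ℤ), 0)) ∈ P j then 1 else 0))| ≤ N k / (8 * N j)) ∧
      (∀ k v, le v (2 * (N k : ℤ)) → v ≠ 0 → ∀ (x : S) (c : ℝ),
        x ∈ arcC c (9 / N (k + 1)) → x + sh a b v ∉ arcC c (9 / N (k + 1))) := by
  -- the sets `B`
  have hBex : ∀ N : ℕ, ∃ B : Set S, 1 ≤ N → (IsOpen B ∧ volume (frontier B) = 0 ∧
      (∀ x ∈ B, ∀ v, le v ((64 * N ^ 2 : ℕ) : ℤ) → v ≠ 0 → x + sh a b v ∉ B) ∧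
      RichFor a b B (Ghat N) (64 * N ^ 2) (1 / N)) := by
    intro N
    by_cases hN : 1 ≤ N
    · have hN' : (0 : ℝ) < N := by exact_mod_cast hN
      obtain ⟨B, hB⟩ := hrich (Ghat N) (64 * N ^ 2) (1 / N) (by positivity)
      exact ⟨B, fun _ => hB⟩
    · exact ⟨∅, fun h => absurd h hN⟩
  choose B hB using hBex
  -- the numbers `D`
  have hDex : ∀ N : ℕ, ∃ D : ℕ, 3 ≤ N → Hit a N → 2 * N ≤ D ∧ D < 3 * N ∧
      ∃ t : ℝ, 0 ≤ t ∧ t ≤ 3 / N ∧ D • (a : S) = ((1 / 2 + t : ℝ) : S) := by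
    intro N
    by_cases hN : 3 ≤ N ∧ Hit a N
    · obtain ⟨hN3, hH⟩ := hN
      have hN' : (3 : ℝ) ≤ N := by exact_mod_cast hN3
      have hN0 : (0 : ℝ) < N := by linarith
      obtain ⟨j, hj, hjm⟩ := hH.2.1 ((2 * N) • (a : S)) (1 / 2) (3 / N)
        (by rw [div_le_one hN0]; exact hN') (by rw [mul_div_cancel₀ _ hN0.ne'])
      refine ⟨2 * N + j, fun _ _ => ⟨by omega, by omega, ?_⟩⟩
      obtain ⟨t, ht, hte⟩ := hjm
      refine ⟨t - 1 / 2, by linarith [ht.1], by linarith [ht.2], ?_⟩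
      rw [add_nsmul, ← hte]
      simp
    · exact ⟨0, fun h1 h2 => absurd ⟨h1, h2⟩ hN⟩
  choose D hD using hDex
  let Bx : ℕ → Finset (ℤ × ℤ) := fun N => (Finset.Ico (0 : ℤ) N) ×ˢ (Finset.Ico (0 : ℤ) N)
  let P0 : ℕ → Set S := fun N => arcO (1 / 8 + 3 / N) (3 / N) ∩
    ⋃ v ∈ Bx N, {x | x - sh a b v ∈ B N}
  have hP0 : ∀ N x, x ∈ P0 N ↔ x ∈ arcO (1 / 8 + 3 / N) (3 / N) ∧
        ∃ v, inBox v N ∧ x - sh a b v ∈ B N := by
    intro N x
    show (x ∈ arcO (1 / 8 + 3 / N) (3 / N) ∧ x ∈ ⋃ v ∈ Bx N, {x | x - sh a b v ∈ B N}) ↔ _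
    refine and_congr Iff.rfl ?_
    simp only [mem_iUnion, mem_setOf_eq, exists_prop]
    refine exists_congr fun v => and_congr ?_ Iff.rfl
    simp only [Bx, Finset.mem_product, Finset.mem_Ico, inBox]
    tauto
  have hP0o : ∀ N, 1 ≤ N → IsOpen (P0 N) := by
    intro N hN
    refine (c13_arcO_open _ _).inter (isOpen_biUnion fun v _ => ?_)
    exact (hB N hN).1.preimage (continuous_id.sub continuous_const)
  have hP0f : ∀ N, 1 ≤ N → volume (frontier (P0 N)) = 0 := by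
    intro N hN
    exact c13_inter (c13_arcO_frontier _ _)
      (c13_biUnion _ _ fun v _ => c13_shift (hB N hN).2.1 _)
  let P : ℕ → Set S := fun N => interior (closure (P0 N))
  have hPf : ∀ N, 1 ≤ N → volume (frontier (P N)) = 0 := fun N hN =>
    measure_mono_null (frontier_interior_subset.trans frontier_closure_subset) (hP0f N hN)
  -- the relation
  let r : ℕ → ℕ → Prop := fun N N' => 4 * N ≤ N' ∧
    (∀ v, le v (2 * (N : ℤ)) → v ≠ 0 → ∀ (x : S) (c : ℝ),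
        x ∈ arcC c (9 / N') → x + sh a b v ∉ arcC c (9 / N')) ∧
    (∀ x, |∑ v ∈ (Finset.Ico (0 : ℤ) N') ×ˢ (Finset.Ico (0 : ℤ) N'),
        ((if x + sh a b v ∈ P N then 1 else 0 : ℝ) -
          (if x + sh a b (v - ((D N : ℤ), 0)) ∈ P N then 1 else 0))| ≤ N' / (8 * N))
  have hr : ∀ N, 1000 ≤ N → Hit a N → ∃ N1 : ℕ, ∀ N' : ℕ, N1 ≤ N' → r N N' := by
    intro N hN hH
    obtain ⟨hD1, hD2, -⟩ := hD N (by omega) hH
    obtain ⟨M0, hM0⟩ := c13_ineq a b hub (P N) (hPf N (by omega)) N (D N) (by omega) (by omega)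
    obtain ⟨η, hη, hηs⟩ := c13_small hfree
      ((Finset.Icc (-(2 * (N : ℤ))) (2 * N)) ×ˢ (Finset.Icc (-(2 * (N : ℤ))) (2 * N)))
    obtain ⟨M1, hM1⟩ := exists_nat_gt (9 / η)
    refine ⟨max (4 * N) (max M0 (max M1 1)), fun N' hN' => ?_⟩
    have h1 : 4 * N ≤ N' := (le_max_left _ _).trans hN'
    have h2 : M0 ≤ N' := (le_max_left _ _).trans ((le_max_right _ _).trans hN')
    have h3 : M1 ≤ N' := (le_max_left _ _).trans ((le_max_right _ _).trans
      ((le_max_right _ _).trans hN'))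
    have h4 : 1 ≤ N' := (le_max_right _ _).trans ((le_max_right _ _).trans
      ((le_max_right _ _).trans hN'))
    refine ⟨h1, ?_, hM0 N' h2⟩
    intro v hv hv0 x c hx hx'
    have h5 := c13_arc hx hx'
    have h6 := hηs v (by
      obtain ⟨ha, hb⟩ := hv
      simp only [Finset.mem_product, Finset.mem_Icc]
      exact ⟨abs_le.1 ha, abs_le.1 hb⟩) hv0
    have h7 : (0 : ℝ) < N' := by exact_mod_cast h4
    have h8 : (9 / η : ℝ) < N' := hM1.trans_le (by exact_mod_cast h3)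
    have h9 : 9 / (N' : ℝ) < η := by
      rw [div_lt_iff₀ hη] at h8
      rw [div_lt_iff₀ h7]
      linarith [mul_comm η (N' : ℝ)]
    linarith
  obtain ⟨f, hf1, hf2⟩ := exists_seq_of_forall_finset_exists
    (fun N : ℕ => 1000 ≤ N ∧ Hit a N) r (by
      intro s hs
      have h1 : ∀ N : ℕ, ∃ N1 : ℕ, N ∈ s → ∀ N' : ℕ, N1 ≤ N' → r N N' := by
        intro N
        by_cases hN : N ∈ s
        · obtain ⟨N1, h⟩ := hr N (hs N hN).1 (hs N hN).2
          exact ⟨N1, fun _ => h⟩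
        · exact ⟨0, fun h => absurd h hN⟩
      choose N1 hN1 using h1
      obtain ⟨M, hM, hH⟩ := hhit (max 1000 (s.sup N1))
      refine ⟨M, ⟨(le_max_left _ _).trans hM, hH⟩, fun N hN => ?_⟩
      exact hN1 N hN M ((Finset.le_sup hN).trans ((le_max_right _ _).trans hM)))
  have hf1' : ∀ k, 1 ≤ f k := fun k => le_trans (by norm_num) (hf1 k).1
  refine ⟨f, fun k => D (f k), fun k => B (f k), fun k => P0 (f k), fun k => P (f k),
    (hf1 0).1, fun k => (hf2 k (k + 1) (Nat.lt_succ_self k)).1, fun k => (hf1 k).2, ?_, ?_, ?_, ?_,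
    fun k x => hP0 (f k) x, fun k => hP0o _ (hf1' k), fun k => hP0f _ (hf1' k), fun k => rfl,
    fun j k hjk => (hf2 j k hjk).2.2, fun k => (hf2 k (k + 1) (Nat.lt_succ_self k)).2.1⟩
  · intro k
    have h := hD (f k) (le_trans (by norm_num) (hf1 k).1) (hf1 k).2
    exact ⟨h.1, h.2.1⟩
  · intro k
    exact (hD (f k) (le_trans (by norm_num) (hf1 k).1) (hf1 k).2).2.2
  · intro k x hx v hv
    refine (hB (f k) (hf1' k)).2.2.1 x hx v ?_
    push_cast
    exact hv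
  · intro k
    exact (hB (f k) (hf1' k)).2.2.2

end C13
end Geo

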