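import Pool.Agent.Helper183.Geo.Base

set_option autoImplicit false
open MeasureTheory Set
namespace Geo
namespace C14
theorem ub_inj {s t : ℝ} (hs : s ∈ Ico (0 : ℝ) 1) (ht : t ∈ Ico (0 : ℝ) 1)
    (h : (s : S) = (t : S)) : s = t := by
  refine (AddCircle.coe_eq_coe_iff_of_mem_Ico (p := (1 : ℝ)) (a := 0) ?_ ?_).1 h
  · simpa using hs
  · simpa using ht

theorem ub_open {U : Set S} (hU : IsOpen U) {t : ℝ} (ht : (t : S) ∈ U) :
    ∃ ε > 0, ∀ s : ℝ, |s - t| < ε → (s : S) ∈ U := by
  have hc : Continuous (fun t : ℝ => (t : S)) := AddCircle.continuous_mk' 1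
  have h1 : IsOpen ((fun t : ℝ => (t : S)) ⁻¹' U) := hU.preimage hc
  obtain ⟨ε, hε, h2⟩ := Metric.isOpen_iff.1 h1 t ht
  exact ⟨ε, hε, fun s hs => h2 (by rwa [Metric.mem_ball, Real.dist_eq])⟩

theorem ub_closed (a b : ℝ) : IsClosed ((fun t : ℝ => (t : S)) '' Icc a b) :=
  (isCompact_Icc.image (AddCircle.continuous_mk' 1)).isClosed

theorem ub_isOpen (c l : ℝ) : IsOpen (arcO c l) :=
  QuotientAddGroup.isOpenMap_coe _ isOpen_Ioo

theorem ub_sub (c l : ℝ) : closure (arcO c l) ⊆ (fun t : ℝ => (t : S)) '' Icc c (c + l) :=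
  closure_minimal (image_mono Ioo_subset_Icc_self) (ub_closed _ _)

theorem ub_arc (c l : ℝ) (hc : 0 < c) (hl : c + l < 1) (hl0 : 0 < l) :
    interior (closure (arcO c l)) ⊆ arcO c l := by
  intro y hy
  obtain ⟨t, ht, rfl⟩ := ub_sub c l (interior_subset hy)
  obtain ⟨ε, hε, h⟩ := ub_open isOpen_interior hy
  refine ⟨t, ⟨?_, ?_⟩, rfl⟩
  · by_contra hle
    have htc : t = c := le_antisymm (not_lt.1 hle) ht.1
    subst htc
    set δ := min (ε / 2) (t / 2) with hδ
    have hδ0 : 0 < δ := lt_min (by linarith) (by linarith)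
    have h1 := h (t - δ) (by
      rw [show t - δ - t = -δ by ring, abs_neg, abs_of_pos hδ0]
      exact (min_le_left _ _).trans_lt (by linarith))
    obtain ⟨s, hs, hst⟩ := ub_sub t l (interior_subset h1)
    have h2 : s = t - δ := ub_inj ⟨by linarith [hs.1], by linarith [hs.2]⟩
      ⟨by linarith [min_le_right (ε / 2) (t / 2)], by linarith⟩ hst
    linarith [hs.1]
  · by_contra hle
    have htc : t = c + l := le_antisymm ht.2 (not_lt.1 hle)
    set δ := min (ε / 2) ((1 - (c + l)) / 2) with hδ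
    have hδ0 : 0 < δ := lt_min (by linarith) (by linarith)
    have h1 := h (t + δ) (by
      rw [show t + δ - t = δ by ring, abs_of_pos hδ0]
      exact (min_le_left _ _).trans_lt (by linarith))
    obtain ⟨s, hs, hst⟩ := ub_sub c l (interior_subset h1)
    have h2 : s = t + δ := ub_inj ⟨by linarith [hs.1], by linarith [hs.2]⟩
      ⟨by linarith, by linarith [min_le_right (ε / 2) ((1 - (c + l)) / 2)]⟩ hst
    linarith [hs.2]

/-- a union of regular open sets in small arcs accumulating at one point is a body -/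
theorem union_body (N : ℕ → ℕ) (hN0 : 1000 ≤ N 0) (hN : ∀ k, 4 * N k ≤ N (k + 1)) (p : ℝ)
    (hp : p = 1 / 8 ∨ p = 5 / 8) (P : ℕ → Set S) (hreg : ∀ k, interior (closure (P k)) = P k)
    (hnull : ∀ k, volume (frontier (P k)) = 0) (harc : ∀ k, P k ⊆ arcC (p + 3 / N k) (6 / N k)) :
    interior (closure (arcO (1 / 4) (1 / 4) ∪ ⋃ k, P k)) = arcO (1 / 4) (1 / 4) ∪ ⋃ k, P k ∧
    volume (frontier (arcO (1 / 4) (1 / 4) ∪ ⋃ k, P k)) = 0 ∧
    arcO (1 / 4) (1 / 4) ∪ ⋃ k, P k ⊆ arcO (1 / 16) (7 / 8) := by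
  -- numbers
  have hNk : ∀ k, 1000 * 4 ^ k ≤ N k := by
    intro k
    induction k with
    | zero => simpa using hN0
    | succ k ih => rw [pow_succ]; linarith [hN k]
  have hmono : Monotone N := monotone_nat_of_le_succ (fun k => by linarith [hN k])
  have hlt : ∀ i j, i < j → 4 * N i ≤ N j := fun i j hij => (hN i).trans (hmono hij)
  have hR : ∀ k, (1000 : ℝ) ≤ N k := by
    intro k
    have h1 : 1000 ≤ N k := by
      calc 1000 ≤ 1000 * 4 ^ k := by
            have : 1 ≤ 4 ^ k := Nat.one_le_pow _ _ (by norm_num)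
            linarith
        _ ≤ N k := hNk k
    exact_mod_cast h1
  have hpos : ∀ k, (0 : ℝ) < N k := fun k => by linarith [hR k]
  have h9 : ∀ k, (9 : ℝ) / N k ≤ 9 / 1000 := fun k =>
    div_le_div_of_nonneg_left (by norm_num) (by norm_num) (hR k)
  have h3 : ∀ k, (0 : ℝ) < 3 / N k := fun k => div_pos (by norm_num) (hpos k)
  have h39 : ∀ k, (3 : ℝ) / N k + 6 / N k = 9 / N k := fun k => by rw [← add_div]; norm_num
  have hsep : ∀ i j, i < j → (9 : ℝ) / N j < 3 / N i := by
    intro i j hij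
    have h1 : (4 : ℝ) * N i ≤ N j := by exact_mod_cast hlt i j hij
    rw [div_lt_div_iff₀ (hpos j) (hpos i)]
    nlinarith [hpos i]
  have hp1 : 1 / 8 ≤ p := by rcases hp with h | h <;> rw [h] <;> norm_num
  have hp2 : p ≤ 5 / 8 := by rcases hp with h | h <;> rw [h] <;> norm_num
  have hpI : ∀ t : ℝ, |t - p| ≤ 1 / 100 → ¬ (1 / 4 ≤ t ∧ t ≤ 1 / 2) := by
    rintro t ht ⟨h1, h2⟩
    rw [abs_le] at ht
    rcases hp with h | h
    · rw [h] at ht; linarith [ht.2]
    · rw [h] at ht; linarith [ht.1]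
  -- sets
  set e : ℝ → S := fun t : ℝ => (t : S) with he
  have hec : Continuous e := AddCircle.continuous_mk' 1
  set CI : Set S := e '' Icc (1 / 4) (1 / 4 + 1 / 4) with hCI
  have hCIc : IsClosed CI := ub_closed _ _
  set A : ℕ → Set S := fun m => e '' Icc p (p + 9 / N m) with hA
  have hAc : ∀ m, IsClosed (A m) := fun m => ub_closed _ _
  set J : ℕ → Set S := fun k => arcC (p + 3 / N k) (6 / N k) with hJ
  have hJc : ∀ k, IsClosed (J k) := fun k => ub_closed _ _
  have hPJ : ∀ k, closure (P k) ⊆ J k := fun k => closure_minimal (harc k) (hJc k)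
  have hJA : ∀ m k, m ≤ k → J k ⊆ A m := by
    rintro m k hmk _ ⟨t, ht, rfl⟩
    refine ⟨t, ⟨by linarith [ht.1, h3 k], ?_⟩, rfl⟩
    have h1 := ht.2
    rw [add_assoc, h39] at h1
    have h2 : (9 : ℝ) / N k ≤ 9 / N m :=
      div_le_div_of_nonneg_left (by norm_num) (hpos m) (by exact_mod_cast hmono hmk)
    linarith
  have hIop : IsOpen (arcO (1 / 4) (1 / 4)) := ub_isOpen _ _
  have hICI : closure (arcO (1 / 4) (1 / 4)) ⊆ CI := ub_sub _ _
  have hPop : ∀ k, IsOpen (P k) := fun k => by rw [← hreg k]; exact isOpen_interior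
  set W : Set S := arcO (1 / 4) (1 / 4) ∪ ⋃ k, P k with hW
  have hWop : IsOpen W := hIop.union (isOpen_iUnion hPop)
  -- range facts
  have hCI0 : ∀ t : ℝ, t ∈ Icc (1 / 4 : ℝ) (1 / 4 + 1 / 4) → t ∈ Ico (0 : ℝ) 1 := fun t ht =>
    ⟨by linarith [ht.1], by linarith [ht.2]⟩
  have hA0 : ∀ m, ∀ t : ℝ, t ∈ Icc p (p + 9 / N m) → t ∈ Ico (0 : ℝ) 1 := fun m t ht =>
    ⟨by linarith [ht.1], by linarith [ht.2, h9 m]⟩
  have hJ0 : ∀ m, ∀ t : ℝ, t ∈ Icc (p + 3 / N m) (p + 3 / N m + 6 / N m) → t ∈ Ico (0 : ℝ) 1 :=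
    fun m t ht => ⟨by linarith [ht.1, h3 m], by linarith [ht.2, h9 m, h39 m]⟩
  have hACI : ∀ y, y ∈ A 0 → y ∉ CI := by
    rintro y ⟨t, ht, hty⟩ ⟨s, hs, hsy⟩
    have h1 : s = t := ub_inj (hCI0 s hs) (hA0 0 t ht) (hsy.trans hty.symm)
    subst h1
    refine hpI s ?_ ⟨hs.1, by linarith [hs.2]⟩
    rw [abs_le]
    exact ⟨by linarith [ht.1], by linarith [ht.2, h9 0]⟩
  -- closure covering
  have hcov : ∀ m, closure W ⊆ closure (arcO (1 / 4) (1 / 4)) ∪ (⋃ j ∈ Finset.range m, closure (P j)) ∪ A m := by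
    intro m
    have hcl : IsClosed (closure (arcO (1 / 4) (1 / 4)) ∪ (⋃ j ∈ Finset.range m, closure (P j)) ∪ A m) :=
      (isClosed_closure.union (isClosed_biUnion_finset (fun j _ => isClosed_closure))).union (hAc m)
    refine closure_minimal ?_ hcl
    rintro y (hy | hy)
    · exact Or.inl (Or.inl (subset_closure hy))
    · obtain ⟨k, hk⟩ := mem_iUnion.1 hy
      by_cases hkm : k < m
      · refine Or.inl (Or.inr ?_)
        exact mem_biUnion (Finset.mem_coe.2 (Finset.mem_range.2 hkm)) (subset_closure hk)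
      · exact Or.inr (hJA m k (not_lt.1 hkm) (harc k hk))
  have hclW : ∀ y ∈ closure W, y ∈ closure (arcO (1 / 4) (1 / 4)) ∨ (∃ k, y ∈ closure (P k)) ∨
      y = e p := by
    intro y hy
    by_contra hcon
    push Not at hcon
    obtain ⟨h1, h2, h3'⟩ := hcon
    have hyA : ∀ m, y ∈ A m := by
      intro m
      rcases hcov m hy with (h | h) | h
      · exact absurd h h1
      · simp only [mem_iUnion] at h
        obtain ⟨j, _, hj⟩ := h
        exact absurd hj (h2 j)
      · exact h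
    obtain ⟨t, ht, hty⟩ := hyA 0
    have hle : ∀ m, t ≤ p + 9 / N m := by
      intro m
      obtain ⟨s, hs, hsy⟩ := hyA m
      have h4 : s = t := ub_inj (hA0 m s hs) (hA0 0 t ht) (hsy.trans hty.symm)
      rw [← h4]; exact hs.2
    have htp : t = p := by
      refine le_antisymm ?_ ht.1
      refine le_of_forall_pos_le_add ?_
      intro ε hε
      obtain ⟨m, hm⟩ := exists_nat_gt (9 / ε)
      have h5 : (m : ℝ) ≤ N m := by
        have : m ≤ N m := by
          calc m ≤ 4 ^ m := (Nat.lt_pow_self (by norm_num)).le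
            _ ≤ 1000 * 4 ^ m := Nat.le_mul_of_pos_left _ (by norm_num)
            _ ≤ N m := hNk m
        exact_mod_cast this
      have h6 : (9 : ℝ) / N m ≤ ε := by
        rw [div_le_iff₀ (hpos m)]
        rw [div_lt_iff₀ hε] at hm
        nlinarith
      linarith [hle m]
    exact h3' (by rw [← hty, htp])
  -- p itself is not interior
  have hpint : e p ∉ interior (closure W) := by
    intro hpi
    obtain ⟨ε, hε, h⟩ := ub_open isOpen_interior hpi
    set δ := min (ε / 2) (1 / 100) with hδ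
    have hδ0 : 0 < δ := lt_min (by linarith) (by norm_num)
    have hδ1 : δ ≤ 1 / 100 := min_le_right _ _
    have h1 := h (p - δ) (by
      rw [show p - δ - p = -δ by ring, abs_neg, abs_of_pos hδ0]
      exact (min_le_left _ _).trans_lt (by linarith))
    have h2 := hcov 0 (interior_subset h1)
    have hpd : p - δ ∈ Ico (0 : ℝ) 1 := ⟨by linarith, by linarith⟩
    rcases h2 with (h2 | h2) | h2
    · obtain ⟨s, hs, hst⟩ := hICI h2
      have h4 : s = p - δ := ub_inj (hCI0 s hs) hpd hst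
      refine hpI s ?_ ⟨hs.1, by linarith [hs.2]⟩
      rw [h4, show p - δ - p = -δ by ring, abs_neg, abs_of_pos hδ0]
      exact hδ1
    · simp at h2
    · obtain ⟨s, hs, hst⟩ := h2
      have h4 : s = p - δ := ub_inj (hA0 0 s hs) hpd hst
      linarith [hs.1]
  refine ⟨Subset.antisymm ?_ hWop.subset_interior_closure, ?_, ?_⟩
  · intro y hy
    rcases hclW y (interior_subset hy) with h | ⟨k, hk⟩ | h
    · left
      refine ub_arc _ _ (by norm_num) (by norm_num) (by norm_num) ?_
      have hyA : y ∉ A 0 := fun h1 => hACI y h1 (hICI h)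
      have hopen : IsOpen (interior (closure W) ∩ (A 0)ᶜ) := isOpen_interior.inter (hAc 0).isOpen_compl
      refine mem_interior.2 ⟨_, ?_, hopen, ⟨hy, hyA⟩⟩
      rintro z ⟨hz1, hz2⟩
      rcases hcov 0 (interior_subset hz1) with (h2 | h2) | h2
      · exact h2
      · simp at h2
      · exact absurd h2 hz2
    · right
      refine mem_iUnion.2 ⟨k, ?_⟩
      rw [← hreg k]
      have hyJ := hPJ k hk
      set F : Set S := CI ∪ (⋃ j ∈ Finset.range k, J j) ∪ A (k + 1) with hF
      have hFc : IsClosed F :=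
        (hCIc.union (isClosed_biUnion_finset (fun j _ => hJc j))).union (hAc _)
      have hyF : y ∉ F := by
        rintro ((h1 | h1) | h1)
        · exact hACI y (hJA 0 k (Nat.zero_le _) hyJ) h1
        · simp only [mem_iUnion] at h1
          obtain ⟨j, hj, hyj⟩ := h1
          have hjk : j < k := Finset.mem_range.1 hj
          obtain ⟨s, hs, hsy⟩ := hyJ
          obtain ⟨t, ht, hty⟩ := hyj
          have h4 : s = t := ub_inj (hJ0 k s hs) (hJ0 j t ht) (hsy.trans hty.symm)
          linarith [hs.2, ht.1, hsep j k hjk, h39 k]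
        · obtain ⟨s, hs, hsy⟩ := hyJ
          obtain ⟨t, ht, hty⟩ := h1
          have h4 : s = t := ub_inj (hJ0 k s hs) (hA0 (k + 1) t ht) (hsy.trans hty.symm)
          linarith [hs.1, ht.2, hsep k (k + 1) (Nat.lt_succ_self k)]
      have hopen : IsOpen (interior (closure W) ∩ Fᶜ) := isOpen_interior.inter hFc.isOpen_compl
      refine mem_interior.2 ⟨_, ?_, hopen, ⟨hy, hyF⟩⟩
      rintro z ⟨hz1, hz2⟩
      rcases hcov (k + 1) (interior_subset hz1) with (h2 | h2) | h2
      · exact absurd (Or.inl (Or.inl (hICI h2))) hz2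
      · simp only [mem_iUnion] at h2
        obtain ⟨j, hj, hzj⟩ := h2
        rcases Nat.lt_succ_iff_lt_or_eq.1 (Finset.mem_range.1 hj) with hjk | hjk
        · refine absurd (Or.inl (Or.inr ?_)) hz2
          exact mem_biUnion (Finset.mem_coe.2 (Finset.mem_range.2 hjk)) (hPJ j hzj)
        · rw [hjk] at hzj; exact hzj
      · exact absurd (Or.inr h2) hz2
    · exact absurd (h ▸ hy) hpint
  · have hfr : frontier W ⊆ {e (1 / 4), e (1 / 2), e p} ∪ ⋃ k, frontier (P k) := by
      intro y hy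
      rw [hWop.frontier_eq] at hy
      rcases hclW y hy.1 with h | ⟨k, hk⟩ | h
      · left
        obtain ⟨t, ht, rfl⟩ := hICI h
        by_cases h1 : t = 1 / 4
        · rw [h1]; simp
        by_cases h2 : t = 1 / 2
        · rw [h2]; simp
        exfalso
        apply hy.2
        left
        exact ⟨t, ⟨lt_of_le_of_ne ht.1 (Ne.symm h1), lt_of_le_of_ne ht.2 (by
          intro h3; apply h2; rw [h3]; norm_num)⟩, rfl⟩
      · right
        refine mem_iUnion.2 ⟨k, ?_⟩
        rw [(hPop k).frontier_eq]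
        exact ⟨hk, fun h => hy.2 (Or.inr (mem_iUnion.2 ⟨k, h⟩))⟩
      · left
        rw [h]; simp
    refine measure_mono_null hfr ?_
    rw [measure_union_null_iff]
    refine ⟨?_, measure_iUnion_null hnull⟩
    have hs : ∀ x : S, volume ({x} : Set S) = 0 := by
      intro x
      have h1 := AddCircle.volume_closedBall (T := 1) (x := x) 0
      rw [Metric.closedBall_zero] at h1
      rw [h1]
      simp
    refine measure_mono_null (t := {e (1 / 4)} ∪ ({e (1 / 2)} ∪ {e p})) ?_ ?_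
    · intro z hz
      simp only [mem_insert_iff, mem_singleton_iff] at hz
      rcases hz with hz | hz | hz
      · exact Or.inl hz
      · exact Or.inr (Or.inl hz)
      · exact Or.inr (Or.inr hz)
    · rw [measure_union_null_iff, measure_union_null_iff]
      exact ⟨hs _, hs _, hs _⟩
  · rintro y (⟨t, ht, rfl⟩ | hy)
    · exact ⟨t, ⟨by linarith [ht.1], by linarith [ht.2]⟩, rfl⟩
    · obtain ⟨k, hk⟩ := mem_iUnion.1 hy
      obtain ⟨t, ht, rfl⟩ := harc k hk
      exact ⟨t, ⟨by linarith [ht.1, h3 k], by linarith [ht.2, h9 k, h39 k]⟩, rfl⟩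

/-- finite approximation property of regularizations -/
theorem regularize {P0 : ℕ → Set S} (ho : ∀ k, IsOpen (P0 k)) {G : Type*} (act : G → S ≃ₜ S)
    (x : S) (Rel : Finset (ℕ × G)) (h : ∀ r ∈ Rel, act r.2 x ∈ interior (closure (P0 r.1))) :
    ∃ x', ∀ r ∈ Rel, act r.2 x' ∈ P0 r.1 := by
  classical
  have key : ∀ (R : Finset (ℕ × G)) (V : Set S), IsOpen V → V.Nonempty →
      (∀ r ∈ R, ∀ y ∈ V, act r.2 y ∈ closure (P0 r.1)) → ∃ x' ∈ V, ∀ r ∈ R, act r.2 x' ∈ P0 r.1 := by
    intro R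
    induction R using Finset.induction_on with
    | empty =>
      rintro V - ⟨y, hy⟩ -
      exact ⟨y, hy, by simp⟩
    | insert r R hr ih =>
      rintro V hV ⟨y, hy⟩ hcl
      have h1 : act r.2 y ∈ closure (P0 r.1) := hcl r (Finset.mem_insert_self _ _) y hy
      have hop : IsOpen ((act r.2) '' V) := (act r.2).isOpenMap V hV
      obtain ⟨z, ⟨w, hw, rfl⟩, hz⟩ := mem_closure_iff.1 h1 _ hop ⟨y, hy, rfl⟩
      obtain ⟨x', hx', hx''⟩ := ih (V ∩ (act r.2) ⁻¹' (P0 r.1))
        (hV.inter ((ho r.1).preimage (act r.2).continuous)) ⟨w, hw, hz⟩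
        (fun r' hr' y' hy' => hcl r' (Finset.mem_insert_of_mem hr') y' hy'.1)
      refine ⟨x', hx'.1, ?_⟩
      intro r' hr'
      rcases Finset.mem_insert.1 hr' with h2 | h2
      · rw [h2]; exact hx'.2
      · exact hx'' r' h2
  have hV : IsOpen (⋂ r ∈ Rel, (act r.2) ⁻¹' (interior (closure (P0 r.1)))) :=
    isOpen_biInter_finset (fun r _ => isOpen_interior.preimage (act r.2).continuous)
  obtain ⟨x', _, hx'⟩ := key Rel _ hV ⟨x, by simpa using h⟩ (by
    intro r hr y hy
    simp only [mem_iInter] at hy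
    exact interior_subset (hy r hr))
  exact ⟨x', hx'⟩
end C14
end Geo

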