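import Pool.Agent.Helper183.Geo.Base

set_option autoImplicit false
open MeasureTheory Set
namespace Geo
namespace C15

namespace TL

/-- the projection -/
def pr (t : ℝ) : S := (t : S)

theorem pr_cont : Continuous pr := AddCircle.continuous_mk' (1 : ℝ)

theorem pr_open : IsOpenMap pr := QuotientAddGroup.isOpenMap_coe

theorem pr_inj {s t : ℝ} (hs : s ∈ Ioc (0 : ℝ) 1) (ht : t ∈ Ioc (0 : ℝ) 1) (h : pr s = pr t) :
    s = t := by
  have hs' : s ∈ Ioc (0 : ℝ) (0 + 1) := by simpa using hs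
  have ht' : t ∈ Ioc (0 : ℝ) (0 + 1) := by simpa using ht
  exact (AddCircle.coe_eq_coe_iff_of_mem_Ioc hs' ht').1 h

theorem pr_injo {s t : ℝ} (hs : s ∈ Ioo (0 : ℝ) 1) (ht : t ∈ Ioo (0 : ℝ) 1) (h : pr s = pr t) :
    s = t := pr_inj ⟨hs.1, hs.2.le⟩ ⟨ht.1, ht.2.le⟩ h

theorem pr_add (s t : ℝ) : pr (s + t) = pr s + pr t := AddCircle.coe_add _ _ _
theorem pr_neg (s : ℝ) : pr (-s) = - pr s := AddCircle.coe_neg (1 : ℝ)

/-- the lift -/
def lift (A : Set S) : Set ℝ := {t | t ∈ Ioo (0 : ℝ) 1 ∧ pr t ∈ A}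

theorem Icc_sub : Icc (1 / 16 : ℝ) (15 / 16) ⊆ Ioo (0 : ℝ) 1 := by
  intro t ht
  exact ⟨by linarith [ht.1], by linarith [ht.2]⟩

theorem exists_lift {A : Set S} (hA2 : A ⊆ arcO (1 / 16) (7 / 8)) {x : S} (hx : x ∈ A) :
    ∃ t ∈ lift A, pr t = x := by
  obtain ⟨t, ht, rfl⟩ := hA2 hx
  have ht' : t ∈ Ioo (0 : ℝ) 1 := ⟨by linarith [ht.1], by linarith [ht.2]⟩
  exact ⟨t, ⟨ht', hx⟩, rfl⟩

theorem lift_sub {A : Set S} (hA2 : A ⊆ arcO (1 / 16) (7 / 8)) :
    lift A ⊆ Icc (1 / 16 : ℝ) (15 / 16) := by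
  rintro t ⟨ht, htA⟩
  obtain ⟨s, hs, hst⟩ := hA2 htA
  have hs' : s ∈ Ioo (0 : ℝ) 1 := ⟨by linarith [hs.1], by linarith [hs.2]⟩
  have : s = t := pr_injo hs' ht hst
  subst this
  exact ⟨hs.1.le, by linarith [hs.2]⟩

theorem closure_lift_sub {A : Set S} (hA2 : A ⊆ arcO (1 / 16) (7 / 8)) :
    closure (lift A) ⊆ Icc (1 / 16 : ℝ) (15 / 16) :=
  closure_minimal (lift_sub hA2) isClosed_Icc

theorem lift_open {A : Set S} (hA : IsOpen A) : IsOpen (lift A) :=
  isOpen_Ioo.inter (hA.preimage pr_cont)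

theorem null_pre {Z : Set S} (hZ : volume Z = 0) : volume (pr ⁻¹' Z ∩ Ioo (0 : ℝ) 1) = 0 := by
  have h1 := (UnitAddCircle.measurePreserving_mk 0).quasiMeasurePreserving.preimage_null hZ
  rw [Measure.restrict_apply' measurableSet_Ioc] at h1
  refine measure_mono_null ?_ h1
  rintro t ⟨h2, h3⟩
  exact ⟨h2, h3.1, by linarith [h3.2]⟩

theorem null_image {N : Set ℝ} (hN : IsCompact N) (hsub : N ⊆ Ioo (0 : ℝ) 1)
    (h0 : volume N = 0) : volume (pr '' N) = 0 := by
  have hc : IsCompact (pr '' N) := hN.image pr_cont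
  have hm : MeasurableSet (pr '' N) := hc.isClosed.measurableSet
  have h1 := (UnitAddCircle.measurePreserving_mk 0).measure_preimage hm.nullMeasurableSet
  rw [← h1, Measure.restrict_apply' measurableSet_Ioc]
  refine measure_mono_null ?_ h0
  rintro t ⟨⟨s, hs, hst⟩, h3⟩
  have hs' := hsub hs
  have : s = t := pr_inj ⟨hs'.1, hs'.2.le⟩ ⟨h3.1, by linarith [h3.2]⟩ hst
  rw [← this]; exact hs

theorem lift_body {A : Set S} (hA : interior (closure A) = A) (hA' : volume (frontier A) = 0)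
    (hA2 : A ⊆ arcO (1 / 16) (7 / 8)) : Body (lift A) := by
  have hAo : IsOpen A := by rw [← hA]; exact isOpen_interior
  have hlo := lift_open hAo
  refine ⟨?_, ?_, ?_⟩
  · exact (Metric.isBounded_Icc _ _).subset (lift_sub hA2)
  · apply Subset.antisymm
    · intro t ht
      have htI : t ∈ Ioo (0 : ℝ) 1 := Icc_sub (closure_lift_sub hA2 (interior_subset ht))
      refine ⟨htI, ?_⟩
      rw [← hA]
      have h1 : IsOpen (pr '' interior (closure (lift A))) := pr_open _ isOpen_interior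
      have h2 : pr '' interior (closure (lift A)) ⊆ closure A := by
        rintro _ ⟨s, hs, rfl⟩
        have h3 : pr s ∈ closure (pr '' lift A) :=
          image_closure_subset_closure_image pr_cont ⟨s, interior_subset hs, rfl⟩
        refine closure_mono ?_ h3
        rintro _ ⟨r, hr, rfl⟩
        exact hr.2
      exact interior_maximal h2 h1 ⟨t, ht, rfl⟩
    · exact interior_maximal subset_closure hlo
  · refine measure_mono_null ?_ (null_pre hA')
    intro t ht
    have h1 : t ∈ closure (lift A) := frontier_subset_closure ht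
    have htI : t ∈ Ioo (0 : ℝ) 1 := Icc_sub (closure_lift_sub hA2 h1)
    refine ⟨?_, htI⟩
    have h3 : pr t ∈ closure (pr '' lift A) :=
      image_closure_subset_closure_image pr_cont ⟨t, h1, rfl⟩
    have h4 : pr t ∈ closure A := by
      refine closure_mono ?_ h3
      rintro _ ⟨r, hr, rfl⟩
      exact hr.2
    have h5 : pr t ∉ A := by
      intro h6
      have : t ∈ lift A := ⟨htI, h6⟩
      rw [hlo.frontier_eq] at ht
      exact ht.2 this
    show pr t ∈ frontier A
    rw [hAo.frontier_eq]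
    exact ⟨h4, h5⟩

theorem arbEq_of_finite (A' B' : Set ℝ) (τ : ℝ → ℝ) (hτ : BijOn τ A' B')
    (hfin : ((fun t => τ t - t) '' A').Finite) : ArbEq A' B' := by
  let e := hfin.toFinset.equivFin
  refine ⟨hfin.toFinset.card, fun i => {t | t ∈ A' ∧ τ t - t = (e.symm i : ℝ)},
    fun i => IsometryEquiv.addRight (e.symm i : ℝ), ?_, ?_, ?_, ?_⟩
  · intro i j hij
    refine Set.disjoint_left.2 ?_
    rintro t ⟨-, h1⟩ ⟨-, h2⟩
    apply hij
    have : e.symm i = e.symm j := Subtype.ext (h1.symm.trans h2)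
    exact e.symm.injective this
  · ext t
    simp only [mem_iUnion]
    constructor
    · intro ht
      have hm : τ t - t ∈ hfin.toFinset := by
        rw [Set.Finite.mem_toFinset]
        exact ⟨t, ht, rfl⟩
      refine ⟨e ⟨_, hm⟩, ht, ?_⟩
      rw [Equiv.symm_apply_apply]
    · rintro ⟨i, hi⟩
      exact hi.1
  · intro i j hij
    refine Set.disjoint_left.2 ?_
    rintro y ⟨t, ⟨h1, h2⟩, rfl⟩ ⟨t', ⟨h3, h4⟩, h5⟩
    apply hij
    have e1 : τ t = t + (e.symm i : ℝ) := by linarith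
    have e2 : τ t' = t' + (e.symm j : ℝ) := by linarith
    have h6 : τ t = τ t' := by
      rw [e1, e2]; exact h5.symm
    have h7 := hτ.injOn h1 h3 h6
    subst h7
    have : e.symm i = e.symm j := Subtype.ext (h2.symm.trans h4)
    exact e.symm.injective this
  · ext y
    simp only [mem_iUnion]
    constructor
    · intro hy
      obtain ⟨t, ht, rfl⟩ := hτ.surjOn hy
      have hm : τ t - t ∈ hfin.toFinset := by
        rw [Set.Finite.mem_toFinset]
        exact ⟨t, ht, rfl⟩
      refine ⟨e ⟨_, hm⟩, t, ⟨ht, ?_⟩, ?_⟩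
      · rw [Equiv.symm_apply_apply]
      · show t + ((e.symm (e ⟨_, hm⟩) : hfin.toFinset) : ℝ) = τ t
        rw [Equiv.symm_apply_apply]
        ring
    · rintro ⟨i, t, ⟨h1, h2⟩, rfl⟩
      have : IsometryEquiv.addRight (e.symm i : ℝ) t = τ t := by
        show t + (e.symm i : ℝ) = τ t
        linarith
      show IsometryEquiv.addRight (e.symm i : ℝ) t ∈ B'
      rw [this]
      exact hτ.mapsTo h1

theorem real_isom (g : ℝ ≃ᵢ ℝ) : ∃ c, (∀ t, g t = t + c) ∨ (∀ t, g t = -t + c) := by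
  have hd : ∀ s t, |g s - g t| = |s - t| := by
    intro s t
    have := g.isometry.dist_eq s t
    rwa [Real.dist_eq, Real.dist_eq] at this
  refine ⟨g 0, ?_⟩
  have h1 := hd 1 0
  rw [sub_zero, abs_one] at h1
  have hcase : ∀ t, g t = t + g 0 ∨ g t = -t + g 0 := by
    intro t
    have h := hd t 0
    rw [sub_zero] at h
    rcases abs_eq_abs.1 h with h | h
    · left; linarith
    · right; linarith
  rcases hcase 1 with h | h
  · left
    intro t
    rcases hcase t with h' | h'
    · exact h'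
    · have h2 := hd t 1
      rw [h, h'] at h2
      have h3 : -t + g 0 - (1 + g 0) = -(t + 1) := by ring
      rw [h3, abs_neg] at h2
      rcases abs_eq_abs.1 h2 with h4 | h4
      · exfalso; linarith
      · have : t = 0 := by linarith
        subst this
        simp
  · right
    intro t
    rcases hcase t with h' | h'
    · have h2 := hd t 1
      rw [h, h'] at h2
      have h3 : t + g 0 - (-1 + g 0) = t + 1 := by ring
      rw [h3] at h2
      rcases abs_eq_abs.1 h2 with h4 | h4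
      · exfalso; linarith
      · have : t = 0 := by linarith
        subst this
        simp
    · exact h'

theorem frontier_image_sub {P : Set ℝ} (hP : IsOpen P)
    (hsub : P ⊆ Icc (1 / 16 : ℝ) (15 / 16)) : frontier (pr '' P) ⊆ pr '' frontier P := by
  have hcl : closure P ⊆ Icc (1 / 16 : ℝ) (15 / 16) := closure_minimal hsub isClosed_Icc
  have hcomp : IsCompact (closure P) := isCompact_Icc.of_isClosed_subset isClosed_closure hcl
  have h1 : closure (pr '' P) ⊆ pr '' closure P :=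
    closure_minimal (image_mono subset_closure) (hcomp.image pr_cont).isClosed
  rw [(pr_open P hP).frontier_eq, hP.frontier_eq]
  rintro x ⟨h2, h3⟩
  obtain ⟨t, ht, rfl⟩ := h1 h2
  exact ⟨t, ⟨ht, fun h => h3 ⟨t, h, rfl⟩⟩, rfl⟩

theorem null_frontier {P : Set ℝ} (hfr : volume (frontier P) = 0)
    (hsub : P ⊆ Icc (1 / 16 : ℝ) (15 / 16)) : volume (pr '' frontier P) = 0 := by
  have hcl : closure P ⊆ Icc (1 / 16 : ℝ) (15 / 16) := closure_minimal hsub isClosed_Icc
  have hcomp : IsCompact (frontier P) :=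
    isCompact_Icc.of_isClosed_subset isClosed_frontier (frontier_subset_closure.trans hcl)
  exact null_image hcomp ((frontier_subset_closure.trans hcl).trans Icc_sub) hfr

open Classical in
theorem ae_lemma (A : Set S) (hA2 : A ⊆ arcO (1 / 16) (7 / 8)) {k : ℕ}
    (P : Fin k → Set ℝ) (hopen : ∀ i, IsOpen (P i)) (hfr : ∀ i, volume (frontier (P i)) = 0)
    (hdis : Pairwise fun i j => Disjoint (P i) (P j))
    (hU : lift A = interior (closure (⋃ i, P i))) :
    (∀ i, P i ⊆ lift A) ∧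
      ∀ᵐ x : S, (if x ∈ A then 1 else 0 : ℝ) = ∑ i, (if x ∈ pr '' P i then 1 else 0 : ℝ) := by
  have hsub : ∀ i, P i ⊆ lift A := by
    intro i
    rw [hU]
    exact (subset_iUnion P i).trans (interior_maximal subset_closure (isOpen_iUnion hopen))
  refine ⟨hsub, ?_⟩
  have hZ : volume (⋃ i, pr '' frontier (P i)) = 0 :=
    measure_iUnion_null fun i => null_frontier (hfr i) ((hsub i).trans (lift_sub hA2))
  filter_upwards [compl_mem_ae_iff.2 hZ] with x hx
  by_cases hxA : x ∈ A
  · obtain ⟨t, ht, rfl⟩ := exists_lift hA2 hxA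
    have h1 : t ∈ closure (⋃ i, P i) := by
      have := ht
      rw [hU] at this
      exact interior_subset this
    rw [closure_iUnion_of_finite] at h1
    obtain ⟨i, hi⟩ := mem_iUnion.1 h1
    have hti : t ∈ P i := by
      by_contra hcon
      apply hx
      refine mem_iUnion.2 ⟨i, t, ?_, rfl⟩
      rw [(hopen i).frontier_eq]
      exact ⟨hi, hcon⟩
    rw [if_pos hxA, Finset.sum_eq_single i]
    · rw [if_pos ⟨t, hti, rfl⟩]
    · intro j _ hj
      rw [if_neg]
      rintro ⟨s, hs, hst⟩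
      have : s = t := pr_injo (hsub j hs).1 ht.1 hst
      subst this
      exact Set.disjoint_left.1 (hdis hj) hs hti
    · intro h
      exact absurd (Finset.mem_univ i) h
  · rw [if_neg hxA, Finset.sum_eq_zero]
    intro i _
    rw [if_neg]
    rintro ⟨t, ht, rfl⟩
    exact hxA (hsub i ht).2

end TL

open Classical in
/-- transfer from the circle to the line -/
theorem transfer_line (a b : ℝ) (A B : Set S)
    (hA : interior (closure A) = A) (hA' : volume (frontier A) = 0) (hA2 : A ⊆ arcO (1 / 16) (7 / 8))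
    (hB : interior (closure B) = B) (hB' : volume (frontier B) = 0) (hB2 : B ⊆ arcO (1 / 16) (7 / 8))
    (harb : ∃ (m : ℕ) (φ : S → S), BijOn φ A B ∧ ∀ x ∈ A, ∃ v, le v m ∧ φ x = x + sh a b v)
    (hne : ¬ ∃ (l : ℕ) (Q : Fin l → Set S) (g : Fin l → Bool × S), (∀ i, volume (frontier (Q i)) = 0) ∧
      (∀ᵐ x : S, (if x ∈ A then 1 else 0 : ℝ) = ∑ i, (if x ∈ Q i then 1 else 0 : ℝ)) ∧
      (∀ᵐ x : S, (if x ∈ B then 1 else 0 : ℝ) = ∑ i, (if x ∈ isoS (g i) '' Q i then 1 else 0 : ℝ))) :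
    ∃ A' B' : Set ℝ, Body A' ∧ Body B' ∧ ArbEq A' B' ∧ ¬ BodyEq A' B' := by
  refine ⟨TL.lift A, TL.lift B, TL.lift_body hA hA' hA2, TL.lift_body hB hB' hB2, ?_, ?_⟩
  · obtain ⟨m, φ, hφ, hv⟩ := harb
    have hrep : ∀ t : ℝ, ∃ s : ℝ, t ∈ TL.lift A → s ∈ TL.lift B ∧ TL.pr s = φ (TL.pr t) := by
      intro t
      by_cases ht : t ∈ TL.lift A
      · obtain ⟨s, hs, hs'⟩ := TL.exists_lift hB2 (hφ.mapsTo ht.2)
        exact ⟨s, fun _ => ⟨hs, hs'⟩⟩
      · exact ⟨0, fun h => absurd h ht⟩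
    choose τ hτ using hrep
    apply TL.arbEq_of_finite _ _ τ
    · refine ⟨fun t ht => (hτ t ht).1, ?_, ?_⟩
      · intro t ht t' ht' h
        have h1 := (hτ t ht).2
        have h2 := (hτ t' ht').2
        have h3 : φ (TL.pr t) = φ (TL.pr t') := by
          rw [← h1, ← h2]; exact congrArg TL.pr h
        exact TL.pr_injo ht.1 ht'.1 (hφ.injOn ht.2 ht'.2 h3)
      · intro s hs
        obtain ⟨x, hx, hxs⟩ := hφ.surjOn hs.2
        obtain ⟨t, ht, rfl⟩ := TL.exists_lift hA2 hx
        refine ⟨t, ht, ?_⟩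
        have h1 := hτ t ht
        exact TL.pr_injo h1.1.1 hs.1 (by rw [h1.2, hxs])
    · obtain ⟨M, hM⟩ : ∃ M : ℤ, 1 + (m : ℝ) * (|a| + |b|) ≤ M := ⟨_, Int.le_ceil _⟩
      have hF : ((fun q : (ℤ × ℤ) × ℤ => (q.1.1 : ℝ) * a + q.1.2 * b + q.2) ''
          ((Icc (-(m : ℤ)) m ×ˢ Icc (-(m : ℤ)) m) ×ˢ Icc (-M) M)).Finite :=
        (((Set.finite_Icc _ _).prod (Set.finite_Icc _ _)).prod (Set.finite_Icc _ _)).image _
      apply hF.subset
      rintro _ ⟨t, ht, rfl⟩
      obtain ⟨v, hvm, hvφ⟩ := hv _ ht.2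
      have h1 := hτ t ht
      have h2 : TL.pr (τ t) = TL.pr (t + ((v.1 : ℝ) * a + v.2 * b)) := by
        rw [h1.2, hvφ, TL.pr_add, TL.pr_add, ← zsmul_eq_mul, ← zsmul_eq_mul]
        rfl
      have h3 : ((τ t - t - ((v.1 : ℝ) * a + v.2 * b) : ℝ) : UnitAddCircle) = 0 := by
        have h4 : τ t - t - ((v.1 : ℝ) * a + v.2 * b) =
            τ t - (t + ((v.1 : ℝ) * a + v.2 * b)) := by ring
        rw [h4, AddCircle.coe_sub, sub_eq_zero]
        exact h2
      obtain ⟨n, hn⟩ := AddCircle.coe_eq_zero_iff (1 : ℝ) |>.1 h3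
      rw [zsmul_eq_mul, mul_one] at hn
      have hv1 : |(v.1 : ℝ)| ≤ m := by
        have := hvm.1
        exact_mod_cast this
      have hv2 : |(v.2 : ℝ)| ≤ m := by
        have := hvm.2
        exact_mod_cast this
      have hb1 : |(v.1 : ℝ) * a| ≤ m * |a| := by
        rw [abs_mul]; exact mul_le_mul_of_nonneg_right hv1 (abs_nonneg _)
      have hb2 : |(v.2 : ℝ) * b| ≤ m * |b| := by
        rw [abs_mul]; exact mul_le_mul_of_nonneg_right hv2 (abs_nonneg _)
      have h5 := h1.1.1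
      have h6 := ht.1
      have hn1 : |(n : ℝ)| ≤ M := by
        rw [hn]
        rw [abs_le] at hb1 hb2 ⊢
        constructor
        · have := h5.1
          have := h6.2
          nlinarith [hb1.1, hb1.2, hb2.1, hb2.2]
        · have := h5.2
          have := h6.1
          nlinarith [hb1.1, hb1.2, hb2.1, hb2.2]
      have hn2 : |n| ≤ M := by exact_mod_cast hn1
      refine ⟨(v, n), ⟨⟨abs_le.1 hvm.1, abs_le.1 hvm.2⟩, abs_le.1 hn2⟩, ?_⟩
      show (v.1 : ℝ) * a + v.2 * b + n = τ t - t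
      rw [hn]; ring
  · rintro ⟨k, P, g, hbody, hdis, hAU, hdis', hBU⟩
    apply hne
    have hPo : ∀ i, IsOpen (P i) := by
      intro i
      rw [← (hbody i).2.1]
      exact isOpen_interior
    have hPf : ∀ i, volume (frontier (P i)) = 0 := fun i => (hbody i).2.2
    obtain ⟨hsubA, haeA⟩ := TL.ae_lemma A hA2 P hPo hPf hdis hAU
    have hRo : ∀ i, IsOpen (g i '' P i) := fun i => (g i).toHomeomorph.isOpenMap _ (hPo i)
    have hRf : ∀ i, volume (frontier (g i '' P i)) = 0 := by
      intro i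
      have h1 : frontier (g i '' P i) = g i '' frontier (P i) :=
        ((g i).toHomeomorph.image_frontier (P i)).symm
      rw [h1]
      obtain ⟨c, hc | hc⟩ := TL.real_isom (g i)
      · have h2 : (g i : ℝ → ℝ) = fun t => t + c := funext hc
        rw [h2]
        exact addHaar_image_eq_zero_of_differentiableOn_of_addHaar_eq_zero volume
          (by fun_prop) (hPf i)
      · have h2 : (g i : ℝ → ℝ) = fun t => -t + c := funext hc
        rw [h2]
        exact addHaar_image_eq_zero_of_differentiableOn_of_addHaar_eq_zero volume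
          (by fun_prop) (hPf i)
    obtain ⟨hsubB, haeB⟩ := TL.ae_lemma B hB2 (fun i => g i '' P i) hRo hRf hdis' hBU
    have hg' : ∀ i, ∃ q : Bool × S, ∀ t : ℝ, isoS q (TL.pr t) = TL.pr (g i t) := by
      intro i
      obtain ⟨c, hc | hc⟩ := TL.real_isom (g i)
      · refine ⟨(true, TL.pr c), fun t => ?_⟩
        rw [hc, TL.pr_add]
        rfl
      · refine ⟨(false, TL.pr c), fun t => ?_⟩
        rw [hc, TL.pr_add, TL.pr_neg]
        rfl
    choose g' hg' using hg'
    refine ⟨k, fun i => TL.pr '' P i, g', ?_, haeA, ?_⟩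
    · intro i
      have hs := (hsubA i).trans (TL.lift_sub hA2)
      exact measure_mono_null (TL.frontier_image_sub (hPo i) hs) (TL.null_frontier (hPf i) hs)
    · have himg : ∀ i, isoS (g' i) '' (TL.pr '' P i) = TL.pr '' (g i '' P i) := by
        intro i
        rw [image_image, image_image]
        apply image_congr
        intro t _
        exact hg' i t
      simp only [himg]
      exact haeB

end C15
end Geo

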