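import Pool.Agent.Helper183.Geo.Base

set_option autoImplicit false
namespace Geo
namespace C2
/-- cell of a point -/
def cellOf (s : ℕ) (v : ℤ × ℤ) : ℤ × ℤ := (v.1 / s, v.2 / s)

/-- points of a cell -/
noncomputable def cellF (s : ℕ) (c : ℤ × ℤ) : Finset (ℤ × ℤ) :=
  (Finset.Ico (c.1 * s) (c.1 * s + s)) ×ˢ (Finset.Ico (c.2 * s) (c.2 * s + s))

/-- the cell and its neighbours -/
def nbr (c : ℤ × ℤ) : Finset (ℤ × ℤ) :=
  {c, (c.1 + 1, c.2), (c.1 - 1, c.2), (c.1, c.2 + 1), (c.1, c.2 - 1)}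

theorem cell_iff {s : ℕ} (hs : 1 ≤ s) (c v : ℤ × ℤ) :
    cellOf s v = c ↔ (c.1 * s ≤ v.1 ∧ v.1 < c.1 * s + s) ∧ (c.2 * s ≤ v.2 ∧ v.2 < c.2 * s + s) := by
  have hs' : (0 : ℤ) < s := by exact_mod_cast hs
  have key : ∀ a b : ℤ, a / s = b ↔ b * s ≤ a ∧ a < b * s + s := by
    intro a b
    constructor
    · rintro rfl
      refine ⟨Int.ediv_mul_le a hs'.ne', ?_⟩
      have := Int.lt_ediv_add_one_mul_self a hs'
      linarith [add_mul (a / (s : ℤ)) 1 (s : ℤ)]
    · rintro ⟨h1, h2⟩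
      apply le_antisymm
      · have : a / s < b + 1 := Int.ediv_lt_of_lt_mul hs' (by linarith [add_mul b 1 (s : ℤ)])
        omega
      · exact Int.le_ediv_of_mul_le hs' h1
  unfold cellOf
  rw [Prod.ext_iff]
  simp only [key]

theorem mem_cellF {s : ℕ} (hs : 1 ≤ s) (c v : ℤ × ℤ) : v ∈ cellF s c ↔ cellOf s v = c := by
  rw [cell_iff hs]
  simp only [cellF, Finset.mem_product, Finset.mem_Ico]

theorem card_bound {s : ℕ} (D : Finset (ℤ × ℤ)) (F : Finset (ℤ × ℤ)) (g : ℤ × ℤ → Finset (ℤ × ℤ))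
    (hg : ∀ c, (g c).card = s) (h : ∀ v ∈ F, ∃ c ∈ D, v ∈ g c) : F.card ≤ s * D.card := by
  classical
  have hsub : F ⊆ D.biUnion g := by
    intro v hv
    obtain ⟨c, hc, hv⟩ := h v hv
    exact Finset.mem_biUnion.2 ⟨c, hc, hv⟩
  calc F.card ≤ (D.biUnion g).card := Finset.card_le_card hsub
    _ ≤ ∑ c ∈ D, (g c).card := Finset.card_biUnion_le
    _ = s * D.card := by
      rw [Finset.sum_congr rfl fun c _ => hg c, Finset.sum_const, smul_eq_mul, mul_comm]

theorem per_le {s : ℕ} (hs : 1 ≤ s) (C0 C1 W : Finset (ℤ × ℤ)) (hC : ∀ c ∈ C0, nbr c ⊆ C1)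
    (hW : ∀ v, v ∈ W ↔ cellOf s v ∈ C1) : per W ≤ 4 * s * (C1 \ C0).card := by
  classical
  have hs' : (0 : ℤ) < s := by exact_mod_cast hs
  have h1 : (W.filter (fun v => (v.1 + 1, v.2) ∉ W)).card ≤ s * (C1 \ C0).card := by
    refine card_bound (C1 \ C0) _ (fun c => ({c.1 * s + s - 1} : Finset ℤ) ×ˢ
      Finset.Ico (c.2 * s) (c.2 * s + s)) (fun c => by simp) ?_
    intro v hv
    rw [Finset.mem_filter, hW, hW] at hv
    obtain ⟨hv1, hv2⟩ := hv
    obtain ⟨⟨a1, a2⟩, a3, a4⟩ := (cell_iff hs (cellOf s v) v).1 rfl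
    set c := cellOf s v with hc
    have hb : v.1 + 1 = c.1 * s + s := by
      by_contra hne
      apply hv2
      have : cellOf s (v.1 + 1, v.2) = c := by
        rw [cell_iff hs]
        exact ⟨⟨by dsimp only; linarith, lt_of_le_of_ne (by dsimp only; linarith) hne⟩, a3, a4⟩
      rw [this]; exact hv1
    have hcell : cellOf s (v.1 + 1, v.2) = (c.1 + 1, c.2) := by
      rw [cell_iff hs]
      refine ⟨⟨?_, ?_⟩, a3, a4⟩
      · dsimp only; rw [hb]; linarith [add_mul c.1 1 (s : ℤ)]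
      · dsimp only; rw [hb]; linarith [add_mul c.1 1 (s : ℤ)]
    refine ⟨c, ?_, ?_⟩
    · rw [Finset.mem_sdiff]
      refine ⟨hv1, fun h0 => hv2 ?_⟩
      rw [hcell]
      exact hC c h0 (by simp [nbr])
    · rw [Finset.mem_product, Finset.mem_singleton, Finset.mem_Ico]
      exact ⟨by linarith, a3, a4⟩
  have h2 : (W.filter (fun v => (v.1 - 1, v.2) ∉ W)).card ≤ s * (C1 \ C0).card := by
    refine card_bound (C1 \ C0) _ (fun c => ({c.1 * s} : Finset ℤ) ×ˢ
      Finset.Ico (c.2 * s) (c.2 * s + s)) (fun c => by simp) ?_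
    intro v hv
    rw [Finset.mem_filter, hW, hW] at hv
    obtain ⟨hv1, hv2⟩ := hv
    obtain ⟨⟨a1, a2⟩, a3, a4⟩ := (cell_iff hs (cellOf s v) v).1 rfl
    set c := cellOf s v with hc
    have hb : v.1 = c.1 * s := by
      by_contra hne
      apply hv2
      have : cellOf s (v.1 - 1, v.2) = c := by
        rw [cell_iff hs]
        have : c.1 * s < v.1 := lt_of_le_of_ne a1 (Ne.symm hne)
        exact ⟨⟨by dsimp only; linarith, by dsimp only; linarith⟩, a3, a4⟩
      rw [this]; exact hv1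
    have hcell : cellOf s (v.1 - 1, v.2) = (c.1 - 1, c.2) := by
      rw [cell_iff hs]
      refine ⟨⟨?_, ?_⟩, a3, a4⟩
      · dsimp only; rw [hb]; linarith [sub_mul c.1 1 (s : ℤ)]
      · dsimp only; rw [hb]; linarith [sub_mul c.1 1 (s : ℤ)]
    refine ⟨c, ?_, ?_⟩
    · rw [Finset.mem_sdiff]
      refine ⟨hv1, fun h0 => hv2 ?_⟩
      rw [hcell]
      exact hC c h0 (by simp [nbr])
    · rw [Finset.mem_product, Finset.mem_singleton, Finset.mem_Ico]
      exact ⟨hb, a3, a4⟩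
  have h3 : (W.filter (fun v => (v.1, v.2 + 1) ∉ W)).card ≤ s * (C1 \ C0).card := by
    refine card_bound (C1 \ C0) _ (fun c => Finset.Ico (c.1 * s) (c.1 * s + s) ×ˢ
      ({c.2 * s + s - 1} : Finset ℤ)) (fun c => by simp) ?_
    intro v hv
    rw [Finset.mem_filter, hW, hW] at hv
    obtain ⟨hv1, hv2⟩ := hv
    obtain ⟨⟨a1, a2⟩, a3, a4⟩ := (cell_iff hs (cellOf s v) v).1 rfl
    set c := cellOf s v with hc
    have hb : v.2 + 1 = c.2 * s + s := by
      by_contra hne
      apply hv2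
      have : cellOf s (v.1, v.2 + 1) = c := by
        rw [cell_iff hs]
        exact ⟨⟨a1, a2⟩, by dsimp only; linarith, lt_of_le_of_ne (by dsimp only; linarith) hne⟩
      rw [this]; exact hv1
    have hcell : cellOf s (v.1, v.2 + 1) = (c.1, c.2 + 1) := by
      rw [cell_iff hs]
      refine ⟨⟨a1, a2⟩, ?_, ?_⟩
      · dsimp only; rw [hb]; linarith [add_mul c.2 1 (s : ℤ)]
      · dsimp only; rw [hb]; linarith [add_mul c.2 1 (s : ℤ)]
    refine ⟨c, ?_, ?_⟩
    · rw [Finset.mem_sdiff]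
      refine ⟨hv1, fun h0 => hv2 ?_⟩
      rw [hcell]
      exact hC c h0 (by simp [nbr])
    · rw [Finset.mem_product, Finset.mem_singleton, Finset.mem_Ico]
      exact ⟨⟨a1, a2⟩, by linarith⟩
  have h4 : (W.filter (fun v => (v.1, v.2 - 1) ∉ W)).card ≤ s * (C1 \ C0).card := by
    refine card_bound (C1 \ C0) _ (fun c => Finset.Ico (c.1 * s) (c.1 * s + s) ×ˢ
      ({c.2 * s} : Finset ℤ)) (fun c => by simp) ?_
    intro v hv
    rw [Finset.mem_filter, hW, hW] at hv
    obtain ⟨hv1, hv2⟩ := hv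
    obtain ⟨⟨a1, a2⟩, a3, a4⟩ := (cell_iff hs (cellOf s v) v).1 rfl
    set c := cellOf s v with hc
    have hb : v.2 = c.2 * s := by
      by_contra hne
      apply hv2
      have : cellOf s (v.1, v.2 - 1) = c := by
        rw [cell_iff hs]
        have : c.2 * s < v.2 := lt_of_le_of_ne a3 (Ne.symm hne)
        exact ⟨⟨a1, a2⟩, by dsimp only; linarith, by dsimp only; linarith⟩
      rw [this]; exact hv1
    have hcell : cellOf s (v.1, v.2 - 1) = (c.1, c.2 - 1) := by
      rw [cell_iff hs]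
      refine ⟨⟨a1, a2⟩, ?_, ?_⟩
      · dsimp only; rw [hb]; linarith [sub_mul c.2 1 (s : ℤ)]
      · dsimp only; rw [hb]; linarith [sub_mul c.2 1 (s : ℤ)]
    refine ⟨c, ?_, ?_⟩
    · rw [Finset.mem_sdiff]
      refine ⟨hv1, fun h0 => hv2 ?_⟩
      rw [hcell]
      exact hC c h0 (by simp [nbr])
    · rw [Finset.mem_product, Finset.mem_singleton, Finset.mem_Ico]
      exact ⟨⟨a1, a2⟩, hb⟩
  have hper : per W = (W.filter (fun v => (v.1 + 1, v.2) ∉ W)).card +
      (W.filter (fun v => (v.1 - 1, v.2) ∉ W)).card +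
      (W.filter (fun v => (v.1, v.2 + 1) ∉ W)).card +
      (W.filter (fun v => (v.1, v.2 - 1) ∉ W)).card := by
    unfold per
    congr!
  rw [hper]
  calc _ ≤ s * (C1 \ C0).card + s * (C1 \ C0).card + s * (C1 \ C0).card + s * (C1 \ C0).card :=
        Nat.add_le_add (Nat.add_le_add (Nat.add_le_add h1 h2) h3) h4
    _ = 4 * s * (C1 \ C0).card := by ring

open Classical in
theorem hall_inj (C s : ℕ) (hs : 1 ≤ s) (A B : Set (ℤ × ℤ))
    (hcut : ∀ F : Finset (ℤ × ℤ),
      ∑ v ∈ F, ((if v ∈ A then 1 else 0 : ℤ) - (if v ∈ B then 1 else 0)) ≤ C * (per F : ℤ))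
    (hden : ∀ c : ℤ × ℤ, 4 * s * C ≤ ((cellF s c).filter (fun v => v ∈ A)).card) :
    ∃ f : A → ℤ × ℤ, Function.Injective f ∧
      ∀ v, f v ∈ B ∧ cellOf s (f v) ∈ nbr (cellOf s v.1) := by
  set t : A → Finset (ℤ × ℤ) := fun v =>
    ((nbr (cellOf s v.1)).biUnion (cellF s)).filter (fun w => w ∈ B) with ht
  have hall : ∀ S : Finset A, S.card ≤ (S.biUnion t).card := by
    intro S
    set C0 : Finset (ℤ × ℤ) := S.image (fun v => cellOf s v.1) with hC0
    set C1 : Finset (ℤ × ℤ) := C0.biUnion nbr with hC1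
    set W : Finset (ℤ × ℤ) := C1.biUnion (cellF s) with hW
    have hWmem : ∀ v, v ∈ W ↔ cellOf s v ∈ C1 := by
      intro v
      rw [hW, Finset.mem_biUnion]
      constructor
      · rintro ⟨c, hc, hv⟩
        rw [mem_cellF hs] at hv
        rw [hv]; exact hc
      · intro h
        exact ⟨_, h, (mem_cellF hs _ _).2 rfl⟩
    have hC01 : ∀ c ∈ C0, nbr c ⊆ C1 := fun c hc => Finset.subset_biUnion_of_mem nbr hc
    have hself : ∀ c, c ∈ nbr c := fun c => by simp [nbr]
    have hper := per_le hs C0 C1 W hC01 hWmem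
    have hB : W.filter (fun w => w ∈ B) ⊆ S.biUnion t := by
      intro w hw
      rw [Finset.mem_filter, hWmem, hC1, Finset.mem_biUnion] at hw
      obtain ⟨⟨c, hc, hw1⟩, hw2⟩ := hw
      rw [hC0, Finset.mem_image] at hc
      obtain ⟨v, hv, rfl⟩ := hc
      rw [Finset.mem_biUnion]
      refine ⟨v, hv, ?_⟩
      rw [ht, Finset.mem_filter, Finset.mem_biUnion]
      exact ⟨⟨_, hw1, (mem_cellF hs _ _).2 rfl⟩, hw2⟩
    have hA : S.card + (C1 \ C0).card * (4 * s * C) ≤ (W.filter (fun w => w ∈ A)).card := by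
      have e1 : (S.image (fun v : A => v.1)).card = S.card :=
        Finset.card_image_of_injective _ Subtype.val_injective
      have e2 : ((C1 \ C0).biUnion (fun c => (cellF s c).filter (fun v => v ∈ A))).card =
          ∑ c ∈ C1 \ C0, ((cellF s c).filter (fun v => v ∈ A)).card := by
        apply Finset.card_biUnion
        intro c _ c' _ hcc
        change Disjoint _ _
        rw [Finset.disjoint_left]
        intro v hv hv'
        rw [Finset.mem_filter, mem_cellF hs] at hv hv'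
        exact hcc (hv.1.symm.trans hv'.1)
      have e3 : (C1 \ C0).card * (4 * s * C) ≤
          ∑ c ∈ C1 \ C0, ((cellF s c).filter (fun v => v ∈ A)).card := by
        rw [← smul_eq_mul, ← Finset.sum_const]
        exact Finset.sum_le_sum fun c _ => hden c
      have e4 : Disjoint (S.image (fun v : A => v.1))
          ((C1 \ C0).biUnion (fun c => (cellF s c).filter (fun v => v ∈ A))) := by
        rw [Finset.disjoint_left]
        intro v hv hv'
        rw [Finset.mem_image] at hv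
        obtain ⟨a, ha, rfl⟩ := hv
        rw [Finset.mem_biUnion] at hv'
        obtain ⟨c, hc, hv'⟩ := hv'
        rw [Finset.mem_filter, mem_cellF hs] at hv'
        rw [Finset.mem_sdiff] at hc
        apply hc.2
        rw [← hv'.1, hC0, Finset.mem_image]
        exact ⟨a, ha, rfl⟩
      have e5 : (S.image (fun v : A => v.1)) ∪
          ((C1 \ C0).biUnion (fun c => (cellF s c).filter (fun v => v ∈ A))) ⊆
          W.filter (fun w => w ∈ A) := by
        intro v hv
        rw [Finset.mem_union] at hv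
        rw [Finset.mem_filter, hWmem]
        rcases hv with hv | hv
        · rw [Finset.mem_image] at hv
          obtain ⟨a, ha, rfl⟩ := hv
          refine ⟨hC01 _ ?_ (hself _), a.2⟩
          rw [hC0, Finset.mem_image]
          exact ⟨a, ha, rfl⟩
        · rw [Finset.mem_biUnion] at hv
          obtain ⟨c, hc, hv⟩ := hv
          rw [Finset.mem_filter, mem_cellF hs] at hv
          rw [Finset.mem_sdiff] at hc
          exact ⟨by rw [hv.1]; exact hc.1, hv.2⟩
      have := Finset.card_le_card e5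
      rw [Finset.card_union_of_disjoint e4, e1, e2] at this
      omega
    have hcutW := hcut W
    rw [Finset.sum_sub_distrib, Finset.sum_boole, Finset.sum_boole] at hcutW
    have hBc := Finset.card_le_card hB
    have h5 : (C : ℤ) * (per W : ℤ) ≤ (C : ℤ) * (4 * s * (C1 \ C0).card : ℕ) := by
      apply mul_le_mul_of_nonneg_left _ (Int.natCast_nonneg _)
      exact_mod_cast hper
    have h6 : ((S.card + (C1 \ C0).card * (4 * s * C) : ℕ) : ℤ) ≤
        ((W.filter (fun w => w ∈ A)).card : ℤ) := by exact_mod_cast hA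
    have h7 : ((W.filter (fun w => w ∈ B)).card : ℤ) ≤ ((S.biUnion t).card : ℤ) := by
      exact_mod_cast hBc
    have h8 : (C : ℤ) * (4 * s * (C1 \ C0).card : ℕ) = (((C1 \ C0).card * (4 * s * C) : ℕ) : ℤ) := by
      push_cast; ring
    have h9 : (S.card : ℤ) ≤ ((S.biUnion t).card : ℤ) := by
      push_cast at h6 h8 h5 hcutW ⊢
      linarith
    exact_mod_cast h9
  obtain ⟨f, hf, hft⟩ := (Finset.all_card_le_biUnion_card_iff_exists_injective t).1 hall
  refine ⟨f, hf, fun v => ?_⟩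
  have := hft v
  rw [ht, Finset.mem_filter, Finset.mem_biUnion] at this
  obtain ⟨⟨c, hc, hv⟩, hB⟩ := this
  rw [mem_cellF hs] at hv
  exact ⟨hB, by rw [hv]; exact hc⟩

theorem nbr_symm {c c' : ℤ × ℤ} (h : c' ∈ nbr c) : c ∈ nbr c' := by
  obtain ⟨a, b⟩ := c
  obtain ⟨a', b'⟩ := c'
  simp only [nbr, Finset.mem_insert, Finset.mem_singleton, Prod.mk.injEq] at h ⊢
  omega

open Classical in
/-- The cut condition plus a dense common part give a bijection with bounded displacement. -/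
theorem matching_of_cut (C s : ℕ) (hs : 1 ≤ s) (A B : Set (ℤ × ℤ))
    (hcut : ∀ F : Finset (ℤ × ℤ),
      |∑ v ∈ F, ((if v ∈ A then 1 else 0 : ℤ) - (if v ∈ B then 1 else 0))| ≤ C * (per F : ℤ))
    (hden : ∀ i j : ℤ, 4 * (s : ℤ) * C ≤
      ((((Finset.Ico (i * s) (i * s + s)) ×ˢ (Finset.Ico (j * s) (j * s + s))).filter
        (fun v : ℤ × ℤ => v ∈ A ∧ v ∈ B)).card : ℤ)) :
    ∃ φ : ℤ × ℤ → ℤ × ℤ, Set.BijOn φ A B ∧
      ∀ v ∈ A, |(φ v).1 - v.1| ≤ 2 * s ∧ |(φ v).2 - v.2| ≤ 2 * s := by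
  have hs' : (0 : ℤ) < s := by exact_mod_cast hs
  have hdA : ∀ c : ℤ × ℤ, 4 * s * C ≤ ((cellF s c).filter (fun v => v ∈ A)).card := by
    intro c
    have h1 := hden c.1 c.2
    have h2 : ((((Finset.Ico (c.1 * s) (c.1 * s + s)) ×ˢ (Finset.Ico (c.2 * s) (c.2 * s + s))).filter
        (fun v : ℤ × ℤ => v ∈ A ∧ v ∈ B)).card) ≤ ((cellF s c).filter (fun v => v ∈ A)).card := by
      apply Finset.card_le_card
      intro v hv
      rw [Finset.mem_filter] at hv ⊢
      exact ⟨hv.1, hv.2.1⟩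
    have h3 : ((4 * s * C : ℕ) : ℤ) ≤ (((cellF s c).filter (fun v => v ∈ A)).card : ℤ) := by
      push_cast
      refine h1.trans ?_
      exact_mod_cast h2
    exact_mod_cast h3
  have hdB : ∀ c : ℤ × ℤ, 4 * s * C ≤ ((cellF s c).filter (fun v => v ∈ B)).card := by
    intro c
    have h1 := hden c.1 c.2
    have h2 : ((((Finset.Ico (c.1 * s) (c.1 * s + s)) ×ˢ (Finset.Ico (c.2 * s) (c.2 * s + s))).filter
        (fun v : ℤ × ℤ => v ∈ A ∧ v ∈ B)).card) ≤ ((cellF s c).filter (fun v => v ∈ B)).card := by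
      apply Finset.card_le_card
      intro v hv
      rw [Finset.mem_filter] at hv ⊢
      exact ⟨hv.1, hv.2.2⟩
    have h3 : ((4 * s * C : ℕ) : ℤ) ≤ (((cellF s c).filter (fun v => v ∈ B)).card : ℤ) := by
      push_cast
      refine h1.trans ?_
      exact_mod_cast h2
    exact_mod_cast h3
  obtain ⟨f, hf, hfB⟩ := hall_inj C s hs A B (fun F => (le_abs_self _).trans (hcut F)) hdA
  obtain ⟨g, hg, hgA⟩ := hall_inj C s hs B A (fun F => by
    have h1 := hcut F
    rw [← abs_neg, ← Finset.sum_neg_distrib] at h1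
    refine le_trans (le_of_eq ?_) ((le_abs_self _).trans h1)
    exact Finset.sum_congr rfl fun v _ => by ring) hdB
  let f' : A → B := fun a => ⟨f a, (hfB a).1⟩
  let g' : B → A := fun b => ⟨g b, (hgA b).1⟩
  have hf' : Function.Injective f' := fun a b hab => hf (congrArg Subtype.val hab)
  have hg' : Function.Injective g' := fun a b hab => hg (congrArg Subtype.val hab)
  obtain ⟨h, hbij, hR⟩ := Function.Embedding.schroeder_bernstein_of_rel hf' hg'
    (fun a b => cellOf s b.1 ∈ nbr (cellOf s a.1)) (fun a => (hfB a).2)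
    (fun b => nbr_symm (hgA b).2)
  refine ⟨fun v => if hv : v ∈ A then (h ⟨v, hv⟩).1 else v, ⟨?_, ?_, ?_⟩, ?_⟩
  · intro v hv
    dsimp only
    rw [dif_pos hv]
    exact (h ⟨v, hv⟩).2
  · intro v hv w hw hvw
    dsimp only at hvw
    rw [dif_pos hv, dif_pos hw] at hvw
    have := hbij.1 (Subtype.ext hvw)
    exact congrArg Subtype.val this
  · intro b hb
    obtain ⟨a, ha⟩ := hbij.2 ⟨b, hb⟩
    refine ⟨a.1, a.2, ?_⟩
    dsimp only
    rw [dif_pos a.2]
    exact congrArg Subtype.val ha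
  · intro v hv
    dsimp only
    rw [dif_pos hv]
    have h1 := hR ⟨v, hv⟩
    set w := (h ⟨v, hv⟩).1
    obtain ⟨⟨a1, a2⟩, a3, a4⟩ := (cell_iff hs (cellOf s v) v).1 rfl
    obtain ⟨⟨b1, b2⟩, b3, b4⟩ := (cell_iff hs (cellOf s w) w).1 rfl
    dsimp only at h1
    simp only [nbr, Finset.mem_insert, Finset.mem_singleton] at h1
    rcases h1 with h1 | h1 | h1 | h1 | h1 <;> rw [h1] at b1 b2 b3 b4 <;>
      rw [abs_le, abs_le] <;>
      refine ⟨⟨?_, ?_⟩, ?_, ?_⟩ <;>
      nlinarith [add_mul (cellOf s v).1 1 (s : ℤ), sub_mul (cellOf s v).1 1 (s : ℤ),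
        add_mul (cellOf s v).2 1 (s : ℤ), sub_mul (cellOf s v).2 1 (s : ℤ)]
end C2
end Geo

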