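import Pool.Agent.Helper183.Geo.Base

set_option autoImplicit false
open MeasureTheory Set
namespace Geo
namespace C3
theorem eh_rat (a : ℝ) (ha : Irrational a) (m : ℕ) :
    ∃ q : ℚ, |a - q| < 1 / (q.den : ℝ) ^ 2 ∧ m ≤ q.den := by
  by_contra hcon
  push Not at hcon
  have hinf := Real.infinite_rat_abs_sub_lt_one_div_den_sq_of_irrational ha
  apply hinf
  set B : ℤ := ⌈(|a| + 1) * m⌉ with hB
  have hfin : (Set.Icc (-B) B ×ˢ Set.Iio m : Set (ℤ × ℕ)).Finite :=
    (Set.finite_Icc _ _).prod (Set.finite_Iio _)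
  refine (hfin.image (fun x : ℤ × ℕ => (x.1 : ℚ) / x.2)).subset ?_
  intro q hq
  have hq' : |a - q| < 1 / (q.den : ℝ) ^ 2 := hq
  have hd := hcon q hq'
  refine ⟨(q.num, q.den), ⟨?_, hd⟩, Rat.num_div_den q⟩
  have hdpos : (1 : ℝ) ≤ q.den := by exact_mod_cast q.pos
  have h1 : 1 / (q.den : ℝ) ^ 2 ≤ 1 := by
    rw [div_le_one (by positivity)]
    nlinarith
  have h2 : |(q : ℝ)| ≤ |a| + 1 := by
    have h3 : |(q : ℝ)| ≤ |a| + |a - q| := by
      have h4 := abs_sub_abs_le_abs_sub (q : ℝ) a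
      rw [abs_sub_comm] at h4
      linarith
    linarith
  have h5 : (q.num : ℝ) = q * q.den := by
    have := Rat.mul_den_eq_num q
    exact_mod_cast this.symm
  have hdm : (q.den : ℝ) ≤ m := by exact_mod_cast hd.le
  have h6 : |(q.num : ℝ)| ≤ (|a| + 1) * m := by
    rw [h5, abs_mul, abs_of_nonneg (by positivity : (0 : ℝ) ≤ q.den)]
    exact mul_le_mul h2 hdm (by positivity) (by positivity)
  have h7 : |(q.num : ℝ)| ≤ B := h6.trans (Int.le_ceil _)
  have h8 : |q.num| ≤ B := by exact_mod_cast h7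
  exact abs_le.1 h8

/-- basic translation between arcs and integers -/
theorem eh_lift (x0 a t : ℝ) (j : ℕ) (h : (t : S) = (x0 : S) + j • (a : S)) :
    ∃ k : ℤ, t = x0 + j * a + k := by
  have h1 : ((t - (x0 + j * a) : ℝ) : S) = 0 := by
    have h2 : ((j * a : ℝ) : S) = j • (a : S) := by
      rw [← AddCircle.coe_nsmul, nsmul_eq_mul]
    rw [AddCircle.coe_sub, AddCircle.coe_add, h2, h, sub_self]
  obtain ⟨k, hk⟩ := (AddCircle.coe_eq_zero_iff (1 : ℝ)).1 h1
  refine ⟨k, ?_⟩
  rw [zsmul_eq_mul, mul_one] at hk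
  linarith

theorem eh_lift' (x0 a : ℝ) (j : ℕ) (k : ℤ) :
    ((x0 + j * a + k : ℝ) : S) = (x0 : S) + j • (a : S) := by
  have h2 : ((j * a : ℝ) : S) = j • (a : S) := by
    rw [← AddCircle.coe_nsmul, nsmul_eq_mul]
  have h3 : ((k : ℝ) : S) = 0 := (AddCircle.coe_eq_zero_iff (1 : ℝ)).2 ⟨k, by simp⟩
  rw [AddCircle.coe_add, AddCircle.coe_add, h2, h3, add_zero]

open Classical in
/-- For denominators of good rational approximations, any `N` consecutive points are very well spread. -/
theorem exists_hit (a : ℝ) (ha : Irrational a) (m : ℕ) : ∃ N : ℕ, m ≤ N ∧ 1 ≤ N ∧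
    (∀ (x : S) (c l : ℝ), l ≤ 1 → 3 ≤ N * l → ∃ j : ℕ, j < N ∧ x + j • (a : S) ∈ arcO c l) ∧
    (∀ (x : S) (c l : ℝ), 0 ≤ l → l ≤ 1 →
      (((Finset.range N).filter (fun j : ℕ => x + j • (a : S) ∈ arcC c l)).card : ℝ) ≤ N * l + 3) ∧
    (∀ (x : S) (c l : ℝ), 0 ≤ l → l ≤ 1 →
      N * l - 3 ≤ (((Finset.range N).filter (fun j : ℕ => x + j • (a : S) ∈ arcO c l)).card : ℝ)) := by
  obtain ⟨q, hq, hmq⟩ := eh_rat a ha m
  obtain ⟨N, hN⟩ : ∃ N : ℕ, N = q.den := ⟨_, rfl⟩
  obtain ⟨p, hp⟩ : ∃ p : ℤ, p = q.num := ⟨_, rfl⟩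
  have hN1 : 1 ≤ N := by rw [hN]; exact q.pos
  have hNr : (1 : ℝ) ≤ N := by exact_mod_cast hN1
  have hN0 : (0 : ℝ) < N := by linarith
  have hcop : IsCoprime p (N : ℤ) := by
    rw [hp, hN, Int.isCoprime_iff_gcd_eq_one]
    exact q.reduced
  have hqv : (q : ℝ) = p / N := by
    rw [hp, hN]
    exact_mod_cast (Rat.num_div_den q).symm
  rw [← hN, hqv] at hq
  -- the error
  have herr : ∀ j : ℕ, j < N → |(N : ℝ) * (j * a) - j * p| < 1 := by
    intro j hj
    have hjr : (j : ℝ) < N := by exact_mod_cast hj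
    have h1 : (N : ℝ) * (j * a) - j * p = (j * N) * (a - p / N) := by
      field_simp
    rw [h1, abs_mul, abs_of_nonneg (by positivity)]
    rcases Nat.eq_zero_or_pos j with hj0 | hj0
    · subst hj0; simp
    · have hj0r : (0 : ℝ) < j := by exact_mod_cast hj0
      calc (j : ℝ) * N * |a - p / N| < (j * N) * (1 / (N : ℝ) ^ 2) := by
            apply mul_lt_mul_of_pos_left hq (by positivity)
        _ = j / N := by field_simp
        _ < 1 := by rw [div_lt_one hN0]; exact hjr
  -- key lower bound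
  have key : ∀ (x0 c l : ℝ), l ≤ 1 →
      (N : ℝ) * l - 3 < (((Finset.range N).filter
        (fun j : ℕ => (x0 : S) + j • (a : S) ∈ arcO c l)).card : ℝ) := by
    intro x0 c l hl
    obtain ⟨u, v, huv⟩ := hcop
    set A : ℝ := N * (c - x0) with hA
    set I : Finset ℤ := Finset.Icc ⌈A + 1⌉ ⌊A + N * l - 1⌋ with hI
    set J : ℤ → ℕ := fun i => ((i * u) % (N : ℤ)).toNat with hJ
    have hNz : (N : ℤ) ≠ 0 := by exact_mod_cast (by omega : N ≠ 0)
    have hNzp : (0 : ℤ) < (N : ℤ) := by exact_mod_cast hN1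
    have hJ1 : ∀ i, (J i : ℤ) = (i * u) % (N : ℤ) := by
      intro i
      exact Int.toNat_of_nonneg (Int.emod_nonneg _ hNz)
    have hJlt : ∀ i, J i < N := by
      intro i
      have h1 : (J i : ℤ) < N := by rw [hJ1]; exact Int.emod_lt_of_pos _ hNzp
      exact_mod_cast h1
    have hJk : ∀ i, ∃ k : ℤ, i = J i * p + k * N := by
      intro i
      refine ⟨i * v + ((i * u) / N) * p, ?_⟩
      have h1 := Int.emod_add_mul_ediv (i * u) (N : ℤ)
      rw [hJ1]
      linear_combination (-i) * huv - p * h1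
    have hle : I.card ≤ ((Finset.range N).filter
        (fun j : ℕ => (x0 : S) + j • (a : S) ∈ arcO c l)).card := by
      apply Finset.card_le_card_of_injOn J
      · intro i hi
        rw [Finset.mem_coe, hI, Finset.mem_Icc] at hi
        rw [Finset.mem_coe, Finset.mem_filter, Finset.mem_range]
        refine ⟨hJlt i, ?_⟩
        obtain ⟨k, hk⟩ := hJk i
        have h1 : A + 1 ≤ i := Int.ceil_le.1 hi.1
        have h2 : (i : ℝ) ≤ A + N * l - 1 := Int.le_floor.1 hi.2
        have hkr : (i : ℝ) = J i * p + k * N := by exact_mod_cast hk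
        refine ⟨x0 + J i * a + k, ?_, eh_lift' x0 a (J i) k⟩
        have he := abs_lt.1 (herr (J i) (hJlt i))
        constructor
        · have h3 : N * c < N * (x0 + J i * a + k) := by
            have : (N : ℝ) * c = A + N * x0 := by rw [hA]; ring
            rw [this]
            have h4 : (N : ℝ) * (x0 + J i * a + k) = N * x0 + N * (J i * a) + k * N := by ring
            rw [h4]
            linarith [he.1]
          exact lt_of_mul_lt_mul_left h3 hN0.le
        · have h3 : N * (x0 + J i * a + k) < N * (c + l) := by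
            have : (N : ℝ) * (c + l) = A + N * x0 + N * l := by rw [hA]; ring
            rw [this]
            have h4 : (N : ℝ) * (x0 + J i * a + k) = N * x0 + N * (J i * a) + k * N := by ring
            rw [h4]
            linarith [he.2]
          exact lt_of_mul_lt_mul_left h3 hN0.le
      · intro i hi i' hi' hii
        rw [Finset.mem_coe, hI, Finset.mem_Icc] at hi hi'
        have h1 : A + 1 ≤ i := Int.ceil_le.1 hi.1
        have h2 : (i : ℝ) ≤ A + N * l - 1 := Int.le_floor.1 hi.2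
        have h1' : A + 1 ≤ i' := Int.ceil_le.1 hi'.1
        have h2' : (i' : ℝ) ≤ A + N * l - 1 := Int.le_floor.1 hi'.2
        obtain ⟨k, hk⟩ := hJk i
        obtain ⟨k', hk'⟩ := hJk i'
        rw [← hii] at hk'
        have h3 : i - i' = (k - k') * N := by linarith
        have hNl : (N : ℝ) * l ≤ N := by nlinarith
        have h4 : |(i : ℝ) - i'| < N := by
          rw [abs_lt]; constructor <;> linarith
        have h5 : |i - i'| < N := by exact_mod_cast h4
        have h6 : i - i' = 0 := Int.eq_zero_of_abs_lt_dvd ⟨k - k', by rw [h3]; ring⟩ h5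
        linarith
    have hcard : (N : ℝ) * l - 3 < I.card := by
      rw [hI, Int.card_Icc]
      have h1 : A + N * l - 1 - 1 < ⌊A + N * l - 1⌋ := Int.sub_one_lt_floor _
      have h2 : (⌈A + 1⌉ : ℝ) < A + 1 + 1 := Int.ceil_lt_add_one _
      have h3 : (((⌊A + N * l - 1⌋ + 1 - ⌈A + 1⌉ : ℤ)) : ℝ) ≤
          ((⌊A + N * l - 1⌋ + 1 - ⌈A + 1⌉).toNat : ℝ) := by
        exact_mod_cast Int.self_le_toNat _
      push_cast at h3
      linarith
    have hle' : (I.card : ℝ) ≤ ((Finset.range N).filter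
        (fun j : ℕ => (x0 : S) + j • (a : S) ∈ arcO c l)).card := by exact_mod_cast hle
    linarith
  refine ⟨N, by rw [hN]; exact hmq, hN1, ?_, ?_, ?_⟩
  · intro x c l hl h3
    obtain ⟨x0, rfl⟩ := QuotientAddGroup.mk_surjective x
    have h1 := key x0 c l hl
    have h2 : (0 : ℝ) < (((Finset.range N).filter
        (fun j : ℕ => (x0 : S) + j • (a : S) ∈ arcO c l)).card : ℝ) := by linarith
    have h4 : 0 < ((Finset.range N).filter
        (fun j : ℕ => (x0 : S) + j • (a : S) ∈ arcO c l)).card := by exact_mod_cast h2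
    obtain ⟨j, hj⟩ := Finset.card_pos.1 h4
    rw [Finset.mem_filter, Finset.mem_range] at hj
    exact ⟨j, hj.1, hj.2⟩
  · intro x c l hl0 hl
    obtain ⟨x0, rfl⟩ := QuotientAddGroup.mk_surjective x
    set A : ℝ := N * (c - x0) with hA
    set F := (Finset.range N).filter (fun j : ℕ => (x0 : S) + j • (a : S) ∈ arcC c l) with hF
    have hex : ∀ j ∈ F, ∃ k : ℤ, c ≤ x0 + j * a + k ∧ x0 + j * a + k ≤ c + l := by
      intro j hj
      rw [hF, Finset.mem_filter] at hj
      obtain ⟨t, ht, hte⟩ := hj.2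
      obtain ⟨k, hk⟩ := eh_lift x0 a t j hte
      exact ⟨k, by rw [← hk]; exact ht.1, by rw [← hk]; exact ht.2⟩
    choose! K hK1 hK2 using hex
    have hle : F.card ≤ (Finset.Icc (⌊A - 1⌋ + 1) (⌈A + N * l + 1⌉ - 1)).card := by
      apply Finset.card_le_card_of_injOn (fun j : ℕ => (j : ℤ) * p + K j * N)
      · intro j hj
        have hjF : j ∈ F := hj
        have hjN : j < N := Finset.mem_range.1 (Finset.mem_filter.1 hjF).1
        have he := abs_lt.1 (herr j hjN)
        have h1 := hK1 j hjF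
        have h2 := hK2 j hjF
        have h1' : N * c ≤ N * (x0 + j * a + K j) := mul_le_mul_of_nonneg_left h1 hN0.le
        have h2' : N * (x0 + j * a + K j) ≤ N * (c + l) := mul_le_mul_of_nonneg_left h2 hN0.le
        rw [Finset.mem_coe, Finset.mem_Icc]
        constructor
        · rw [Int.add_one_le_iff, Int.floor_lt]
          push_cast
          rw [hA]
          nlinarith [he.1, he.2]
        · rw [Int.le_sub_one_iff, Int.lt_ceil]
          push_cast
          rw [hA]
          nlinarith [he.1, he.2]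
      · intro j hj j' hj' hjj
        have hjN : j < N := Finset.mem_range.1 (Finset.mem_filter.1 hj).1
        have hjN' : j' < N := Finset.mem_range.1 (Finset.mem_filter.1 hj').1
        have h1 : (j : ℤ) * p + K j * N = j' * p + K j' * N := hjj
        have h2 : (N : ℤ) ∣ p * ((j : ℤ) - j') := ⟨K j' - K j, by linarith⟩
        have h3 : (N : ℤ) ∣ (j : ℤ) - j' := hcop.symm.dvd_of_dvd_mul_left h2
        have h4 : (j : ℤ) - j' = 0 := by
          apply Int.eq_zero_of_abs_lt_dvd h3
          rw [abs_lt]; constructor <;> omega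
        omega
    have hcard : ((Finset.Icc (⌊A - 1⌋ + 1) (⌈A + N * l + 1⌉ - 1)).card : ℝ) ≤ N * l + 3 := by
      rw [Int.card_Icc]
      have h1 : A - 1 - 1 < ⌊A - 1⌋ := Int.sub_one_lt_floor _
      have h2 : (⌈A + N * l + 1⌉ : ℝ) < A + N * l + 1 + 1 := Int.ceil_lt_add_one _
      rcases le_or_gt 0 (⌈A + N * l + 1⌉ - 1 + 1 - (⌊A - 1⌋ + 1)) with h0 | h0
      · have h3 : (((⌈A + N * l + 1⌉ - 1 + 1 - (⌊A - 1⌋ + 1)).toNat : ℤ) : ℝ) =
            ((⌈A + N * l + 1⌉ - 1 + 1 - (⌊A - 1⌋ + 1) : ℤ) : ℝ) := by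
          rw [Int.toNat_of_nonneg h0]
        rw [Int.cast_natCast] at h3
        rw [h3]
        push_cast
        linarith
      · rw [Int.toNat_of_nonpos h0.le]
        have : (0 : ℝ) ≤ N * l := by positivity
        push_cast
        linarith
    have hle' : (F.card : ℝ) ≤ (Finset.Icc (⌊A - 1⌋ + 1) (⌈A + N * l + 1⌉ - 1)).card := by
      exact_mod_cast hle
    exact hle'.trans hcard
  · intro x c l hl0 hl
    obtain ⟨x0, rfl⟩ := QuotientAddGroup.mk_surjective x
    exact (key x0 c l hl).le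
end C3
end Geo

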