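import Pool.Agent.Helper183.Geo.Base

set_option autoImplicit false
open MeasureTheory Set
namespace Geo
namespace C4
/-- complex Birkhoff difference -/
noncomputable def bD (a : ℝ) (f : C(S, ℂ)) (N : ℕ) (x y : S) : ℂ :=
  (∑ j ∈ Finset.range N, f (x + j • (a : S))) - ∑ j ∈ Finset.range N, f (y + j • (a : S))

def bGood (a : ℝ) (f : C(S, ℂ)) : Prop :=
  ∀ ε : ℝ, 0 < ε → ∃ N0 : ℕ, ∀ N : ℕ, N0 ≤ N → ∀ x y : S, ‖bD a f N x y‖ ≤ ε * N

theorem bD_norm_le (a : ℝ) (f : C(S, ℂ)) (N : ℕ) (x y : S) : ‖bD a f N x y‖ ≤ 2 * ‖f‖ * N := by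
  have h : ∀ z : S, ‖∑ j ∈ Finset.range N, f (z + j • (a : S))‖ ≤ N * ‖f‖ := by
    intro z
    calc ‖∑ j ∈ Finset.range N, f (z + j • (a : S))‖ ≤ ∑ j ∈ Finset.range N, ‖f‖ :=
          norm_sum_le_of_le _ (fun j _ => f.norm_coe_le_norm _)
      _ = N * ‖f‖ := by simp
  unfold bD
  refine le_trans (norm_sub_le _ _) ?_
  have h1 := h x
  have h2 := h y
  linarith

theorem bD_add (a : ℝ) (f g : C(S, ℂ)) (N : ℕ) (x y : S) :
    bD a (f + g) N x y = bD a f N x y + bD a g N x y := by
  unfold bD
  simp only [ContinuousMap.add_apply, Finset.sum_add_distrib]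
  ring

theorem bD_smul (a : ℝ) (c : ℂ) (f : C(S, ℂ)) (N : ℕ) (x y : S) :
    bD a (c • f) N x y = c * bD a f N x y := by
  unfold bD
  simp only [ContinuousMap.smul_apply, smul_eq_mul, ← Finset.mul_sum]
  ring

theorem bGood_fourier (a : ℝ) (ha : Irrational a) (n : ℤ) : bGood a (fourier n) := by
  by_cases hn : n = 0
  · subst hn
    intro ε hε
    refine ⟨0, fun N _ x y => ?_⟩
    unfold bD
    simp only [fourier_zero]
    simp only [sub_self, norm_zero]
    positivity
  · have hadd : ∀ x y : S, fourier n (x + y) = fourier n x * fourier n y := by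
      intro x y
      rw [fourier_apply, fourier_apply, fourier_apply, smul_add, AddCircle.toCircle_add]
      simp
    have hpow : ∀ j : ℕ, fourier n (j • (a : S)) = (fourier n (a : S)) ^ j := by
      intro j
      induction j with
      | zero => simp
      | succ j ih => rw [succ_nsmul, hadd, ih, pow_succ]
    set ζ : ℂ := fourier n (a : S) with hζ
    have hζ1 : ζ ≠ 1 := by
      intro h
      rw [hζ, fourier_apply] at h
      have h2 : AddCircle.toCircle (n • (a : S)) = 1 := by
        apply Circle.ext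
        rw [Circle.coe_one]
        exact h
      rw [← AddCircle.toCircle_zero] at h2
      have h3 := AddCircle.injective_toCircle one_ne_zero h2
      rw [← AddCircle.coe_zsmul, AddCircle.coe_eq_zero_iff] at h3
      obtain ⟨k, hk⟩ := h3
      rw [zsmul_eq_mul, zsmul_eq_mul, mul_one] at hk
      have hn' : (n : ℝ) ≠ 0 := by exact_mod_cast hn
      have ha' : a = ((k / n : ℚ) : ℝ) := by
        push_cast
        field_simp
        linarith
      exact ha ⟨_, ha'.symm⟩
    have hnorm : ∀ z : S, ‖fourier n z‖ = 1 := by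
      intro z
      rw [fourier_apply]
      exact Circle.norm_coe _
    have hsum : ∀ (N : ℕ) (z : S), ‖∑ j ∈ Finset.range N, fourier n (z + j • (a : S))‖ ≤
        2 / ‖ζ - 1‖ := by
      intro N z
      have : ∑ j ∈ Finset.range N, fourier n (z + j • (a : S)) =
          fourier n z * ∑ j ∈ Finset.range N, ζ ^ j := by
        rw [Finset.mul_sum]
        refine Finset.sum_congr rfl (fun j _ => ?_)
        rw [hadd, hpow]
      rw [this, geom_sum_eq hζ1, norm_mul, hnorm, one_mul, norm_div]
      have hζn : ‖ζ‖ = 1 := hnorm _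
      gcongr
      calc ‖ζ ^ N - 1‖ ≤ ‖ζ ^ N‖ + ‖(1:ℂ)‖ := norm_sub_le _ _
        _ = 2 := by rw [norm_pow, hζn, one_pow, norm_one]; norm_num
    intro ε hε
    have hpos : 0 < ‖ζ - 1‖ := norm_pos_iff.2 (sub_ne_zero.2 hζ1)
    obtain ⟨N0, hN0⟩ := exists_nat_ge ((4 / ‖ζ - 1‖) / ε)
    refine ⟨N0, fun N hN x y => ?_⟩
    have h1 := hsum N x
    have h2 := hsum N y
    have h3 : (4 / ‖ζ - 1‖) ≤ ε * N := by
      have : (4 / ‖ζ - 1‖) / ε ≤ N := le_trans hN0 (by exact_mod_cast hN)
      rw [div_le_iff₀ hε] at this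
      linarith
    calc ‖bD a (fourier n) N x y‖ ≤ _ := norm_sub_le _ _
      _ ≤ 2 / ‖ζ - 1‖ + 2 / ‖ζ - 1‖ := add_le_add h1 h2
      _ = 4 / ‖ζ - 1‖ := by ring
      _ ≤ ε * N := h3

def bSub (a : ℝ) : Submodule ℂ C(S, ℂ) where
  carrier := {f | bGood a f}
  zero_mem' := by
    intro ε hε
    refine ⟨0, fun N _ x y => ?_⟩
    unfold bD
    simp only [ContinuousMap.zero_apply, Finset.sum_const_zero, sub_self, norm_zero]
    positivity
  add_mem' := by
    intro f g hf hg ε hε
    obtain ⟨N1, h1⟩ := hf (ε/2) (by positivity)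
    obtain ⟨N2, h2⟩ := hg (ε/2) (by positivity)
    refine ⟨max N1 N2, fun N hN x y => ?_⟩
    rw [bD_add]
    refine le_trans (norm_add_le _ _) ?_
    have e1 := h1 N (le_trans (le_max_left _ _) hN) x y
    have e2 := h2 N (le_trans (le_max_right _ _) hN) x y
    linarith
  smul_mem' := by
    intro c f hf ε hε
    obtain ⟨N1, h1⟩ := hf (ε / (‖c‖ + 1)) (by positivity)
    refine ⟨N1, fun N hN x y => ?_⟩
    rw [bD_smul, norm_mul]
    have e1 := h1 N hN x y
    have hc : 0 < ‖c‖ + 1 := by positivity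
    calc ‖c‖ * ‖bD a f N x y‖ ≤ (‖c‖ + 1) * (ε / (‖c‖ + 1) * N) := by
          gcongr
          linarith
      _ = ε * N := by field_simp

theorem bSub_closed (a : ℝ) : IsClosed ((bSub a : Submodule ℂ C(S, ℂ)) : Set C(S, ℂ)) := by
  refine isClosed_of_closure_subset ?_
  intro f hf
  rw [Metric.mem_closure_iff] at hf
  intro ε hε
  obtain ⟨g, hg, hfg⟩ := hf (ε / 4) (by positivity)
  obtain ⟨N1, h1⟩ := hg (ε/2) (by positivity)
  refine ⟨N1, fun N hN x y => ?_⟩
  have e1 := h1 N hN x y
  have e2 := bD_norm_le a (f - g) N x y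
  have e3 : f = g + (f - g) := by abel
  rw [e3, bD_add]
  refine le_trans (norm_add_le _ _) ?_
  rw [dist_eq_norm] at hfg
  have e4 : 2 * ‖f - g‖ * N ≤ 2 * (ε/4) * N := by gcongr
  linarith

theorem bGood_all (a : ℝ) (ha : Irrational a) (f : C(S, ℂ)) : bGood a f := by
  have h1 : Submodule.span ℂ (range (@fourier 1)) ≤ bSub a := by
    rw [Submodule.span_le]
    rintro _ ⟨n, rfl⟩
    exact bGood_fourier a ha n
  have h2 := Submodule.topologicalClosure_minimal _ h1 (bSub_closed a)
  have h3 : (Submodule.span ℂ (range (@fourier (1:ℝ)))).topologicalClosure = ⊤ :=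
    span_fourier_closure_eq_top
  rw [h3] at h2
  exact h2 (Submodule.mem_top)

/-- Uniform comparison of Birkhoff sums of a continuous function over an irrational rotation. -/
theorem birkhoff_cont (a : ℝ) (ha : Irrational a) (φ : C(S, ℝ)) (ε : ℝ) (hε : 0 < ε) :
    ∃ N0 : ℕ, ∀ N : ℕ, N0 ≤ N → ∀ x y : S,
      |(∑ j ∈ Finset.range N, φ (x + j • (a : S))) - ∑ j ∈ Finset.range N, φ (y + j • (a : S))| ≤ ε * N := by
  let f : C(S, ℂ) := ⟨fun x => (φ x : ℂ), by fun_prop⟩
  obtain ⟨N0, h⟩ := bGood_all a ha f ε hε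
  refine ⟨N0, fun N hN x y => ?_⟩
  have h1 := h N hN x y
  have h2 : bD a f N x y = (((∑ j ∈ Finset.range N, φ (x + j • (a : S))) -
      ∑ j ∈ Finset.range N, φ (y + j • (a : S)) : ℝ) : ℂ) := by
    unfold bD
    push_cast
    rfl
  rw [h2, Complex.norm_real, Real.norm_eq_abs] at h1
  exact h1

open Classical in
/-- The same for the indicator function of a set with null boundary. -/
theorem birkhoff_jordan (a : ℝ) (ha : Irrational a) (P : Set S) (hP : volume (frontier P) = 0)
    (ε : ℝ) (hε : 0 < ε) :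
    ∃ N0 : ℕ, ∀ N : ℕ, N0 ≤ N → ∀ x y : S,
      |(∑ j ∈ Finset.range N, (if x + j • (a : S) ∈ P then 1 else 0 : ℝ)) -
        ∑ j ∈ Finset.range N, (if y + j • (a : S) ∈ P then 1 else 0 : ℝ)| ≤ ε * N := by
  have : IsProbabilityMeasure (volume : Measure S) := ⟨UnitAddCircle.measure_univ⟩
  set δ : ℝ := ε / 4 with hδ
  have hδ0 : 0 < δ := by positivity
  -- outer open set
  have hδE : ENNReal.ofReal δ ≠ 0 := by simpa using hδ0
  obtain ⟨U, hPU, hUo, hUvol⟩ := (closure P).exists_isOpen_lt_add (measure_ne_top volume _) hδE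
  obtain ⟨V, hFV, hVo, hVvol⟩ := ((interior P)ᶜ).exists_isOpen_lt_add
    (measure_ne_top volume _) hδE
  obtain ⟨φp, hp0, hp1, hp⟩ := exists_continuous_zero_one_of_isClosed (s := Uᶜ) (t := closure P)
    hUo.isClosed_compl isClosed_closure (by
      rw [Set.disjoint_left]; intro z hz hz'; exact hz (hPU hz'))
  obtain ⟨φm, hm0, hm1, hm⟩ := exists_continuous_zero_one_of_isClosed (s := (interior P)ᶜ)
    (t := Vᶜ) isOpen_interior.isClosed_compl hVo.isClosed_compl (by
      rw [Set.disjoint_left]; intro z hz hz'; exact hz' (hFV hz))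
  -- pointwise bounds
  have hle1 : ∀ z, φm z ≤ (if z ∈ P then 1 else 0 : ℝ) := by
    intro z
    split_ifs with hz
    · exact (hm z).2
    · have : z ∈ (interior P)ᶜ := fun h => hz (interior_subset h)
      exact le_of_eq (hm0 this)
  have hle2 : ∀ z, (if z ∈ P then 1 else 0 : ℝ) ≤ φp z := by
    intro z
    split_ifs with hz
    · exact le_of_eq (hp1 (subset_closure hz)).symm
    · exact (hp z).1
  let ψ : C(S, ℝ) := φp - φm
  have hψle : ∀ z, ψ z ≤ (U ∩ V).indicator (fun _ => (1:ℝ)) z := by
    intro z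
    show φp z - φm z ≤ _
    by_cases hU : z ∈ U
    · by_cases hV : z ∈ V
      · rw [indicator_of_mem (show z ∈ U ∩ V from ⟨hU, hV⟩)]
        have := (hp z).2
        have := (hm z).1
        linarith
      · rw [indicator_of_notMem (fun h => hV h.2)]
        have h1 : φm z = 1 := hm1 hV
        have := (hp z).2
        linarith
    · rw [indicator_of_notMem (fun h => hU h.1)]
      have h1 : φp z = 0 := hp0 hU
      have := (hm z).1
      linarith
  have hvol : volume.real (U ∩ V) ≤ 2 * δ := by
    have h1 : volume.real (U ∪ V) + volume.real (U ∩ V) = volume.real U + volume.real V :=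
      measureReal_union_add_inter hVo.measurableSet
    have h2 : U ∪ V = univ := by
      rw [eq_univ_iff_forall]
      intro z
      by_cases hz : z ∈ interior P
      · exact Or.inl (hPU (interior_subset_closure hz))
      · exact Or.inr (hFV hz)
    rw [h2, probReal_univ] at h1
    have h3 : volume.real U ≤ volume.real (closure P) + δ := by
      have := (ENNReal.toReal_le_toReal (measure_ne_top _ _)
        (ENNReal.add_ne_top.2 ⟨measure_ne_top _ _, ENNReal.ofReal_ne_top⟩)).2 hUvol.le
      rw [ENNReal.toReal_add (measure_ne_top _ _) ENNReal.ofReal_ne_top,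
        ENNReal.toReal_ofReal hδ0.le] at this
      exact this
    have h4 : volume.real V ≤ volume.real ((interior P)ᶜ) + δ := by
      have := (ENNReal.toReal_le_toReal (measure_ne_top _ _)
        (ENNReal.add_ne_top.2 ⟨measure_ne_top _ _, ENNReal.ofReal_ne_top⟩)).2 hVvol.le
      rw [ENNReal.toReal_add (measure_ne_top _ _) ENNReal.ofReal_ne_top,
        ENNReal.toReal_ofReal hδ0.le] at this
      exact this
    have h5 : volume.real ((interior P)ᶜ) = 1 - volume.real (interior P) :=
      probReal_compl_eq_one_sub isOpen_interior.measurableSet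
    have h6 : volume.real (closure P) ≤ volume.real (interior P) + volume.real (frontier P) := by
      rw [closure_eq_interior_union_frontier]
      exact measureReal_union_le _ _
    have h7 : volume.real (frontier P) = 0 := by
      unfold Measure.real
      rw [hP]; rfl
    linarith
  have hψint : ∫ z, ψ z ≤ 2 * δ := by
    have hi1 : Integrable (fun z => ψ z) (volume : Measure S) :=
      ψ.continuous.integrable_of_hasCompactSupport (HasCompactSupport.of_compactSpace _)
    calc ∫ z, ψ z ≤ ∫ z, (U ∩ V).indicator (fun _ => (1:ℝ)) z := by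
          refine integral_mono hi1 ?_ hψle
          exact (integrable_const (1:ℝ)).indicator (hUo.inter hVo).measurableSet
      _ = volume.real (U ∩ V) := by
          rw [integral_indicator (hUo.inter hVo).measurableSet]
          simp
      _ ≤ 2 * δ := hvol
  obtain ⟨N1, h1⟩ := birkhoff_cont a ha φp δ hδ0
  obtain ⟨N2, h2⟩ := birkhoff_cont a ha ψ δ hδ0
  have hψsum : ∀ N, N2 ≤ N → ∀ x : S, ∑ j ∈ Finset.range N, ψ (x + j • (a : S)) ≤ 3 * δ * N := by
    intro N hN x
    have hpt : ∀ y : S, ∑ j ∈ Finset.range N, ψ (x + j • (a : S)) ≤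
        (∑ j ∈ Finset.range N, ψ (y + j • (a : S))) + δ * N := by
      intro y
      have := (abs_le.1 (h2 N hN x y)).2
      linarith
    have hint : ∀ j : ℕ, Integrable (fun y : S => ψ (y + j • (a : S))) (volume : Measure S) := by
      intro j
      have : Continuous (fun y : S => ψ (y + j • (a : S))) := by fun_prop
      exact this.integrable_of_hasCompactSupport (HasCompactSupport.of_compactSpace _)
    have hI : ∫ _y : S, ∑ j ∈ Finset.range N, ψ (x + j • (a : S)) ≤
        ∫ y : S, ((∑ j ∈ Finset.range N, ψ (y + j • (a : S))) + δ * N) := by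
      refine integral_mono (integrable_const _) ?_ hpt
      exact (integrable_finsetSum _ (fun j _ => hint j)).add (integrable_const _)
    rw [integral_const, probReal_univ, one_smul, integral_add
      (integrable_finsetSum _ (fun j _ => hint j)) (integrable_const _), integral_const,
      probReal_univ, one_smul, integral_finsetSum _ (fun j _ => hint j)] at hI
    have hsh : ∀ j : ℕ, ∫ y : S, ψ (y + j • (a : S)) = ∫ y : S, ψ y := by
      intro j
      exact integral_add_right_eq_self (fun y => ψ y) _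
    simp only [hsh, Finset.sum_const, Finset.card_range, nsmul_eq_mul] at hI
    have hN0 : (0:ℝ) ≤ N := Nat.cast_nonneg N
    nlinarith
  refine ⟨max N1 N2, fun N hN => ?_⟩
  have hside : ∀ x y : S, (∑ j ∈ Finset.range N, (if x + j • (a : S) ∈ P then 1 else 0 : ℝ)) -
        ∑ j ∈ Finset.range N, (if y + j • (a : S) ∈ P then 1 else 0 : ℝ) ≤ ε * N := by
    intro x y
    have e1 : (∑ j ∈ Finset.range N, (if x + j • (a : S) ∈ P then 1 else 0 : ℝ)) ≤
        ∑ j ∈ Finset.range N, φp (x + j • (a : S)) :=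
      Finset.sum_le_sum (fun j _ => hle2 _)
    have e2 : ∑ j ∈ Finset.range N, φm (y + j • (a : S)) ≤
        ∑ j ∈ Finset.range N, (if y + j • (a : S) ∈ P then 1 else 0 : ℝ) :=
      Finset.sum_le_sum (fun j _ => hle1 _)
    have e3 := (abs_le.1 (h1 N (le_trans (le_max_left _ _) hN) x y)).2
    have e4 := hψsum N (le_trans (le_max_right _ _) hN) y
    have e5 : ∑ j ∈ Finset.range N, ψ (y + j • (a : S)) =
        ∑ j ∈ Finset.range N, φp (y + j • (a : S)) - ∑ j ∈ Finset.range N, φm (y + j • (a : S)) := by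
      rw [← Finset.sum_sub_distrib]
      rfl
    have e6 : ε * N = δ * N + 3 * δ * N := by rw [hδ]; ring
    linarith
  intro x y
  rw [abs_le]
  constructor
  · have := hside y x
    linarith
  · exact hside x y
end C4
end Geo

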