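import Pool.Agent.Helper183.Geo.Base

set_option autoImplicit false
open MeasureTheory Set
namespace Geo
namespace C6

theorem fg_structure {G : Type*} [AddCommGroup G] [AddGroup.FG G] :
    ∃ (r : ℕ) (T : Type) (_ : AddCommGroup T) (_ : Fintype T), Nonempty (G ≃+ (Fin r → ℤ) × T) := by
  classical
  obtain ⟨n, ι, fι, p, hp, e, ⟨f⟩⟩ := AddCommGroup.equiv_free_prod_directSum_zmod G
  have : ∀ i, NeZero (p i ^ e i) := fun i => ⟨pow_ne_zero _ (hp i).ne_zero⟩
  have hfin : Finite (Π₀ i, ZMod (p i ^ e i)) := inferInstance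
  have hfin' : Finite (DirectSum ι fun i => ZMod (p i ^ e i)) := hfin
  have := Fintype.ofFinite (DirectSum ι fun i => ZMod (p i ^ e i))
  refine ⟨n, DirectSum ι fun i => ZMod (p i ^ e i), inferInstance, inferInstance, ⟨f.trans ?_⟩⟩
  exact AddEquiv.prodCongr (Finsupp.linearEquivFunOnFinite ℤ ℤ (Fin n)).toAddEquiv (AddEquiv.refl _)

theorem card_shift (X : ℕ) (d : ℤ) (M : ℕ) (hd : |d| ≤ M) :
    ((Finset.Ico (0 : ℤ) X).filter (fun x => x + d ∉ Finset.Ico (0 : ℤ) X)).card ≤ M := by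
  rw [abs_le] at hd
  by_cases h : 0 ≤ d
  · have hsub : (Finset.Ico (0 : ℤ) X).filter (fun x => x + d ∉ Finset.Ico (0 : ℤ) X) ⊆
        Finset.Ico ((X : ℤ) - d) X := by
      intro x hx
      simp only [Finset.mem_filter, Finset.mem_Ico, not_and, not_lt] at hx ⊢
      omega
    refine (Finset.card_le_card hsub).trans ?_
    rw [Int.card_Ico]
    omega
  · have hsub : (Finset.Ico (0 : ℤ) X).filter (fun x => x + d ∉ Finset.Ico (0 : ℤ) X) ⊆
        Finset.Ico (0 : ℤ) (-d) := by
      intro x hx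
      simp only [Finset.mem_filter, Finset.mem_Ico, not_and, not_lt] at hx ⊢
      omega
    refine (Finset.card_le_card hsub).trans ?_
    rw [Int.card_Ico]
    omega

theorem card_bad (r X M : ℕ) (d : Fin r → ℤ) (hd : ∀ i, |d i| ≤ M) :
    X * ((Fintype.piFinset (fun _ : Fin r => Finset.Ico (0 : ℤ) X)).filter
      (fun n => n + d ∉ Fintype.piFinset (fun _ : Fin r => Finset.Ico (0 : ℤ) X))).card ≤
    r * M * (Fintype.piFinset (fun _ : Fin r => Finset.Ico (0 : ℤ) X)).card := by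
  classical
  obtain ⟨A, hA⟩ : ∃ A : Finset ℤ, A = Finset.Ico (0 : ℤ) X := ⟨_, rfl⟩
  rw [← hA]
  have hAc : A.card = X := by rw [hA, Int.card_Ico]; simp
  obtain ⟨B, hB⟩ : ∃ B : Fin r → Finset (Fin r → ℤ), B = fun i => Fintype.piFinset
    (fun j : Fin r => if j = i then A.filter (fun x => x + d i ∉ A) else A) := ⟨_, rfl⟩
  have hsub : (Fintype.piFinset (fun _ : Fin r => A)).filter
      (fun n => n + d ∉ Fintype.piFinset (fun _ : Fin r => A)) ⊆ Finset.univ.biUnion B := by
    intro n hn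
    simp only [Finset.mem_filter, Fintype.mem_piFinset, not_forall, Pi.add_apply] at hn
    obtain ⟨h1, i, hi⟩ := hn
    simp only [Finset.mem_biUnion, Finset.mem_univ, true_and]
    refine ⟨i, ?_⟩
    rw [hB]
    simp only [Fintype.mem_piFinset]
    intro j
    by_cases hj : j = i
    · subst hj
      simp [h1 j, hi]
    · simp [hj, h1 j]
  have hBi : ∀ i, X * (B i).card ≤ M * (Fintype.piFinset (fun _ : Fin r => A)).card := by
    intro i
    rw [hB]
    simp only [Fintype.card_piFinset]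
    rw [← Finset.mul_prod_erase Finset.univ _ (Finset.mem_univ i),
      ← Finset.mul_prod_erase Finset.univ (fun _ : Fin r => A.card) (Finset.mem_univ i)]
    have h1 : ∏ x ∈ Finset.univ.erase i,
        (if x = i then A.filter (fun x => x + d i ∉ A) else A).card =
        ∏ x ∈ Finset.univ.erase i, A.card := by
      refine Finset.prod_congr rfl fun x hx => ?_
      rw [if_neg (Finset.ne_of_mem_erase hx)]
    rw [h1, if_pos rfl, hAc]
    have h2 : (A.filter (fun x => x + d i ∉ A)).card ≤ M := by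
      rw [hA]; exact card_shift X (d i) M (hd i)
    calc X * ((A.filter (fun x => x + d i ∉ A)).card * ∏ x ∈ Finset.univ.erase i, X)
        ≤ X * (M * ∏ x ∈ Finset.univ.erase i, X) := by gcongr
      _ = M * (X * ∏ x ∈ Finset.univ.erase i, X) := by ring
  calc X * _ ≤ X * (Finset.univ.biUnion B).card := by gcongr
    _ ≤ X * ∑ i, (B i).card := by gcongr; exact Finset.card_biUnion_le
    _ = ∑ i, X * (B i).card := by rw [Finset.mul_sum]
    _ ≤ ∑ _i : Fin r, M * (Fintype.piFinset (fun _ : Fin r => A)).card :=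
        Finset.sum_le_sum fun i _ => hBi i
    _ = _ := by simp; ring

open Classical in
/-- Folner sets transversal to a subgroup generated by two elements, with bounded cocycle. -/
theorem exists_transversal {G : Type*} [AddCommGroup G] (a b : G) (C : Finset G) :
    ∃ K : ℕ, ∀ N : ℕ, 1 ≤ N → ∃ Y : Finset G, Y.Nonempty ∧ Y.card ≤ K * N ^ K ∧
      (∀ y ∈ Y, ∀ y' ∈ Y, ∀ m n : ℤ, y' = y + (m • a + n • b) → y = y') ∧
      ∀ c ∈ C, ∃ (Yc : Finset G) (σ : G → G) (w : G → ℤ × ℤ), Yc ⊆ Y ∧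
        (∀ y ∈ Yc, σ y ∈ Y) ∧ Set.InjOn σ Yc ∧
        (∀ y ∈ Yc, y + c = σ y + ((w y).1 • a + (w y).2 • b) ∧ |(w y).1| ≤ K ∧ |(w y).2| ≤ K) ∧
        N ^ 2 * (Y \ Yc).card ≤ Y.card := by
  obtain ⟨H, hH⟩ : ∃ H : AddSubgroup G, H = AddSubgroup.closure {a, b} := ⟨_, rfl⟩
  obtain ⟨π, hπ⟩ : ∃ π : G →+ G ⧸ H, π = QuotientAddGroup.mk' H := ⟨_, rfl⟩
  have hπs : Function.Surjective π := by rw [hπ]; exact QuotientAddGroup.mk'_surjective H
  have hmem : ∀ x : G, π x = 0 ↔ ∃ m n : ℤ, m • a + n • b = x := by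
    intro x
    rw [hπ, QuotientAddGroup.mk'_apply, QuotientAddGroup.eq_zero_iff, hH,
      AddSubgroup.mem_closure_pair]
  obtain ⟨Q0, hQ0⟩ : ∃ Q0 : AddSubgroup (G ⧸ H), Q0 = AddSubgroup.closure (π '' C) := ⟨_, rfl⟩
  have : AddGroup.FG Q0 := by
    rw [hQ0]
    have : Finite (π '' (C : Set G)) := (C.finite_toSet.image π).to_subtype
    exact AddGroup.closure_finite_fg _
  obtain ⟨r, T, iT, fT, ⟨φ⟩⟩ := fg_structure (G := Q0)
  have hC : ∀ c ∈ C, π c ∈ Q0 := fun c hc => by
    rw [hQ0]; exact AddSubgroup.subset_closure ⟨c, hc, rfl⟩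
  -- lifts
  choose lift hlift using hπs
  obtain ⟨e, he⟩ : ∃ e : T → G, ∀ t, π (e t) = (φ.symm (0, t) : G ⧸ H) :=
    ⟨fun t => lift (φ.symm (0, t) : G ⧸ H), fun t => hlift _⟩
  obtain ⟨ρ, hρ⟩ : ∃ ρ : Fin r → G, ∀ i, π (ρ i) = (φ.symm (Pi.single i 1, 0) : G ⧸ H) :=
    ⟨fun i => lift (φ.symm (Pi.single i 1, 0) : G ⧸ H), fun i => hlift _⟩
  obtain ⟨L, hL⟩ : ∃ L : (Fin r → ℤ) → G, L = fun n => ∑ i, n i • ρ i := ⟨_, rfl⟩
  have hLadd : ∀ n m, L (n + m) = L n + L m := by
    intro n m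
    rw [hL]
    simp only [Pi.add_apply, add_smul, Finset.sum_add_distrib]
  have hLπ : ∀ n, π (L n) = (φ.symm (n, 0) : G ⧸ H) := by
    intro n
    have h1 : ((n, 0) : (Fin r → ℤ) × T) = ∑ i, n i • ((Pi.single i 1, 0) : (Fin r → ℤ) × T) := by
      apply Prod.ext
      · rw [Prod.fst_sum]
        funext j
        simp [Finset.sum_apply, Pi.single_apply]
      · rw [Prod.snd_sum]
        simp
    rw [h1, hL, map_sum, map_sum]
    simp only [map_zsmul, hρ]
    rw [AddSubgroup.val_finsetSum]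
    simp only [AddSubgroup.coe_zsmul]
  obtain ⟨s, hs⟩ : ∃ s : (Fin r → ℤ) × T → G, s = fun q => L q.1 + e q.2 := ⟨_, rfl⟩
  have hsπ : ∀ q, π (s q) = (φ.symm q : G ⧸ H) := by
    intro q
    rw [hs]
    simp only
    rw [map_add, hLπ, he, ← AddSubgroup.coe_add, ← map_add]
    simp
  have hsinj' : ∀ q q', π (s q) = π (s q') → q = q' := by
    intro q q' h
    rw [hsπ, hsπ] at h
    exact φ.symm.injective (Subtype.ext h)
  have hsinj : Function.Injective s := fun q q' h => hsinj' q q' (by rw [h])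
  obtain ⟨p, hp⟩ : ∃ p : G → (Fin r → ℤ) × T, ∀ q, p (s q) = q :=
    ⟨Function.invFun s, Function.leftInverse_invFun hsinj⟩
  -- the classes of the elements of C
  have hw : ∀ c ∈ C, ∃ (nc : Fin r → ℤ) (tc : T), ∀ t, ∃ m n : ℤ,
      e t + c = L nc + e (t + tc) + (m • a + n • b) := by
    intro c hc
    obtain ⟨q, hq⟩ : ∃ q, q = φ ⟨π c, hC c hc⟩ := ⟨_, rfl⟩
    refine ⟨q.1, q.2, fun t => ?_⟩
    have h1 : π (e t + c - (L q.1 + e (t + q.2))) = 0 := by
      rw [map_sub, map_add, map_add, he, he, hLπ]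
      have h2 : π c = ((φ.symm q : Q0) : G ⧸ H) := by
        rw [hq, AddEquiv.symm_apply_apply]
      rw [h2, ← AddSubgroup.coe_add, ← AddSubgroup.coe_add, ← map_add, ← map_add, sub_eq_zero]
      congr 2
      apply Prod.ext <;> simp
    obtain ⟨m, n, hmn⟩ := (hmem _).1 h1
    exact ⟨m, n, by rw [hmn]; abel⟩
  choose! nc tc wm wn hwmn using hw
  obtain ⟨M, hM⟩ : ∃ M : ℕ, ∀ c ∈ C, ∀ i, |nc c i| ≤ M := by
    refine ⟨∑ c ∈ C, ∑ i, (nc c i).natAbs, fun c hc i => ?_⟩
    rw [Int.abs_eq_natAbs]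
    norm_cast
    exact (Finset.single_le_sum (f := fun i => (nc c i).natAbs) (fun _ _ => Nat.zero_le _)
      (Finset.mem_univ i)).trans (Finset.single_le_sum (f := fun c => ∑ i, (nc c i).natAbs)
      (fun _ _ => Nat.zero_le _) hc)
  obtain ⟨K0, hK0⟩ : ∃ K0 : ℕ, ∀ c ∈ C, ∀ t, |wm c t| ≤ K0 ∧ |wn c t| ≤ K0 := by
    refine ⟨∑ c ∈ C, ∑ t, ((wm c t).natAbs + (wn c t).natAbs), fun c hc t => ?_⟩
    have h1 := (Finset.single_le_sum (f := fun t => (wm c t).natAbs + (wn c t).natAbs)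
      (fun _ _ => Nat.zero_le _) (Finset.mem_univ t)).trans (Finset.single_le_sum
      (f := fun c => ∑ t, ((wm c t).natAbs + (wn c t).natAbs)) (fun _ _ => Nat.zero_le _) hc)
    rw [Int.abs_eq_natAbs, Int.abs_eq_natAbs]
    constructor <;> omega
  refine ⟨(r * M + 1) ^ r * Fintype.card T + 2 * r + K0, fun N hN => ?_⟩
  obtain ⟨X, hX⟩ : ∃ X : ℕ, X = (r * M + 1) * N ^ 2 := ⟨_, rfl⟩
  obtain ⟨Box, hBox⟩ : ∃ Box : Finset (Fin r → ℤ),
    Box = Fintype.piFinset (fun _ : Fin r => Finset.Ico (0 : ℤ) X) := ⟨_, rfl⟩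
  have hBoxc : Box.card = X ^ r := by
    rw [hBox]; simp
  have hXpos : 0 < X := by rw [hX]; positivity
  obtain ⟨Y, hY⟩ : ∃ Y : Finset G, Y = (Box ×ˢ (Finset.univ : Finset T)).image s := ⟨_, rfl⟩
  have hYc : Y.card = X ^ r * Fintype.card T := by
    rw [hY, Finset.card_image_of_injective _ hsinj, Finset.card_product, hBoxc, Finset.card_univ]
  have hYmem : ∀ y ∈ Y, ∃ q : (Fin r → ℤ) × T, q.1 ∈ Box ∧ s q = y := by
    intro y hy
    rw [hY, Finset.mem_image] at hy
    obtain ⟨q, hq, rfl⟩ := hy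
    exact ⟨q, (Finset.mem_product.1 hq).1, rfl⟩
  have hmemY : ∀ q : (Fin r → ℤ) × T, q.1 ∈ Box → s q ∈ Y := by
    intro q hq
    rw [hY]
    exact Finset.mem_image_of_mem _ (Finset.mem_product.2 ⟨hq, Finset.mem_univ _⟩)
  have hT1 : 1 ≤ Fintype.card T := Fintype.card_pos_iff.2 ⟨0⟩
  refine ⟨Y, ?_, ?_, ?_, ?_⟩
  · rw [← Finset.card_pos, hYc]; positivity
  · rw [hYc, hX, mul_pow, ← pow_mul]
    calc (r * M + 1) ^ r * N ^ (2 * r) * Fintype.card T
        = ((r * M + 1) ^ r * Fintype.card T) * N ^ (2 * r) := by ring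
      _ ≤ ((r * M + 1) ^ r * Fintype.card T + 2 * r + K0) *
          N ^ ((r * M + 1) ^ r * Fintype.card T + 2 * r + K0) := by
        apply Nat.mul_le_mul (by omega)
        exact Nat.pow_le_pow_right hN (by omega)
  · intro y hy y' hy' m n h
    obtain ⟨q, hq, rfl⟩ := hYmem y hy
    obtain ⟨q', hq', rfl⟩ := hYmem y' hy'
    have h1 : π (m • a + n • b) = 0 := (hmem _).2 ⟨m, n, rfl⟩
    have h2 : π (s q') = π (s q) := by rw [h, map_add, h1, add_zero]
    rw [hsinj' _ _ h2]
  · intro c hc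
    obtain ⟨Bg, hBg⟩ : ∃ Bg : Finset (Fin r → ℤ), Bg = Box.filter (fun n => n + nc c ∈ Box) :=
      ⟨_, rfl⟩
    refine ⟨(Bg ×ˢ (Finset.univ : Finset T)).image s, fun y => s (p y + (nc c, tc c)),
      fun y => (wm c (p y).2, wn c (p y).2), ?_, ?_, ?_, ?_, ?_⟩
    · rw [hY, hBg]
      apply Finset.image_subset_image
      apply Finset.product_subset_product_left
      exact Finset.filter_subset _ _
    · intro y hy
      rw [Finset.mem_image] at hy
      obtain ⟨q, hq, rfl⟩ := hy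
      have hq1 := (Finset.mem_product.1 hq).1
      rw [hBg, Finset.mem_filter] at hq1
      apply hmemY
      rw [hp]
      exact hq1.2
    · intro y hy y' hy' h
      rw [Finset.mem_coe, Finset.mem_image] at hy hy'
      obtain ⟨q, hq, rfl⟩ := hy
      obtain ⟨q', hq', rfl⟩ := hy'
      simp only [hp] at h
      have := hsinj h
      rw [add_left_inj] at this
      rw [this]
    · intro y hy
      rw [Finset.mem_image] at hy
      obtain ⟨q, hq, rfl⟩ := hy
      simp only [hp]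
      refine ⟨?_, ?_, ?_⟩
      · rw [hs]
        simp only [Prod.fst_add, Prod.snd_add]
        rw [hLadd, add_assoc, hwmn c hc q.2]
        abel
      · refine (hK0 c hc q.2).1.trans ?_
        push_cast
        have : (0 : ℤ) ≤ ((r * M + 1) ^ r * Fintype.card T + 2 * r : ℕ) := Nat.cast_nonneg _
        push_cast at this
        linarith
      · refine (hK0 c hc q.2).2.trans ?_
        push_cast
        have : (0 : ℤ) ≤ ((r * M + 1) ^ r * Fintype.card T + 2 * r : ℕ) := Nat.cast_nonneg _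
        push_cast at this
        linarith
    · have hsub : Y \ (Bg ×ˢ (Finset.univ : Finset T)).image s ⊆
          ((Box.filter (fun n => n + nc c ∉ Box)) ×ˢ (Finset.univ : Finset T)).image s := by
        intro y hy
        rw [Finset.mem_sdiff] at hy
        obtain ⟨q, hq, rfl⟩ := hYmem y hy.1
        apply Finset.mem_image_of_mem
        rw [Finset.mem_product, Finset.mem_filter]
        refine ⟨⟨hq, fun hh => hy.2 ?_⟩, Finset.mem_univ _⟩
        apply Finset.mem_image_of_mem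
        rw [Finset.mem_product, hBg, Finset.mem_filter]
        exact ⟨⟨hq, hh⟩, Finset.mem_univ _⟩
      have h1 : (Y \ (Bg ×ˢ (Finset.univ : Finset T)).image s).card ≤
          (Box.filter (fun n => n + nc c ∉ Box)).card * Fintype.card T := by
        refine (Finset.card_le_card hsub).trans ?_
        refine Finset.card_image_le.trans ?_
        rw [Finset.card_product, Finset.card_univ]
      have h2 := card_bad r X M (nc c) (hM c hc)
      rw [← hBox] at h2
      have h3 : N ^ 2 * (Box.filter (fun n => n + nc c ∉ Box)).card ≤ Box.card := by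
        have h4 : (r * M + 1) * (N ^ 2 * (Box.filter (fun n => n + nc c ∉ Box)).card) ≤
            (r * M + 1) * Box.card := by
          calc (r * M + 1) * (N ^ 2 * (Box.filter (fun n => n + nc c ∉ Box)).card)
              = X * (Box.filter (fun n => n + nc c ∉ Box)).card := by rw [hX]; ring
            _ ≤ r * M * Box.card := h2
            _ ≤ _ := Nat.mul_le_mul_right _ (by omega)
        exact Nat.le_of_mul_le_mul_left h4 (by omega)
      calc N ^ 2 * (Y \ (Bg ×ˢ (Finset.univ : Finset T)).image s).card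
          ≤ N ^ 2 * ((Box.filter (fun n => n + nc c ∉ Box)).card * Fintype.card T) := by gcongr
        _ = (N ^ 2 * (Box.filter (fun n => n + nc c ∉ Box)).card) * Fintype.card T := by ring
        _ ≤ Box.card * Fintype.card T := by gcongr
        _ = Y.card := by rw [hYc, hBoxc]
end C6
end Geo

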