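import Pool.Agent.Helper183.Geo.Base

set_option autoImplicit false
open MeasureTheory Set
namespace Geo
namespace C7
lemma avoid_pts (F : Finset S) (η : ℝ) (hη : 0 ≤ η) (h : (F.card : ℝ) * (2 * η) < 1) :
    ∃ s : S, ∀ f ∈ F, η < dist s f := by
  by_contra hcon
  push Not at hcon
  have hsub : (univ : Set S) ⊆ ⋃ f ∈ F, Metric.closedBall f η := by
    intro s _
    obtain ⟨f, hf, hd⟩ := hcon s
    simp only [mem_iUnion]
    exact ⟨f, hf, hd⟩
  have h1 : (1 : ENNReal) ≤ ∑ f ∈ F, volume (Metric.closedBall f η) := by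
    calc (1 : ENNReal) = volume (univ : Set S) := UnitAddCircle.measure_univ.symm
      _ ≤ volume (⋃ f ∈ F, Metric.closedBall f η) := measure_mono hsub
      _ ≤ _ := measure_biUnion_finset_le F _
  have h2 : ∑ f ∈ F, volume (Metric.closedBall f η) ≤ ENNReal.ofReal ((F.card : ℝ) * (2 * η)) := by
    calc ∑ f ∈ F, volume (Metric.closedBall f η) ≤ ∑ f ∈ F, ENNReal.ofReal (2 * η) := by
          apply Finset.sum_le_sum
          intro f _
          rw [AddCircle.volume_closedBall]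
          exact ENNReal.ofReal_le_ofReal (min_le_right _ _)
      _ = ENNReal.ofReal ((F.card : ℝ) * (2 * η)) := by
          rw [Finset.sum_const, nsmul_eq_mul, ENNReal.ofReal_mul (by positivity)]
          simp
  have h3 : ENNReal.ofReal ((F.card : ℝ) * (2 * η)) < 1 := by
    rw [← ENNReal.ofReal_one]
    exact (ENNReal.ofReal_lt_ofReal_iff one_pos).2 h
  exact absurd (h1.trans h2) (not_le.2 h3)

lemma norm_coe_le (a : ℝ) : ‖(a : S)‖ ≤ |a| := by
  rw [UnitAddCircle.norm_eq]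
  simpa using round_le a 0

lemma step_move (q : ℕ) (hq : 0 < q) (y s : S) : ∃ y' : S, dist y' y ≤ 1/(2*q) ∧ q • y' = s := by
  obtain ⟨a, ha⟩ := QuotientAddGroup.mk_surjective (s - q • y)
  have hq' : (0:ℝ) < q := by exact_mod_cast hq
  have ha1 : (((a - round a : ℝ)) : S) = s - q • y := by
    have h1 : ((round a : ℝ) : S) = 0 := by
      have := (AddCircle.coe_eq_zero_iff (1:ℝ) (x := (round a : ℝ))).2 ⟨round a, by simp⟩
      exact this
    rw [AddCircle.coe_sub, h1, sub_zero]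
    exact ha
  refine ⟨y + (((a - round a)/q : ℝ) : S), ?_, ?_⟩
  · rw [dist_eq_norm, add_sub_cancel_left]
    refine (norm_coe_le _).trans ?_
    rw [abs_div, abs_of_pos hq']
    have := abs_sub_round a
    rw [div_le_div_iff₀ hq' (by positivity)]
    nlinarith
  · rw [nsmul_add, ← AddCircle.coe_nsmul]
    have : q • ((a - round a)/q : ℝ) = a - round a := by
      rw [nsmul_eq_mul]; field_simp
    rw [this, ha1]; abel

lemma dist_nsmul (q : ℕ) (a b : S) : dist (q • a) (q • b) ≤ q * dist a b := by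
  rw [dist_eq_norm, ← nsmul_sub, dist_eq_norm]
  exact norm_nsmul_le

lemma isoS_dist (g : Bool × S) (x y : S) : dist (isoS g x) (isoS g y) = dist x y := by
  unfold isoS
  split_ifs
  · exact dist_add_right _ _ _
  · rw [dist_add_right, dist_neg_neg]

lemma isoS_cont (g : Bool × S) : Continuous (isoS g) :=
  (Isometry.of_dist_eq (isoS_dist g)).continuous

/-- the half point -/
noncomputable def hf : S := ((1/2 : ℝ) : S)

lemma hf_norm : ‖hf‖ = 1/2 := by
  unfold hf
  rw [UnitAddCircle.norm_eq]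
  have := AddCircle.norm_half_period_eq (1:ℝ)
  rw [UnitAddCircle.norm_eq] at this
  simpa using this

lemma hit1 (q : ℕ) (hq : 0 < q) (g : Bool × S) (y t : S) :
    ∃ y' : S, dist y' y ≤ 1/(2*q) ∧ q • isoS g y' = t := by
  by_cases hg : g.1 = true
  · obtain ⟨y', h1, h2⟩ := step_move q hq y (t - q • g.2)
    refine ⟨y', h1, ?_⟩
    simp only [isoS, hg, if_true, nsmul_add, h2]; abel
  · obtain ⟨y', h1, h2⟩ := step_move q hq y (q • g.2 - t)
    refine ⟨y', h1, ?_⟩
    have hg' : ¬ (g.1 = true) := hg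
    simp only [isoS, hg', if_false, nsmul_add, smul_neg, h2, Bool.false_eq_true]; abel

lemma avoid1 (n : ℕ) (δ : ℝ) (hδ : 0 ≤ δ) (hn : (n : ℝ) * (8 * δ) < 1) (q : ℕ) (hq : 0 < q)
    (L : Finset (Bool × S)) (hL : L.card ≤ n) (y : S) :
    ∃ y' : S, dist y' y ≤ 1/(2*q) ∧ ∀ g ∈ L, 2 * δ < dist (q • isoS g y') 0 ∧
      2 * δ < dist (q • isoS g y') hf := by
  classical
  let f : S → Bool × S → S := fun t g => if g.1 then t - q • g.2 else q • g.2 - t
  obtain ⟨s, hs⟩ := avoid_pts (L.image (f 0) ∪ L.image (f hf)) (2 * δ) (by positivity) (by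
    have h1 : ((L.image (f 0) ∪ L.image (f hf)).card : ℝ) ≤ 2 * n := by
      have : (L.image (f 0) ∪ L.image (f hf)).card ≤ 2 * n := by
        refine (Finset.card_union_le _ _).trans ?_
        have h1 := Finset.card_image_le (s := L) (f := f 0)
        have h2 := Finset.card_image_le (s := L) (f := f hf)
        omega
      exact_mod_cast this
    nlinarith)
  obtain ⟨y', h1, h2⟩ := step_move q hq y s
  refine ⟨y', h1, ?_⟩
  have key : ∀ t : S, ∀ g ∈ L, dist (q • isoS g y') t = dist s (f t g) := by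
    intro t g hg
    by_cases hg : g.1 = true
    · simp only [isoS, f, hg, if_true, nsmul_add, h2, dist_eq_norm]
      congr 1; abel
    · simp only [isoS, f, hg, if_false, nsmul_add, smul_neg, h2, dist_eq_norm, Bool.false_eq_true]
      rw [← norm_neg]
      congr 1; abel
  intro g hg
  rw [key 0 g hg, key hf g hg]
  constructor
  · exact hs _ (Finset.mem_union_left _ (Finset.mem_image_of_mem _ hg))
  · exact hs _ (Finset.mem_union_right _ (Finset.mem_image_of_mem _ hg))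

/-- level of a test -/
def lev (l : ℕ) : ℕ := Nat.log 2 (l+1)
/-- centre of a test cell -/
noncomputable def pc (l : ℕ) : S := ((((l+1 : ℕ) : ℝ) / 2^(lev l) : ℝ) : S)
/-- radius of the cell-/
noncomputable def rad (l : ℕ) : ℝ := 2 / 2^(lev l)

lemma lev_mono {k l : ℕ} (h : k ≤ l) : lev k ≤ lev l := Nat.log_mono_right (by omega)

lemma lev_lt (i l : ℕ) (h : lev l ≤ i) : l < 2^(i+1) := by
  have h1 : l + 1 < 2^(Nat.log 2 (l+1) + 1) := Nat.lt_pow_succ_log_self (by norm_num) _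
  have h2 : 2^(Nat.log 2 (l+1) + 1) ≤ 2^(i+1) := Nat.pow_le_pow_right (by norm_num) (by
    unfold lev at h; omega)
  omega

lemma two_pow_lev (l : ℕ) : 2^(lev l) ≤ l + 1 := Nat.pow_log_le_self 2 (by omega)

lemma cover (x : S) (i : ℕ) : ∃ l, lev l = i ∧ dist x (pc l) ≤ 1/2^i := by
  obtain ⟨a, ha⟩ := QuotientAddGroup.mk_surjective x
  have ha1 : ((Int.fract a : ℝ) : S) = x := by
    have h1 : ((⌊a⌋ : ℝ) : S) = 0 := 
      (AddCircle.coe_eq_zero_iff (1:ℝ) (x := (⌊a⌋ : ℝ))).2 ⟨⌊a⌋, by simp⟩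
    have h2 : Int.fract a = a - ⌊a⌋ := rfl
    rw [h2, AddCircle.coe_sub, h1, sub_zero]
    exact ha
  set b := Int.fract a with hb
  have hb0 : 0 ≤ b := Int.fract_nonneg a
  have hb1 : b < 1 := Int.fract_lt_one a
  have hp : (0:ℝ) < 2^i := by positivity
  set j := ⌊b * 2^i⌋₊ with hj
  have hj1 : j < 2^i := by
    rw [hj, Nat.floor_lt (by positivity)]
    push_cast
    nlinarith
  have hp1 : 1 ≤ 2^i := Nat.one_le_two_pow
  have hl : (2^i - 1 + j) + 1 = 2^i + j := by omega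
  have hlev : lev (2^i - 1 + j) = i := by
    unfold lev
    rw [hl]
    rw [Nat.log_eq_iff (Or.inr ⟨by norm_num, by omega⟩)]
    constructor
    · omega
    · rw [pow_succ]; omega
  refine ⟨2^i - 1 + j, hlev, ?_⟩
  unfold pc
  rw [hlev, hl, ← ha1, dist_eq_norm, ← AddCircle.coe_sub]
  have e : b - ((2^i + j : ℕ) : ℝ) / 2^i = (b - j/2^i) - (1:ℤ) := by
    push_cast; field_simp; ring
  have h1 : (((1:ℤ) : ℝ) : S) = 0 := 
      (AddCircle.coe_eq_zero_iff (1:ℝ) (x := ((1:ℤ) : ℝ))).2 ⟨1, by simp⟩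
  rw [e, AddCircle.coe_sub, h1, sub_zero]
  refine (norm_coe_le _).trans ?_
  have f1 : (j:ℝ) ≤ b * 2^i := Nat.floor_le (by positivity)
  have f2 : b * 2^i < j + 1 := Nat.lt_floor_add_one _
  have f3 : (j:ℝ)/2^i ≤ b := by rw [div_le_iff₀ hp]; exact f1
  have f4 : b ≤ (j:ℝ)/2^i + 1/2^i := by rw [← add_div, le_div_iff₀ hp]; exact f2.le
  rw [abs_of_nonneg (by linarith)]
  linarith

lemma sphere_null (p : S) (r : ℝ) : volume {x : S | dist x p = r} = 0 := by
  have h := (AddCircle.closedBall_ae_eq_ball (T := 1) (x := p) (ε := r))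
  have h2 := (ae_eq_set.1 h).1
  refine measure_mono_null ?_ h2
  intro x hx
  refine ⟨?_, ?_⟩
  · exact le_of_eq hx
  · simp only [Metric.mem_ball, not_lt]; exact le_of_eq hx.symm

lemma isoS_sphere_null (g : Bool × S) (p : S) (r : ℝ) : volume {x : S | dist (isoS g x) p = r} = 0 := by
  by_cases hg : g.1 = true
  · refine measure_mono_null ?_ (sphere_null (p - g.2) r)
    intro x hx
    simp only [isoS, hg, if_true, mem_setOf_eq, dist_eq_norm] at hx ⊢
    rw [← hx]; congr 1; abel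
  · refine measure_mono_null ?_ (sphere_null (g.2 - p) r)
    intro x hx
    simp only [isoS, hg, if_false, mem_setOf_eq, dist_eq_norm, Bool.false_eq_true] at hx ⊢
    rw [← hx, ← norm_neg]; congr 1; abel

lemma nsmul_sphere_null (q : ℕ) (hq : 1 < q) (p : S) (r : ℝ) : volume {x : S | dist (q • x) p = r} = 0 := by
  have h := (AddCircle.ergodic_nsmul (T := 1) hq).toMeasurePreserving.quasiMeasurePreserving
  exact h.preimage_null (sphere_null p r)

/-- blocked at test `l` -/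
def Blk (Q : ℕ → ℕ) (δ : ℝ) (l : ℕ) : Set S :=
  {x | x ∈ Metric.closedBall (pc l) (rad l) ∧
    (Q l • x ∈ Metric.closedBall (0:S) δ ∨ Q l • x ∈ Metric.closedBall hf δ)}

/-- decided at test `l` -/
def Dec (Q : ℕ → ℕ) (δ : ℝ) (t : S) (l : ℕ) : Set S :=
  {x | x ∈ Metric.ball (pc l) (rad l) ∧ Q l • x ∈ Metric.ball t δ}

/-- the set -/
def Bt (Q : ℕ → ℕ) (δ : ℝ) (t : S) : Set S :=
  {x | ∃ l, (∀ k < l, x ∉ Blk Q δ k) ∧ x ∈ Dec Q δ t l}

lemma Blk_closed (Q : ℕ → ℕ) (δ : ℝ) (l : ℕ) : IsClosed (Blk Q δ l) := by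
  have hc : Continuous (fun x : S => Q l • x) := continuous_nsmul _
  have h1 : IsClosed (Metric.closedBall (pc l) (rad l)) := Metric.isClosed_closedBall
  have h2 : IsClosed ((fun x : S => Q l • x) ⁻¹' (Metric.closedBall (0:S) δ)) := 
    Metric.isClosed_closedBall.preimage hc
  have h3 : IsClosed ((fun x : S => Q l • x) ⁻¹' (Metric.closedBall hf δ)) := 
    Metric.isClosed_closedBall.preimage hc
  exact h1.inter (h2.union h3)

lemma Dec_open (Q : ℕ → ℕ) (δ : ℝ) (t : S) (l : ℕ) : IsOpen (Dec Q δ t l) := by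
  have hc : Continuous (fun x : S => Q l • x) := continuous_nsmul _
  have h1 : IsOpen (Metric.ball (pc l) (rad l)) := Metric.isOpen_ball
  have h2 : IsOpen ((fun x : S => Q l • x) ⁻¹' (Metric.ball t δ)) := Metric.isOpen_ball.preimage hc
  exact h1.inter h2

lemma Bt_open (Q : ℕ → ℕ) (δ : ℝ) (t : S) : IsOpen (Bt Q δ t) := by
  have e : Bt Q δ t = ⋃ l, ((⋂ k ∈ Finset.range l, (Blk Q δ k)ᶜ) ∩ Dec Q δ t l) := by
    ext x
    simp only [Bt, mem_setOf_eq, mem_iUnion, mem_inter_iff, mem_iInter, Finset.mem_range,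
      mem_compl_iff]
  rw [e]
  refine isOpen_iUnion fun l => IsOpen.inter ?_ (Dec_open Q δ t l)
  exact isOpen_biInter_finset fun k _ => (Blk_closed Q δ k).isOpen_compl

lemma Dec_sub0 (Q : ℕ → ℕ) (δ : ℝ) (l : ℕ) : Dec Q δ 0 l ⊆ Blk Q δ l :=
  fun _ hx => ⟨Metric.ball_subset_closedBall hx.1, Or.inl (Metric.ball_subset_closedBall hx.2)⟩

lemma Dec_sub1 (Q : ℕ → ℕ) (δ : ℝ) (l : ℕ) : Dec Q δ hf l ⊆ Blk Q δ l :=
  fun _ hx => ⟨Metric.ball_subset_closedBall hx.1, Or.inr (Metric.ball_subset_closedBall hx.2)⟩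

lemma Bt_disj (Q : ℕ → ℕ) (δ : ℝ) (hδ : δ ≤ 1/8) : Disjoint (Bt Q δ 0) (Bt Q δ hf) := by
  rw [Set.disjoint_left]
  rintro x ⟨l, h1, h2⟩ ⟨l', h1', h2'⟩
  rcases lt_trichotomy l l' with h | h | h
  · exact h1' l h (Dec_sub0 Q δ l h2)
  · subst h
    have e1 := h2.2
    have e2 := h2'.2
    rw [Metric.mem_ball] at e1 e2
    have e3 : dist (0:S) hf ≤ dist (Q l • x) 0 + dist (Q l • x) hf := by
      rw [dist_comm (Q l • x) 0]; exact dist_triangle _ _ _
    rw [dist_zero_left, hf_norm] at e3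
    linarith
  · exact h1 l' h (Dec_sub1 Q δ l' h2')

lemma exists_of_blk (Q : ℕ → ℕ) (δ : ℝ) (x : S) (h : ∃ l, x ∈ Blk Q δ l) :
    ∃ l, (∀ k < l, x ∉ Blk Q δ k) ∧ x ∈ Blk Q δ l := by
  classical
  refine ⟨Nat.find h, fun k hk => Nat.find_min h hk, Nat.find_spec h⟩

/-- the exceptional null set -/
def Exc (Q : ℕ → ℕ) (δ : ℝ) : Set S :=
  ⋃ l, ({x : S | dist x (pc l) = rad l} ∪ {x | dist (Q l • x) 0 = δ} ∪ {x | dist (Q l • x) hf = δ})

lemma Exc_null (Q : ℕ → ℕ) (δ : ℝ) (hQ : ∀ l, 1 < Q l) : volume (Exc Q δ) = 0 := by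
  refine measure_iUnion_null fun l => ?_
  refine measure_union_null (measure_union_null (sphere_null _ _) (nsmul_sphere_null _ (hQ l) _ _))
    (nsmul_sphere_null _ (hQ l) _ _)

/-- points never decided -/
def Kp (Q : ℕ → ℕ) (δ : ℝ) : Set S := {x | ∀ l, x ∉ Dec Q δ 0 l}

lemma frontier_sub (Q : ℕ → ℕ) (δ : ℝ) (hδ : δ ≤ 1/8) :
    frontier (Bt Q δ 0) ⊆ Exc Q δ ∪ Kp Q δ := by
  intro x hx
  have hx0 : x ∉ Bt Q δ 0 := by
    have := (Bt_open Q δ 0).frontier_eq ▸ hx
    exact this.2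
  have hx1 : x ∉ Bt Q δ hf := by
    intro h
    have hcl : x ∈ closure (Bt Q δ 0) := frontier_subset_closure hx
    rw [mem_closure_iff] at hcl
    obtain ⟨z, hz1, hz2⟩ := hcl _ (Bt_open Q δ hf) h
    exact (Set.disjoint_left.1 (Bt_disj Q δ hδ)) hz2 hz1
  by_contra hcon
  rw [mem_union, not_or] at hcon
  obtain ⟨hE, hK⟩ := hcon
  simp only [Kp, mem_setOf_eq, not_forall, not_not] at hK
  obtain ⟨l0, hl0⟩ := hK
  obtain ⟨l, hl1, hl2⟩ := exists_of_blk Q δ x ⟨l0, Dec_sub0 Q δ l0 hl0⟩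
  simp only [Exc, mem_iUnion, mem_union, mem_setOf_eq, not_exists, not_or] at hE
  obtain ⟨⟨e1, e2⟩, e3⟩ := hE l
  have hb : x ∈ Metric.ball (pc l) (rad l) := lt_of_le_of_ne hl2.1 e1
  rcases hl2.2 with h | h
  · exact hx0 ⟨l, hl1, hb, lt_of_le_of_ne h e2⟩
  · exact hx1 ⟨l, hl1, hb, lt_of_le_of_ne h e3⟩

lemma Kp_null (Q : ℕ → ℕ) (δ : ℝ) (hδ0 : 0 < δ) (hδ : δ ≤ 1/8) (hQ : ∀ l, l + 1 ≤ Q l) :
    volume (Kp Q δ) = 0 := by
  have hd := IsUnifLocDoublingMeasure.ae_tendsto_measure_inter_div (volume : Measure S) (Kp Q δ) (1/δ)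
  have hfalse : ∀ᵐ x ∂(volume.restrict (Kp Q δ)), False := by
    filter_upwards [hd] with x hx
    have hch : ∀ i : ℕ, ∃ l, lev l = i ∧ dist x (pc l) ≤ 1/2^i := cover x
    choose L hL1 hL2 using hch
    have hQpos : ∀ i, 0 < Q (L i) := fun i => by have := hQ (L i); omega
    have hst : ∀ i : ℕ, ∃ w : S, dist w x ≤ 1/(2*(Q (L i) : ℕ)) ∧ Q (L i) • w = 0 := fun i =>
      step_move (Q (L i)) (hQpos i) x 0
    choose w hw1 hw2 using hst
    have hQge : ∀ i, (2:ℝ)^i ≤ Q (L i) := by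
      intro i
      have h1 := two_pow_lev (L i)
      rw [hL1 i] at h1
      have h2 := hQ (L i)
      exact_mod_cast h1.trans h2
    have hQr : ∀ i, (0:ℝ) < Q (L i) := fun i => by exact_mod_cast hQpos i
    have hlim : Filter.Tendsto (fun i : ℕ => δ / (2 * (Q (L i) : ℝ))) Filter.atTop (nhdsWithin 0 (Ioi 0)) := by
      rw [tendsto_nhdsWithin_iff]
      constructor
      · have h0 : Filter.Tendsto (fun i : ℕ => δ / 2 * (1/2:ℝ)^i) Filter.atTop (nhds 0) := by
          have := (tendsto_pow_atTop_nhds_zero_of_lt_one (r := (1/2:ℝ)) (by norm_num) (by norm_num)).const_mul (δ/2)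
          simpa using this
        refine squeeze_zero (fun i => by have := hQr i; positivity) (fun i => ?_) h0
        have h1 := hQge i
        have h2 : (0:ℝ) < 2^i := by positivity
        rw [one_div, inv_pow, ← div_eq_mul_inv, div_div]
        refine div_le_div_of_nonneg_left hδ0.le (by positivity) (by linarith)
      · exact Filter.Eventually.of_forall fun i => by
          have := hQr i
          simp only [mem_Ioi]; positivity
    have hmem : ∀ᶠ i in Filter.atTop, x ∈ Metric.closedBall (w i) (1/δ * (δ / (2 * (Q (L i) : ℝ)))) := by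
      refine Filter.Eventually.of_forall fun i => ?_
      rw [Metric.mem_closedBall, dist_comm]
      refine (hw1 i).trans (le_of_eq ?_)
      have := hQr i
      field_simp
    have hT := hx w (fun i => δ / (2 * (Q (L i) : ℝ))) hlim hmem
    have hz : ∀ i, volume (Kp Q δ ∩ Metric.closedBall (w i) (δ / (2 * (Q (L i) : ℝ)))) = 0 := by
      intro i
      have : Kp Q δ ∩ Metric.closedBall (w i) (δ / (2 * (Q (L i) : ℝ))) = ∅ := by
        rw [Set.eq_empty_iff_forall_notMem]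
        rintro z ⟨hz1, hz2⟩
        refine hz1 (L i) ⟨?_, ?_⟩
        · rw [Metric.mem_closedBall] at hz2
          rw [Metric.mem_ball]
          have t1 : dist z (pc (L i)) ≤ dist z (w i) + dist (w i) x + dist x (pc (L i)) := dist_triangle4 _ _ _ _
          have t2 := hw1 i
          have t3 := hL2 i
          have t4 : rad (L i) = 2 / 2^i := by unfold rad; rw [hL1]
          have t5 : (1:ℝ) / (Q (L i) : ℝ) ≤ 1/2^i := 
            div_le_div_of_nonneg_left (by norm_num) (by positivity) (hQge i)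
          have t6 : δ / (2 * (Q (L i) : ℝ)) + 1/(2*(Q (L i) : ℝ)) < 1 / (Q (L i) : ℝ) := by
            have := hQr i
            rw [← add_div, div_lt_div_iff₀ (by positivity) this]
            nlinarith
          rw [t4]
          have t7 : (2:ℝ)/2^i = 1/2^i + 1/2^i := by ring
          rw [t7]
          push_cast at t2
          linarith
        · rw [Metric.mem_ball]
          have := dist_nsmul (Q (L i)) z (w i)
          rw [hw2] at this
          rw [Metric.mem_closedBall] at hz2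
          have h3 : (Q (L i) : ℝ) * dist z (w i) ≤ δ/2 := by
            calc (Q (L i) : ℝ) * dist z (w i) ≤ Q (L i) * (δ / (2 * (Q (L i) : ℝ))) := 
                  mul_le_mul_of_nonneg_left hz2 (hQr i).le
              _ = δ/2 := by have := hQr i; field_simp
          linarith
      rw [this, measure_empty]
    have hT2 : Filter.Tendsto (fun _ : ℕ => (0:ENNReal)) Filter.atTop (nhds 1) := by
      refine hT.congr fun i => ?_
      rw [hz i, ENNReal.zero_div]
    have := tendsto_nhds_unique hT2 tendsto_const_nhds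
    exact one_ne_zero this
  rw [Filter.eventually_false_iff_eq_bot, ae_eq_bot, Measure.restrict_eq_zero] at hfalse
  exact hfalse

lemma frontier_null (Q : ℕ → ℕ) (δ : ℝ) (hδ0 : 0 < δ) (hδ : δ ≤ 1/8) (hQ : ∀ l, l + 1 < Q l) :
    volume (frontier (Bt Q δ 0)) = 0 := by
  refine measure_mono_null (frontier_sub Q δ hδ) (measure_union_null ?_ ?_)
  · exact Exc_null Q δ fun l => by have := hQ l; omega
  · exact Kp_null Q δ hδ0 hδ fun l => (hQ l).le

lemma separation (n : ℕ) (ρ : ℝ) (L : Finset (Bool × S)) (hL : L.card ≤ n) (q : ℕ) (hq : 0 < q)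
    (hqρ : 1 / (q:ℝ) < ρ) (Q0 : ℕ) (hQ0 : 16 * (n^2+1) * q ≤ Q0) (x0 : S) :
    ∃ y0 : S, Metric.closedBall y0 (1/(Q0:ℝ)) ⊆ Metric.ball x0 ρ ∧ 
      ∃ σ > 0, ∀ g ∈ L, ∀ g' ∈ L, g ≠ g' → ∀ x ∈ Metric.closedBall y0 (1/(Q0:ℝ)), 
        σ ≤ dist (isoS g x) (isoS g' x) := by
  classical
  have hqr : (0:ℝ) < q := by exact_mod_cast hq
  have hN : (0:ℝ) < (n:ℝ)^2+1 := by positivity
  have hQ0r : 16 * ((n:ℝ)^2+1) * q ≤ Q0 := by exact_mod_cast hQ0
  have hQ0p : (0:ℝ) < Q0 := lt_of_lt_of_le (by positivity) hQ0r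
  set F : Finset S := (L ×ˢ L).image (fun p => q • (p.2.2 - p.1.2)) with hF
  have hFc : (F.card : ℝ) ≤ (n:ℝ)^2 := by
    have : F.card ≤ n^2 := by
      refine Finset.card_image_le.trans ?_
      rw [Finset.card_product, pow_two]
      exact Nat.mul_le_mul hL hL
    exact_mod_cast this
  set η : ℝ := 1 / (4 * ((n:ℝ)^2+1)) with hη
  have hηp : 0 < η := by positivity
  obtain ⟨s, hs⟩ := avoid_pts F η hηp.le (by
    have : (F.card:ℝ) * (2 * η) ≤ (n:ℝ)^2 * (2*η) := mul_le_mul_of_nonneg_right hFc (by positivity)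
    refine lt_of_le_of_lt this ?_
    rw [hη]
    have : (n:ℝ)^2 * (2 * (1 / (4 * ((n:ℝ)^2+1)))) = ((n:ℝ)^2) / (2 * ((n:ℝ)^2+1)) := by field_simp; ring
    rw [this, div_lt_one (by positivity)]
    nlinarith)
  obtain ⟨y0, h1, h2⟩ := step_move (2*q) (by omega) x0 s
  refine ⟨y0, ?_, ?_⟩
  · intro x hx
    rw [Metric.mem_closedBall] at hx
    rw [Metric.mem_ball]
    have t1 := dist_triangle x y0 x0
    have t2 : 1 / (Q0:ℝ) ≤ 1 / (4 * q) := by
      apply div_le_div_of_nonneg_left (by norm_num) (by positivity)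
      nlinarith
    have t3 : (1:ℝ) / (2 * ((2*q : ℕ):ℝ)) = 1 / (4*q) := by push_cast; ring
    rw [t3] at h1
    have t4 : (1:ℝ)/(4*q) + 1/(4*q) < 1/q := by
      rw [← add_div, div_lt_div_iff₀ (by positivity) hqr]; nlinarith
    linarith
  · -- opposite types
    have hopp : ∀ g ∈ L, ∀ g' ∈ L, g.1 = true → g'.1 = false → 
        ∀ x ∈ Metric.closedBall y0 (1/(Q0:ℝ)), η/(2*q) ≤ dist (isoS g x) (isoS g' x) := by
      intro g hg g' hg' hb hb' x hx
      have hmem : q • (g'.2 - g.2) ∈ F := by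
        rw [hF, Finset.mem_image]
        exact ⟨(g, g'), Finset.mem_product.2 ⟨hg, hg'⟩, rfl⟩
      have t1 := hs _ hmem
      have t2 : q • (isoS g y0) - q • (isoS g' y0) = s - q • (g'.2 - g.2) := by
        simp only [isoS, hb, hb', if_true, Bool.false_eq_true, if_false]
        rw [← h2, mul_nsmul', two_nsmul, nsmul_add, nsmul_add, nsmul_sub, smul_neg]
        abel
      have t3 : η < q * dist (isoS g y0) (isoS g' y0) := by
        refine lt_of_lt_of_le t1 ?_
        rw [dist_eq_norm, ← t2, ← dist_eq_norm]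
        exact dist_nsmul _ _ _
      have t4 : dist (isoS g y0) (isoS g' y0) ≤ dist (isoS g y0) (isoS g x) + dist (isoS g x) (isoS g' x)
          + dist (isoS g' x) (isoS g' y0) := dist_triangle4 _ _ _ _
      rw [isoS_dist, isoS_dist, dist_comm y0 x] at t4
      rw [Metric.mem_closedBall] at hx
      have t5 : η / q < dist (isoS g y0) (isoS g' y0) := by
        rw [div_lt_iff₀ hqr]; linarith [mul_comm (q:ℝ) (dist (isoS g y0) (isoS g' y0))]
      have t6 : 4 / (Q0:ℝ) ≤ η / q := by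
        rw [div_le_div_iff₀ hQ0p hqr, hη, one_div, inv_mul_eq_div, le_div_iff₀ (by positivity)]
        nlinarith
      have t7 : 1 / (Q0:ℝ) = (4 / (Q0:ℝ))/4 := by ring
      have t8 : η/(2*q) = (η/q)/2 := by field_simp
      rw [t8]
      linarith
    have hpair : ∀ p ∈ L ×ˢ L, ∀ᶠ σ in nhdsWithin (0:ℝ) (Ioi 0), p.1 ≠ p.2 → 
        ∀ x ∈ Metric.closedBall y0 (1/(Q0:ℝ)), σ ≤ dist (isoS p.1 x) (isoS p.2 x) := by
      rintro ⟨g, g'⟩ hp
      rw [Finset.mem_product] at hp
      obtain ⟨hg, hg'⟩ := hp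
      simp only at hg hg' ⊢
      have hex : g ≠ g' → ∃ σ0 > 0, ∀ x ∈ Metric.closedBall y0 (1/(Q0:ℝ)), 
          σ0 ≤ dist (isoS g x) (isoS g' x) := by
        intro hne
        rcases hgb : g.1 with _ | _ <;> rcases hgb' : g'.1 with _ | _
        · refine ⟨dist g.2 g'.2, ?_, ?_⟩
          · rw [gt_iff_lt, dist_pos]
            intro h; apply hne; exact Prod.ext (hgb.trans hgb'.symm) h
          · intro x _
            simp only [isoS, hgb, hgb', Bool.false_eq_true, if_false]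
            rw [dist_add_left]
        · refine ⟨η/(2*q), by positivity, ?_⟩
          intro x hx
          rw [dist_comm]
          exact hopp g' hg' g hg hgb' hgb x hx
        · refine ⟨η/(2*q), by positivity, ?_⟩
          intro x hx
          exact hopp g hg g' hg' hgb hgb' x hx
        · refine ⟨dist g.2 g'.2, ?_, ?_⟩
          · rw [gt_iff_lt, dist_pos]
            intro h; apply hne; exact Prod.ext (hgb.trans hgb'.symm) h
          · intro x _
            simp only [isoS, hgb, hgb', if_true]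
            rw [dist_add_left]
      by_cases hne : g = g'
      · exact Filter.Eventually.of_forall fun σ h => absurd hne h
      · obtain ⟨σ0, hσ0, hσ1⟩ := hex hne
        filter_upwards [Ioc_mem_nhdsGT hσ0] with σ hσ _ x hx
        exact hσ.2.trans (hσ1 x hx)
    rw [← Filter.eventually_all_finset] at hpair
    obtain ⟨σ, hσ1, hσ2⟩ := (hpair.and self_mem_nhdsWithin).exists
    refine ⟨σ, hσ2, ?_⟩
    intro g hg g' hg' hne x hx
    exact hσ1 (g, g') (Finset.mem_product.2 ⟨hg, hg'⟩) hne x hx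

lemma induct (n : ℕ) (δ : ℝ) (hδ0 : 0 < δ) (hδ1 : δ ≤ 1/8) (hn : (n : ℝ) * (8 * δ) < 1)
    (Q : ℕ → ℕ) (hQ : ∀ l, l + 1 < Q l) (hQs : ∀ l, (1:ℝ) / Q (l+1) = δ / (2 * Q l))
    (L : Finset (Bool × S)) (hL : L.card ≤ n) (T : Bool × S → S)
    (y0 : S) (σ : ℝ) (hσ : ∀ g ∈ L, ∀ g' ∈ L, g ≠ g' → ∀ x ∈ Metric.closedBall y0 (1/(Q 0:ℝ)), 
        σ ≤ dist (isoS g x) (isoS g' x)) (i : ℕ) (hi : 6 / 2^i < σ) (m : ℕ) :
    ∃ y : S, Metric.closedBall y (1/(Q m:ℝ)) ⊆ Metric.closedBall y0 (1/(Q 0:ℝ)) ∧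
      ∀ x ∈ Metric.closedBall y (1/(Q m:ℝ)), ∀ l < m, 
        (lev l < i → ∀ g ∈ L, δ < dist (Q l • isoS g x) 0 ∧ δ < dist (Q l • isoS g x) hf) ∧
        (lev l = i → ∀ g ∈ L, isoS g x ∈ Metric.closedBall (pc l) (rad l) → 
          dist (Q l • isoS g x) (T g) < δ) := by
  induction m with
  | zero => exact ⟨y0, le_refl _, fun x _ l hl => absurd hl (Nat.not_lt_zero l)⟩
  | succ m ih =>
    obtain ⟨y, hy1, hy2⟩ := ih
    have hQp : 0 < Q m := by have := hQ m; omega
    have hQr : (0:ℝ) < Q m := by exact_mod_cast hQp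
    -- small ball around y' inside the ball of y
    have hsub : ∀ y' : S, dist y' y ≤ 1/(2*(Q m : ℕ)) → 
        Metric.closedBall y' (1/(Q (m+1):ℝ)) ⊆ Metric.closedBall y (1/(Q m:ℝ)) := by
      intro y' hy' x hx
      rw [Metric.mem_closedBall] at hx ⊢
      rw [hQs] at hx
      have t1 := dist_triangle x y' y
      have t6 : δ / (2 * (Q m : ℝ)) + 1/(2*(Q m : ℝ)) ≤ 1 / (Q m : ℝ) := by
        rw [← add_div, div_le_div_iff₀ (by positivity) hQr]
        nlinarith
      linarith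
    have hclose : ∀ y' : S, ∀ x ∈ Metric.closedBall y' (1/(Q (m+1):ℝ)), ∀ g : Bool × S, 
        dist (Q m • isoS g x) (Q m • isoS g y') ≤ δ/2 := by
      intro y' x hx g
      rw [Metric.mem_closedBall, hQs] at hx
      refine (dist_nsmul _ _ _).trans ?_
      rw [isoS_dist]
      calc (Q m : ℝ) * dist x y' ≤ Q m * (δ / (2 * (Q m : ℝ))) := 
            mul_le_mul_of_nonneg_left hx hQr.le
        _ = δ/2 := by field_simp
    have hext : ∀ y' : S, dist y' y ≤ 1/(2*(Q m : ℕ)) → 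
        (∀ x ∈ Metric.closedBall y' (1/(Q (m+1):ℝ)), 
          (lev m < i → ∀ g ∈ L, δ < dist (Q m • isoS g x) 0 ∧ δ < dist (Q m • isoS g x) hf) ∧
          (lev m = i → ∀ g ∈ L, isoS g x ∈ Metric.closedBall (pc m) (rad m) → 
            dist (Q m • isoS g x) (T g) < δ)) → 
        ∃ y : S, Metric.closedBall y (1/(Q (m+1):ℝ)) ⊆ Metric.closedBall y0 (1/(Q 0:ℝ)) ∧
          ∀ x ∈ Metric.closedBall y (1/(Q (m+1):ℝ)), ∀ l < m+1, 
            (lev l < i → ∀ g ∈ L, δ < dist (Q l • isoS g x) 0 ∧ δ < dist (Q l • isoS g x) hf) ∧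
            (lev l = i → ∀ g ∈ L, isoS g x ∈ Metric.closedBall (pc l) (rad l) → 
              dist (Q l • isoS g x) (T g) < δ) := by
      intro y' hy' hm
      refine ⟨y', (hsub y' hy').trans hy1, ?_⟩
      intro x hx l hl
      rcases Nat.lt_succ_iff_lt_or_eq.1 hl with h | h
      · exact hy2 x (hsub y' hy' hx) l h
      · subst h
        exact hm x hx
    rcases lt_trichotomy (lev m) i with h | h | h
    · obtain ⟨y', h1, h2⟩ := avoid1 n δ hδ0.le hn (Q m) hQp L hL y
      refine hext y' h1 fun x hx => ⟨fun _ g hg => ?_, fun h' => absurd h' h.ne⟩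
      obtain ⟨a1, a2⟩ := h2 g hg
      have b := hclose y' x hx g
      constructor
      · have t := dist_triangle (Q m • isoS g y') (Q m • isoS g x) 0
        rw [dist_comm (Q m • isoS g y') (Q m • isoS g x)] at t
        linarith
      · have t := dist_triangle (Q m • isoS g y') (Q m • isoS g x) hf
        rw [dist_comm (Q m • isoS g y') (Q m • isoS g x)] at t
        linarith
    · by_cases hex : ∃ g ∈ L, ∃ x ∈ Metric.closedBall y (1/(Q m:ℝ)), isoS g x ∈ Metric.closedBall (pc m) (rad m)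
      · obtain ⟨g, hg, x1, hx1, hx1'⟩ := hex
        obtain ⟨y', h1, h2⟩ := hit1 (Q m) hQp g y (T g)
        refine hext y' h1 fun x hx => ⟨fun h' => absurd h h'.ne, fun _ g' hg' hc => ?_⟩
        by_cases hgg : g' = g
        · subst hgg
          have b := hclose y' x hx g'
          rw [h2] at b
          linarith
        · exfalso
          have hxy := hsub y' h1 hx
          have s1 := hσ g' hg' g hg hgg x (hy1 hxy)
          have s2 : dist (isoS g' x) (isoS g x) ≤ dist (isoS g' x) (pc m) + dist (pc m) (isoS g x1) 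
            + dist (isoS g x1) (isoS g x) := dist_triangle4 _ _ _ _
          rw [isoS_dist] at s2
          rw [Metric.mem_closedBall] at hc hx1' hx1 hxy
          rw [dist_comm (pc m)] at s2
          have s3 : dist x1 x ≤ dist x1 y + dist x y := by rw [dist_comm x y]; exact dist_triangle _ _ _
          have s4 : rad m = 2/2^i := by unfold rad; rw [h]
          have s5 : (2:ℝ)^i ≤ Q m := by
            have h1 := two_pow_lev m
            rw [h] at h1
            have h2 := hQ m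
            exact_mod_cast h1.trans h2.le
          have s6 : (1:ℝ)/(Q m:ℝ) ≤ 1/2^i := div_le_div_of_nonneg_left (by norm_num) (by positivity) s5
          have s7 : (6:ℝ)/2^i = 2/2^i + 2/2^i + (1/2^i + 1/2^i) := by ring
          rw [s4] at hc hx1'
          linarith
      · push Not at hex
        have h0 : dist y y ≤ 1/(2*(Q m : ℕ)) := by rw [dist_self]; positivity
        refine hext y h0 fun x hx => ⟨fun h' => absurd h h'.ne, fun _ g' hg' hc => ?_⟩
        exact absurd hc (hex g' hg' x (hsub y h0 hx))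
    · have h0 : dist y y ≤ 1/(2*(Q m : ℕ)) := by rw [dist_self]; positivity
      refine hext y h0 fun x hx => ⟨fun h' => absurd h' (by omega), fun h' => absurd h' (by omega)⟩

lemma indep_pt (n : ℕ) (δ : ℝ) (hδ0 : 0 < δ) (hδ1 : δ ≤ 1/8) (hn : (n : ℝ) * (8 * δ) < 1)
    (Q : ℕ → ℕ) (hQ : ∀ l, l + 1 < Q l) (hQs : ∀ l, (1:ℝ) / Q (l+1) = δ / (2 * Q l))
    (L : Finset (Bool × S)) (hL : L.card ≤ n) (T : Bool × S → S) (hT : ∀ g, T g = 0 ∨ T g = hf)
    (y0 : S) (σ : ℝ) (hσ0 : 0 < σ) (hσ : ∀ g ∈ L, ∀ g' ∈ L, g ≠ g' → ∀ x ∈ Metric.closedBall y0 (1/(Q 0:ℝ)), 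
        σ ≤ dist (isoS g x) (isoS g' x)) : 
    ∃ x ∈ Metric.closedBall y0 (1/(Q 0:ℝ)), ∀ g ∈ L, isoS g x ∈ Bt Q δ (T g) := by
  obtain ⟨i, hi⟩ : ∃ i : ℕ, 6 / 2^i < σ := by
    obtain ⟨i, hi⟩ := exists_pow_lt_of_lt_one (show (0:ℝ) < σ/6 by positivity) (show (1/2:ℝ) < 1 by norm_num)
    refine ⟨i, ?_⟩
    rw [one_div, inv_pow] at hi
    rw [div_eq_mul_inv]; linarith
  obtain ⟨y, hy1, hy2⟩ := induct n δ hδ0 hδ1 hn Q hQ hQs L hL T y0 σ hσ i hi (2^(i+1))
  have hQp : (0:ℝ) < Q (2^(i+1)) := by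
    have h2 : 0 < Q (2^(i+1)) := lt_of_le_of_lt (Nat.zero_le _) (hQ (2^(i+1)))
    exact_mod_cast h2
  -- null set to avoid
  have hnull : volume (⋃ g ∈ L, ⋃ l : ℕ, {x : S | dist (isoS g x) (pc l) = rad l}) = 0 := by
    refine (measure_biUnion_null_iff L.countable_toSet).2 fun g _ => ?_
    exact measure_iUnion_null fun l => isoS_sphere_null g _ _
  have hpos : 0 < volume (Metric.ball y (1/(Q (2^(i+1)):ℝ))) := 
    Metric.measure_ball_pos _ _ (by positivity)
  obtain ⟨x, hx1, hx2⟩ : ∃ x ∈ Metric.ball y (1/(Q (2^(i+1)):ℝ)), 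
      x ∉ (⋃ g ∈ L, ⋃ l : ℕ, {x : S | dist (isoS g x) (pc l) = rad l}) := by
    by_contra hcon
    push Not at hcon
    have := measure_mono_null (s := Metric.ball y (1/(Q (2^(i+1)):ℝ))) hcon hnull
    exact hpos.ne' this
  have hxc := Metric.ball_subset_closedBall hx1
  refine ⟨x, hy1 hxc, ?_⟩
  intro g hg
  have hnsph : ∀ l, dist (isoS g x) (pc l) ≠ rad l := by
    intro l hl
    apply hx2
    simp only [mem_iUnion]
    exact ⟨g, hg, l, hl⟩
  have hlow : ∀ l, lev l < i → isoS g x ∉ Blk Q δ l := by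
    intro l hl hb
    obtain ⟨h1, h2⟩ := (hy2 x hxc l (lev_lt i l hl.le)).1 hl g hg
    rcases hb.2 with h | h
    · exact absurd h1 (not_lt.2 h)
    · exact absurd h2 (not_lt.2 h)
  obtain ⟨l1, hl1, hl2⟩ := cover (isoS g x) i
  have hin : isoS g x ∈ Metric.closedBall (pc l1) (rad l1) := by
    rw [Metric.mem_closedBall]
    refine hl2.trans ?_
    unfold rad
    rw [hl1]
    exact div_le_div_of_nonneg_right (by norm_num) (by positivity)
  have hd := (hy2 x hxc l1 (lev_lt i l1 hl1.le)).2 hl1 g hg hin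
  have hblk : isoS g x ∈ Blk Q δ l1 := by
    refine ⟨hin, ?_⟩
    rcases hT g with h | h
    · left; rw [h] at hd; exact hd.le
    · right; rw [h] at hd; exact hd.le
  classical
  have hexb : ∃ l, isoS g x ∈ Blk Q δ l := ⟨l1, hblk⟩
  set k := Nat.find hexb with hk
  have hk1 : isoS g x ∈ Blk Q δ k := Nat.find_spec hexb
  have hk2 : k ≤ l1 := Nat.find_min' hexb hblk
  have hk3 : lev k = i := by
    refine le_antisymm ((lev_mono hk2).trans hl1.le) ?_
    by_contra h
    exact hlow k (not_le.1 h) hk1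
  refine ⟨k, fun j hj => Nat.find_min hexb hj, ?_, ?_⟩
  · exact lt_of_le_of_ne hk1.1 (hnsph k)
  · exact (hy2 x hxc k (lev_lt i k hk3.le)).2 hk3 g hg hk1.1

/-- An open set with null boundary whose images under any `n` distinct isometries are independent in every ball
of radius `ρ`. -/
theorem exists_indep (n : ℕ) (ρ : ℝ) (hρ : 0 < ρ) : ∃ B : Set S, IsOpen B ∧ volume (frontier B) = 0 ∧
    ∀ (G Z : Finset (Bool × S)), Disjoint G Z → G.card + Z.card ≤ n → ∀ x0 : S,
      ∃ U : Set S, IsOpen U ∧ U.Nonempty ∧ U ⊆ Metric.ball x0 ρ ∧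
        ∀ x ∈ U, (∀ g ∈ G, isoS g x ∈ B) ∧ (∀ g ∈ Z, isoS g x ∉ B) := by
  classical
  obtain ⟨q, hq⟩ := exists_nat_gt (1/ρ)
  have hq0 : (0:ℝ) < q := lt_trans (by positivity) hq
  have hqn : 0 < q := by exact_mod_cast hq0
  have hqρ : 1/(q:ℝ) < ρ := by
    rw [div_lt_iff₀ hq0]
    rw [div_lt_iff₀ hρ] at hq
    linarith
  set Q0 : ℕ := 16 * (n^2+1) * q with hQ0
  set R : ℕ := 16 * (n+1) with hR
  set δ : ℝ := 1 / (8 * ((n:ℝ)+1)) with hδ
  have hnn : (0:ℝ) ≤ n := Nat.cast_nonneg n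
  have hδ0 : 0 < δ := by positivity
  have hδ1 : δ ≤ 1/8 := by
    rw [hδ]; exact div_le_div_of_nonneg_left (by norm_num) (by norm_num) (by linarith)
  have hn : (n : ℝ) * (8 * δ) < 1 := by
    have : (n:ℝ) * (8 * (1 / (8 * ((n:ℝ)+1)))) = n / (n+1) := by field_simp
    rw [hδ, this, div_lt_one (by positivity)]; linarith
  set Q : ℕ → ℕ := fun l => Q0 * R^l with hQdef
  have hQ0p : 1 < Q0 := by
    rw [hQ0]
    have : 16 * 1 * 1 ≤ 16 * (n^2+1) * q := Nat.mul_le_mul (Nat.mul_le_mul (le_refl _) (by omega)) hqn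
    omega
  have hQ : ∀ l, l + 1 < Q l := by
    intro l
    have h1 : l + 1 ≤ R^l := by
      have h2 : l + 1 ≤ 2^l := Nat.lt_two_pow_self
      exact h2.trans (Nat.pow_le_pow_left (by omega) l)
    calc l + 1 ≤ R^l := h1
      _ = 1 * R^l := (one_mul _).symm
      _ < Q0 * R^l := Nat.mul_lt_mul_of_pos_right hQ0p (by omega)
  have hQs : ∀ l, (1:ℝ) / Q (l+1) = δ / (2 * Q l) := by
    intro l
    have hp : (0:ℝ) < Q l := by have := hQ l; exact_mod_cast (by omega : 0 < Q l)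
    have e : (Q (l+1) : ℝ) = Q l * (16 * ((n:ℝ)+1)) := by
      simp only [hQdef, hR]; push_cast; ring
    rw [e, hδ]
    field_simp
    norm_num
  refine ⟨Bt Q δ 0, Bt_open Q δ 0, frontier_null Q δ hδ0 hδ1 hQ, ?_⟩
  intro G Z hGZ hc x0
  obtain ⟨y0, hy0, σ, hσ0, hσ⟩ := separation n ρ (G ∪ Z) ((Finset.card_union_le _ _).trans hc) q hqn hqρ 
    (Q 0) (by simp only [hQdef, hQ0, pow_zero, mul_one]; exact le_refl _) x0
  set T : Bool × S → S := fun g => if g ∈ G then 0 else hf with hT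
  obtain ⟨x, hx1, hx2⟩ := indep_pt n δ hδ0 hδ1 hn Q hQ hQs (G ∪ Z) ((Finset.card_union_le _ _).trans hc) T
    (fun g => by simp only [hT]; split_ifs <;> simp) y0 σ hσ0 hσ
  refine ⟨Metric.ball x0 ρ ∩ ((⋂ g ∈ G, isoS g ⁻¹' (Bt Q δ 0)) ∩ (⋂ g ∈ Z, isoS g ⁻¹' (Bt Q δ hf))), ?_, ?_, ?_, ?_⟩
  · refine Metric.isOpen_ball.inter (IsOpen.inter ?_ ?_)
    · exact isOpen_biInter_finset fun g _ => (Bt_open Q δ 0).preimage (isoS_cont g)
    · exact isOpen_biInter_finset fun g _ => (Bt_open Q δ hf).preimage (isoS_cont g)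
  · refine ⟨x, hy0 hx1, ?_, ?_⟩
    · simp only [mem_iInter, mem_preimage]
      intro g hg
      have := hx2 g (Finset.mem_union_left _ hg)
      simpa [hT, hg] using this
    · simp only [mem_iInter, mem_preimage]
      intro g hg
      have h := hx2 g (Finset.mem_union_right _ hg)
      have hg' : g ∉ G := fun h' => (Finset.disjoint_left.1 hGZ h') hg
      simpa [hT, hg'] using h
  · exact inter_subset_left
  · rintro z ⟨_, hz1, hz2⟩
    simp only [mem_iInter, mem_preimage] at hz1 hz2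
    refine ⟨hz1, fun g hg => ?_⟩
    exact Set.disjoint_right.1 (Bt_disj Q δ hδ1) (hz2 g hg)

end C7
end Geo

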