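import Pool.Agent.Helper183.Geo.Base

set_option autoImplicit false
open MeasureTheory Set
namespace Geo
namespace C8

/-- statement of the independence lemma (proved elsewhere) -/
def IndepStmt : Prop := ∀ (n : ℕ) (ρ : ℝ), 0 < ρ → ∃ B : Set S, IsOpen B ∧ volume (frontier B) = 0 ∧
    ∀ (G Z : Finset (Bool × S)), Disjoint G Z → G.card + Z.card ≤ n → ∀ x0 : S,
      ∃ U : Set S, IsOpen U ∧ U.Nonempty ∧ U ⊆ Metric.ball x0 ρ ∧
        ∀ x ∈ U, (∀ g ∈ G, isoS g x ∈ B) ∧ (∀ g ∈ Z, isoS g x ∉ B)

theorem null_frontier_union {s t : Set S} (hs : volume (frontier s) = 0)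
    (ht : volume (frontier t) = 0) : volume (frontier (s ∪ t)) = 0 := by
  refine measure_mono_null ?_ (measure_union_null hs ht)
  refine (frontier_union_subset s t).trans ?_
  exact union_subset_union inter_subset_left inter_subset_right

theorem null_frontier_biUnion {ι : Type} (V : Finset ι) (f : ι → Set S)
    (h : ∀ i ∈ V, volume (frontier (f i)) = 0) : volume (frontier (⋃ i ∈ V, f i)) = 0 := by
  classical
  induction V using Finset.induction_on with
  | empty => simp
  | insert i V hi ih =>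
    rw [Finset.set_biUnion_insert]
    exact null_frontier_union (h i (Finset.mem_insert_self _ _))
      (ih fun j hj => h j (Finset.mem_insert_of_mem hj))

theorem null_frontier_translate {s : Set S} (hs : volume (frontier s) = 0) (c : S) :
    volume (frontier ((fun x => x + c) '' s)) = 0 := by
  have h1 : frontier ((fun x => x + c) '' s) = (fun x => x + c) '' frontier s :=
    ((Homeomorph.addRight c).image_frontier s).symm
  rw [h1]
  have h2 : (fun x => x + c) '' frontier s = (fun x => x + -c) ⁻¹' frontier s := by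
    ext x
    constructor
    · rintro ⟨y, hy, rfl⟩
      simpa using hy
    · intro hx
      exact ⟨x + -c, hx, by simp⟩
  rw [h2, measure_preimage_add_right]
  exact hs

theorem null_frontier_closure {s : Set S} (hs : volume (frontier s) = 0) :
    volume (frontier (closure s)) = 0 :=
  measure_mono_null frontier_closure_subset hs

theorem isoS_isOpenMap (g : Bool × S) {U : Set S} (hU : IsOpen U) : IsOpen (isoS g '' U) := by
  rcases g with ⟨b, c⟩
  cases b
  · have : isoS (false, c) = ((Homeomorph.neg S).trans (Homeomorph.addRight c)) := by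
      funext x; simp [isoS]
    rw [this]
    exact ((Homeomorph.neg S).trans (Homeomorph.addRight c)).isOpenMap U hU
  · have : isoS (true, c) = (Homeomorph.addRight c) := by
      funext x; simp [isoS]
    rw [this]
    exact (Homeomorph.addRight c).isOpenMap U hU

theorem isoS_sub (g : Bool × S) (w x : S) : isoS (g.1, g.2 - w) x = isoS g x - w := by
  rcases g with ⟨b, c⟩
  cases b
  · simp [isoS]; abel
  · simp [isoS]; abel

theorem sh_neg (a b : ℝ) (v : ℤ × ℤ) : sh a b (-v) = - sh a b v := by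
  simp only [sh, Prod.fst_neg, Prod.snd_neg, neg_zsmul]
  abel

theorem sh_zero (a b : ℝ) : sh a b 0 = 0 := by
  simp [sh]

theorem sh_eq_zero {a b : ℝ} (hfree : Free a b) {v : ℤ × ℤ} (h : sh a b v = 0) : v = 0 := by
  have h1 : ((v.1 * a + v.2 * b : ℝ) : S) = 0 := by
    rw [← h, sh]
    rw [← zsmul_eq_mul, ← zsmul_eq_mul]
    rfl
  obtain ⟨k, hk⟩ := (AddCircle.coe_eq_zero_iff (1 : ℝ)).1 h1
  have h2 := hfree v.1 v.2 k (by rw [← hk]; simp)
  exact Prod.ext h2.1 h2.2

theorem le_neg {v : ℤ × ℤ} {L : ℤ} (h : le v L) : le (-v) L := by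
  refine ⟨?_, ?_⟩
  · rw [Prod.fst_neg, abs_neg]; exact h.1
  · rw [Prod.snd_neg, abs_neg]; exact h.2

/-- rich and isolated set -/
theorem exists_rich (h : IndepStmt) (a b : ℝ) (hfree : Free a b) (n : ℕ) (L : ℕ) (ρ : ℝ) (hρ : 0 < ρ) :
    ∃ B : Set S, IsOpen B ∧ volume (frontier B) = 0 ∧
    (∀ x ∈ B, ∀ v, le v L → v ≠ 0 → x + sh a b v ∉ B) ∧
    ∀ (G Z : Finset (Bool × S)), (∀ g ∈ G, ∀ z ∈ Z, ∀ v, le v L → z ≠ (g.1, g.2 + sh a b v)) →
      (∀ g ∈ G, ∀ g' ∈ G, ∀ v, g' = (g.1, g.2 + sh a b v) → g = g') →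
      G.card * (2 * L + 1) ^ 2 + Z.card ≤ n → ∀ x0 : S,
      ∃ U : Set S, IsOpen U ∧ U.Nonempty ∧ U ⊆ Metric.ball x0 ρ ∧
        ∀ x ∈ U, (∀ g ∈ G, isoS g x ∈ B) ∧ (∀ g ∈ Z, isoS g x ∉ B) := by
  classical
  obtain ⟨B0, hB0, hB0f, hB0i⟩ := h n ρ hρ
  let V : Finset (ℤ × ℤ) :=
    ((Finset.Icc (-(L : ℤ)) L) ×ˢ (Finset.Icc (-(L : ℤ)) L)).erase 0
  have hV : ∀ v, v ∈ V ↔ le v L ∧ v ≠ 0 := by
    intro v
    simp only [V, Finset.mem_erase, Finset.mem_product, Finset.mem_Icc, le, abs_le]
    tauto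
  have hVc : V.card = (2 * L + 1) ^ 2 - 1 := by
    have h0 : (0 : ℤ × ℤ) ∈ (Finset.Icc (-(L : ℤ)) L) ×ˢ (Finset.Icc (-(L : ℤ)) L) := by
      simp
    rw [Finset.card_erase_of_mem h0, Finset.card_product, Int.card_Icc, sq]
    congr 2 <;> omega
  clear_value V
  let K : Set S := ⋃ v ∈ V, closure ((fun x => x + sh a b v) '' B0)
  have hKc : IsClosed K := by
    refine Set.Finite.isClosed_biUnion V.finite_toSet fun i _ => isClosed_closure
  have hKf : volume (frontier K) = 0 :=
    null_frontier_biUnion V _ fun v _ => null_frontier_closure (null_frontier_translate hB0f _)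
  have hKmem : ∀ v, le v L → v ≠ 0 → ∀ x ∈ B0, x + sh a b v ∈ K := by
    intro v hv hv0 x hx
    exact Set.mem_biUnion ((hV v).2 ⟨hv, hv0⟩) (subset_closure ⟨x, hx, rfl⟩)
  refine ⟨B0 \ K, hB0.sdiff hKc, ?_, ?_, ?_⟩
  · rw [Set.sdiff_eq]
    refine measure_mono_null ?_ (measure_union_null hB0f hKf)
    refine (frontier_inter_subset B0 Kᶜ).trans ?_
    rw [frontier_compl]
    exact union_subset_union inter_subset_left inter_subset_right
  · intro x hx v hv hv0 hx2
    exact hx2.2 (hKmem v hv hv0 x hx.1)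
  · intro G Z hGZ hGG hcard x0
    let Z' : Finset (Bool × S) := Z ∪ (G ×ˢ V).image fun p => (p.1.1, p.1.2 - sh a b p.2)
    have hZ'c : G.card + Z'.card ≤ n := by
      have h1 : Z'.card ≤ Z.card + G.card * V.card := by
        refine (Finset.card_union_le _ _).trans ?_
        refine Nat.add_le_add_left (Finset.card_image_le.trans ?_) _
        rw [Finset.card_product]
      rw [hVc] at h1
      have h2 : 1 ≤ (2 * L + 1) ^ 2 := Nat.one_le_pow _ _ (by omega)
      obtain ⟨m, hm⟩ := Nat.exists_eq_add_of_le h2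
      rw [hm] at h1 hcard
      have h3 : 1 + m - 1 = m := by omega
      rw [h3] at h1
      have h4 : G.card * (1 + m) = G.card + G.card * m := by ring
      omega
    have hdis : Disjoint G Z' := by
      rw [Finset.disjoint_left]
      intro g hg hgz
      rcases Finset.mem_union.1 hgz with hgz | hgz
      · refine hGZ g hg g hgz 0 ?_ ?_
        · exact ⟨by simp, by simp⟩
        · rw [sh_zero, add_zero]
      · obtain ⟨⟨g', v⟩, hp, hp2⟩ := Finset.mem_image.1 hgz
        obtain ⟨hg', hv⟩ := Finset.mem_product.1 hp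
        have hp3 : g = (g'.1, g'.2 + sh a b (-v)) := by
          rw [sh_neg, ← sub_eq_add_neg]; exact hp2.symm
        have h5 := hGG g' hg' g hg (-v) hp3
        rw [h5] at hp3
        have h6 := congrArg Prod.snd hp3
        have h7 : sh a b (-v) = 0 := by
          have h8 : g.2 = g.2 + sh a b (-v) := h6
          exact left_eq_add.1 h8
        have h8 := sh_eq_zero hfree h7
        exact ((hV v).1 hv).2 (neg_eq_zero.1 h8)
    obtain ⟨U, hUo, hUn, hUb, hU⟩ := hB0i G Z' hdis hZ'c x0
    refine ⟨U, hUo, hUn, hUb, fun x hx => ⟨fun g hg => ⟨(hU x hx).1 g hg, ?_⟩, ?_⟩⟩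
    · intro hxK
      obtain ⟨v, hv, hv2⟩ := Set.mem_iUnion₂.1 hxK
      have hd : Disjoint (isoS g '' U) ((fun x => x + sh a b v) '' B0) := by
        rw [Set.disjoint_left]
        rintro _ ⟨y, hy, rfl⟩ ⟨z, hz, hz2⟩
        have h1 : ((g.1, g.2 - sh a b v) : Bool × S) ∈ Z' := by
          refine Finset.mem_union_right _ (Finset.mem_image.2 ⟨(g, v), ?_, rfl⟩)
          exact Finset.mem_product.2 ⟨hg, hv⟩
        have h2 := (hU y hy).2 _ h1
        rw [isoS_sub] at h2
        apply h2
        have h3 : isoS g y - sh a b v = z := by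
          have : z + sh a b v = isoS g y := hz2
          rw [← this, add_sub_cancel_right]
        rw [h3]; exact hz
      exact Set.disjoint_left.1 (hd.closure_right (isoS_isOpenMap g hUo)) ⟨x, hx, rfl⟩ hv2
    · intro z hz hzB
      exact (hU x hx).2 z (Finset.mem_union_left _ hz) hzB.1

end C8
end Geo

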