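import Pool.Agent.Helper183.Geo.Base

set_option autoImplicit false
open MeasureTheory Set
namespace Geo
namespace C9

lemma coe_eq_int {s t : ℝ} (h : ((s : ℝ) : S) = (t : S)) : ∃ n : ℤ, s - t = n := by
  have h1 : ((s - t : ℝ) : S) = 0 := by
    rw [AddCircle.coe_sub, h, sub_self]
  obtain ⟨n, hn⟩ := (AddCircle.coe_eq_zero_iff (1 : ℝ)).1 h1
  exact ⟨n, by rw [← hn]; simp⟩

lemma arc_disj {y : S} {c u₁ l₁ u₂ l₂ : ℝ} (h1 : y ∈ arcC (c + u₁) l₁)
    (h2 : y ∈ arcC (c + u₂) l₂) (hu₂ : 0 ≤ u₂) (h : u₂ + l₂ < u₁) (hu : u₁ + l₁ < 1) :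
    False := by
  obtain ⟨s, ⟨hs1, hs2⟩, rfl⟩ := h1
  obtain ⟨t, ⟨ht1, ht2⟩, hst⟩ := h2
  obtain ⟨n, hn⟩ := coe_eq_int hst
  have h3 : (0:ℝ) < -(n:ℝ) := by linarith
  have h3' : -(n:ℝ) < 1 := by linarith
  have h4 : (0:ℤ) < -n := by exact_mod_cast h3
  have h5 : -n < (1:ℤ) := by exact_mod_cast h3'
  omega

lemma arc_mono {c l c' l' : ℝ} (h1 : c' ≤ c) (h2 : c + l ≤ c' + l') : arcC c l ⊆ arcC c' l' :=
  Set.image_mono (Icc_subset_Icc h1 h2)

open Classical in
lemma Ico_image (a' : ℤ) (n : ℕ) :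
    Finset.Ico a' (a' + n) = (Finset.range n).image (fun t : ℕ => a' + (t : ℤ)) := by
  ext x
  simp only [Finset.mem_Ico, Finset.mem_image, Finset.mem_range]
  constructor
  · rintro ⟨h1, h2⟩
    exact ⟨(x - a').toNat, by omega, by omega⟩
  · rintro ⟨t, ht, rfl⟩
    omega

open Classical in
lemma sum_Ico (a' : ℤ) (n : ℕ) (f : ℤ → ℤ) :
    ∑ x ∈ Finset.Ico a' (a' + n), f x = ∑ t ∈ Finset.range n, f (a' + (t : ℤ)) := by
  rw [Ico_image, Finset.sum_image]
  intro x _ y _ hxy
  have : a' + (x : ℤ) = a' + (y : ℤ) := hxy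
  omega

open Classical in
lemma row_bound {a : ℝ} {n : ℕ} (hn : Hit a n) (y : S) (c l : ℝ) (hl : 0 ≤ l) (hl1 : l ≤ 1)
    (hnl : n * l ≤ 9) (a' : ℤ) (J : Finset ℕ) (p : ℤ → ℕ → Prop)
    (hp1 : ∀ x j j', p x j → p x j' → j = j')
    (hp2 : ∀ t : ℕ, ∀ j ∈ J, p (a' + t) j → y + t • (a : S) ∈ arcC c l) :
    ∑ x ∈ Finset.Ico a' (a' + n), ∑ j ∈ J, (if p x j then 1 else 0 : ℤ) ≤ 12 := by
  rw [sum_Ico]
  have h1 : ∀ t ∈ Finset.range n, ∑ j ∈ J, (if p (a' + (t : ℤ)) j then 1 else 0 : ℤ) ≤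
      (if y + t • (a : S) ∈ arcC c l then 1 else 0 : ℤ) := by
    intro t _
    rw [Finset.sum_boole]
    split_ifs with ht
    · have : (J.filter (fun j => p (a' + (t : ℤ)) j)).card ≤ 1 := by
        rw [Finset.card_le_one]
        intro j hj j' hj'
        rw [Finset.mem_filter] at hj hj'
        exact hp1 _ _ _ hj.2 hj'.2
      exact_mod_cast this
    · have : J.filter (fun j => p (a' + (t : ℤ)) j) = ∅ := by
        rw [Finset.filter_eq_empty_iff]
        intro j hj hpj
        exact ht (hp2 t j hj hpj)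
      rw [this]
      simp
  refine (Finset.sum_le_sum h1).trans ?_
  rw [Finset.sum_boole]
  have h2 := hn.2.2.1 y c l hl hl1
  have h3 : (((Finset.range n).filter (fun j : ℕ => y + j • (a : S) ∈ arcC c l)).card : ℝ) ≤ 12 := by
    linarith
  exact_mod_cast h3

lemma row_dense {a : ℝ} {n : ℕ} (hn : Hit a n) (hn' : 1612 ≤ n) (y : S) (c0 : ℝ) (a' : ℤ)
    (p : ℤ → Prop) {dp : DecidablePred p} (hp : ∀ t : ℕ, y + t • (a : S) ∈ arcO c0 (1 / 4) → p (a' + t)) :
    (400 : ℤ) ≤ ∑ x ∈ Finset.Ico a' (a' + n), (if p x then 1 else 0 : ℤ) := by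
  classical
  rw [sum_Ico]
  have h1 : ∀ t ∈ Finset.range n, (if y + t • (a : S) ∈ arcO c0 (1 / 4) then 1 else 0 : ℤ) ≤
      (if p (a' + (t : ℤ)) then 1 else 0 : ℤ) := by
    intro t _
    by_cases ht : y + t • (a : S) ∈ arcO c0 (1 / 4)
    · rw [if_pos ht, if_pos (hp t ht)]
    · rw [if_neg ht]
      split_ifs <;> norm_num
  refine le_trans ?_ (Finset.sum_le_sum h1)
  rw [Finset.sum_boole]
  have h2 := hn.2.2.2 y c0 (1 / 4) (by norm_num) (by norm_num)
  have h4 : (1612 : ℝ) ≤ n := by exact_mod_cast hn'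
  have h3 : (400 : ℝ) ≤ (((Finset.range n).filter
      (fun j : ℕ => y + j • (a : S) ∈ arcO c0 (1 / 4))).card : ℝ) := by
    linarith
  exact_mod_cast h3

lemma cell_dense (i j : ℤ) (s : ℕ) (q : ℤ × ℤ → Prop) {dq : DecidablePred q}
    (h : ∀ a' r : ℤ, (400 : ℤ) ≤ ∑ x ∈ Finset.Ico a' (a' + s), (if q (x, r) then 1 else 0 : ℤ)) :
    4 * (s : ℤ) * (100 : ℕ) ≤
      ((((Finset.Ico (i * s) (i * s + s)) ×ˢ (Finset.Ico (j * s) (j * s + s))).filter q).card : ℤ) := by
  rw [← Finset.sum_boole, Finset.sum_product_right]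
  have h1 : ∑ r ∈ Finset.Ico (j * (s : ℤ)) (j * s + s), (400 : ℤ) ≤
      ∑ r ∈ Finset.Ico (j * (s : ℤ)) (j * s + s), ∑ x ∈ Finset.Ico (i * (s : ℤ)) (i * s + s),
        (if q (x, r) then 1 else 0 : ℤ) :=
    Finset.sum_le_sum (fun r _ => h (i * s) r)
  refine le_trans ?_ h1
  rw [Finset.sum_const, Int.card_Ico]
  have : (j * (s : ℤ) + s - j * s).toNat = s := by
    have : j * (s : ℤ) + s - j * s = s := by ring
    rw [this]
    simp
  rw [this, nsmul_eq_mul]
  push_cast
  linarith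

lemma ind_sum (r q : Prop) (p : ℕ → Prop) (K : ℕ) {dr : Decidable r} {dq : Decidable q}
    {dp : ∀ k, Decidable (p k)} (hr : r ↔ (q ∨ ∃ k, p k)) (hpK : ∀ k, p k → k < K)
    (hpp : ∀ j k, p j → p k → j = k) (hpq : ∀ k, p k → ¬ q) :
    (if r then 1 else 0 : ℤ) =
      (if q then 1 else 0) + ∑ k ∈ Finset.range K, (if p k then 1 else 0 : ℤ) := by
  by_cases h : ∃ k, p k
  · obtain ⟨k, hk⟩ := h
    rw [if_pos (hr.2 (Or.inr ⟨k, hk⟩)), if_neg (hpq k hk), zero_add]
    rw [Finset.sum_eq_single k]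
    · rw [if_pos hk]
    · intro j _ hjk
      rw [if_neg]
      intro hj
      exact hjk (hpp j k hj hk)
    · intro hkK
      exact absurd (Finset.mem_range.2 (hpK k hk)) hkK
  · have h1 : ∑ k ∈ Finset.range K, (if p k then 1 else 0 : ℤ) = 0 :=
      Finset.sum_eq_zero (fun k _ => by rw [if_neg]; exact fun hk => h ⟨k, hk⟩)
    rw [h1, add_zero]
    by_cases hq : q
    · rw [if_pos (hr.2 (Or.inl hq)), if_pos hq]
    · rw [if_neg (by rw [hr]; tauto), if_neg hq]

lemma sh_add (a b : ℝ) (a' r : ℤ) (t : ℕ) :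
    sh a b (a' + t, r) = sh a b (a', r) + t • (a : S) := by
  unfold sh
  simp only [add_zsmul, natCast_zsmul]
  abel

lemma sh_free {a b : ℝ} (hfree : Free a b) {v : ℤ × ℤ} (h : sh a b v = 0) : v = 0 := by
  have h1 : (((v.1 : ℝ) * a + v.2 * b : ℝ) : S) = 0 := by
    rw [← h]
    unfold sh
    rw [AddCircle.coe_add]
    congr 1
    · rw [← zsmul_eq_mul, AddCircle.coe_zsmul]
    · rw [← zsmul_eq_mul, AddCircle.coe_zsmul]
  obtain ⟨n, hn⟩ := (AddCircle.coe_eq_zero_iff (1 : ℝ)).1 h1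
  have := hfree v.1 v.2 n (by rw [← hn]; simp)
  exact Prod.ext this.1 this.2

/-- Abstract arbitrary-piece equidecomposition: sources `P k` and sinks `P k` shifted by `(D k, 0)` can be matched
along the action of the lattice with bounded displacement. -/
theorem arb_equidec (hcut : CutStmt) (hmat : MatchStmt) (a b : ℝ) (hfree : Free a b)
    (hhit : ∀ m : ℕ, ∃ N : ℕ, m ≤ N ∧ Hit a N)
    {X : Type*} (act : ℤ × ℤ → X → X) (act0 : ∀ x, act 0 x = x)
    (actadd : ∀ u v x, act (u + v) x = act u (act v x))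
    (arg : X → S) (harg : ∀ v x, arg (act v x) = arg x + sh a b v)
    (N D : ℕ → ℕ) (hN0 : 100 ≤ N 0) (hN : ∀ k, 4 * N k ≤ N (k + 1))
    (hNhit : ∀ k, Hit a (N k))
    (hD : ∀ k, 2 * N k ≤ D k ∧ D k < 3 * N k)
    (p0 q0 : ℝ)
    (hDq : ∀ k, ∃ t : ℝ, 0 ≤ t ∧ t ≤ 3 / N k ∧ (D k) • (a : S) = ((q0 - p0 + t : ℝ) : S))
    (Bs P0 P : ℕ → Set X)
    (hiso : ∀ k, ∀ x ∈ Bs k, ∀ v, le v (64 * (N k : ℤ) ^ 2) → v ≠ 0 → act v x ∉ Bs k)
    (hP0 : ∀ k, ∀ x ∈ P0 k, ∃ v, inBox v (N k) ∧ act (-v) x ∈ Bs k)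
    (harc : ∀ k, ∀ x ∈ P k, arg x ∈ arcC (p0 + 3 / N k) (3 / N k))
    (hap : ∀ (x : X) (Rel : Finset (ℕ × (ℤ × ℤ))), (∀ r ∈ Rel, act r.2 x ∈ P r.1) →
      ∃ x', ∀ r ∈ Rel, act r.2 x' ∈ P0 r.1)
    (c0 : ℝ) (I : Set X) (hI : ∀ x, x ∈ I ↔ arg x ∈ arcO c0 (1 / 4))
    (hIP : ∀ k x, x ∈ P k → x ∉ I)
    (hIM : ∀ k x, act (-((D k : ℤ), 0)) x ∈ P k → x ∉ I) :
    ∃ (m : ℕ) (φ : X → X), BijOn φ (I ∪ ⋃ k, P k) (I ∪ ⋃ k, {x | act (-((D k : ℤ), 0)) x ∈ P k}) ∧
      ∀ x ∈ I ∪ ⋃ k, P k, ∃ v, le v m ∧ φ x = act v x := by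
  classical
  -- sizes
  have hNpos : ∀ k, 100 ≤ N k := by
    intro k
    induction k with
    | zero => exact hN0
    | succ k ih => have := hN k; omega
  have hNmono : ∀ j k, j ≤ k → N j ≤ N k := by
    intro j k hjk
    induction k, hjk using Nat.le_induction with
    | base => exact le_rfl
    | succ k hjk ih => have := hN k; omega
  have hN4 : ∀ j k, j < k → 4 * N j ≤ N k := by
    intro j k hjk
    exact (hN j).trans (hNmono (j + 1) k hjk)
  have hNR : ∀ k, (100 : ℝ) ≤ N k := fun k => by exact_mod_cast hNpos k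
  have hinv : ∀ k, (0 : ℝ) < 1 / N k := fun k => by
    have := hNR k
    positivity
  have hinv1 : ∀ k, 1 / (N k : ℝ) ≤ 1 / 100 := fun k =>
    one_div_le_one_div_of_le (by norm_num) (hNR k)
  have hinvm : ∀ j k, j ≤ k → 1 / (N k : ℝ) ≤ 1 / N j := fun j k hjk =>
    one_div_le_one_div_of_le (by have := hNR j; linarith) (by exact_mod_cast hNmono j k hjk)
  have hinv4 : ∀ j k, j < k → 4 * (1 / (N k : ℝ)) ≤ 1 / N j := fun j k hjk => by
    have h1 : (4 : ℝ) * N j ≤ N k := by exact_mod_cast hN4 j k hjk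
    have h2 := hNR j
    have h3 := hNR k
    rw [mul_one_div, div_le_div_iff₀ (by linarith) (by linarith)]
    linarith
  have h3div : ∀ k, (3 : ℝ) / N k = 3 * (1 / N k) := fun k => by ring
  -- argument of the points of the pieces
  have hargP : ∀ k x, x ∈ P k → arg x ∈ arcC (p0 + 3 * (1 / N k)) (3 * (1 / N k)) := by
    intro k x hx
    have := harc k x hx
    rwa [h3div] at this
  have hargQ : ∀ k x, act (-((D k : ℤ), 0)) x ∈ P k →
      arg x ∈ arcC (q0 + 3 * (1 / N k)) (6 * (1 / N k)) := by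
    intro k x hx
    obtain ⟨s, ⟨hs1, hs2⟩, hs⟩ := hargP k _ hx
    obtain ⟨t, ht0, ht1, ht⟩ := hDq k
    rw [h3div] at ht1
    rw [harg] at hs
    have h1 : sh a b (-((D k : ℤ), 0)) = -(D k • (a : S)) := by
      unfold sh
      simp
    have h2 : arg x = ((s + (q0 - p0 + t) : ℝ) : S) := by
      have h3 : (s : S) = arg x + -(D k • (a : S)) := by
        rw [← h1]
        exact hs
      rw [AddCircle.coe_add, ← ht, h3]
      abel
    rw [h2]
    refine ⟨s + (q0 - p0 + t), ⟨?_, ?_⟩, rfl⟩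
    · linarith
    · linarith
  have hPdisj : ∀ j k x, x ∈ P j → x ∈ P k → j = k := by
    have key : ∀ j k x, j < k → x ∈ P j → x ∈ P k → False := by
      intro j k x hjk h1 h2
      have e1 := hinv4 j k hjk
      have e2 := hinv j
      have e3 := hinv k
      have e4 := hinv1 j
      exact arc_disj (hargP j x h1) (hargP k x h2) (by linarith) (by linarith) (by linarith)
    intro j k x h1 h2
    rcases lt_trichotomy j k with h | h | h
    · exact (key j k x h h1 h2).elim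
    · exact h
    · exact (key k j x h h2 h1).elim
  have hQdisj : ∀ j k x, act (-((D j : ℤ), 0)) x ∈ P j → act (-((D k : ℤ), 0)) x ∈ P k →
      j = k := by
    have key : ∀ j k x, j < k → act (-((D j : ℤ), 0)) x ∈ P j →
        act (-((D k : ℤ), 0)) x ∈ P k → False := by
      intro j k x hjk h1 h2
      have e1 := hinv4 j k hjk
      have e2 := hinv j
      have e3 := hinv k
      have e4 := hinv1 j
      exact arc_disj (hargQ j x h1) (hargQ k x h2) (by linarith) (by linarith) (by linarith)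
    intro j k x h1 h2
    rcases lt_trichotomy j k with h | h | h
    · exact (key j k x h h1 h2).elim
    · exact h
    · exact (key k j x h h2 h1).elim
  have hshift : ∀ (k : ℕ) (v : ℤ × ℤ) (x : X),
      act (-((D k : ℤ), 0)) (act v x) = act (v.1 - D k, v.2) x := by
    intro k v x
    rw [← actadd]
    congr 1
    ext
    · simp
      ring
    · simp
  set A : Set X := I ∪ ⋃ k, P k with hA
  set B : Set X := I ∪ ⋃ k, {x | act (-((D k : ℤ), 0)) x ∈ P k} with hB
  have memA : ∀ x, x ∈ A ↔ (x ∈ I ∨ ∃ k, x ∈ P k) := by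
    intro x
    rw [hA, mem_union, mem_iUnion]
  have memB : ∀ x, x ∈ B ↔ (x ∈ I ∨ ∃ k, act (-((D k : ℤ), 0)) x ∈ P k) := by
    intro x
    rw [hB, mem_union, mem_iUnion]
    rfl
  have hargt : ∀ (x : X) (a' r : ℤ) (t : ℕ),
      arg (act (a' + t, r) x) = arg (act (a', r) x) + t • (a : S) := by
    intro x a' r t
    rw [harg, harg, sh_add, add_assoc]
  -- the cut bound
  have hcutx : ∀ (x : X) (F : Finset (ℤ × ℤ)),
      |∑ v ∈ F, ((if v ∈ {v : ℤ × ℤ | act v x ∈ A} then 1 else 0 : ℤ) -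
        (if v ∈ {v : ℤ × ℤ | act v x ∈ B} then 1 else 0))| ≤ (100 : ℕ) * (per F : ℤ) := by
    intro x F
    have hfin : {r : ℕ × (ℤ × ℤ) | act r.2 x ∈ P r.1 ∧
        (r.2 ∈ F ∨ (r.2.1 + D r.1, r.2.2) ∈ F)}.Finite := by
      have h1 : {r : ℕ × (ℤ × ℤ) | act r.2 x ∈ P r.1 ∧
        (r.2 ∈ F ∨ (r.2.1 + D r.1, r.2.2) ∈ F)} ⊆
          ⋃ v ∈ F, ({r : ℕ × (ℤ × ℤ) | act r.2 x ∈ P r.1 ∧ r.2 = v} ∪
            {r : ℕ × (ℤ × ℤ) | act r.2 x ∈ P r.1 ∧ (r.2.1 + (D r.1 : ℤ), r.2.2) = v}) := by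
        rintro ⟨k, u⟩ ⟨hk, h | h⟩
        · exact mem_biUnion h (Or.inl ⟨hk, rfl⟩)
        · exact mem_biUnion h (Or.inr ⟨hk, rfl⟩)
      refine Set.Finite.subset ?_ h1
      refine Set.Finite.biUnion F.finite_toSet ?_
      intro v _
      refine Set.Finite.union (Set.Subsingleton.finite ?_) (Set.Subsingleton.finite ?_)
      · rintro ⟨k, u⟩ ⟨hk, hu⟩ ⟨k', u'⟩ ⟨hk', hu'⟩
        simp only at hk hk' hu hu'
        subst hu
        subst hu'
        rw [hPdisj k k' _ hk hk']
      · rintro ⟨k, u⟩ ⟨hk, hu⟩ ⟨k', u'⟩ ⟨hk', hu'⟩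
        simp only at hk hk' hu hu'
        have e1 : u = (v.1 - D k, v.2) := by
          rw [← hu]
          ext <;> simp
        have e2 : u' = (v.1 - D k', v.2) := by
          rw [← hu']
          ext <;> simp
        rw [e1, ← hshift] at hk
        rw [e2, ← hshift] at hk'
        have := hQdisj k k' _ hk hk'
        subst this
        rw [e1, e2]
    set Rel := hfin.toFinset with hRel
    have memRel : ∀ r : ℕ × (ℤ × ℤ), r ∈ Rel ↔ (act r.2 x ∈ P r.1 ∧
        (r.2 ∈ F ∨ (r.2.1 + D r.1, r.2.2) ∈ F)) := by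
      intro r
      rw [hRel, Set.Finite.mem_toFinset]
      rfl
    obtain ⟨x', hx'⟩ := hap x Rel (fun r hr => ((memRel r).1 hr).1)
    set K := Rel.sup (fun r => r.1) + 1 with hK
    have hltK : ∀ r ∈ Rel, r.1 < K := by
      intro r hr
      have : r.1 ≤ Rel.sup (fun r => r.1) := Finset.le_sup (f := fun r : ℕ × (ℤ × ℤ) => r.1) hr
      omega
    have hc := hcut K N D (by have := hN0; omega) hN hD (fun k => {w | act w x' ∈ Bs k})
      (fun k => {u | (k, u) ∈ Rel}) ?_ ?_ ?_ ?_ F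
    rotate_left
    · intro k w hw w' hw' h1 h2
      by_contra hne
      refine hiso k (act w x') hw (w' - w) ⟨?_, ?_⟩ ?_ ?_
      · rw [abs_sub_comm] at h1
        exact h1
      · rw [abs_sub_comm] at h2
        exact h2
      · intro h0
        exact hne (sub_eq_zero.1 h0).symm
      · rw [← actadd, sub_add_cancel]
        exact hw'
    · intro k v hv
      have h1 : act v x' ∈ P0 k := hx' (k, v) hv
      obtain ⟨v0, ⟨b1, b2, b3, b4⟩, hv0⟩ := hP0 k _ h1
      refine ⟨-v0 + v, ?_, ?_, ?_, ?_, ?_⟩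
      · show act (-v0 + v) x' ∈ Bs k
        rw [actadd]
        exact hv0
      · simp only [Prod.fst_add, Prod.fst_neg]; omega
      · simp only [Prod.fst_add, Prod.fst_neg]; omega
      · simp only [Prod.snd_add, Prod.snd_neg]; omega
      · simp only [Prod.snd_add, Prod.snd_neg]; omega
    · intro k r a'
      have e1 := hinv k
      have e2 := hinv1 k
      refine row_bound (hNhit k) (arg (act (a', r) x)) p0 (6 * (1 / N k)) (by linarith)
        (by linarith) ?_ a' (Finset.Ico k K) (fun t j => (t, r) ∈ {u | (j, u) ∈ Rel}) ?_ ?_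
      · have := hNR k
        have h4 : (N k : ℝ) * (6 * (1 / N k)) = 6 := by field_simp
        rw [h4]; norm_num
      · intro t j j' hj hj'
        exact hPdisj j j' _ ((memRel _).1 hj).1 ((memRel _).1 hj').1
      · intro t j hj hp
        rw [Finset.mem_Ico] at hj
        rw [← hargt]
        refine arc_mono ?_ ?_ (hargP j _ ((memRel _).1 hp).1)
        · have := hinv j
          linarith
        · have := hinvm k j hj.1
          linarith
    · intro k r a'
      have e1 := hinv k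
      have e2 := hinv1 k
      refine row_bound (hNhit k) (arg (act (a', r) x)) q0 (9 * (1 / N k)) (by linarith)
        (by linarith) ?_ a' (Finset.Ico k K) (fun t j => (t - (D j : ℤ), r) ∈ {u | (j, u) ∈ Rel})
        ?_ ?_
      · have := hNR k
        have h4 : (N k : ℝ) * (9 * (1 / N k)) = 9 := by field_simp
        rw [h4]
      · intro t j j' hj hj'
        have h1 := ((memRel _).1 hj).1
        have h2 := ((memRel _).1 hj').1
        refine hQdisj j j' (act (t, r) x) ?_ ?_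
        · rw [hshift]; exact h1
        · rw [hshift]; exact h2
      · intro t j hj hp
        rw [Finset.mem_Ico] at hj
        rw [← hargt]
        have h1 := ((memRel _).1 hp).1
        refine arc_mono ?_ ?_ (hargQ j _ (by rw [hshift]; exact h1))
        · have := hinv j
          linarith
        · have := hinvm k j hj.1
          linarith
    have hsum : ∑ v ∈ F, ((if v ∈ {v : ℤ × ℤ | act v x ∈ A} then 1 else 0 : ℤ) -
        (if v ∈ {v : ℤ × ℤ | act v x ∈ B} then 1 else 0)) =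
        ∑ v ∈ F, ∑ k ∈ Finset.range K,
          ((if v ∈ {u | (k, u) ∈ Rel} then 1 else 0 : ℤ) -
            (if ((v.1 - D k, v.2) : ℤ × ℤ) ∈ {u | (k, u) ∈ Rel} then 1 else 0)) := by
      refine Finset.sum_congr rfl ?_
      intro v hv
      rw [Finset.sum_sub_distrib]
      have g1 : (if v ∈ {v : ℤ × ℤ | act v x ∈ A} then 1 else 0 : ℤ) =
          (if act v x ∈ I then 1 else 0) + ∑ k ∈ Finset.range K,
            (if v ∈ {u | (k, u) ∈ Rel} then 1 else 0 : ℤ) := by
        refine ind_sum (v ∈ {v : ℤ × ℤ | act v x ∈ A}) (act v x ∈ I)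
          (fun k => v ∈ {u | (k, u) ∈ Rel}) K ?_ ?_ ?_ ?_
        · show act v x ∈ A ↔ _
          rw [memA]
          refine or_congr Iff.rfl (exists_congr fun k => ?_)
          show _ ↔ (k, v) ∈ Rel
          rw [memRel]
          exact ⟨fun h => ⟨h, Or.inl hv⟩, fun h => h.1⟩
        · intro k hk
          exact hltK (k, v) hk
        · intro j k hj hk
          exact hPdisj j k _ ((memRel _).1 hj).1 ((memRel _).1 hk).1
        · intro k hk
          exact hIP k _ ((memRel _).1 hk).1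
      have g2 : (if v ∈ {v : ℤ × ℤ | act v x ∈ B} then 1 else 0 : ℤ) =
          (if act v x ∈ I then 1 else 0) + ∑ k ∈ Finset.range K,
            (if ((v.1 - D k, v.2) : ℤ × ℤ) ∈ {u | (k, u) ∈ Rel} then 1 else 0 : ℤ) := by
        refine ind_sum (v ∈ {v : ℤ × ℤ | act v x ∈ B}) (act v x ∈ I)
          (fun k => ((v.1 - (D k : ℤ), v.2) : ℤ × ℤ) ∈ {u | (k, u) ∈ Rel}) K ?_ ?_ ?_ ?_
        · show act v x ∈ B ↔ _
          rw [memB]
          refine or_congr Iff.rfl (exists_congr fun k => ?_)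
          show _ ↔ (k, ((v.1 - (D k : ℤ), v.2) : ℤ × ℤ)) ∈ Rel
          rw [memRel, hshift]
          refine ⟨fun h => ⟨h, Or.inr ?_⟩, fun h => h.1⟩
          simpa using hv
        · intro k hk
          exact hltK (k, _) hk
        · intro j k hj hk
          have h1 := ((memRel _).1 hj).1
          have h2 := ((memRel _).1 hk).1
          refine hQdisj j k (act v x) ?_ ?_
          · rw [hshift]; exact h1
          · rw [hshift]; exact h2
        · intro k hk
          have h1 := ((memRel _).1 hk).1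
          refine hIM k (act v x) ?_
          rw [hshift]; exact h1
      rw [g1, g2]
      ring
    rw [hsum]
    convert hc using 1
    · congr! 7
    · norm_num
  -- the matchings
  obtain ⟨s, hs, hsHit⟩ := hhit 1612
  have hmx : ∀ x : X, ∃ φ : ℤ × ℤ → ℤ × ℤ,
      Set.BijOn φ {v : ℤ × ℤ | act v x ∈ A} {v : ℤ × ℤ | act v x ∈ B} ∧
      ∀ v ∈ {v : ℤ × ℤ | act v x ∈ A}, |(φ v).1 - v.1| ≤ 2 * s ∧ |(φ v).2 - v.2| ≤ 2 * s := by
    intro x
    refine hmat 100 s (by omega) _ _ (by convert hcutx x) ?_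
    intro i j
    refine cell_dense i j s _ ?_
    intro a' r
    refine row_dense hsHit hs (arg (act (a', r) x)) c0 a' _ ?_
    intro t ht
    rw [← hargt, ← hI] at ht
    exact ⟨(memA _).2 (Or.inl ht), (memB _).2 (Or.inl ht)⟩
  choose Φ hΦ1 hΦ2 using hmx
  -- the orbits
  have hfreeact : ∀ (u v : ℤ × ℤ) (x : X), act u x = act v x → u = v := by
    intro u v x h
    have h1 := congrArg arg h
    rw [harg, harg] at h1
    have h2 : sh a b u = sh a b v := add_left_cancel h1
    have h3 : sh a b (u - v) = 0 := by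
      have h4 : sh a b (u - v) = sh a b u - sh a b v := by
        unfold sh
        simp only [Prod.fst_sub, Prod.snd_sub, sub_zsmul]
        abel
      rw [h4, h2, sub_self]
    exact sub_eq_zero.1 (sh_free hfree h3)
  let st : Setoid X :=
    { r := fun x y => ∃ v, act v x = y
      iseqv :=
        { refl := fun x => ⟨0, act0 x⟩
          symm := by
            rintro x y ⟨v, rfl⟩
            exact ⟨-v, by rw [← actadd, neg_add_cancel, act0]⟩
          trans := by
            rintro x y z ⟨v, rfl⟩ ⟨w, rfl⟩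
            exact ⟨w + v, by rw [actadd]⟩ } }
  let rep : X → X := fun x => (Quotient.mk st x).out
  have hrep : ∀ x, ∃ v, act v (rep x) = x := by
    intro x
    have : st (rep x) x := Quotient.exact (Quotient.out_eq (Quotient.mk st x))
    exact this
  have hrep2 : ∀ x v, rep (act v x) = rep x := by
    intro x v
    have : Quotient.mk st (act v x) = Quotient.mk st x := by
      refine (Quotient.sound ?_).symm
      exact ⟨v, rfl⟩
    show (Quotient.mk st (act v x)).out = (Quotient.mk st x).out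
    rw [this]
  have hrep3 : ∀ x, rep (rep x) = rep x := by
    intro x
    obtain ⟨v, hv⟩ := hrep x
    have := hrep2 (rep x) v
    rw [hv] at this
    exact this.symm
  choose vec hvec using hrep
  have hvecu : ∀ x u, act u (rep x) = x → vec x = u := by
    intro x u h
    exact hfreeact _ _ (rep x) ((hvec x).trans h.symm)
  refine ⟨2 * s, fun x => act (Φ (rep x) (vec x)) (rep x), ⟨?_, ?_, ?_⟩, ?_⟩
  · intro x hx
    have h1 : vec x ∈ {v : ℤ × ℤ | act v (rep x) ∈ A} := by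
      show act (vec x) (rep x) ∈ A
      rw [hvec]
      exact hx
    exact (hΦ1 (rep x)).mapsTo h1
  · intro x hx y hy hxy
    have hxy' : act (Φ (rep x) (vec x)) (rep x) = act (Φ (rep y) (vec y)) (rep y) := hxy
    have h1 := congrArg rep hxy'
    rw [hrep2, hrep2, hrep3, hrep3] at h1
    have hx1 : vec x ∈ {v : ℤ × ℤ | act v (rep x) ∈ A} := by
      show act (vec x) (rep x) ∈ A
      rw [hvec]
      exact hx
    have hy1 : vec y ∈ {v : ℤ × ℤ | act v (rep x) ∈ A} := by
      show act (vec y) (rep x) ∈ A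
      rw [h1, hvec]
      exact hy
    rw [← h1] at hxy'
    have h2 := (hΦ1 (rep x)).injOn hx1 hy1 (hfreeact _ _ _ hxy')
    rw [← hvec x, ← hvec y, ← h1, h2]
  · intro y hy
    have h1 : vec y ∈ {v : ℤ × ℤ | act v (rep y) ∈ B} := by
      show act (vec y) (rep y) ∈ B
      rw [hvec]
      exact hy
    obtain ⟨u, hu, hu2⟩ := (hΦ1 (rep y)).surjOn h1
    refine ⟨act u (rep y), hu, ?_⟩
    have h2 : rep (act u (rep y)) = rep y := by rw [hrep2, hrep3]
    have h3 : vec (act u (rep y)) = u := hvecu _ _ (by rw [h2])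
    show act (Φ (rep (act u (rep y))) (vec (act u (rep y)))) (rep (act u (rep y))) = y
    rw [h2, h3, hu2, hvec]
  · intro x hx
    have h1 : vec x ∈ {v : ℤ × ℤ | act v (rep x) ∈ A} := by
      show act (vec x) (rep x) ∈ A
      rw [hvec]
      exact hx
    obtain ⟨e1, e2⟩ := hΦ2 (rep x) _ h1
    refine ⟨Φ (rep x) (vec x) - vec x, ⟨?_, ?_⟩, ?_⟩
    · push_cast
      exact e1
    · push_cast
      exact e2
    · show act (Φ (rep x) (vec x)) (rep x) = act (Φ (rep x) (vec x) - vec x) x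
      have h2 : act (Φ (rep x) (vec x) - vec x) (act (vec x) (rep x)) =
          act (Φ (rep x) (vec x)) (rep x) := by
        rw [← actadd, sub_add_cancel]
      rw [hvec x] at h2
      exact h2.symm

end C9
end Geo

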