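import Pool.Agent.Helper183.Geo.C9

set_option autoImplicit false
open MeasureTheory Set
namespace Geo
namespace C9b
open C9

open Classical in
/-- the cut bound along the orbits -/
theorem cut_pts (hcut : CutStmt) (a b : ℝ)
    {X : Type*} (act : ℤ × ℤ → X → X) 
    (actadd : ∀ u v x, act (u + v) x = act u (act v x))
    (arg : X → S) (harg : ∀ v x, arg (act v x) = arg x + sh a b v)
    (N D : ℕ → ℕ) (hN0 : 100 ≤ N 0) (hN : ∀ k, 4 * N k ≤ N (k + 1))
    (hNhit : ∀ k, Hit a (N k))
    (hD : ∀ k, 2 * N k ≤ D k ∧ D k < 3 * N k)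
    (p0 q0 : ℝ)
    (hDq : ∀ k, ∃ t : ℝ, 0 ≤ t ∧ t ≤ 3 / N k ∧ (D k) • (a : S) = ((q0 - p0 + t : ℝ) : S))
    (Bs P0 P : ℕ → Set X)
    (hiso : ∀ k, ∀ x ∈ Bs k, ∀ v, le v (64 * (N k : ℤ) ^ 2) → v ≠ 0 → act v x ∉ Bs k)
    (hP0 : ∀ k, ∀ x ∈ P0 k, ∃ v, inBox v (N k) ∧ act (-v) x ∈ Bs k)
    (harc : ∀ k, ∀ x ∈ P k, arg x ∈ arcC (p0 + 3 / N k) (3 / N k))
    (hap : ∀ (x : X) (Rel : Finset (ℕ × (ℤ × ℤ))), (∀ r ∈ Rel, act r.2 x ∈ P r.1) →
      ∃ x', ∀ r ∈ Rel, act r.2 x' ∈ P0 r.1)
    (I : Set X)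
    (hIP : ∀ k x, x ∈ P k → x ∉ I)
    (hIM : ∀ k x, act (-((D k : ℤ), 0)) x ∈ P k → x ∉ I)
    (A' B' : Set X) (hA' : A' = I ∪ ⋃ k, P k) (hB' : B' = I ∪ ⋃ k, {x | act (-((D k : ℤ), 0)) x ∈ P k}) :
    ∀ (x : X) (F : Finset (ℤ × ℤ)),
      |∑ v ∈ F, ((if act v x ∈ A' then 1 else 0 : ℤ) -
        (if act v x ∈ B' then 1 else 0))| ≤ 100 * (per F : ℤ) := by
  classical
  -- sizes
  have hNpos : ∀ k, 100 ≤ N k := by
    intro k
    induction k with
    | zero => exact hN0
    | succ k ih => have := hN k; omega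
  have hNmono : ∀ j k, j ≤ k → N j ≤ N k := by
    intro j k hjk
    induction k, hjk using Nat.le_induction with
    | base => exact le_rfl
    | succ k hjk ih => have := hN k; omega
  have hN4 : ∀ j k, j < k → 4 * N j ≤ N k := by
    intro j k hjk
    exact (hN j).trans (hNmono (j + 1) k hjk)
  have hNR : ∀ k, (100 : ℝ) ≤ N k := fun k => by exact_mod_cast hNpos k
  have hinv : ∀ k, (0 : ℝ) < 1 / N k := fun k => by
    have := hNR k
    positivity
  have hinv1 : ∀ k, 1 / (N k : ℝ) ≤ 1 / 100 := fun k =>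
    one_div_le_one_div_of_le (by norm_num) (hNR k)
  have hinvm : ∀ j k, j ≤ k → 1 / (N k : ℝ) ≤ 1 / N j := fun j k hjk =>
    one_div_le_one_div_of_le (by have := hNR j; linarith) (by exact_mod_cast hNmono j k hjk)
  have hinv4 : ∀ j k, j < k → 4 * (1 / (N k : ℝ)) ≤ 1 / N j := fun j k hjk => by
    have h1 : (4 : ℝ) * N j ≤ N k := by exact_mod_cast hN4 j k hjk
    have h2 := hNR j
    have h3 := hNR k
    rw [mul_one_div, div_le_div_iff₀ (by linarith) (by linarith)]
    linarith
  have h3div : ∀ k, (3 : ℝ) / N k = 3 * (1 / N k) := fun k => by ring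
  -- argument of the points of the pieces
  have hargP : ∀ k x, x ∈ P k → arg x ∈ arcC (p0 + 3 * (1 / N k)) (3 * (1 / N k)) := by
    intro k x hx
    have := harc k x hx
    rwa [h3div] at this
  have hargQ : ∀ k x, act (-((D k : ℤ), 0)) x ∈ P k →
      arg x ∈ arcC (q0 + 3 * (1 / N k)) (6 * (1 / N k)) := by
    intro k x hx
    obtain ⟨s, ⟨hs1, hs2⟩, hs⟩ := hargP k _ hx
    obtain ⟨t, ht0, ht1, ht⟩ := hDq k
    rw [h3div] at ht1
    rw [harg] at hs
    have h1 : sh a b (-((D k : ℤ), 0)) = -(D k • (a : S)) := by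
      unfold sh
      simp
    have h2 : arg x = ((s + (q0 - p0 + t) : ℝ) : S) := by
      have h3 : (s : S) = arg x + -(D k • (a : S)) := by
        rw [← h1]
        exact hs
      rw [AddCircle.coe_add, ← ht, h3]
      abel
    rw [h2]
    refine ⟨s + (q0 - p0 + t), ⟨?_, ?_⟩, rfl⟩
    · linarith
    · linarith
  have hPdisj : ∀ j k x, x ∈ P j → x ∈ P k → j = k := by
    have key : ∀ j k x, j < k → x ∈ P j → x ∈ P k → False := by
      intro j k x hjk h1 h2
      have e1 := hinv4 j k hjk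
      have e2 := hinv j
      have e3 := hinv k
      have e4 := hinv1 j
      exact arc_disj (hargP j x h1) (hargP k x h2) (by linarith) (by linarith) (by linarith)
    intro j k x h1 h2
    rcases lt_trichotomy j k with h | h | h
    · exact (key j k x h h1 h2).elim
    · exact h
    · exact (key k j x h h2 h1).elim
  have hQdisj : ∀ j k x, act (-((D j : ℤ), 0)) x ∈ P j → act (-((D k : ℤ), 0)) x ∈ P k →
      j = k := by
    have key : ∀ j k x, j < k → act (-((D j : ℤ), 0)) x ∈ P j →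
        act (-((D k : ℤ), 0)) x ∈ P k → False := by
      intro j k x hjk h1 h2
      have e1 := hinv4 j k hjk
      have e2 := hinv j
      have e3 := hinv k
      have e4 := hinv1 j
      exact arc_disj (hargQ j x h1) (hargQ k x h2) (by linarith) (by linarith) (by linarith)
    intro j k x h1 h2
    rcases lt_trichotomy j k with h | h | h
    · exact (key j k x h h1 h2).elim
    · exact h
    · exact (key k j x h h2 h1).elim
  have hshift : ∀ (k : ℕ) (v : ℤ × ℤ) (x : X),
      act (-((D k : ℤ), 0)) (act v x) = act (v.1 - D k, v.2) x := by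
    intro k v x
    rw [← actadd]
    congr 1
    ext
    · simp
      ring
    · simp
  set A : Set X := I ∪ ⋃ k, P k with hA
  set B : Set X := I ∪ ⋃ k, {x | act (-((D k : ℤ), 0)) x ∈ P k} with hB
  have memA : ∀ x, x ∈ A ↔ (x ∈ I ∨ ∃ k, x ∈ P k) := by
    intro x
    rw [hA, mem_union, mem_iUnion]
  have memB : ∀ x, x ∈ B ↔ (x ∈ I ∨ ∃ k, act (-((D k : ℤ), 0)) x ∈ P k) := by
    intro x
    rw [hB, mem_union, mem_iUnion]
    rfl
  have hargt : ∀ (x : X) (a' r : ℤ) (t : ℕ),
      arg (act (a' + t, r) x) = arg (act (a', r) x) + t • (a : S) := by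
    intro x a' r t
    rw [harg, harg, sh_add, add_assoc]
  -- the cut bound
  have hcutx : ∀ (x : X) (F : Finset (ℤ × ℤ)),
      |∑ v ∈ F, ((if v ∈ {v : ℤ × ℤ | act v x ∈ A} then 1 else 0 : ℤ) -
        (if v ∈ {v : ℤ × ℤ | act v x ∈ B} then 1 else 0))| ≤ (100 : ℕ) * (per F : ℤ) := by
    intro x F
    have hfin : {r : ℕ × (ℤ × ℤ) | act r.2 x ∈ P r.1 ∧
        (r.2 ∈ F ∨ (r.2.1 + D r.1, r.2.2) ∈ F)}.Finite := by
      have h1 : {r : ℕ × (ℤ × ℤ) | act r.2 x ∈ P r.1 ∧
        (r.2 ∈ F ∨ (r.2.1 + D r.1, r.2.2) ∈ F)} ⊆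
          ⋃ v ∈ F, ({r : ℕ × (ℤ × ℤ) | act r.2 x ∈ P r.1 ∧ r.2 = v} ∪
            {r : ℕ × (ℤ × ℤ) | act r.2 x ∈ P r.1 ∧ (r.2.1 + (D r.1 : ℤ), r.2.2) = v}) := by
        rintro ⟨k, u⟩ ⟨hk, h | h⟩
        · exact mem_biUnion h (Or.inl ⟨hk, rfl⟩)
        · exact mem_biUnion h (Or.inr ⟨hk, rfl⟩)
      refine Set.Finite.subset ?_ h1
      refine Set.Finite.biUnion F.finite_toSet ?_
      intro v _
      refine Set.Finite.union (Set.Subsingleton.finite ?_) (Set.Subsingleton.finite ?_)
      · rintro ⟨k, u⟩ ⟨hk, hu⟩ ⟨k', u'⟩ ⟨hk', hu'⟩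
        simp only at hk hk' hu hu'
        subst hu
        subst hu'
        rw [hPdisj k k' _ hk hk']
      · rintro ⟨k, u⟩ ⟨hk, hu⟩ ⟨k', u'⟩ ⟨hk', hu'⟩
        simp only at hk hk' hu hu'
        have e1 : u = (v.1 - D k, v.2) := by
          rw [← hu]
          ext <;> simp
        have e2 : u' = (v.1 - D k', v.2) := by
          rw [← hu']
          ext <;> simp
        rw [e1, ← hshift] at hk
        rw [e2, ← hshift] at hk'
        have := hQdisj k k' _ hk hk'
        subst this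
        rw [e1, e2]
    set Rel := hfin.toFinset with hRel
    have memRel : ∀ r : ℕ × (ℤ × ℤ), r ∈ Rel ↔ (act r.2 x ∈ P r.1 ∧
        (r.2 ∈ F ∨ (r.2.1 + D r.1, r.2.2) ∈ F)) := by
      intro r
      rw [hRel, Set.Finite.mem_toFinset]
      rfl
    obtain ⟨x', hx'⟩ := hap x Rel (fun r hr => ((memRel r).1 hr).1)
    set K := Rel.sup (fun r => r.1) + 1 with hK
    have hltK : ∀ r ∈ Rel, r.1 < K := by
      intro r hr
      have : r.1 ≤ Rel.sup (fun r => r.1) := Finset.le_sup (f := fun r : ℕ × (ℤ × ℤ) => r.1) hr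
      omega
    have hc := hcut K N D (by have := hN0; omega) hN hD (fun k => {w | act w x' ∈ Bs k})
      (fun k => {u | (k, u) ∈ Rel}) ?_ ?_ ?_ ?_ F
    rotate_left
    · intro k w hw w' hw' h1 h2
      by_contra hne
      refine hiso k (act w x') hw (w' - w) ⟨?_, ?_⟩ ?_ ?_
      · rw [abs_sub_comm] at h1
        exact h1
      · rw [abs_sub_comm] at h2
        exact h2
      · intro h0
        exact hne (sub_eq_zero.1 h0).symm
      · rw [← actadd, sub_add_cancel]
        exact hw'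
    · intro k v hv
      have h1 : act v x' ∈ P0 k := hx' (k, v) hv
      obtain ⟨v0, ⟨b1, b2, b3, b4⟩, hv0⟩ := hP0 k _ h1
      refine ⟨-v0 + v, ?_, ?_, ?_, ?_, ?_⟩
      · show act (-v0 + v) x' ∈ Bs k
        rw [actadd]
        exact hv0
      · simp only [Prod.fst_add, Prod.fst_neg]; omega
      · simp only [Prod.fst_add, Prod.fst_neg]; omega
      · simp only [Prod.snd_add, Prod.snd_neg]; omega
      · simp only [Prod.snd_add, Prod.snd_neg]; omega
    · intro k r a'
      have e1 := hinv k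
      have e2 := hinv1 k
      refine row_bound (hNhit k) (arg (act (a', r) x)) p0 (6 * (1 / N k)) (by linarith)
        (by linarith) ?_ a' (Finset.Ico k K) (fun t j => (t, r) ∈ {u | (j, u) ∈ Rel}) ?_ ?_
      · have := hNR k
        have h4 : (N k : ℝ) * (6 * (1 / N k)) = 6 := by field_simp
        rw [h4]; norm_num
      · intro t j j' hj hj'
        exact hPdisj j j' _ ((memRel _).1 hj).1 ((memRel _).1 hj').1
      · intro t j hj hp
        rw [Finset.mem_Ico] at hj
        rw [← hargt]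
        refine arc_mono ?_ ?_ (hargP j _ ((memRel _).1 hp).1)
        · have := hinv j
          linarith
        · have := hinvm k j hj.1
          linarith
    · intro k r a'
      have e1 := hinv k
      have e2 := hinv1 k
      refine row_bound (hNhit k) (arg (act (a', r) x)) q0 (9 * (1 / N k)) (by linarith)
        (by linarith) ?_ a' (Finset.Ico k K) (fun t j => (t - (D j : ℤ), r) ∈ {u | (j, u) ∈ Rel})
        ?_ ?_
      · have := hNR k
        have h4 : (N k : ℝ) * (9 * (1 / N k)) = 9 := by field_simp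
        rw [h4]
      · intro t j j' hj hj'
        have h1 := ((memRel _).1 hj).1
        have h2 := ((memRel _).1 hj').1
        refine hQdisj j j' (act (t, r) x) ?_ ?_
        · rw [hshift]; exact h1
        · rw [hshift]; exact h2
      · intro t j hj hp
        rw [Finset.mem_Ico] at hj
        rw [← hargt]
        have h1 := ((memRel _).1 hp).1
        refine arc_mono ?_ ?_ (hargQ j _ (by rw [hshift]; exact h1))
        · have := hinv j
          linarith
        · have := hinvm k j hj.1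
          linarith
    have hsum : ∑ v ∈ F, ((if v ∈ {v : ℤ × ℤ | act v x ∈ A} then 1 else 0 : ℤ) -
        (if v ∈ {v : ℤ × ℤ | act v x ∈ B} then 1 else 0)) =
        ∑ v ∈ F, ∑ k ∈ Finset.range K,
          ((if v ∈ {u | (k, u) ∈ Rel} then 1 else 0 : ℤ) -
            (if ((v.1 - D k, v.2) : ℤ × ℤ) ∈ {u | (k, u) ∈ Rel} then 1 else 0)) := by
      refine Finset.sum_congr rfl ?_
      intro v hv
      rw [Finset.sum_sub_distrib]
      have g1 : (if v ∈ {v : ℤ × ℤ | act v x ∈ A} then 1 else 0 : ℤ) =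
          (if act v x ∈ I then 1 else 0) + ∑ k ∈ Finset.range K,
            (if v ∈ {u | (k, u) ∈ Rel} then 1 else 0 : ℤ) := by
        refine ind_sum (v ∈ {v : ℤ × ℤ | act v x ∈ A}) (act v x ∈ I)
          (fun k => v ∈ {u | (k, u) ∈ Rel}) K ?_ ?_ ?_ ?_
        · show act v x ∈ A ↔ _
          rw [memA]
          refine or_congr Iff.rfl (exists_congr fun k => ?_)
          show _ ↔ (k, v) ∈ Rel
          rw [memRel]
          exact ⟨fun h => ⟨h, Or.inl hv⟩, fun h => h.1⟩
        · intro k hk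
          exact hltK (k, v) hk
        · intro j k hj hk
          exact hPdisj j k _ ((memRel _).1 hj).1 ((memRel _).1 hk).1
        · intro k hk
          exact hIP k _ ((memRel _).1 hk).1
      have g2 : (if v ∈ {v : ℤ × ℤ | act v x ∈ B} then 1 else 0 : ℤ) =
          (if act v x ∈ I then 1 else 0) + ∑ k ∈ Finset.range K,
            (if ((v.1 - D k, v.2) : ℤ × ℤ) ∈ {u | (k, u) ∈ Rel} then 1 else 0 : ℤ) := by
        refine ind_sum (v ∈ {v : ℤ × ℤ | act v x ∈ B}) (act v x ∈ I)
          (fun k => ((v.1 - (D k : ℤ), v.2) : ℤ × ℤ) ∈ {u | (k, u) ∈ Rel}) K ?_ ?_ ?_ ?_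
        · show act v x ∈ B ↔ _
          rw [memB]
          refine or_congr Iff.rfl (exists_congr fun k => ?_)
          show _ ↔ (k, ((v.1 - (D k : ℤ), v.2) : ℤ × ℤ)) ∈ Rel
          rw [memRel, hshift]
          refine ⟨fun h => ⟨h, Or.inr ?_⟩, fun h => h.1⟩
          simpa using hv
        · intro k hk
          exact hltK (k, _) hk
        · intro j k hj hk
          have h1 := ((memRel _).1 hj).1
          have h2 := ((memRel _).1 hk).1
          refine hQdisj j k (act v x) ?_ ?_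
          · rw [hshift]; exact h1
          · rw [hshift]; exact h2
        · intro k hk
          have h1 := ((memRel _).1 hk).1
          refine hIM k (act v x) ?_
          rw [hshift]; exact h1
      rw [g1, g2]
      ring
    rw [hsum]
    convert hc using 1
    · congr! 7
    · norm_num
  intro x F
  have h := hcutx x F
  rw [hA', hB']
  have e1 : (100 * (per F : ℤ)) = ((100 : ℕ) : ℤ) * (per F : ℤ) := by norm_num
  rw [e1]
  refine le_trans (le_of_eq ?_) h
  congr 1
  refine Finset.sum_congr rfl (fun v _ => ?_)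
  have h1 : (act v x ∈ A) = (v ∈ {v : ℤ × ℤ | act v x ∈ A}) := rfl
  have h2 : (act v x ∈ B) = (v ∈ {v : ℤ × ℤ | act v x ∈ B}) := rfl
  congr 2

end C9b
end Geo
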