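import Pool.Agent.Helper183.Geo.Base

set_option autoImplicit false
open MeasureTheory Set
namespace Geo
namespace D1

open scoped ComplexConjugate

section aux

open Metric Filter Topology

/-- the width of the strips -/
noncomputable def dl (n : ℕ) : ℝ := ((4 : ℝ) ^ (n + 1))⁻¹

/-- open strips between -/
def Gap (n : ℕ) (Q : ℝ) : Set ℂ := {z | ∃ m : ℤ, (m : ℝ) + dl n < Q * z.re ∧ Q * z.re < m + 1}
/-- open thin strips -/
def Pop (n : ℕ) (Q : ℝ) : Set ℂ := {z | ∃ m : ℤ, (m : ℝ) < Q * z.re ∧ Q * z.re < m + dl n}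

lemma dl_pos (n : ℕ) : 0 < dl n := by unfold dl; positivity

lemma dl_le (n : ℕ) : dl n ≤ 1 / 4 := by
  unfold dl
  rw [inv_le_comm₀ (by positivity) (by norm_num), pow_succ]
  have : (1 : ℝ) ≤ 4 ^ n := one_le_pow₀ (by norm_num)
  norm_num
  linarith

lemma isOpen_gap (n : ℕ) (Q : ℝ) : IsOpen (Gap n Q) := by
  have : Gap n Q = ⋃ m : ℤ, {z : ℂ | (m : ℝ) + dl n < Q * z.re ∧ Q * z.re < m + 1} := by
    ext z; simp [Gap]
  rw [this]
  refine isOpen_iUnion fun m => ?_
  exact (isOpen_lt continuous_const (continuous_const.mul Complex.continuous_re)).inter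
    (isOpen_lt (continuous_const.mul Complex.continuous_re) continuous_const)

lemma isOpen_pop (n : ℕ) (Q : ℝ) : IsOpen (Pop n Q) := by
  have : Pop n Q = ⋃ m : ℤ, {z : ℂ | (m : ℝ) < Q * z.re ∧ Q * z.re < m + dl n} := by
    ext z; simp [Pop]
  rw [this]
  refine isOpen_iUnion fun m => ?_
  exact (isOpen_lt continuous_const (continuous_const.mul Complex.continuous_re)).inter
    (isOpen_lt (continuous_const.mul Complex.continuous_re) continuous_const)

lemma gap_pop {n : ℕ} {Q : ℝ} {z : ℂ} (h1 : z ∈ Gap n Q) (h2 : z ∈ Pop n Q) : False := by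
  obtain ⟨m1, a1, b1⟩ := h1
  obtain ⟨m2, a2, b2⟩ := h2
  have h3 : (m1 : ℝ) < m2 := by linarith
  have h4 : m1 + 1 ≤ m2 := by exact_mod_cast h3
  have h5 : (m1 : ℝ) + 1 ≤ m2 := by exact_mod_cast h4
  linarith

/-- boundary lines -/
def Rest (n : ℕ) (Q : ℝ) : Set ℂ := {z | ∃ m : ℤ, Q * z.re = m ∨ Q * z.re = m + dl n}

lemma mem_rest {n : ℕ} {Q : ℝ} {z : ℂ} (h1 : z ∉ Gap n Q) (h2 : z ∉ Pop n Q) : z ∈ Rest n Q := by
  by_contra h
  unfold Rest at h
  rw [Set.mem_ofPred_eq] at h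
  push Not at h
  obtain ⟨h3, h4⟩ := h ⌊Q * z.re⌋
  have h5 := Int.floor_le (Q * z.re)
  have h6 := Int.lt_floor_add_one (Q * z.re)
  rcases lt_or_gt_of_ne h4 with h7 | h7
  · exact h2 ⟨⌊Q * z.re⌋, lt_of_le_of_ne h5 (Ne.symm h3), h7⟩
  · exact h1 ⟨⌊Q * z.re⌋, h7, h6⟩

lemma volume_rest (n : ℕ) {Q : ℝ} (hQ : 0 < Q) : volume (Rest n Q) = 0 := by
  have hc : ({x : ℝ | ∃ m : ℤ, Q * x = m ∨ Q * x = m + dl n} : Set ℝ).Countable := by
    have : {x : ℝ | ∃ m : ℤ, Q * x = m ∨ Q * x = m + dl n} ⊆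
        (Set.range fun m : ℤ => (m : ℝ) / Q) ∪ (Set.range fun m : ℤ => ((m : ℝ) + dl n) / Q) := by
      rintro x ⟨m, h | h⟩
      · left; exact ⟨m, by simp only; rw [← h]; field_simp⟩
      · right; exact ⟨m, by simp only; rw [← h]; field_simp⟩
    exact ((Set.countable_range _).union (Set.countable_range _)).mono this
  have h1 : Rest n Q = Complex.measurableEquivRealProd ⁻¹'
      ({x : ℝ | ∃ m : ℤ, Q * x = m ∨ Q * x = m + dl n} ×ˢ Set.univ) := by
    ext z
    simp [Rest, Complex.measurableEquivRealProd]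
  rw [h1, Complex.volume_preserving_equiv_real_prod.measure_preimage_equiv, Measure.volume_eq_prod,
    Measure.prod_prod, hc.measure_zero, zero_mul]

lemma norm_ct (θ : S) : ‖((AddCircle.toCircle θ : Circle) : ℂ)‖ = 1 := Circle.norm_coe _

lemma isoC_re (g : Bool × S × ℂ) :
    ∃ (w : ℂ) (c : ℝ), ‖w‖ = 1 ∧ ∀ z, (isoC g z).re = (w * z).re + c := by
  obtain ⟨b, θ, c⟩ := g
  cases b
  · refine ⟨conj ((AddCircle.toCircle θ : Circle) : ℂ), c.re,
      by rw [RCLike.norm_conj, norm_ct], fun z => ?_⟩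
    simp [isoC, rot]
  · refine ⟨((AddCircle.toCircle θ : Circle) : ℂ), c.re, norm_ct θ, fun z => ?_⟩
    simp [isoC, rot]

lemma isoC_im (g : Bool × S × ℂ) :
    ∃ (w : ℂ) (c : ℝ), ∀ z, (isoC g z).im = (w * z).re + c := by
  obtain ⟨b, θ, c⟩ := g
  cases b
  · refine ⟨Complex.I * conj ((AddCircle.toCircle θ : Circle) : ℂ), c.im, fun z => ?_⟩
    simp [isoC, rot]
    ring
  · refine ⟨-Complex.I * ((AddCircle.toCircle θ : Circle) : ℂ), c.im, fun z => ?_⟩
    simp [isoC, rot]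

lemma dist_rot (θ : S) (x y : ℂ) : dist (rot θ x) (rot θ y) = dist x y := by
  unfold rot
  rw [dist_eq_norm, ← mul_sub, norm_mul, dist_eq_norm, norm_ct, one_mul]

lemma dist_isoC (g : Bool × S × ℂ) (x y : ℂ) : dist (isoC g x) (isoC g y) = dist x y := by
  obtain ⟨b, θ, c⟩ := g
  cases b
  · simp only [isoC, Bool.false_eq_true, if_false, dist_add_right, dist_rot]
    rw [dist_eq_norm, ← map_sub, RCLike.norm_conj, dist_eq_norm]
  · simp only [isoC, if_true, dist_add_right, dist_rot]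

lemma continuous_isoC (g : Bool × S × ℂ) : Continuous (isoC g) :=
  (Isometry.of_dist_eq (dist_isoC g)).continuous

lemma isoC_inj {g g' : Bool × S × ℂ} (h : ∀ z, isoC g z = isoC g' z) : g = g' := by
  obtain ⟨b, θ, c⟩ := g
  obtain ⟨b', θ', c'⟩ := g'
  have h0 := h 0
  have h1 := h 1
  have hI := h Complex.I
  have hc : c = c' := by
    cases b <;> cases b' <;> simpa [isoC, rot] using h0
  subst hc
  have hθ : ((AddCircle.toCircle θ : Circle) : ℂ) = ((AddCircle.toCircle θ' : Circle) : ℂ) := by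
    cases b <;> cases b' <;> simpa [isoC, rot] using h1
  have hθ' : θ = θ' := by
    apply AddCircle.injective_toCircle one_ne_zero
    exact Circle.ext hθ
  subst hθ'
  have hne : ((AddCircle.toCircle θ : Circle) : ℂ) ≠ 0 := Circle.coe_ne_zero _
  have hb : b = b' := by
    cases b <;> cases b'
    · rfl
    · exfalso
      simp only [isoC, rot, Bool.false_eq_true, if_false, if_true, Complex.conj_I, add_left_inj] at hI
      have : (2 : ℂ) * ((AddCircle.toCircle θ : Circle) : ℂ) * Complex.I = 0 := by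
        linear_combination -hI
      simp [hne] at this
    · exfalso
      simp only [isoC, rot, Bool.false_eq_true, if_false, if_true, Complex.conj_I, add_left_inj] at hI
      have : (2 : ℂ) * ((AddCircle.toCircle θ : Circle) : ℂ) * Complex.I = 0 := by
        linear_combination hI
      simp [hne] at this
    · rfl
  rw [hb]

/-- moving in the direction of a functional -/
lemma side (w z : ℂ) {r : ℝ} (hr : 0 < r) (s : ℝ) (hs : |s| ≤ 3 / 4) :
    ∃ z', closedBall z' (r / 4) ⊆ closedBall z r ∧ ∀ y ∈ closedBall z' (r / 4),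
      |(w * y).re - ((w * z).re + s * r * ‖w‖)| ≤ ‖w‖ * (r / 4) := by
  have hwv : w * (conj w / (‖w‖ : ℂ)) = (‖w‖ : ℂ) := by
    rcases eq_or_ne w 0 with h | h
    · simp [h]
    · have : (‖w‖ : ℂ) ≠ 0 := by exact_mod_cast norm_ne_zero_iff.2 h
      rw [mul_div_assoc', Complex.mul_conj, Complex.normSq_eq_norm_sq]
      field_simp
      push_cast
      ring
  have hv : ‖conj w / (‖w‖ : ℂ)‖ ≤ 1 := by
    rw [norm_div, RCLike.norm_conj]
    simp only [Complex.norm_real, norm_norm]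
    exact div_self_le_one _
  refine ⟨z + ((s * r : ℝ) : ℂ) * (conj w / (‖w‖ : ℂ)), ?_, ?_⟩
  · intro y hy
    rw [mem_closedBall] at *
    have h1 : dist (z + ((s * r : ℝ) : ℂ) * (conj w / (‖w‖ : ℂ))) z ≤ 3 / 4 * r := by
      rw [dist_eq_norm, add_sub_cancel_left, norm_mul, Complex.norm_real, Real.norm_eq_abs, abs_mul,
        abs_of_pos hr]
      calc |s| * r * ‖conj w / (‖w‖ : ℂ)‖ ≤ 3 / 4 * r * 1 := by gcongr
        _ = _ := mul_one _
    have h2 := dist_triangle y (z + ((s * r : ℝ) : ℂ) * (conj w / (‖w‖ : ℂ))) z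
    linarith
  · intro y hy
    rw [mem_closedBall, dist_eq_norm] at hy
    have h1 : (w * y).re - ((w * z).re + s * r * ‖w‖) =
        (w * (y - (z + ((s * r : ℝ) : ℂ) * (conj w / (‖w‖ : ℂ))))).re := by
      have h2 : w * (y - (z + ((s * r : ℝ) : ℂ) * (conj w / (‖w‖ : ℂ)))) =
          w * y - (w * z + ((s * r * ‖w‖ : ℝ) : ℂ)) := by
        have : w * (y - (z + ((s * r : ℝ) : ℂ) * (conj w / (‖w‖ : ℂ)))) =
          w * y - (w * z + ((s * r : ℝ) : ℂ) * (w * (conj w / (‖w‖ : ℂ)))) := by ring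
        rw [this, hwv]
        push_cast
        ring
      rw [h2, Complex.sub_re, Complex.add_re, Complex.ofReal_re]
    rw [h1]
    refine (Complex.abs_re_le_norm _).trans ?_
    rw [norm_mul]
    exact mul_le_mul_of_nonneg_left hy (norm_nonneg _)

lemma avoid_one (n : ℕ) (g : Bool × S × ℂ) {Q r : ℝ} (hQ : 0 < Q) (hr : 0 < r) (h1 : Q * r ≤ 1 / 4)
    (h2 : dl n ≤ Q * r / 4) (z : ℂ) :
    ∃ z', closedBall z' (r / 4) ⊆ closedBall z r ∧
      closedBall z' (r / 4) ⊆ {y | isoC g y ∈ Gap n Q} := by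
  obtain ⟨w, c, hw, hf⟩ := isoC_re g
  obtain ⟨zp, hp1, hp2⟩ := side w z hr (3 / 4) (by norm_num [abs_of_pos])
  obtain ⟨zm, hm1, hm2⟩ := side w z hr (-(3 / 4)) (by rw [abs_neg]; norm_num [abs_of_pos])
  by_contra hcon
  push Not at hcon
  have hcp := hcon zp hp1
  have hcm := hcon zm hm1
  rw [Set.not_subset] at hcp hcm
  obtain ⟨yp, hyp, hgp⟩ := hcp
  obtain ⟨ym, hym, hgm⟩ := hcm
  have key : ∀ y, isoC g y ∉ Gap n Q → ((⌊Q * (isoC g y).re⌋ : ℤ) : ℝ) ≤ Q * (isoC g y).re ∧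
      Q * (isoC g y).re ≤ (⌊Q * (isoC g y).re⌋ : ℤ) + dl n := by
    intro y hy
    refine ⟨Int.floor_le _, ?_⟩
    by_contra h
    push Not at h
    exact hy ⟨_, h, Int.lt_floor_add_one _⟩
  obtain ⟨a1, a2⟩ := key yp hgp
  obtain ⟨b1, b2⟩ := key ym hgm
  have e1 := hp2 yp hyp
  have e2 := hm2 ym hym
  rw [hw, abs_le] at e1 e2
  have f1 : r ≤ (isoC g yp).re - (isoC g ym).re := by
    rw [hf, hf]; linarith [e1.1, e2.2]
  have f2 : (isoC g yp).re - (isoC g ym).re ≤ 2 * r := by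
    rw [hf, hf]; linarith [e1.2, e2.1]
  have f3 : Q * r ≤ Q * (isoC g yp).re - Q * (isoC g ym).re := by
    rw [← mul_sub]; exact mul_le_mul_of_nonneg_left f1 hQ.le
  have f4 : Q * (isoC g yp).re - Q * (isoC g ym).re ≤ 2 * (Q * r) := by
    rw [← mul_sub]
    calc Q * ((isoC g yp).re - (isoC g ym).re) ≤ Q * (2 * r) := mul_le_mul_of_nonneg_left f2 hQ.le
      _ = _ := by ring
  have hQr : 0 < Q * r := mul_pos hQ hr
  have hd := dl_le n
  have g1 : ((⌊Q * (isoC g yp).re⌋ : ℤ) : ℝ) < (⌊Q * (isoC g ym).re⌋ : ℤ) + 1 := by linarith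
  have g2 : ((⌊Q * (isoC g ym).re⌋ : ℤ) : ℝ) < (⌊Q * (isoC g yp).re⌋ : ℤ) := by linarith
  have g3 : ⌊Q * (isoC g yp).re⌋ < ⌊Q * (isoC g ym).re⌋ + 1 := by exact_mod_cast g1
  have g4 : ⌊Q * (isoC g ym).re⌋ < ⌊Q * (isoC g yp).re⌋ := by exact_mod_cast g2
  omega

lemma hit_one (n : ℕ) (g : Bool × S × ℂ) {Q : ℝ} (hQ : 0 < Q) (z : ℂ) :
    ∃ z', closedBall z' (dl n / 4 / Q) ⊆ closedBall z (2 / Q) ∧
      closedBall z' (dl n / 4 / Q) ⊆ {y | isoC g y ∈ Pop n Q} := by
  obtain ⟨w, c, hw, hf⟩ := isoC_re g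
  have hd0 := dl_pos n
  have hd := dl_le n
  have hww : w * conj w = 1 := by
    rw [Complex.mul_conj, Complex.normSq_eq_norm_sq, hw]; simp
  set x : ℝ := Q * (isoC g z).re with hx
  set t : ℝ := ((⌈x⌉ : ℤ) + dl n / 2 - x) / Q with ht
  have hc1 := Int.le_ceil x
  have hc2 := Int.ceil_lt_add_one x
  have ht0 : 0 ≤ t := by rw [ht]; apply div_nonneg _ hQ.le; linarith
  have ht1 : t ≤ (1 + dl n / 2) / Q := by
    rw [ht]; gcongr; linarith
  have hre : ∀ y, (isoC g y).re = (isoC g z).re + t + (w * (y - (z + (t : ℂ) * conj w))).re := by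
    intro y
    rw [hf, hf]
    have : w * (y - (z + (t : ℂ) * conj w)) = w * y - w * z - (t : ℂ) * (w * conj w) := by ring
    rw [this, hww, mul_one, Complex.sub_re, Complex.sub_re, Complex.ofReal_re]
    ring
  refine ⟨z + (t : ℂ) * conj w, ?_, ?_⟩
  · intro y hy
    rw [mem_closedBall] at *
    have h1 : dist (z + (t : ℂ) * conj w) z = t := by
      rw [dist_eq_norm, add_sub_cancel_left, norm_mul, RCLike.norm_conj, hw, Complex.norm_real,
        Real.norm_of_nonneg ht0, mul_one]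
    have h2 := dist_triangle y (z + (t : ℂ) * conj w) z
    have h3 : dl n / 4 / Q + (1 + dl n / 2) / Q ≤ 2 / Q := by
      rw [← add_div]; gcongr; linarith
    linarith
  · intro y hy
    rw [mem_closedBall, dist_eq_norm] at hy
    have h1 : |(w * (y - (z + (t : ℂ) * conj w))).re| ≤ dl n / 4 / Q := by
      refine (Complex.abs_re_le_norm _).trans ?_
      rw [norm_mul, hw, one_mul]; exact hy
    rw [abs_le] at h1
    have h2 : Q * (isoC g y).re = (⌈x⌉ : ℤ) + dl n / 2 +
        Q * (w * (y - (z + (t : ℂ) * conj w))).re := by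
      rw [hre y, mul_add, mul_add, ← hx, ht]
      field_simp
      ring
    have h3 : Q * (w * (y - (z + (t : ℂ) * conj w))).re ≤ dl n / 4 := by
      have := mul_le_mul_of_nonneg_left h1.2 hQ.le
      rwa [mul_div_cancel₀ _ hQ.ne'] at this
    have h4 : -(dl n / 4) ≤ Q * (w * (y - (z + (t : ℂ) * conj w))).re := by
      have := mul_le_mul_of_nonneg_left h1.1 hQ.le
      rwa [mul_neg, mul_div_cancel₀ _ hQ.ne'] at this
    refine ⟨⌈x⌉, ?_, ?_⟩
    · rw [h2]; linarith
    · rw [h2]; linarith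

/-- iterated shrinking -/
lemma shrink {ι : Type*} [DecidableEq ι] (good : ι → Set ℂ) (rmin rmax : ℝ) (s : Finset ι)
    (hstep : ∀ i ∈ s, ∀ z r, 4 * rmin ≤ r → r ≤ rmax → ∃ z', closedBall z' (r / 4) ⊆ closedBall z r ∧
      closedBall z' (r / 4) ⊆ good i) :
    ∀ (z : ℂ) (r : ℝ), 0 < r → r ≤ rmax → rmin ≤ r / 4 ^ s.card →
      ∃ z', closedBall z' (r / 4 ^ s.card) ⊆ closedBall z r ∧
        ∀ i ∈ s, closedBall z' (r / 4 ^ s.card) ⊆ good i := by
  induction s using Finset.induction_on with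
  | empty =>
    intro z r _ _ _
    exact ⟨z, by simp, by simp⟩
  | insert a s ha ih =>
    intro z r hr0 hr hmin
    rw [Finset.card_insert_of_notMem ha] at hmin ⊢
    have hpos : (0 : ℝ) < 4 ^ s.card := by positivity
    have h1 : r / 4 ^ (s.card + 1) = r / 4 / 4 ^ s.card := by rw [pow_succ']; field_simp
    rw [h1] at hmin ⊢
    have h41 : (1 : ℝ) ≤ 4 ^ s.card := one_le_pow₀ (by norm_num)
    have h2 : r / 4 / 4 ^ s.card ≤ r / 4 := div_le_self (by linarith) h41
    obtain ⟨z1, hz1, hg1⟩ := hstep a (Finset.mem_insert_self _ _) z r (by linarith) hr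
    obtain ⟨z2, hz2, hg2⟩ := ih (fun i hi => hstep i (Finset.mem_insert_of_mem hi)) z1 (r / 4)
      (by linarith) (by linarith) hmin
    refine ⟨z2, hz2.trans hz1, fun i hi => ?_⟩
    rcases Finset.mem_insert.1 hi with rfl | hi
    · exact hz2.trans hg1
    · exact hg2 i hi

lemma avoid_all (n : ℕ) (T : Finset (Bool × S × ℂ)) (hT : T.card ≤ n) {Q : ℝ} (hQ : 0 < Q) (z : ℂ) :
    ∃ z', closedBall z' (dl n / 4 / Q) ⊆ closedBall z (2 / Q) ∧
      ∀ g ∈ T, closedBall z' (dl n / 4 / Q) ⊆ {y | isoC g y ∈ Gap n Q} := by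
  classical
  have hd0 := dl_pos n
  obtain ⟨z', h1, h2⟩ := shrink (fun g => {y | isoC g y ∈ Gap n Q}) (dl n / Q) (1 / 4 / Q) T
    (by
      intro g _ z r hr1 hr2
      have hr0 : 0 < r := lt_of_lt_of_le (by positivity) hr1
      refine avoid_one n g hQ hr0 ?_ ?_ z
      · rw [mul_comm]; exact (le_div_iff₀ hQ).1 hr2
      · have : 4 * dl n ≤ r * Q := by
          rw [← div_le_iff₀ hQ]; linarith [mul_div_assoc (4 : ℝ) (dl n) Q]
        linarith [mul_comm r Q]) z (1 / 4 / Q) (by positivity) le_rfl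
    (by
      unfold dl
      rw [div_div, div_div, ← one_div, div_div]
      apply one_div_le_one_div_of_le (by positivity)
      have : (4 : ℝ) ^ T.card ≤ 4 ^ n := pow_le_pow_right₀ (by norm_num) hT
      calc 4 * (Q * 4 ^ T.card) ≤ 4 * (Q * 4 ^ n) := by gcongr
        _ = 4 ^ (n + 1) * Q := by ring)
  have h3 : dl n / 4 / Q ≤ 1 / 4 / Q / 4 ^ T.card := by
    have : (4 : ℝ) ^ T.card ≤ 4 ^ n := pow_le_pow_right₀ (by norm_num) hT
    unfold dl
    rw [div_div, div_div, div_div, ← one_div, div_div]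
    apply one_div_le_one_div_of_le (by positivity)
    calc 4 * (Q * 4 ^ T.card) ≤ 4 * (Q * 4 ^ n) := by gcongr
      _ ≤ 4 ^ (n + 1) * (4 * Q) := by
        have : (0 : ℝ) < 4 ^ n * Q := by positivity
        rw [pow_succ]; nlinarith
  have h4 : closedBall z' (dl n / 4 / Q) ⊆ closedBall z' (1 / 4 / Q / 4 ^ T.card) :=
    closedBall_subset_closedBall h3
  refine ⟨z', (h4.trans h1).trans (closedBall_subset_closedBall ?_), fun g hg => h4.trans (h2 g hg)⟩
  gcongr; norm_num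

/-- frequencies -/
noncomputable def QQ (n : ℕ) (q : ℝ) (l : ℕ) : ℝ := q * (4 ^ (n + 3)) ^ l

lemma QQ_pos (n : ℕ) {q : ℝ} (hq : 0 < q) (l : ℕ) : 0 < QQ n q l := by unfold QQ; positivity

lemma QQ_succ (n : ℕ) {q : ℝ} (hq : 0 < q) (l : ℕ) :
    2 / QQ n q (l + 1) ≤ dl n / 4 / QQ n q l := by
  have h := QQ_pos n hq l
  have h1 : QQ n q (l + 1) = QQ n q l * 4 ^ (n + 3) := by unfold QQ; rw [pow_succ]; ring
  rw [h1]
  unfold dl
  rw [← one_div, div_div, div_div, div_le_div_iff₀ (by positivity) (by positivity)]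
  have : (0 : ℝ) < 4 ^ n * QQ n q l := by positivity
  rw [pow_succ, show n + 3 = (n + 1 + 1 + 1) from rfl, pow_succ, pow_succ, pow_succ]
  nlinarith

lemma process (n : ℕ) (T : Finset (Bool × S × ℂ)) (hT : T.card ≤ n) {q : ℝ} (hq : 0 < q)
    (act : ℕ → Option (Bool × S × ℂ)) (l0 : ℕ) (z : ℂ) (L : ℕ) (hL : l0 ≤ L) :
    ∃ z', closedBall z' (2 / QQ n q L) ⊆ closedBall z (2 / QQ n q l0) ∧
      ∀ l, l0 ≤ l → l < L → ∀ y ∈ closedBall z' (2 / QQ n q L),
        (act l = none → ∀ g ∈ T, isoC g y ∈ Gap n (QQ n q l)) ∧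
        (∀ g, act l = some g → isoC g y ∈ Pop n (QQ n q l)) := by
  induction L, hL using Nat.le_induction with
  | base => exact ⟨z, le_rfl, fun l h1 h2 => by omega⟩
  | succ L hL ih =>
    obtain ⟨z1, hz1, hg1⟩ := ih
    have hQ := QQ_pos n hq L
    have hsub : ∀ z' : ℂ, closedBall z' (2 / QQ n q (L + 1)) ⊆ closedBall z' (dl n / 4 / QQ n q L) :=
      fun z' => closedBall_subset_closedBall (QQ_succ n hq L)
    cases hact : act L with
    | none =>
      obtain ⟨z2, hz2, hg2⟩ := avoid_all n T hT hQ z1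
      refine ⟨z2, ((hsub z2).trans hz2).trans hz1, fun l h1 h2 y hy => ?_⟩
      rcases Nat.lt_succ_iff_lt_or_eq.1 h2 with h3 | h3
      · exact hg1 l h1 h3 y (hz2 (hsub z2 hy))
      · subst h3
        refine ⟨fun _ g hg => hg2 g hg (hsub z2 hy), fun g hg => ?_⟩
        rw [hact] at hg; cases hg
    | some g0 =>
      obtain ⟨z2, hz2, hg2⟩ := hit_one n g0 hQ z1
      refine ⟨z2, ((hsub z2).trans hz2).trans hz1, fun l h1 h2 y hy => ?_⟩
      rcases Nat.lt_succ_iff_lt_or_eq.1 h2 with h3 | h3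
      · exact hg1 l h1 h3 y (hz2 (hsub z2 hy))
      · subst h3
        refine ⟨fun h => ?_, fun g hg => ?_⟩
        · rw [hact] at h; cases h
        · rw [hact] at hg
          cases hg
          exact hg2 (hsub z2 hy)

lemma separate_one {g g' : Bool × S × ℂ} (hne : g ≠ g') (z : ℂ) {r : ℝ} (hr : 0 < r) :
    ∃ z', closedBall z' (r / 4) ⊆ closedBall z r ∧
      closedBall z' (r / 4) ⊆ {y | isoC g y ≠ isoC g' y} := by
  obtain ⟨a, p, _, ha⟩ := isoC_re g
  obtain ⟨a', p', _, ha'⟩ := isoC_re g'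
  obtain ⟨b, q, hb⟩ := isoC_im g
  obtain ⟨b', q', hb'⟩ := isoC_im g'
  -- general functional
  have gen : ∀ (w : ℂ) (c : ℝ), w ≠ 0 → ∃ z', closedBall z' (r / 4) ⊆ closedBall z r ∧
      ∀ y ∈ closedBall z' (r / 4), (w * y).re + c ≠ 0 := by
    intro w c hw
    have hwn : 0 < ‖w‖ := norm_pos_iff.2 hw
    have hrw : 0 < r * ‖w‖ := mul_pos hr hwn
    rcases le_total 0 ((w * z).re + c) with h | h
    · obtain ⟨z', h1, h2⟩ := side w z hr (3 / 4) (by norm_num [abs_of_pos])
      refine ⟨z', h1, fun y hy h0 => ?_⟩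
      have := (abs_le.1 (h2 y hy)).1
      nlinarith
    · obtain ⟨z', h1, h2⟩ := side w z hr (-(3 / 4)) (by rw [abs_neg]; norm_num [abs_of_pos])
      refine ⟨z', h1, fun y hy h0 => ?_⟩
      have := (abs_le.1 (h2 y hy)).2
      nlinarith
  by_cases h1 : a = a'
  · by_cases h2 : b = b'
    · -- constant difference
      refine ⟨z, closedBall_subset_closedBall (by linarith), fun y _ hy => ?_⟩
      apply hne
      apply isoC_inj
      intro x
      have e1 := congrArg Complex.re hy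
      have e2 := congrArg Complex.im hy
      rw [ha, ha', h1] at e1
      rw [hb, hb', h2] at e2
      apply Complex.ext
      · rw [ha, ha', h1]; linarith
      · rw [hb, hb', h2]; linarith
    · obtain ⟨z', h3, h4⟩ := gen (b - b') (q - q') (sub_ne_zero.2 h2)
      refine ⟨z', h3, fun y hy hyy => h4 y hy ?_⟩
      have e2 := congrArg Complex.im hyy
      rw [hb, hb'] at e2
      rw [sub_mul, Complex.sub_re]; linarith
  · obtain ⟨z', h3, h4⟩ := gen (a - a') (p - p') (sub_ne_zero.2 h1)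
    refine ⟨z', h3, fun y hy hyy => h4 y hy ?_⟩
    have e2 := congrArg Complex.re hyy
    rw [ha, ha'] at e2
    rw [sub_mul, Complex.sub_re]; linarith

lemma separate_all (n : ℕ) (T : Finset (Bool × S × ℂ)) (hT : T.card ≤ n) (z : ℂ) {r : ℝ}
    (hr : 0 < r) : ∃ z', closedBall z' (r / 4 ^ (n * n)) ⊆ closedBall z r ∧
      ∃ σ > 0, ∀ g ∈ T, ∀ g' ∈ T, g ≠ g' → ∀ y ∈ closedBall z' (r / 4 ^ (n * n)),
        σ ≤ dist (isoC g y) (isoC g' y) := by
  classical
  obtain ⟨z', h1, h2⟩ := shrink (fun p : (Bool × S × ℂ) × (Bool × S × ℂ) =>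
      {y | isoC p.1 y ≠ isoC p.2 y}) (r / 4 ^ (n * n)) r T.offDiag
    (by
      intro p hp z r' h1 h2
      have h3 : 0 < r' := lt_of_lt_of_le (by positivity) h1
      exact separate_one (Finset.mem_offDiag.1 hp).2.2 z h3) z r hr le_rfl
    (by
      have h3 : T.offDiag.card ≤ n * n := by
        rw [Finset.offDiag_card]
        calc T.card * T.card - T.card ≤ T.card * T.card := Nat.sub_le _ _
          _ ≤ n * n := Nat.mul_le_mul hT hT
      gcongr
      norm_num)
  have h3 : T.offDiag.card ≤ n * n := by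
    rw [Finset.offDiag_card]
    calc T.card * T.card - T.card ≤ T.card * T.card := Nat.sub_le _ _
      _ ≤ n * n := Nat.mul_le_mul hT hT
  have h4 : closedBall z' (r / 4 ^ (n * n)) ⊆ closedBall z' (r / 4 ^ T.offDiag.card) := by
    apply closedBall_subset_closedBall
    gcongr
    norm_num
  have hpair : ∀ p ∈ T.offDiag, ∃ σ > 0, ∀ y ∈ closedBall z' (r / 4 ^ (n * n)),
      σ ≤ dist (isoC p.1 y) (isoC p.2 y) := by
    intro p hp
    have hcont : Continuous fun y => dist (isoC p.1 y) (isoC p.2 y) :=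
      (continuous_isoC p.1).dist (continuous_isoC p.2)
    obtain ⟨y0, hy0, hmin⟩ := (isCompact_closedBall z' (r / 4 ^ (n * n))).exists_isMinOn
      ⟨z', mem_closedBall_self (by positivity)⟩ hcont.continuousOn
    refine ⟨dist (isoC p.1 y0) (isoC p.2 y0), dist_pos.2 (h2 p hp (h4 hy0)), fun y hy => hmin hy⟩
  have hall : ∃ σ > 0, ∀ p ∈ T.offDiag, ∀ y ∈ closedBall z' (r / 4 ^ (n * n)),
      σ ≤ dist (isoC p.1 y) (isoC p.2 y) := by
    generalize T.offDiag = s at hpair
    induction s using Finset.induction_on with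
    | empty => exact ⟨1, one_pos, by simp⟩
    | insert a s ha ih =>
      obtain ⟨σ1, hσ1, hh1⟩ := ih fun p hp => hpair p (Finset.mem_insert_of_mem hp)
      obtain ⟨σ2, hσ2, hh2⟩ := hpair a (Finset.mem_insert_self _ _)
      refine ⟨min σ1 σ2, lt_min hσ1 hσ2, fun p hp y hy => ?_⟩
      rcases Finset.mem_insert.1 hp with rfl | hp
      · exact (min_le_right _ _).trans (hh2 y hy)
      · exact (min_le_left _ _).trans (hh1 p hp y hy)
  obtain ⟨σ, hσ, hh⟩ := hall
  exact ⟨z', h4.trans h1, σ, hσ, fun g hg g' hg' hne y hy =>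
    hh (g, g') (Finset.mem_offDiag.2 ⟨hg, hg', hne⟩) y hy⟩

/-- countable family of discs, each repeated infinitely often -/
noncomputable def DD (k : ℕ) : Set ℂ :=
  ball (TopologicalSpace.denseSeq (ℂ × ℝ) (Nat.unpair k).1).1
    (TopologicalSpace.denseSeq (ℂ × ℝ) (Nat.unpair k).1).2

lemma exists_DD (w : ℂ) {ρ : ℝ} (hρ : 0 < ρ) (k0 : ℕ) :
    ∃ k, k0 ≤ k ∧ closedBall w ρ ⊆ DD k ∧ DD k ⊆ ball w (5 / 2 * ρ) := by
  have hopen : IsOpen (ball w (ρ / 4) ×ˢ ball (2 * ρ) (ρ / 4)) := isOpen_ball.prod isOpen_ball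
  have hne : (ball w (ρ / 4) ×ˢ ball (2 * ρ) (ρ / 4)).Nonempty :=
    ⟨(w, 2 * ρ), mem_ball_self (by linarith), mem_ball_self (by linarith)⟩
  obtain ⟨j, hj1, hj2⟩ := (TopologicalSpace.denseRange_denseSeq (ℂ × ℝ)).exists_mem_open hopen hne
  refine ⟨Nat.pair j k0, Nat.right_le_pair j k0, ?_, ?_⟩
  · unfold DD
    rw [Nat.unpair_pair]
    intro y hy
    rw [mem_closedBall] at hy
    rw [mem_ball] at hj1 ⊢
    rw [mem_ball, Real.dist_eq, abs_lt] at hj2
    have := dist_triangle_right y (TopologicalSpace.denseSeq (ℂ × ℝ) j).1 w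
    simp only
    linarith [hj2.1]
  · unfold DD
    rw [Nat.unpair_pair]
    intro y hy
    simp only at hy
    rw [mem_ball] at hj1 hy ⊢
    rw [mem_ball, Real.dist_eq, abs_lt] at hj2
    have := dist_triangle y (TopologicalSpace.denseSeq (ℂ × ℝ) j).1 w
    linarith [hj2.2]

/-- the set -/
def BB (n : ℕ) (q : ℝ) : Set ℂ :=
  {z | ∃ k : ℕ, (∀ j < k, z ∈ Gap n (QQ n q (2 * j))) ∧ z ∈ DD k ∧ z ∈ Pop n (QQ n q (2 * k + 1))}

lemma isOpen_BB (n : ℕ) (q : ℝ) : IsOpen (BB n q) := by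
  have : BB n q = ⋃ k : ℕ, ((⋂ j ∈ Set.Iio k, Gap n (QQ n q (2 * j))) ∩
      (DD k ∩ Pop n (QQ n q (2 * k + 1)))) := by
    ext z
    simp [BB]
  rw [this]
  refine isOpen_iUnion fun k => ?_
  refine IsOpen.inter ?_ (isOpen_ball.inter (isOpen_pop _ _))
  exact (Set.finite_Iio k).isOpen_biInter fun j _ => isOpen_gap _ _

/-- the exceptional set -/
def KK (n : ℕ) (q : ℝ) : Set ℂ := {z | ∀ j : ℕ, z ∉ Pop n (QQ n q (2 * j))}

lemma isClosed_KK (n : ℕ) (q : ℝ) : IsClosed (KK n q) := by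
  have : KK n q = ⋂ j : ℕ, (Pop n (QQ n q (2 * j)))ᶜ := by
    ext z; simp [KK]
  rw [this]
  exact isClosed_iInter fun j => (isOpen_pop _ _).isClosed_compl

lemma tendsto_QQ (n : ℕ) {q : ℝ} (hq : 0 < q) : Tendsto (fun l => 2 / QQ n q l) atTop (𝓝 0) := by
  refine Tendsto.const_div_atTop ?_ 2
  unfold QQ
  refine Tendsto.const_mul_atTop hq (tendsto_pow_atTop_atTop_of_one_lt ?_)
  exact one_lt_pow₀ (by norm_num) (by omega)

lemma volume_KK (n : ℕ) {q : ℝ} (hq : 0 < q) : volume (KK n q) = 0 := by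
  have hdens := Besicovitch.ae_tendsto_measure_inter_div (volume : Measure ℂ) (KK n q)
  have hfalse : ∀ᵐ x ∂(volume.restrict (KK n q)), False := by
    filter_upwards [hdens] with x hx
    -- sequence of radii
    have hseq : Tendsto (fun j : ℕ => 2 / QQ n q (2 * j)) atTop (𝓝[>] 0) := by
      rw [tendsto_nhdsWithin_iff]
      refine ⟨(tendsto_QQ n hq).comp (tendsto_id.const_mul_atTop' (by norm_num)), ?_⟩
      filter_upwards with j
      exact div_pos two_pos (QQ_pos n hq _)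
    have h1 := hx.comp hseq
    set c : ℝ := 1 - (dl n / 8) ^ 2 with hc
    have hd0 := dl_pos n
    have hd1 := dl_le n
    have hc1 : c < 1 := by rw [hc]; have : 0 < (dl n / 8) ^ 2 := by positivity
                           linarith
    have hbound : ∀ j : ℕ, volume (KK n q ∩ closedBall x (2 / QQ n q (2 * j))) /
        volume (closedBall x (2 / QQ n q (2 * j))) ≤ ENNReal.ofReal c := by
      intro j
      have hQ := QQ_pos n hq (2 * j)
      obtain ⟨z', hz1, hz2⟩ := hit_one n (true, 0, 0) hQ x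
      have hid : ∀ y, isoC (true, 0, 0) y = y := by intro y; simp [isoC, rot]
      have hsub : KK n q ∩ closedBall x (2 / QQ n q (2 * j)) ⊆
          closedBall x (2 / QQ n q (2 * j)) \ closedBall z' (dl n / 4 / QQ n q (2 * j)) := by
        rintro y ⟨hy1, hy2⟩
        refine ⟨hy2, fun hy3 => hy1 j ?_⟩
        have := hz2 hy3
        rwa [Set.mem_ofPred_eq, hid] at this
      have hfin : volume (closedBall z' (dl n / 4 / QQ n q (2 * j))) ≠ ⊤ :=
        measure_closedBall_lt_top.ne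
      have hvol : volume (closedBall x (2 / QQ n q (2 * j)) \
          closedBall z' (dl n / 4 / QQ n q (2 * j))) ≤
          ENNReal.ofReal c * volume (closedBall x (2 / QQ n q (2 * j))) := by
        rw [measure_sdiff hz1 measurableSet_closedBall.nullMeasurableSet hfin,
          Complex.volume_closedBall, Complex.volume_closedBall, tsub_le_iff_right,
          ← mul_assoc, ← add_mul]
        gcongr
        rw [← ENNReal.ofReal_pow (by positivity), ← ENNReal.ofReal_pow (by positivity),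
          ← ENNReal.ofReal_mul (by rw [hc]; nlinarith), ← ENNReal.ofReal_add
            (mul_nonneg (by rw [hc]; nlinarith) (by positivity)) (by positivity)]
        apply ENNReal.ofReal_le_ofReal
        rw [hc]
        apply le_of_eq
        field_simp
        ring
      refine ENNReal.div_le_of_le_mul ?_
      exact (measure_mono hsub).trans hvol
    have h2 := le_of_tendsto h1 (Filter.Eventually.of_forall hbound)
    have h3 : ENNReal.ofReal c < 1 := by
      rw [← ENNReal.ofReal_one]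
      exact (ENNReal.ofReal_lt_ofReal_iff one_pos).2 hc1
    exact absurd h2 (not_le.2 h3)
  rw [Filter.eventually_false_iff_eq_bot, ae_eq_bot, Measure.restrict_eq_zero] at hfalse
  exact hfalse

lemma eventually_mem_iff {O : Set ℂ} {z : ℂ} (h : z ∉ frontier O) :
    ∀ᶠ y in 𝓝 z, (y ∈ O ↔ z ∈ O) := by
  by_cases hz : z ∈ closure O
  · have hi : z ∈ interior O := by
      by_contra hn
      exact h ⟨hz, hn⟩
    have h1 := isOpen_interior.mem_nhds hi
    filter_upwards [h1] with y hy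
    exact ⟨fun _ => interior_subset hi, fun _ => interior_subset hy⟩
  · have h1 := isClosed_closure.isOpen_compl.mem_nhds hz
    filter_upwards [h1] with y hy
    exact ⟨fun hy' => absurd (subset_closure hy') hy, fun hz' => absurd (subset_closure hz') hz⟩

lemma frontier_gap_subset (n : ℕ) (Q : ℝ) : frontier (Gap n Q) ⊆ Rest n Q := by
  intro z hz
  rw [(isOpen_gap n Q).frontier_eq] at hz
  refine mem_rest hz.2 fun hp => ?_
  obtain ⟨y, hy1, hy2⟩ := mem_closure_iff.1 hz.1 _ (isOpen_pop n Q) hp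
  exact gap_pop hy2 hy1

lemma frontier_pop_subset (n : ℕ) (Q : ℝ) : frontier (Pop n Q) ⊆ Rest n Q := by
  intro z hz
  rw [(isOpen_pop n Q).frontier_eq] at hz
  refine mem_rest (fun hp => ?_) hz.2
  obtain ⟨y, hy1, hy2⟩ := mem_closure_iff.1 hz.1 _ (isOpen_gap n Q) hp
  exact gap_pop hy1 hy2

lemma volume_frontier_BB (n : ℕ) {q : ℝ} (hq : 0 < q) : volume (frontier (BB n q)) = 0 := by
  have hsub : frontier (BB n q) ⊆ KK n q ∪ ((⋃ l : ℕ, Rest n (QQ n q l)) ∪
      ⋃ k : ℕ, frontier (DD k)) := by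
    intro z hz
    by_contra hcon
    simp only [Set.mem_union, Set.mem_iUnion, not_or, not_exists] at hcon
    obtain ⟨hK, hR, hD⟩ := hcon
    unfold KK at hK
    rw [Set.mem_ofPred_eq] at hK
    push Not at hK
    obtain ⟨j, hj⟩ := hK
    rw [(isOpen_BB n q).frontier_eq] at hz
    obtain ⟨hz1, hz2⟩ := hz
    have e1 : ∀ᶠ y in 𝓝 z, y ∈ Pop n (QQ n q (2 * j)) := (isOpen_pop _ _).mem_nhds hj
    have e2 : ∀ᶠ y in 𝓝 z, ∀ l ∈ Set.Iic (2 * j + 1), (y ∈ Gap n (QQ n q l) ↔ z ∈ Gap n (QQ n q l)) :=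
      (Set.finite_Iic _).eventually_all.2 fun l _ =>
        eventually_mem_iff fun h => hR l (frontier_gap_subset _ _ h)
    have e3 : ∀ᶠ y in 𝓝 z, ∀ l ∈ Set.Iic (2 * j + 1), (y ∈ Pop n (QQ n q l) ↔ z ∈ Pop n (QQ n q l)) :=
      (Set.finite_Iic _).eventually_all.2 fun l _ =>
        eventually_mem_iff fun h => hR l (frontier_pop_subset _ _ h)
    have e4 : ∀ᶠ y in 𝓝 z, ∀ l ∈ Set.Iic j, (y ∈ DD l ↔ z ∈ DD l) :=
      (Set.finite_Iic _).eventually_all.2 fun l _ => eventually_mem_iff (hD l)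
    have e5 : ∃ᶠ y in 𝓝 z, y ∈ BB n q := mem_closure_iff_frequently.1 hz1
    obtain ⟨y, hyB, hy1, hy2, hy3, hy4⟩ := (e5.and_eventually (e1.and (e2.and (e3.and e4)))).exists
    obtain ⟨k, hk1, hk2, hk3⟩ := hyB
    have hkj : k ≤ j := by
      by_contra hlt
      push Not at hlt
      exact gap_pop (hk1 j hlt) hy1
    apply hz2
    refine ⟨k, fun i hi => ?_, ?_, ?_⟩
    · exact (hy2 (2 * i) (by simp only [Set.mem_Iic]; omega)).1 (hk1 i hi)
    · exact (hy4 k hkj).1 hk2
    · exact (hy3 (2 * k + 1) (by simp only [Set.mem_Iic]; omega)).1 hk3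
  refine measure_mono_null hsub ?_
  refine measure_union_null (volume_KK n hq) (measure_union_null ?_ ?_)
  · exact measure_iUnion_null fun l => volume_rest n (QQ_pos n hq l)
  · refine measure_iUnion_null fun k => ?_
    refine measure_mono_null frontier_ball_subset_sphere ?_
    exact Measure.addHaar_sphere _ _ _

end aux

/-- An open set of the plane with null boundary whose images under any `n` distinct isometries are independent in
every ball of radius `ρ`. -/
theorem exists_indepC (n : ℕ) (ρ : ℝ) (hρ : 0 < ρ) : ∃ B : Set ℂ, IsOpen B ∧ volume (frontier B) = 0 ∧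
    ∀ (G Z : Finset (Bool × S × ℂ)), Disjoint G Z → G.card + Z.card ≤ n → ∀ z0 : ℂ,
      ∃ U : Set ℂ, IsOpen U ∧ U.Nonempty ∧ U ⊆ Metric.ball z0 ρ ∧
        ∀ z ∈ U, (∀ g ∈ G, isoC g z ∈ B) ∧ (∀ g ∈ Z, isoC g z ∉ B) := by
  classical
  set ρ' : ℝ := ρ / 2 / 4 ^ (n * n) with hρ'
  have hρ'0 : 0 < ρ' := by positivity
  set q : ℝ := 2 / ρ' with hq'
  have hq : 0 < q := by positivity
  refine ⟨BB n q, isOpen_BB n q, volume_frontier_BB n hq, ?_⟩
  intro G Z hGZ hcard z0
  set T : Finset (Bool × S × ℂ) := G ∪ Z with hTdef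
  have hT : T.card ≤ n := (Finset.card_union_le G Z).trans hcard
  -- separation
  obtain ⟨za, hza, σ, hσ, hsep⟩ := separate_all n T hT z0 (r := ρ / 2) (by linarith)
  have hr0 : 2 / QQ n q 0 = ρ' := by
    simp only [QQ, pow_zero, mul_one, hq']
    field_simp
  rw [← hρ'] at hza hsep
  -- phase 1
  obtain ⟨k0, hk0⟩ : ∃ k0 : ℕ, 2 / QQ n q (2 * k0) ≤ σ / 4 := by
    have h1 := ((tendsto_QQ n hq).comp (Filter.tendsto_id.const_mul_atTop'
      (show 0 < 2 by norm_num))).eventually (gt_mem_nhds (show (0 : ℝ) < σ / 4 by linarith))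
    obtain ⟨k0, hk0⟩ := h1.exists
    exact ⟨k0, hk0.le⟩
  obtain ⟨z1, hz1, hp1⟩ := process n T hT hq (fun _ => none) 0 za (2 * k0) (Nat.zero_le _)
  rw [hr0] at hz1
  set ρ1 : ℝ := 2 / QQ n q (2 * k0) with hρ1
  have hρ10 : 0 < ρ1 := div_pos two_pos (QQ_pos n hq _)
  -- choice of the discs
  have hD : ∀ g : Bool × S × ℂ, ∃ k, k0 ≤ k ∧ Metric.closedBall (isoC g z1) ρ1 ⊆ DD k ∧
      DD k ⊆ Metric.ball (isoC g z1) (5 / 2 * ρ1) := fun g => exists_DD _ hρ10 k0
  choose kk hkk1 hkk2 hkk3 using hD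
  have hz1mem : z1 ∈ Metric.closedBall z1 ρ1 := Metric.mem_closedBall_self hρ10.le
  have hdisj : ∀ g ∈ T, ∀ g' ∈ T, g ≠ g' → ∀ y ∈ Metric.closedBall z1 ρ1, isoC g' y ∉ DD (kk g) := by
    intro g hg g' hg' hne y hy hmem
    have h1 := hkk3 g hmem
    rw [Metric.mem_ball] at h1
    have h2 : dist (isoC g' y) (isoC g' z1) ≤ ρ1 := by rw [dist_isoC]; exact hy
    have h3 := hsep g hg g' hg' hne z1 (hz1 hz1mem)
    have h4 := dist_triangle_left (isoC g z1) (isoC g' z1) (isoC g' y)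
    linarith
  have hinj : ∀ g ∈ T, ∀ g' ∈ T, kk g = kk g' → g = g' := by
    intro g hg g' hg' h
    by_contra hne
    refine hdisj g hg g' hg' hne z1 hz1mem ?_
    rw [h]
    exact hkk2 g' (Metric.mem_closedBall_self hρ10.le)
  -- bound
  set M : ℕ := G.sup kk with hM
  have hMG : ∀ g ∈ G, kk g ≤ M := fun g hg => Finset.le_sup (f := kk) hg
  set N : ℕ := Z.sup kk with hN
  have hNZ : ∀ g ∈ Z, kk g ≤ N := fun g hg => Finset.le_sup (f := kk) hg
  -- actions
  set act : ℕ → Option (Bool × S × ℂ) := fun l =>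
    if h : ∃ g ∈ G, l = 2 * kk g + 1 then some h.choose
    else if h : ∃ g ∈ Z, l = 2 * (M + 1 + kk g) then some h.choose else none with hact
  have act1 : ∀ g ∈ G, act (2 * kk g + 1) = some g := by
    intro g hg
    have hex : ∃ g' ∈ G, 2 * kk g + 1 = 2 * kk g' + 1 := ⟨g, hg, rfl⟩
    have h1 := hex.choose_spec
    have h2 : hex.choose = g := by
      refine hinj _ (Finset.mem_union_left _ h1.1) _ (Finset.mem_union_left _ hg) ?_
      have := h1.2
      omega
    simp only [hact]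
    rw [dif_pos hex, h2]
  have act2 : ∀ g ∈ Z, act (2 * (M + 1 + kk g)) = some g := by
    intro g hg
    have hno : ¬ ∃ g' ∈ G, 2 * (M + 1 + kk g) = 2 * kk g' + 1 := by
      rintro ⟨g', _, h⟩; omega
    have hex : ∃ g' ∈ Z, 2 * (M + 1 + kk g) = 2 * (M + 1 + kk g') := ⟨g, hg, rfl⟩
    have h1 := hex.choose_spec
    have h2 : hex.choose = g := by
      refine hinj _ (Finset.mem_union_right _ h1.1) _ (Finset.mem_union_right _ hg) ?_
      have := h1.2
      omega
    simp only [hact]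
    rw [dif_neg hno, dif_pos hex, h2]
  have act3 : ∀ j, j ≤ M → act (2 * j) = none := by
    intro j hj
    have hno : ¬ ∃ g' ∈ G, 2 * j = 2 * kk g' + 1 := by
      rintro ⟨g', _, h⟩; omega
    have hno2 : ¬ ∃ g' ∈ Z, 2 * j = 2 * (M + 1 + kk g') := by
      rintro ⟨g', _, h⟩; omega
    simp only [hact]
    rw [dif_neg hno, dif_neg hno2]
  have act4 : ∀ k, (¬ ∃ g ∈ G, k = kk g) → act (2 * k + 1) = none := by
    intro k hk
    have hno : ¬ ∃ g' ∈ G, 2 * k + 1 = 2 * kk g' + 1 := by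
      rintro ⟨g', hg', h⟩; exact hk ⟨g', hg', by omega⟩
    have hno2 : ¬ ∃ g' ∈ Z, 2 * k + 1 = 2 * (M + 1 + kk g') := by
      rintro ⟨g', _, h⟩; omega
    simp only [hact]
    rw [dif_neg hno, dif_neg hno2]
  -- phase 2
  set L : ℕ := 2 * (M + N + k0 + 2) + 2 with hL
  obtain ⟨z2, hz2, hp2⟩ := process n T hT hq act (2 * k0) z1 L (by omega)
  rw [← hρ1] at hz2
  set ρ2 : ℝ := 2 / QQ n q L with hρ2
  have hρ20 : 0 < ρ2 := div_pos two_pos (QQ_pos n hq _)
  refine ⟨Metric.ball z2 ρ2, Metric.isOpen_ball, ⟨z2, Metric.mem_ball_self hρ20⟩, ?_, ?_⟩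
  · intro y hy
    have h1 := hza (hz1 (hz2 (Metric.ball_subset_closedBall hy)))
    rw [Metric.mem_closedBall] at h1
    rw [Metric.mem_ball]
    linarith
  · intro z hz
    have hzc : z ∈ Metric.closedBall z2 ρ2 := Metric.ball_subset_closedBall hz
    have hzc1 : z ∈ Metric.closedBall z1 ρ1 := hz2 hzc
    -- summary of the two phases
    have none_gap : ∀ l, l < L → (2 * k0 ≤ l → act l = none) → ∀ g ∈ T,
        isoC g z ∈ Gap n (QQ n q l) := by
      intro l hl h g hg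
      rcases lt_or_ge l (2 * k0) with h1 | h1
      · exact (hp1 l (Nat.zero_le _) h1 z hzc1).1 rfl g hg
      · exact (hp2 l h1 hl z hzc).1 (h h1) g hg
    constructor
    · intro g hg
      have hgT : g ∈ T := Finset.mem_union_left _ hg
      have hkM := hMG g hg
      refine ⟨kk g, fun j hj => ?_, ?_, ?_⟩
      · exact none_gap (2 * j) (by omega) (fun _ => act3 j (by omega)) g hgT
      · refine hkk2 g ?_
        rw [Metric.mem_closedBall, dist_isoC]; exact hzc1
      · have := hkk1 g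
        exact (hp2 (2 * kk g + 1) (by omega) (by omega) z hzc).2 g (act1 g hg)
    · intro h hh hB
      have hhT : h ∈ T := Finset.mem_union_right _ hh
      have hkN := hNZ h hh
      obtain ⟨k, hk1, hk2, hk3⟩ := hB
      rcases lt_or_ge (M + 1 + kk h) k with hlt | hge
      · have h1 := hk1 _ hlt
        have := hkk1 h
        have h2 := (hp2 (2 * (M + 1 + kk h)) (by omega) (by omega) z hzc).2 h (act2 h hh)
        exact gap_pop h1 h2
      · by_cases hex : ∃ g ∈ G, k = kk g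
        · obtain ⟨g, hg, hkg⟩ := hex
          have hne : g ≠ h := by
            rintro rfl
            exact Finset.disjoint_left.1 hGZ hg hh
          rw [hkg] at hk2
          exact hdisj g (Finset.mem_union_left _ hg) h hhT hne z hzc1 hk2
        · have h1 := none_gap (2 * k + 1) (by omega) (fun _ => act4 k hex) h hhT
          exact gap_pop h1 hk3

end D1
end Geo

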