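import Pool.Agent.Helper183.Geo.Base

set_option autoImplicit false
open MeasureTheory Set
namespace Geo
namespace D10

open scoped ComplexConjugate

theorem classify_aux (g : ℂ ≃ᵢ ℂ) : ∃ g' : Bool × S × ℂ, ∀ z, g z = isoC g' z := by
  obtain ⟨f, hf⟩ : ∃ f : ℂ ≃ᵢ ℂ, ∀ z, f z = g z - g 0 :=
    ⟨g.trans (IsometryEquiv.subRight (g 0)), fun z => rfl⟩
  have hf0 : f 0 = 0 := by rw [hf, sub_self]
  obtain ⟨a, ha⟩ := linear_isometry_complex (f.toRealLinearIsometryEquivOfMapZero hf0)
  obtain ⟨t, ht⟩ : ∃ t : S, AddCircle.toCircle t = a := by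
    obtain ⟨t, ht⟩ := (AddCircle.homeomorphCircle (T := 1) one_ne_zero).surjective a
    exact ⟨t, by rw [← ht, AddCircle.homeomorphCircle_apply]⟩
  have hfz : ∀ z, f.toRealLinearIsometryEquivOfMapZero hf0 z = f z := by
    intro z
    rw [IsometryEquiv.coe_toRealLinearIsometryEquivOfMapZero]
  rcases ha with ha | ha
  · refine ⟨(true, t, g 0), fun z => ?_⟩
    have h1 := hfz z
    rw [ha, rotation_apply, hf] at h1
    simp only [isoC, rot, if_true, ht]
    rw [h1]; ring
  · refine ⟨(false, t, g 0), fun z => ?_⟩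
    have h1 := hfz z
    rw [ha, hf] at h1
    simp only [LinearIsometryEquiv.trans_apply, rotation_apply, Complex.conjLIE_apply] at h1
    simp only [isoC, rot, ht, Bool.false_eq_true, if_false]
    rw [h1]; ring

theorem null_image_aux (g : ℂ ≃ᵢ ℂ) (s : Set ℂ) (hs : MeasurableSet s) (h : volume s = 0) :
    volume (g '' s) = 0 := by
  obtain ⟨f, hf⟩ : ∃ f : ℂ ≃ᵢ ℂ, ∀ z, f z = g z - g 0 :=
    ⟨g.trans (IsometryEquiv.subRight (g 0)), fun z => rfl⟩
  have hf0 : f 0 = 0 := by rw [hf, sub_self]
  set L := f.toRealLinearIsometryEquivOfMapZero hf0 with hL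
  have hfz : ∀ z, L z = f z := by
    intro z
    rw [hL, IsometryEquiv.coe_toRealLinearIsometryEquivOfMapZero]
  have h1 : g '' s = (fun z => z + g 0) '' (L '' s) := by
    rw [Set.image_image]
    refine Set.image_congr fun z _ => ?_
    rw [hfz, hf]; ring
  rw [h1, Set.image_add_right, measure_preimage_add_right]
  have h2 : L '' s = L.symm ⁻¹' s := by
    ext z
    constructor
    · rintro ⟨y, hy, rfl⟩
      simpa using hy
    · intro hz
      exact ⟨L.symm z, hz, by simp⟩
  rw [h2, (L.symm.measurePreserving).measure_preimage hs.nullMeasurableSet, h]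

open Classical in
theorem ae_aux {l : ℕ} (P : Fin l → Set ℂ) (hopen : ∀ i, IsOpen (P i))
    (hdisj : Pairwise fun i j => Disjoint (P i) (P j)) (hnull : ∀ i, volume (frontier (P i)) = 0) :
    ∀ᵐ z : ℂ, (if z ∈ interior (closure (⋃ i, P i)) then 1 else 0 : ℝ) =
      ∑ i, (if z ∈ P i then 1 else 0 : ℝ) := by
  have hz : ∀ᵐ z : ℂ, ∀ i, z ∉ frontier (P i) := by
    rw [ae_all_iff]
    intro i
    exact measure_eq_zero_iff_ae_notMem.mp (hnull i)
  filter_upwards [hz] with z hz
  by_cases hzA : z ∈ interior (closure (⋃ i, P i))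
  · rw [if_pos hzA]
    have h1 := interior_subset hzA
    rw [closure_iUnion_of_finite] at h1
    obtain ⟨i, hi⟩ := Set.mem_iUnion.mp h1
    have h2 : z ∈ P i := by
      by_contra hcon
      apply hz i
      rw [(hopen i).frontier_eq]
      exact ⟨hi, hcon⟩
    rw [Finset.sum_eq_single i]
    · rw [if_pos h2]
    · intro j _ hji
      rw [if_neg]
      intro h3
      exact (Set.disjoint_left.mp (hdisj hji) h3) h2
    · intro h; exact absurd (Finset.mem_univ _) h
  · rw [if_neg hzA]
    symm
    apply Finset.sum_eq_zero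
    intro i _
    rw [if_neg]
    intro h1
    apply hzA
    have h2 : P i ⊆ interior (closure (⋃ i, P i)) :=
      interior_maximal ((Set.subset_iUnion P i).trans subset_closure) (hopen i)
    exact h2 h1

open Classical in
/-- unpacking an equidecomposition as geometric bodies in the plane -/
theorem bodyEq_unpack (A B : Set ℂ) (hA : A ⊆ Ann) (h : BodyEq A B) :
    ∃ (l : ℕ) (Q : Fin l → Set ℂ) (g : Fin l → Bool × S × ℂ), (∀ i, Q i ⊆ Ann) ∧
      (∀ i, volume (frontier (Q i)) = 0) ∧
      (∀ᵐ z : ℂ, (if z ∈ A then 1 else 0 : ℝ) = ∑ i, (if z ∈ Q i then 1 else 0 : ℝ)) ∧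
      (∀ᵐ z : ℂ, (if z ∈ B then 1 else 0 : ℝ) = ∑ i, (if z ∈ isoC (g i) '' Q i then 1 else 0 : ℝ)) := by
  obtain ⟨k, P, g, hP, hdP, hAeq, hdQ, hBeq⟩ := h
  have hopen : ∀ i, IsOpen (P i) := by
    intro i
    rw [← (hP i).2.1]
    exact isOpen_interior
  choose g' hg' using fun i => classify_aux (g i)
  have himg : ∀ i, isoC (g' i) '' P i = g i '' P i := by
    intro i
    exact Set.image_congr fun z _ => (hg' i z).symm
  refine ⟨k, P, g', ?_, fun i => (hP i).2.2, ?_, ?_⟩
  · intro i
    refine Set.Subset.trans ?_ hA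
    rw [hAeq]
    exact interior_maximal ((Set.subset_iUnion P i).trans subset_closure) (hopen i)
  · rw [hAeq]
    exact ae_aux P hopen hdP fun i => (hP i).2.2
  · rw [hBeq]
    simp only [himg]
    apply ae_aux (fun i => g i '' P i)
    · intro i
      exact (g i).toHomeomorph.isOpenMap _ (hopen i)
    · exact hdQ
    · intro i
      have h1 : frontier (g i '' P i) = g i '' frontier (P i) :=
        ((g i).toHomeomorph.image_frontier (P i)).symm
      simp only [h1]
      exact null_image_aux (g i) _ isClosed_frontier.measurableSet (hP i).2.2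

end D10
end Geo

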