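import Pool.Agent.Helper183.Geo.Base

set_option autoImplicit false
open MeasureTheory Set
namespace Geo
namespace D2

open scoped ComplexConjugate

/-- statement of the independence lemma in the plane (proved elsewhere) -/
def IndepStmtC : Prop := ∀ (n : ℕ) (ρ : ℝ), 0 < ρ → ∃ B : Set ℂ, IsOpen B ∧ volume (frontier B) = 0 ∧
    ∀ (G Z : Finset (Bool × S × ℂ)), Disjoint G Z → G.card + Z.card ≤ n → ∀ z0 : ℂ,
      ∃ U : Set ℂ, IsOpen U ∧ U.Nonempty ∧ U ⊆ Metric.ball z0 ρ ∧
        ∀ z ∈ U, (∀ g ∈ G, isoC g z ∈ B) ∧ (∀ g ∈ Z, isoC g z ∉ B)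

theorem null_frontier_unionC {s t : Set ℂ} (hs : volume (frontier s) = 0)
    (ht : volume (frontier t) = 0) : volume (frontier (s ∪ t)) = 0 := by
  refine measure_mono_null ?_ (measure_union_null hs ht)
  refine (frontier_union_subset s t).trans ?_
  exact union_subset_union inter_subset_left inter_subset_right

theorem null_frontier_interC {s t : Set ℂ} (hs : volume (frontier s) = 0)
    (ht : volume (frontier t) = 0) : volume (frontier (s ∩ t)) = 0 := by
  refine measure_mono_null ?_ (measure_union_null hs ht)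
  refine (frontier_inter_subset s t).trans ?_
  exact union_subset_union inter_subset_left inter_subset_right

theorem null_frontier_biUnionC {ι : Type} (V : Finset ι) (f : ι → Set ℂ)
    (h : ∀ i ∈ V, volume (frontier (f i)) = 0) : volume (frontier (⋃ i ∈ V, f i)) = 0 := by
  classical
  induction V using Finset.induction_on with
  | empty => simp
  | insert i V hi ih =>
    rw [Finset.set_biUnion_insert]
    exact null_frontier_unionC (h i (Finset.mem_insert_self _ _))
      (ih fun j hj => h j (Finset.mem_insert_of_mem hj))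

theorem null_frontier_closureC {s : Set ℂ} (hs : volume (frontier s) = 0) :
    volume (frontier (closure s)) = 0 :=
  measure_mono_null frontier_closure_subset hs

theorem rot_add (θ φ : S) (z : ℂ) : rot (θ + φ) z = rot θ (rot φ z) := by
  unfold rot
  rw [AddCircle.toCircle_add, Circle.coe_mul, mul_assoc]

theorem rot_zero (z : ℂ) : rot 0 z = z := by
  unfold rot
  rw [AddCircle.toCircle_zero]; simp

theorem rot_neg_rot (θ : S) (z : ℂ) : rot (-θ) (rot θ z) = z := by
  rw [← rot_add, neg_add_cancel, rot_zero]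

theorem rot_rot_neg (θ : S) (z : ℂ) : rot θ (rot (-θ) z) = z := by
  rw [← rot_add, add_neg_cancel, rot_zero]

theorem rot_add_right (θ : S) (z w : ℂ) : rot θ (z + w) = rot θ z + rot θ w := by
  unfold rot; ring

theorem rot_cont (θ : S) : Continuous (rot θ) := by
  unfold rot; fun_prop

/-- rotation as a homeomorphism -/
noncomputable def rotH (θ : S) : ℂ ≃ₜ ℂ where
  toFun := rot θ
  invFun := rot (-θ)
  left_inv := rot_neg_rot θ
  right_inv := rot_rot_neg θ
  continuous_toFun := rot_cont θ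
  continuous_invFun := rot_cont (-θ)

theorem rotH_coe (θ : S) : (rotH θ : ℂ → ℂ) = rot θ := rfl

theorem null_frontier_rot {s : Set ℂ} (hs : volume (frontier s) = 0) (θ : S) :
    volume (frontier (rot θ '' s)) = 0 := by
  have h1 : frontier (rot θ '' s) = rot θ '' frontier s :=
    ((rotH θ).image_frontier s).symm
  rw [h1]
  have h2 : rot θ '' frontier s = (rotation (AddCircle.toCircle (-θ))) ⁻¹' frontier s := by
    ext x
    constructor
    · rintro ⟨y, hy, rfl⟩
      show rot (-θ) (rot θ y) ∈ frontier s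
      rw [rot_neg_rot]; exact hy
    · intro hx
      exact ⟨rot (-θ) x, hx, rot_rot_neg θ x⟩
  rw [h2, (rotation (AddCircle.toCircle (-θ))).measurePreserving.measure_preimage
    isClosed_frontier.measurableSet.nullMeasurableSet]
  exact hs

/-- complex conjugation as a homeomorphism -/
noncomputable def conjH : ℂ ≃ₜ ℂ := Complex.conjCLE.toHomeomorph

theorem isoC_isOpenMap (g : Bool × S × ℂ) {U : Set ℂ} (hU : IsOpen U) : IsOpen (isoC g '' U) := by
  rcases g with ⟨b, θ, c⟩
  cases b
  · have : isoC (false, θ, c) = ((conjH.trans (rotH θ)).trans (Homeomorph.addRight c)) := by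
      funext x; simp [isoC, conjH, rotH_coe]
    rw [this]
    exact ((conjH.trans (rotH θ)).trans (Homeomorph.addRight c)).isOpenMap U hU
  · have : isoC (true, θ, c) = ((rotH θ).trans (Homeomorph.addRight c)) := by
      funext x; simp [isoC, rotH_coe]
    rw [this]
    exact ((rotH θ).trans (Homeomorph.addRight c)).isOpenMap U hU

theorem isoC_sub (g : Bool × S × ℂ) (w : S) (z : ℂ) :
    isoC (g.1, g.2.1 - w, rot (-w) g.2.2) z = rot (-w) (isoC g z) := by
  rcases g with ⟨b, θ, c⟩
  have h : θ - w = -w + θ := by abel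
  cases b
  · simp only [isoC, h, rot_add]; simp [rot_add_right]
  · simp only [isoC, h, rot_add]; simp [rot_add_right]

theorem sh_negC (a b : ℝ) (v : ℤ × ℤ) : sh a b (-v) = - sh a b v := by
  simp only [sh, Prod.fst_neg, Prod.snd_neg, neg_zsmul]
  abel

theorem sh_zeroC (a b : ℝ) : sh a b 0 = 0 := by
  simp [sh]

theorem sh_eq_zeroC {a b : ℝ} (hfree : Free a b) {v : ℤ × ℤ} (h : sh a b v = 0) : v = 0 := by
  have h1 : ((v.1 * a + v.2 * b : ℝ) : S) = 0 := by
    rw [← h, sh]
    rw [← zsmul_eq_mul, ← zsmul_eq_mul]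
    rfl
  obtain ⟨k, hk⟩ := (AddCircle.coe_eq_zero_iff (1 : ℝ)).1 h1
  have h2 := hfree v.1 v.2 k (by rw [← hk]; simp)
  exact Prod.ext h2.1 h2.2

theorem Ann_open : IsOpen Ann :=
  (isOpen_lt continuous_const continuous_norm).inter (isOpen_lt continuous_norm continuous_const)

theorem Ann_null : volume (frontier Ann) = 0 := by
  have h : Ann = (Metric.closedBall (0 : ℂ) 1)ᶜ ∩ Metric.ball (0 : ℂ) 2 := by
    ext z
    simp [Ann]
  rw [h]
  apply null_frontier_interC
  · rw [frontier_compl, frontier_closedBall _ one_ne_zero]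
    exact Measure.addHaar_sphere _ _ _
  · rw [frontier_ball _ two_ne_zero]
    exact Measure.addHaar_sphere _ _ _

/-- rich and isolated set in the annulus -/
theorem exists_richC (h : IndepStmtC) (a b : ℝ) (hfree : Free a b) (n : ℕ) (L : ℕ) (ρ : ℝ) (hρ : 0 < ρ) :
    ∃ B : Set ℂ, IsOpen B ∧ B ⊆ Ann ∧ volume (frontier B) = 0 ∧
    (∀ z ∈ B, ∀ v, le v L → v ≠ 0 → rot (sh a b v) z ∉ B) ∧ RichForC a b B n L ρ := by
  classical
  obtain ⟨B0, hB0, hB0f, hB0i⟩ := h n ρ hρ
  let V : Finset (ℤ × ℤ) :=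
    ((Finset.Icc (-(L : ℤ)) L) ×ˢ (Finset.Icc (-(L : ℤ)) L)).erase 0
  have hV : ∀ v, v ∈ V ↔ le v L ∧ v ≠ 0 := by
    intro v
    simp only [V, Finset.mem_erase, Finset.mem_product, Finset.mem_Icc, le, abs_le]
    tauto
  have hVc : V.card = (2 * L + 1) ^ 2 - 1 := by
    have h0 : (0 : ℤ × ℤ) ∈ (Finset.Icc (-(L : ℤ)) L) ×ˢ (Finset.Icc (-(L : ℤ)) L) := by
      simp
    rw [Finset.card_erase_of_mem h0, Finset.card_product, Int.card_Icc, sq]
    congr 2 <;> omega
  clear_value V
  let K : Set ℂ := ⋃ v ∈ V, closure (rot (sh a b v) '' B0)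
  have hKc : IsClosed K := by
    refine Set.Finite.isClosed_biUnion V.finite_toSet fun i _ => isClosed_closure
  have hKf : volume (frontier K) = 0 :=
    null_frontier_biUnionC V _ fun v _ => null_frontier_closureC (null_frontier_rot hB0f _)
  have hKmem : ∀ v, le v L → v ≠ 0 → ∀ x ∈ B0, rot (sh a b v) x ∈ K := by
    intro v hv hv0 x hx
    exact Set.mem_biUnion ((hV v).2 ⟨hv, hv0⟩) (subset_closure ⟨x, hx, rfl⟩)
  refine ⟨(B0 ∩ Ann) \ K, (hB0.inter Ann_open).sdiff hKc, fun z hz => hz.1.2, ?_, ?_, ?_⟩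
  · rw [Set.sdiff_eq]
    refine null_frontier_interC (null_frontier_interC hB0f Ann_null) ?_
    rw [frontier_compl]
    exact hKf
  · intro x hx v hv hv0 hx2
    exact hx2.2 (hKmem v hv hv0 x hx.1.1)
  · intro G Z hGZ hGG hcard x0 hAnn
    let Z' : Finset (Bool × S × ℂ) := Z ∪ (G ×ˢ V).image fun p =>
      (p.1.1, p.1.2.1 - sh a b p.2, rot (-sh a b p.2) p.1.2.2)
    have hZ'c : G.card + Z'.card ≤ n := by
      have h1 : Z'.card ≤ Z.card + G.card * V.card := by
        refine (Finset.card_union_le _ _).trans ?_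
        refine Nat.add_le_add_left (Finset.card_image_le.trans ?_) _
        rw [Finset.card_product]
      rw [hVc] at h1
      have h2 : 1 ≤ (2 * L + 1) ^ 2 := Nat.one_le_pow _ _ (by omega)
      obtain ⟨m, hm⟩ := Nat.exists_eq_add_of_le h2
      rw [hm] at h1 hcard
      have h3 : 1 + m - 1 = m := by omega
      rw [h3] at h1
      have h4 : G.card * (1 + m) = G.card + G.card * m := by ring
      omega
    have hdis : Disjoint G Z' := by
      rw [Finset.disjoint_left]
      intro g hg hgz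
      rcases Finset.mem_union.1 hgz with hgz | hgz
      · refine hGZ g hg g hgz 0 ?_ ?_
        · exact ⟨by simp, by simp⟩
        · rw [sh_zeroC, add_zero, rot_zero]
      · obtain ⟨⟨g', v⟩, hp, hp2⟩ := Finset.mem_image.1 hgz
        obtain ⟨hg', hv⟩ := Finset.mem_product.1 hp
        have hp3 : g = (g'.1, g'.2.1 + sh a b (-v), rot (sh a b (-v)) g'.2.2) := by
          rw [sh_negC, ← sub_eq_add_neg]; exact hp2.symm
        have h5 := hGG g' hg' g hg (-v) hp3
        rw [h5] at hp3
        have h6 := congrArg (fun p => p.2.1) hp3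
        have h7 : sh a b (-v) = 0 := by
          have h8 : g.2.1 = g.2.1 + sh a b (-v) := h6
          exact left_eq_add.1 h8
        have h8 := sh_eq_zeroC hfree h7
        exact ((hV v).1 hv).2 (neg_eq_zero.1 h8)
    obtain ⟨U, hUo, hUn, hUb, hU⟩ := hB0i G Z' hdis hZ'c x0
    refine ⟨U, hUo, hUn, hUb, fun x hx => ⟨fun g hg => ⟨⟨(hU x hx).1 g hg, hAnn g hg x (hUb hx)⟩, ?_⟩, ?_⟩⟩
    · intro hxK
      obtain ⟨v, hv, hv2⟩ := Set.mem_iUnion₂.1 hxK
      have hd : Disjoint (isoC g '' U) (rot (sh a b v) '' B0) := by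
        rw [Set.disjoint_left]
        rintro _ ⟨y, hy, rfl⟩ ⟨z, hz, hz2⟩
        have h1 : ((g.1, g.2.1 - sh a b v, rot (-sh a b v) g.2.2) : Bool × S × ℂ) ∈ Z' := by
          refine Finset.mem_union_right _ (Finset.mem_image.2 ⟨(g, v), ?_, rfl⟩)
          exact Finset.mem_product.2 ⟨hg, hv⟩
        have h2 := (hU y hy).2 _ h1
        rw [isoC_sub] at h2
        apply h2
        rw [← hz2, rot_neg_rot]; exact hz
      exact Set.disjoint_left.1 (hd.closure_right (isoC_isOpenMap g hUo)) ⟨x, hx, rfl⟩ hv2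
    · intro z hz hzB
      exact (hU x hx).2 z (Finset.mem_union_left _ hz) hzB.1.1

end D2
end Geo

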