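import Pool.Agent.Helper183.Geo.Base

set_option autoImplicit false
open MeasureTheory Set
namespace Geo
namespace D3

open scoped ComplexConjugate

/-- uniform Birkhoff comparison on the circle (proved elsewhere) -/
def BirkStmt (a : ℝ) : Prop := ∀ (φ : C(S, ℝ)) (ε : ℝ), 0 < ε →
    ∃ N0 : ℕ, ∀ N : ℕ, N0 ≤ N → ∀ x y : S,
      |(∑ j ∈ Finset.range N, φ (x + j • (a : S))) - ∑ j ∈ Finset.range N, φ (y + j • (a : S))| ≤ ε * N

theorem D3_rot_norm (θ : S) (z : ℂ) : ‖rot θ z‖ = ‖z‖ := by
  unfold rot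
  rw [norm_mul, Circle.norm_coe, one_mul]

theorem D3_rot_add (θ t : S) (z : ℂ) : rot (θ + t) z = rot θ (rot t z) := by
  unfold rot
  rw [AddCircle.toCircle_add, Circle.coe_mul, mul_assoc]

theorem D3_rot_ang (z : ℂ) : rot (ang z) (‖z‖ : ℂ) = z := by
  unfold rot ang
  rw [AddCircle.toCircle_apply_mk, Circle.coe_exp]
  have h : (((2 * Real.pi / 1 * (Complex.arg z / (2 * Real.pi)) : ℝ)) : ℂ) = (Complex.arg z : ℂ) := by
    congr 1
    field_simp
  rw [h, mul_comm]
  exact Complex.norm_mul_exp_arg_mul_I z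

theorem D3_rot_cont : Continuous (fun p : ℝ × S => rot p.2 (p.1 : ℂ)) := by
  unfold rot
  exact (continuous_subtype_val.comp (AddCircle.continuous_toCircle.comp continuous_snd)).mul
    (Complex.continuous_ofReal.comp continuous_fst)

/-- uniform comparison for compactly supported functions -/
theorem D3_unif {a : ℝ} (ha : BirkStmt a) {φ : ℂ → ℝ} (hφ : Continuous φ)
    (hc : HasCompactSupport φ) {ε : ℝ} (hε : 0 < ε) :
    ∃ N0 : ℕ, ∀ N : ℕ, N0 ≤ N → ∀ (z : ℂ) (θ θ' : S),
      |(∑ j ∈ Finset.range N, φ (rot (θ + j • (a : S)) z)) -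
        ∑ j ∈ Finset.range N, φ (rot (θ' + j • (a : S)) z)| ≤ ε * N := by
  let F : C(ℝ × S, ℝ) := ⟨fun p => φ (rot p.2 (p.1 : ℂ)), hφ.comp D3_rot_cont⟩
  let f : C(ℝ, C(S, ℝ)) := F.curry
  have hfa : ∀ r x, f r x = φ (rot x (r : ℂ)) := fun r x => rfl
  obtain ⟨H, hH⟩ := hc.isCompact.isBounded.subset_closedBall (0 : ℂ)
  have hzero : ∀ z : ℂ, H < ‖z‖ → φ z = 0 := by
    intro z hz
    by_contra h
    have h1 := hH (subset_tsupport φ h)
    rw [Metric.mem_closedBall, dist_zero_right] at h1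
    linarith
  have hK : IsCompact (f '' Icc 0 H) := isCompact_Icc.image f.continuous
  obtain ⟨t, htK, htf, htc⟩ := hK.finite_cover_balls (show 0 < ε / 3 by positivity)
  -- common N0
  have hN : ∃ N0 : ℕ, ∀ g ∈ t, ∀ N : ℕ, N0 ≤ N → ∀ x y : S,
      |(∑ j ∈ Finset.range N, g (x + j • (a : S))) - ∑ j ∈ Finset.range N, g (y + j • (a : S))| ≤
        ε / 3 * N := by
    choose n hn using fun g : C(S, ℝ) => ha g (ε / 3) (by positivity)
    refine ⟨htf.toFinset.sup n, ?_⟩
    intro g hg N hN x y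
    exact hn g N ((Finset.le_sup (f := n) (htf.mem_toFinset.mpr hg)).trans hN) x y
  obtain ⟨N0, hN0⟩ := hN
  refine ⟨N0, ?_⟩
  intro N hNN z θ θ'
  by_cases hz : ‖z‖ ≤ H
  · have hmem : f ‖z‖ ∈ f '' Icc 0 H := ⟨‖z‖, ⟨norm_nonneg z, hz⟩, rfl⟩
    have hcov := htc hmem
    rw [mem_iUnion₂] at hcov
    obtain ⟨g, hg, hgb⟩ := hcov
    rw [Metric.mem_ball] at hgb
    have hclose : ∀ x, |f ‖z‖ x - g x| ≤ ε / 3 := by
      intro x
      have := ContinuousMap.dist_apply_le_dist (f := f ‖z‖) (g := g) x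
      rw [Real.dist_eq] at this
      linarith
    have hval : ∀ η : S, ∀ j : ℕ, φ (rot (η + j • (a : S)) z) =
        f ‖z‖ ((η + ang z) + j • (a : S)) := by
      intro η j
      rw [hfa]
      have : η + ang z + j • (a : S) = (η + j • (a : S)) + ang z := by abel
      rw [this, D3_rot_add (η + j • (a : S)) (ang z), D3_rot_ang]
    have hsum : ∀ x : S, |(∑ j ∈ Finset.range N, f ‖z‖ (x + j • (a : S))) -
        ∑ j ∈ Finset.range N, g (x + j • (a : S))| ≤ ε / 3 * N := by
      intro x
      rw [← Finset.sum_sub_distrib]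
      refine (Finset.abs_sum_le_sum_abs _ _).trans ?_
      refine (Finset.sum_le_sum fun j _ => hclose (x + j • (a : S))).trans ?_
      rw [Finset.sum_const, Finset.card_range, nsmul_eq_mul, mul_comm]
    simp only [hval]
    have h1 := hsum (θ + ang z)
    have h2 := hsum (θ' + ang z)
    have h3 := hN0 g hg N hNN (θ + ang z) (θ' + ang z)
    rw [abs_le] at h1 h2 h3 ⊢
    constructor
    · linarith [h1.1, h2.2, h3.1]
    · linarith [h1.2, h2.1, h3.2]
  · have hz' : H < ‖z‖ := not_le.mp hz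
    have h0 : ∀ η : S, ∀ j : ℕ, φ (rot (η + j • (a : S)) z) = 0 := by
      intro η j
      apply hzero
      rw [D3_rot_norm]
      exact hz'
    simp only [h0, Finset.sum_const_zero, sub_zero, abs_zero]
    positivity

theorem D3_sandwich (P : Set ℂ) (hP : Bornology.IsBounded P) (hfr : volume (frontier P) = 0)
    (ε : ℝ) (hε : 0 < ε) : ∃ φp φm : ℂ → ℝ, Continuous φp ∧ Continuous φm ∧
      HasCompactSupport φp ∧ HasCompactSupport φm ∧ (∀ z, φm z ≤ φp z) ∧ (∀ z ∈ P, φp z = 1) ∧
      (∀ z, 0 ≤ φp z) ∧ (∀ z, z ∉ P → φm z = 0) ∧ (∀ z, φm z ≤ 1) ∧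
      ∫ z, (φp z - φm z) ≤ ε := by
  have hcc : IsCompact (closure P) := hP.isCompact_closure
  have hfin : volume (closure P) ≠ ⊤ := hcc.measure_lt_top.ne
  have hfin' : volume (interior P) ≠ ⊤ :=
    ((measure_mono (interior_subset.trans subset_closure)).trans_lt hcc.measure_lt_top).ne
  have heq : volume.real (closure P) = volume.real (interior P) := by
    apply le_antisymm
    · rw [closure_eq_interior_union_frontier]
      refine (measureReal_union_le _ _).trans ?_
      rw [measureReal_def (s := frontier P), hfr]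
      simp
    · exact measureReal_mono (interior_subset.trans subset_closure) hfin
  have hε2 : ENNReal.ofReal (ε / 2) ≠ 0 := by
    rw [ne_eq, ENNReal.ofReal_eq_zero, not_le]
    positivity
  obtain ⟨V, hVsub, hVo, hV⟩ := (closure P).exists_isOpen_lt_add hfin hε2
  obtain ⟨K, hKsub, hKc, hK⟩ := isOpen_interior.measurableSet.exists_isCompact_lt_add hfin' hε2
  have hVfin : volume V ≠ ⊤ := (hV.trans_le le_top).ne
  have hVr : volume.real V ≤ volume.real (closure P) + ε / 2 := by
    have h1 := ENNReal.toReal_mono (by finiteness) hV.le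
    rw [ENNReal.toReal_add hfin ENNReal.ofReal_ne_top, ENNReal.toReal_ofReal (by positivity)] at h1
    exact h1
  have hKr : volume.real (interior P) ≤ volume.real K + ε / 2 := by
    have h1 := ENNReal.toReal_mono (by
      have := hKc.measure_lt_top (μ := volume)
      finiteness) hK.le
    rw [ENNReal.toReal_add hKc.measure_lt_top.ne ENNReal.ofReal_ne_top,
      ENNReal.toReal_ofReal (by positivity)] at h1
    exact h1
  obtain ⟨fp, hp1, hp0, hpc, hpI⟩ := exists_continuous_one_zero_of_isCompact hcc hVo.isClosed_compl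
    (disjoint_compl_right_iff_subset.mpr hVsub)
  obtain ⟨fm, hm1, hm0, hmc, hmI⟩ := exists_continuous_one_zero_of_isCompact hKc
    isOpen_interior.isClosed_compl (disjoint_compl_right_iff_subset.mpr hKsub)
  have hfpi : Integrable fp := fp.continuous.integrable_of_hasCompactSupport hpc
  have hfmi : Integrable fm := fm.continuous.integrable_of_hasCompactSupport hmc
  refine ⟨fp, fm, fp.continuous, fm.continuous, hpc, hmc, ?_, ?_, fun z => (hpI z).1, ?_,
    fun z => (hmI z).2, ?_⟩
  · intro z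
    by_cases hz : z ∈ interior P
    · have : fp z = 1 := hp1 (subset_closure (interior_subset hz))
      rw [this]
      exact (hmI z).2
    · have : fm z = 0 := hm0 hz
      rw [this]
      exact (hpI z).1
  · intro z hz
    exact hp1 (subset_closure hz)
  · intro z hz
    exact hm0 (fun h => hz (interior_subset h))
  · rw [integral_sub hfpi hfmi]
    have h1 : ∫ z, fp z ≤ volume.real V := by
      rw [← integral_indicator_one hVo.measurableSet]
      apply integral_mono hfpi
      · exact (integrable_indicator_iff hVo.measurableSet).mpr (integrableOn_const hVfin)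
      · intro z
        by_cases hz : z ∈ V
        · rw [indicator_of_mem hz]
          exact (hpI z).2
        · rw [indicator_of_notMem hz]
          exact (hp0 hz).le
    have h2 : volume.real K ≤ ∫ z, fm z := by
      rw [← integral_indicator_one hKc.measurableSet]
      apply integral_mono _ hfmi
      · intro z
        by_cases hz : z ∈ K
        · rw [indicator_of_mem hz]
          exact (hm1 hz).ge
        · rw [indicator_of_notMem hz]
          exact (hmI z).1
      · exact (integrable_indicator_iff hKc.measurableSet).mpr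
          (integrableOn_const hKc.measure_lt_top.ne)
    linarith

open Classical in
theorem D3_main (P : Set ℂ) {φp φm : ℂ → ℝ} (hP1 : ∀ z ∈ P, φp z = 1)
    (hp0 : ∀ z, 0 ≤ φp z) (hP0 : ∀ z, z ∉ P → φm z = 0) (hm1 : ∀ z, φm z ≤ 1)
    {ε : ℝ} {a : ℝ} {N : ℕ} {z : ℂ} {θ θ' : S}
    (h1 : |(∑ j ∈ Finset.range N, φp (rot (θ + j • (a : S)) z)) -
        ∑ j ∈ Finset.range N, φp (rot (θ' + j • (a : S)) z)| ≤ ε / 2 * N)
    (h2 : |(∑ j ∈ Finset.range N, (fun z => φp z - φm z) (rot (θ + j • (a : S)) z)) -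
        ∑ j ∈ Finset.range N, (fun z => φp z - φm z) (rot (θ' + j • (a : S)) z)| ≤ ε / 2 * N)
    (hε : 0 < ε) :
    |(∑ j ∈ Finset.range N, (if rot (θ + j • (a : S)) z ∈ P then 1 else 0 : ℝ)) -
        ∑ j ∈ Finset.range N, (if rot (θ' + j • (a : S)) z ∈ P then 1 else 0 : ℝ)| ≤
        ε * N + ∑ j ∈ Finset.range N, (fun z => φp z - φm z) (rot (θ + j • (a : S)) z) := by
  have hup : ∀ η : S, (∑ j ∈ Finset.range N, (if rot (η + j • (a : S)) z ∈ P then 1 else 0 : ℝ)) ≤
      ∑ j ∈ Finset.range N, φp (rot (η + j • (a : S)) z) := by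
    intro η
    apply Finset.sum_le_sum
    intro j _
    split_ifs with h
    · exact (hP1 _ h).ge
    · exact hp0 _
  have hdown : ∀ η : S, ∑ j ∈ Finset.range N, φm (rot (η + j • (a : S)) z) ≤
      (∑ j ∈ Finset.range N, (if rot (η + j • (a : S)) z ∈ P then 1 else 0 : ℝ)) := by
    intro η
    apply Finset.sum_le_sum
    intro j _
    split_ifs with h
    · exact hm1 _
    · exact (hP0 _ h).le
  simp only [Finset.sum_sub_distrib] at h2 ⊢
  have u1 := hup θ
  have u2 := hup θ'
  have d1 := hdown θ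
  have d2 := hdown θ'
  have hN : 0 ≤ ε * N := by positivity
  rw [abs_le] at h1 h2 ⊢
  constructor
  · linarith [h1.1, h1.2, h2.1, h2.2]
  · linarith [h1.1, h1.2, h2.1, h2.2]

theorem jordan_rows (a b : ℝ) (ha : BirkStmt a) (hb : BirkStmt b) : JordStmt a b := by
  intro P hP hfr ε hε
  obtain ⟨φp, φm, hpc, hmc, hps, hms, hle, hP1, hp0, hP0, hm1, hint⟩ := D3_sandwich P hP hfr ε hε
  have hψc : Continuous (fun z => φp z - φm z) := hpc.sub hmc
  have hψs : HasCompactSupport (fun z => φp z - φm z) := hps.sub hms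
  have hε2 : 0 < ε / 2 := by positivity
  obtain ⟨N1, hN1⟩ := D3_unif ha hpc hps hε2
  obtain ⟨N2, hN2⟩ := D3_unif ha hψc hψs hε2
  obtain ⟨N3, hN3⟩ := D3_unif hb hpc hps hε2
  obtain ⟨N4, hN4⟩ := D3_unif hb hψc hψs hε2
  refine ⟨fun z => φp z - φm z, max (max N1 N2) (max N3 N4), hψc, hψs,
    fun z => sub_nonneg.mpr (hle z), hint, ?_⟩
  intro N hN z θ θ'
  have e1 : N1 ≤ N := (le_max_left _ _).trans ((le_max_left _ _).trans hN)
  have e2 : N2 ≤ N := (le_max_right _ _).trans ((le_max_left _ _).trans hN)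
  have e3 : N3 ≤ N := (le_max_left _ _).trans ((le_max_right _ _).trans hN)
  have e4 : N4 ≤ N := (le_max_right _ _).trans ((le_max_right _ _).trans hN)
  exact ⟨D3_main P hP1 hp0 hP0 hm1 (hN1 N e1 z θ θ') (hN2 N e2 z θ θ') hε,
    D3_main P hP1 hp0 hP0 hm1 (hN3 N e3 z θ θ') (hN4 N e4 z θ θ') hε⟩

end D3
end Geo

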