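import Pool.Agent.Helper183.Geo.Base

set_option autoImplicit false
open MeasureTheory Set
namespace Geo
namespace D4

open scoped ComplexConjugate

theorem d4_arcO_open (c l : ℝ) : IsOpen (arcO c l) :=
  QuotientAddGroup.isOpenMap_coe _ isOpen_Ioo

theorem d4_closure_arcO (c l : ℝ) : closure (arcO c l) ⊆ arcC c l := by
  refine closure_minimal (image_mono Ioo_subset_Icc_self) ?_
  exact (isCompact_Icc.image (AddCircle.continuous_mk' 1)).isClosed

theorem d4_arcC_diff (c l : ℝ) {x : S} (h1 : x ∈ arcC c l) (h2 : x ∉ arcO c l) :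
    x = ((c : ℝ) : S) ∨ x = ((c + l : ℝ) : S) := by
  obtain ⟨t, ht, rfl⟩ := h1
  rcases eq_or_lt_of_le ht.1 with h | h
  · left; rw [← h]
  · rcases eq_or_lt_of_le ht.2 with h' | h'
    · right; rw [h']
    · exact absurd ⟨t, ⟨h, h'⟩, rfl⟩ h2

theorem d4_union {A B : Set ℂ} (hA : volume (frontier A) = 0) (hB : volume (frontier B) = 0) :
    volume (frontier (A ∪ B)) = 0 := by
  refine measure_mono_null (frontier_union_subset A B) ?_
  exact measure_union_null (measure_mono_null inter_subset_left hA)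
    (measure_mono_null inter_subset_right hB)

theorem d4_inter {A B : Set ℂ} (hA : volume (frontier A) = 0) (hB : volume (frontier B) = 0) :
    volume (frontier (A ∩ B)) = 0 := by
  refine measure_mono_null (frontier_inter_subset A B) ?_
  exact measure_union_null (measure_mono_null inter_subset_left hA)
    (measure_mono_null inter_subset_right hB)

theorem d4_biUnion {ι : Type} (s : Finset ι) (A : ι → Set ℂ)
    (h : ∀ i ∈ s, volume (frontier (A i)) = 0) : volume (frontier (⋃ i ∈ s, A i)) = 0 := by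
  classical
  induction s using Finset.induction_on with
  | empty => simp
  | insert i s hi ih =>
    rw [Finset.set_biUnion_insert]
    exact d4_union (h i (Finset.mem_insert_self _ _))
      (ih fun j hj => h j (Finset.mem_insert_of_mem hj))

theorem d4_rot_cont (θ : S) : Continuous (rot θ) := by
  unfold rot; fun_prop

theorem d4_rot {B : Set ℂ} (hB : volume (frontier B) = 0) (θ : S) :
    volume (frontier {z | rot θ z ∈ B}) = 0 := by
  let e : ℂ ≃ₗᵢ[ℝ] ℂ := rotation (AddCircle.toCircle θ)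
  have he : {z | rot θ z ∈ B} = e.toHomeomorph ⁻¹' B := by
    ext z; rfl
  rw [he, ← Homeomorph.preimage_frontier]
  have h1 := e.measurePreserving.measure_preimage
    (isClosed_frontier (s := B)).measurableSet.nullMeasurableSet
  rw [← hB, ← h1]; rfl

theorem d4_ang_cont {z : ℂ} (hz : z ≠ 0) : ContinuousAt ang z := by
  have h1 := Complex.continuousAt_arg_coe_angle hz
  have h2pi : (2 * Real.pi) ≠ 0 := by positivity
  have h2 : Continuous (AddCircle.homeomorphAddCircle (2 * Real.pi) (1 : ℝ) h2pi one_ne_zero) :=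
    (AddCircle.homeomorphAddCircle (2 * Real.pi) (1 : ℝ) h2pi one_ne_zero).continuous
  have h3 : ContinuousAt (fun z : ℂ => AddCircle.homeomorphAddCircle (2 * Real.pi) (1 : ℝ) h2pi
      one_ne_zero ((Complex.arg z : ℝ) : AddCircle (2 * Real.pi))) z :=
    ContinuousAt.comp (g := AddCircle.homeomorphAddCircle (2 * Real.pi) (1 : ℝ) h2pi one_ne_zero)
      h2.continuousAt h1
  have h4 : ang = fun z : ℂ => AddCircle.homeomorphAddCircle (2 * Real.pi) (1 : ℝ) h2pi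
      one_ne_zero ((Complex.arg z : ℝ) : AddCircle (2 * Real.pi)) := by
    funext z
    rw [AddCircle.homeomorphAddCircle_apply_mk]
    unfold ang
    congr 1
    rw [mul_one, div_eq_mul_inv]
  rw [h4]; exact h3

theorem d4_ang_eq (z : ℂ) : z = (‖z‖ : ℂ) * ((AddCircle.toCircle (ang z) : Circle) : ℂ) := by
  unfold ang
  rw [AddCircle.toCircle_apply_mk, Circle.coe_exp]
  have : 2 * Real.pi / 1 * (Complex.arg z / (2 * Real.pi)) = Complex.arg z := by
    have := Real.pi_ne_zero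
    field_simp
  rw [this]
  exact (Complex.norm_mul_exp_arg_mul_I z).symm

theorem d4_ray (s : S) : volume {z : ℂ | ang z = s} = 0 := by
  set w : ℂ := ((AddCircle.toCircle s : Circle) : ℂ) with hw
  have hw0 : w ≠ 0 := Circle.coe_ne_zero _
  have hne : (Submodule.span ℝ {w} : Submodule ℝ ℂ) ≠ ⊤ := by
    intro htop
    have h1 : w * Complex.I ∈ Submodule.span ℝ {w} := by rw [htop]; trivial
    obtain ⟨r, hr⟩ := Submodule.mem_span_singleton.mp h1
    rw [Complex.real_smul, mul_comm] at hr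
    have h2 : (r : ℂ) = Complex.I := mul_left_cancel₀ hw0 hr
    have h3 := congrArg Complex.im h2
    simp at h3
  refine measure_mono_null ?_ (Measure.addHaar_submodule volume _ hne)
  intro z hz
  have hz' : ang z = s := hz
  rw [SetLike.mem_coe, Submodule.mem_span_singleton]
  refine ⟨‖z‖, ?_⟩
  rw [Complex.real_smul]
  have h1 := d4_ang_eq z
  rw [hz'] at h1
  exact h1.symm

theorem d4_Ann_open : IsOpen Ann :=
  (isOpen_lt continuous_const continuous_norm).inter (isOpen_lt continuous_norm continuous_const)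

theorem d4_closure_Ann {z : ℂ} (hz : z ∈ closure Ann) : 1 ≤ ‖z‖ ∧ ‖z‖ ≤ 2 := by
  have h : closure Ann ⊆ {z : ℂ | 1 ≤ ‖z‖ ∧ ‖z‖ ≤ 2} := by
    refine closure_minimal (fun w hw => ⟨hw.1.le, hw.2.le⟩) ?_
    exact (isClosed_le continuous_const continuous_norm).inter
      (isClosed_le continuous_norm continuous_const)
  exact h hz

theorem d4_Q_open (c l : ℝ) : IsOpen (Ann ∩ ang ⁻¹' arcO c l) := by
  refine ContinuousOn.isOpen_inter_preimage ?_ d4_Ann_open (d4_arcO_open c l)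
  intro z hz
  refine (d4_ang_cont ?_).continuousWithinAt
  intro h0
  rw [h0] at hz
  have := hz.1
  simp at this
  linarith

theorem d4_Q_frontier (c l : ℝ) : volume (frontier (Ann ∩ ang ⁻¹' arcO c l)) = 0 := by
  have hsub : frontier (Ann ∩ ang ⁻¹' arcO c l) ⊆
      (Metric.sphere (0 : ℂ) 1 ∪ Metric.sphere (0 : ℂ) 2) ∪
        ({z : ℂ | ang z = ((c : ℝ) : S)} ∪ {z : ℂ | ang z = ((c + l : ℝ) : S)}) := by
    rw [(d4_Q_open c l).frontier_eq]
    rintro z ⟨hz1, hz2⟩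
    have hzA := d4_closure_Ann (closure_mono inter_subset_left hz1)
    rcases eq_or_lt_of_le hzA.1 with h | h
    · left; left; rw [mem_sphere_zero_iff_norm]; exact h.symm
    · rcases eq_or_lt_of_le hzA.2 with h' | h'
      · left; right; rw [mem_sphere_zero_iff_norm]; exact h'
      · right
        have hz0 : z ≠ 0 := by
          intro h0; rw [h0, norm_zero] at h; linarith
        have hcl : ang z ∈ closure (arcO c l) := by
          have h1 : z ∈ closure (ang ⁻¹' arcO c l) := closure_mono inter_subset_right hz1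
          have h2 := mem_closure_iff_nhdsWithin_neBot.mp h1
          refine mem_closure_of_tendsto (f := ang) (b := nhdsWithin z (ang ⁻¹' arcO c l))
            ((d4_ang_cont hz0).mono_left nhdsWithin_le_nhds) ?_
          exact self_mem_nhdsWithin
        have h3 := d4_closure_arcO c l hcl
        have h4 : ang z ∉ arcO c l := fun h5 => hz2 ⟨⟨h, h'⟩, h5⟩
        exact d4_arcC_diff c l h3 h4
  refine measure_mono_null hsub (measure_union_null (measure_union_null ?_ ?_)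
    (measure_union_null (d4_ray _) (d4_ray _)))
  · exact Measure.addHaar_sphere volume 0 1
  · exact Measure.addHaar_sphere volume 0 2

theorem d4_norm_pos {a b : ℝ} (hfree : Free a b) (v : ℤ × ℤ) (hv : v ≠ 0) :
    0 < ‖sh a b v‖ := by
  rw [norm_pos_iff]
  intro h
  have e : sh a b v = (((v.1 : ℝ) * a + v.2 * b : ℝ) : S) := by
    unfold sh
    rw [AddCircle.coe_add, ← AddCircle.coe_zsmul, ← AddCircle.coe_zsmul, zsmul_eq_mul, zsmul_eq_mul]
  rw [e, AddCircle.coe_eq_zero_iff] at h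
  obtain ⟨n, hn⟩ := h
  have := hfree v.1 v.2 n (by rw [← hn]; simp)
  exact hv (Prod.ext this.1 this.2)

theorem d4_small {a b : ℝ} (hfree : Free a b) (s : Finset (ℤ × ℤ)) :
    ∃ η : ℝ, 0 < η ∧ ∀ v ∈ s, v ≠ 0 → η ≤ ‖sh a b v‖ := by
  classical
  induction s using Finset.induction_on with
  | empty => exact ⟨1, one_pos, by simp⟩
  | insert i s hi ih =>
    obtain ⟨η, h0, h⟩ := ih
    by_cases hi0 : i = 0
    · refine ⟨η, h0, fun v hv hv0 => ?_⟩
      rcases Finset.mem_insert.1 hv with h1 | h1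
      · exact absurd (h1.trans hi0) hv0
      · exact h v h1 hv0
    · refine ⟨min η ‖sh a b i‖, lt_min h0 (d4_norm_pos hfree i hi0), fun v hv hv0 => ?_⟩
      rcases Finset.mem_insert.1 hv with h1 | h1
      · rw [h1]; exact min_le_right _ _
      · exact (min_le_left _ _).trans (h v h1 hv0)

theorem d4_arc {a b : ℝ} {v : ℤ × ℤ} {c l : ℝ} {x : S} (h1 : x ∈ arcC c l)
    (h2 : x + sh a b v ∈ arcC c l) : ‖sh a b v‖ ≤ l := by
  obtain ⟨s, hs, rfl⟩ := h1
  obtain ⟨t, ht, hts⟩ := h2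
  have e : sh a b v = ((t - s : ℝ) : S) := by
    rw [AddCircle.coe_sub]
    simp only at hts
    rw [hts]; abel
  rw [e]
  refine (QuotientAddGroup.norm_mk_le_norm (m := (t - s : ℝ))).trans ?_
  rw [Real.norm_eq_abs, abs_le]
  exact ⟨by linarith [hs.1, hs.2, ht.1, ht.2], by linarith [hs.1, hs.2, ht.1, ht.2]⟩

theorem d4_ico (M : ℕ) (g : ℤ → ℝ) :
    ∑ i ∈ Finset.Ico (0 : ℤ) M, g i = ∑ i ∈ Finset.range M, g (i : ℤ) := by
  refine Finset.sum_nbij' (i := Int.toNat) (j := fun n => (n : ℤ)) ?_ ?_ ?_ ?_ ?_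
  · intro i hi; simp only [Finset.mem_Ico] at hi; simp only [Finset.mem_range]; omega
  · intro i hi; simp only [Finset.mem_range] at hi; simp only [Finset.mem_Ico]; omega
  · intro i hi; simp only [Finset.mem_Ico] at hi; exact Int.toNat_of_nonneg hi.1
  · intro i hi; simp
  · intro i hi; simp only [Finset.mem_Ico] at hi
    rw [Int.toNat_of_nonneg hi.1]

theorem d4_ico' (D : ℕ) (g : ℤ → ℝ) :
    ∑ i ∈ Finset.Ico (-(D : ℤ)) 0, g i = ∑ t ∈ Finset.range D, g (-(t : ℤ) - 1) := by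
  refine Finset.sum_nbij' (i := fun i => (-i - 1).toNat) (j := fun n => -(n : ℤ) - 1) ?_ ?_ ?_ ?_ ?_
  · intro i hi; simp only [Finset.mem_Ico] at hi; simp only [Finset.mem_range]; omega
  · intro i hi; simp only [Finset.mem_range] at hi; simp only [Finset.mem_Ico]; omega
  · intro i hi; simp only [Finset.mem_Ico] at hi
    have h1 : ((-i - 1).toNat : ℤ) = -i - 1 := Int.toNat_of_nonneg (by omega)
    rw [h1]; ring
  · intro i hi
    have h1 : -(-(i : ℤ) - 1) - 1 = i := by ring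
    simp only [h1, Int.toNat_natCast]
  · intro i hi; simp only [Finset.mem_Ico] at hi
    have h1 : ((-i - 1).toNat : ℤ) = -i - 1 := Int.toNat_of_nonneg (by omega)
    rw [h1]; congr 1; ring

theorem d4_tel (F : ℤ → ℝ) (M D : ℕ) :
    ∑ i ∈ Finset.Ico (0 : ℤ) M, (F i - F (i - D)) =
      ∑ t ∈ Finset.range D, (F (M - t - 1) - F (-t - 1)) := by
  rw [d4_ico]
  induction D with
  | zero => simp
  | succ D ih =>
    rw [Finset.sum_range_succ, ← ih]
    have h := Finset.sum_range_sub (fun i : ℕ => F ((i : ℤ) - D - 1)) M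
    have e2 : F ((M : ℤ) - D - 1) - F (-(D : ℤ) - 1) =
        F ((M : ℤ) - D - 1) - F (((0 : ℕ) : ℤ) - D - 1) := by
      simp
    rw [e2, ← h, ← Finset.sum_add_distrib]
    refine Finset.sum_congr rfl fun i _ => ?_
    have e3 : (((i + 1 : ℕ) : ℤ) - D - 1) = (i : ℤ) - D := by push_cast; ring
    have e4 : ((i : ℤ) - ((D + 1 : ℕ) : ℤ)) = (i : ℤ) - D - 1 := by push_cast; ring
    rw [e3, e4]; ring

open Classical in
theorem d4_ineq (a b : ℝ) (P : Set ℂ) (ψ : ℂ → ℝ) (hψ0 : ∀ z, 0 ≤ ψ z) (N D : ℕ) (hN : 1 ≤ N)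
    (hD : 1 ≤ D) (M : ℕ)
    (h : ∀ (z : ℂ) (θ θ' : S),
      |(∑ j ∈ Finset.range M, (if rot (θ + j • (b : S)) z ∈ P then 1 else 0 : ℝ)) -
        ∑ j ∈ Finset.range M, (if rot (θ' + j • (b : S)) z ∈ P then 1 else 0 : ℝ)| ≤
        (1 / (1000 * (D : ℝ) * N)) * M + ∑ j ∈ Finset.range M, ψ (rot (θ + j • (b : S)) z)) (z : ℂ) :
    |∑ v ∈ (Finset.Ico (0 : ℤ) M) ×ˢ (Finset.Ico (0 : ℤ) M),
        ((if rot (sh a b v) z ∈ P then 1 else 0 : ℝ) -
          (if rot (sh a b (v - ((D : ℤ), 0))) z ∈ P then 1 else 0))| ≤ M / (16 * N) +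
      ∑ v ∈ (Finset.Ico (-(D : ℤ)) 0) ×ˢ (Finset.Ico (0 : ℤ) M), ψ (rot (sh a b v) z) := by
  have hN' : (0 : ℝ) < N := by exact_mod_cast hN
  have hD' : (0 : ℝ) < D := by exact_mod_cast hD
  let F : ℤ → ℝ := fun i => ∑ j ∈ Finset.Ico (0 : ℤ) M, (if rot (sh a b (i, j)) z ∈ P then 1 else 0 : ℝ)
  have e1 : ∑ v ∈ (Finset.Ico (0 : ℤ) M) ×ˢ (Finset.Ico (0 : ℤ) M),
        ((if rot (sh a b v) z ∈ P then 1 else 0 : ℝ) -
          (if rot (sh a b (v - ((D : ℤ), 0))) z ∈ P then 1 else 0)) =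
      ∑ i ∈ Finset.Ico (0 : ℤ) M, (F i - F (i - D)) := by
    rw [Finset.sum_product]
    refine Finset.sum_congr rfl fun i _ => ?_
    rw [← Finset.sum_sub_distrib]
    refine Finset.sum_congr rfl fun j _ => ?_
    simp only [Prod.mk_sub_mk, sub_zero]
  have esh : ∀ (i : ℤ) (j : ℕ), sh a b (i, (j : ℤ)) = i • (a : S) + j • (b : S) := by
    intro i j
    unfold sh
    simp only [natCast_zsmul]
  have e2 : ∀ i : ℤ, F i = ∑ j ∈ Finset.range M,
      (if rot (i • (a : S) + j • (b : S)) z ∈ P then 1 else 0 : ℝ) := by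
    intro i
    show ∑ j ∈ Finset.Ico (0 : ℤ) M, (if rot (sh a b (i, j)) z ∈ P then 1 else 0 : ℝ) = _
    rw [d4_ico]
    refine Finset.sum_congr rfl fun j _ => ?_
    rw [esh]
  have e3 : ∑ v ∈ (Finset.Ico (-(D : ℤ)) 0) ×ˢ (Finset.Ico (0 : ℤ) M), ψ (rot (sh a b v) z) =
      ∑ t ∈ Finset.range D, ∑ j ∈ Finset.range M,
        ψ (rot ((-(t : ℤ) - 1) • (a : S) + j • (b : S)) z) := by
    rw [Finset.sum_product, d4_ico' D (fun i => ∑ j ∈ Finset.Ico (0 : ℤ) M, ψ (rot (sh a b (i, j)) z))]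
    refine Finset.sum_congr rfl fun t _ => ?_
    rw [d4_ico]
    refine Finset.sum_congr rfl fun j _ => ?_
    rw [esh]
  rw [e1, d4_tel, e3]
  calc |∑ t ∈ Finset.range D, (F (M - t - 1) - F (-t - 1))|
      ≤ ∑ t ∈ Finset.range D, |F (M - t - 1) - F (-t - 1)| := Finset.abs_sum_le_sum_abs _ _
    _ ≤ ∑ t ∈ Finset.range D, ((1 / (1000 * (D : ℝ) * N)) * (M : ℝ) + ∑ j ∈ Finset.range M,
        ψ (rot ((-(t : ℤ) - 1) • (a : S) + j • (b : S)) z)) := by
        refine Finset.sum_le_sum fun t _ => ?_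
        rw [abs_sub_comm, e2, e2]
        exact h z _ _
    _ = M / (1000 * N) + ∑ t ∈ Finset.range D, ∑ j ∈ Finset.range M,
        ψ (rot ((-(t : ℤ) - 1) • (a : S) + j • (b : S)) z) := by
        rw [Finset.sum_add_distrib, Finset.sum_const, Finset.card_range, nsmul_eq_mul]
        congr 1
        field_simp
    _ ≤ _ := by
        gcongr
        norm_num

open Classical in
/-- choice of all scales for the example in the plane -/
theorem exists_systemC (a b : ℝ) (hfree : Free a b) (hhit : ∀ m : ℕ, ∃ N : ℕ, m ≤ N ∧ Hit a N)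
    (hj : JordStmt a b)
    (hrich : ∀ (n L : ℕ) (ρ : ℝ), 0 < ρ → ∃ B : Set ℂ, IsOpen B ∧ B ⊆ Ann ∧ volume (frontier B) = 0 ∧
      (∀ z ∈ B, ∀ v, le v L → v ≠ 0 → rot (sh a b v) z ∉ B) ∧ RichForC a b B n L ρ) :
    ∃ (N D : ℕ → ℕ) (Bs P0 P : ℕ → Set ℂ) (ψ : ℕ → ℂ → ℝ), 1000 ≤ N 0 ∧ (∀ k, 4 * N k ≤ N (k + 1)) ∧
      (∀ k, Hit a (N k)) ∧ (∀ k, 2 * N k ≤ D k ∧ D k < 3 * N k) ∧
      (∀ k, ∃ t : ℝ, 0 ≤ t ∧ t ≤ 3 / N k ∧ (D k) • (a : S) = ((1 / 2 + t : ℝ) : S)) ∧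
      (∀ k, Bs k ⊆ Ann) ∧
      (∀ k, ∀ z ∈ Bs k, ∀ v, le v (64 * (N k : ℤ) ^ 2) → v ≠ 0 → rot (sh a b v) z ∉ Bs k) ∧
      (∀ k, RichForC a b (Bs k) (GhatC (N k)) (64 * (N k) ^ 2) (1 / N k)) ∧
      (∀ k z, z ∈ P0 k ↔ z ∈ Ann ∧ ang z ∈ arcO (1 / 8 + 3 / N k) (3 / N k) ∧
        ∃ v, inBox v (N k) ∧ rot (-(sh a b v)) z ∈ Bs k) ∧
      (∀ k, IsOpen (P0 k)) ∧ (∀ k, volume (frontier (P0 k)) = 0) ∧
      (∀ k, P k = interior (closure (P0 k))) ∧
      (∀ j, Continuous (ψ j)) ∧ (∀ j, HasCompactSupport (ψ j)) ∧ (∀ j z, 0 ≤ ψ j z) ∧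
      (∀ j, ∫ z, ψ j z ≤ 1 / (1000 * (D j : ℝ) * N j)) ∧
      (∀ j k, j < k → ∀ z z', ‖z - z'‖ ≤ 1 / (N k : ℝ) → |ψ j z - ψ j z'| ≤ 1 / (1000 * (D j : ℝ) * N j)) ∧
      (∀ j k, j < k → ∀ z, |∑ v ∈ (Finset.Ico (0 : ℤ) (N k)) ×ˢ (Finset.Ico (0 : ℤ) (N k)),
        ((if rot (sh a b v) z ∈ P j then 1 else 0 : ℝ) -
          (if rot (sh a b (v - ((D j : ℤ), 0))) z ∈ P j then 1 else 0))| ≤ N k / (16 * N j) +
          ∑ v ∈ (Finset.Ico (-(D j : ℤ)) 0) ×ˢ (Finset.Ico (0 : ℤ) (N k)), ψ j (rot (sh a b v) z)) ∧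
      (∀ k v, le v (2 * (N k : ℤ)) → v ≠ 0 → ∀ (x : S) (c : ℝ),
        x ∈ arcC c (9 / N (k + 1)) → x + sh a b v ∉ arcC c (9 / N (k + 1))) := by
  -- the sets `B`
  have hBex : ∀ N : ℕ, ∃ B : Set ℂ, 1 ≤ N → (IsOpen B ∧ B ⊆ Ann ∧ volume (frontier B) = 0 ∧
      (∀ z ∈ B, ∀ v, le v ((64 * N ^ 2 : ℕ) : ℤ) → v ≠ 0 → rot (sh a b v) z ∉ B) ∧
      RichForC a b B (GhatC N) (64 * N ^ 2) (1 / N)) := by
    intro N
    by_cases hN : 1 ≤ N
    · have hN' : (0 : ℝ) < N := by exact_mod_cast hN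
      obtain ⟨B, hB⟩ := hrich (GhatC N) (64 * N ^ 2) (1 / N) (by positivity)
      exact ⟨B, fun _ => hB⟩
    · exact ⟨∅, fun h => absurd h hN⟩
  choose B hB using hBex
  -- the numbers `D`
  have hDex : ∀ N : ℕ, ∃ D : ℕ, 3 ≤ N → Hit a N → 2 * N ≤ D ∧ D < 3 * N ∧
      ∃ t : ℝ, 0 ≤ t ∧ t ≤ 3 / N ∧ D • (a : S) = ((1 / 2 + t : ℝ) : S) := by
    intro N
    by_cases hN : 3 ≤ N ∧ Hit a N
    · obtain ⟨hN3, hH⟩ := hN
      have hN' : (3 : ℝ) ≤ N := by exact_mod_cast hN3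
      have hN0 : (0 : ℝ) < N := by linarith
      obtain ⟨j, hj, hjm⟩ := hH.2.1 ((2 * N) • (a : S)) (1 / 2) (3 / N)
        (by rw [div_le_one hN0]; exact hN') (by rw [mul_div_cancel₀ _ hN0.ne'])
      refine ⟨2 * N + j, fun _ _ => ⟨by omega, by omega, ?_⟩⟩
      obtain ⟨t, ht, hte⟩ := hjm
      refine ⟨t - 1 / 2, by linarith [ht.1], by linarith [ht.2], ?_⟩
      rw [add_nsmul, ← hte]
      simp
    · exact ⟨0, fun h1 h2 => absurd ⟨h1, h2⟩ hN⟩
  choose D hD using hDex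
  let Bx : ℕ → Finset (ℤ × ℤ) := fun N => (Finset.Ico (0 : ℤ) N) ×ˢ (Finset.Ico (0 : ℤ) N)
  let P0 : ℕ → Set ℂ := fun N => (Ann ∩ ang ⁻¹' arcO (1 / 8 + 3 / N) (3 / N)) ∩
    ⋃ v ∈ Bx N, {z | rot (-(sh a b v)) z ∈ B N}
  have hP0 : ∀ N z, z ∈ P0 N ↔ z ∈ Ann ∧ ang z ∈ arcO (1 / 8 + 3 / N) (3 / N) ∧
        ∃ v, inBox v N ∧ rot (-(sh a b v)) z ∈ B N := by
    intro N z
    show ((z ∈ Ann ∧ ang z ∈ arcO (1 / 8 + 3 / N) (3 / N)) ∧
      z ∈ ⋃ v ∈ Bx N, {z | rot (-(sh a b v)) z ∈ B N}) ↔ _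
    rw [and_assoc]
    refine and_congr Iff.rfl (and_congr Iff.rfl ?_)
    simp only [mem_iUnion, mem_ofPred_eq, exists_prop]
    refine exists_congr fun v => and_congr ?_ Iff.rfl
    simp only [Bx, Finset.mem_product, Finset.mem_Ico, inBox]
    tauto
  have hP0o : ∀ N, 1 ≤ N → IsOpen (P0 N) := by
    intro N hN
    refine (d4_Q_open _ _).inter (isOpen_biUnion fun v _ => ?_)
    exact (hB N hN).1.preimage (d4_rot_cont _)
  have hP0f : ∀ N, 1 ≤ N → volume (frontier (P0 N)) = 0 := by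
    intro N hN
    exact d4_inter (d4_Q_frontier _ _)
      (d4_biUnion _ _ fun v _ => d4_rot (hB N hN).2.2.1 _)
  let P : ℕ → Set ℂ := fun N => interior (closure (P0 N))
  have hPf : ∀ N, 1 ≤ N → volume (frontier (P N)) = 0 := fun N hN =>
    measure_mono_null (frontier_interior_subset.trans frontier_closure_subset) (hP0f N hN)
  have hPb : ∀ N, Bornology.IsBounded (P N) := by
    intro N
    refine (Metric.isBounded_closedBall (x := (0 : ℂ)) (r := 2)).subset ?_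
    intro z hz
    have h1 : z ∈ closure (P0 N) := interior_subset hz
    have h2 : z ∈ closure Ann := closure_mono (fun w hw => ((hP0 N w).mp hw).1) h1
    rw [mem_closedBall_zero_iff]
    exact (d4_closure_Ann h2).2
  -- the functions `ψ`
  have hψex : ∀ N : ℕ, ∃ (ψ : ℂ → ℝ) (N0 : ℕ), 1000 ≤ N → Hit a N →
      (Continuous ψ ∧ HasCompactSupport ψ ∧ (∀ z, 0 ≤ ψ z) ∧
      ∫ z, ψ z ≤ 1 / (1000 * (D N : ℝ) * N) ∧ ∀ M : ℕ, N0 ≤ M → ∀ (z : ℂ) (θ θ' : S),
      |(∑ j ∈ Finset.range M, (if rot (θ + j • (b : S)) z ∈ P N then 1 else 0 : ℝ)) -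
        ∑ j ∈ Finset.range M, (if rot (θ' + j • (b : S)) z ∈ P N then 1 else 0 : ℝ)| ≤
        (1 / (1000 * (D N : ℝ) * N)) * M + ∑ j ∈ Finset.range M, ψ (rot (θ + j • (b : S)) z)) := by
    intro N
    by_cases hN : 1000 ≤ N ∧ Hit a N
    · obtain ⟨hN3, hH⟩ := hN
      obtain ⟨hD1, -, -⟩ := hD N (by omega) hH
      have hN0 : (0 : ℝ) < N := by exact_mod_cast (by omega : 0 < N)
      have hD0 : (0 : ℝ) < D N := by exact_mod_cast (by omega : 0 < D N)
      obtain ⟨ψ, N0, h1, h2, h3, h4, h5⟩ := hj (P N) (hPb N) (hPf N (by omega))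
        (1 / (1000 * (D N : ℝ) * N)) (by positivity)
      exact ⟨ψ, N0, fun _ _ => ⟨h1, h2, h3, h4, fun M hM z θ θ' => (h5 M hM z θ θ').2⟩⟩
    · exact ⟨fun _ => 0, 0, fun h1 h2 => absurd ⟨h1, h2⟩ hN⟩
  choose ψ N0 hψ using hψex
  -- the relation
  let r : ℕ → ℕ → Prop := fun N N' => 4 * N ≤ N' ∧
    (∀ v, le v (2 * (N : ℤ)) → v ≠ 0 → ∀ (x : S) (c : ℝ),
        x ∈ arcC c (9 / N') → x + sh a b v ∉ arcC c (9 / N')) ∧
    (∀ z z', ‖z - z'‖ ≤ 1 / (N' : ℝ) → |ψ N z - ψ N z'| ≤ 1 / (1000 * (D N : ℝ) * N)) ∧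
    (∀ z, |∑ v ∈ (Finset.Ico (0 : ℤ) N') ×ˢ (Finset.Ico (0 : ℤ) N'),
        ((if rot (sh a b v) z ∈ P N then 1 else 0 : ℝ) -
          (if rot (sh a b (v - ((D N : ℤ), 0))) z ∈ P N then 1 else 0))| ≤ N' / (16 * N) +
        ∑ v ∈ (Finset.Ico (-(D N : ℤ)) 0) ×ˢ (Finset.Ico (0 : ℤ) N'), ψ N (rot (sh a b v) z))
  have hr : ∀ N, 1000 ≤ N → Hit a N → ∃ N1 : ℕ, ∀ N' : ℕ, N1 ≤ N' → r N N' := by
    intro N hN hH
    obtain ⟨hD1, hD2, -⟩ := hD N (by omega) hH
    obtain ⟨hψc, hψs, hψ0, -, hψi⟩ := hψ N hN hH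
    obtain ⟨η, hη, hηs⟩ := d4_small hfree
      ((Finset.Icc (-(2 * (N : ℤ))) (2 * N)) ×ˢ (Finset.Icc (-(2 * (N : ℤ))) (2 * N)))
    obtain ⟨M1, hM1⟩ := exists_nat_gt (9 / η)
    have hN0 : (0 : ℝ) < N := by exact_mod_cast (by omega : 0 < N)
    have hD0 : (0 : ℝ) < D N := by exact_mod_cast (by omega : 0 < D N)
    have huc : UniformContinuous (ψ N) := hψs.uniformContinuous_of_continuous hψc
    obtain ⟨δ, hδ, hδu⟩ := Metric.uniformContinuous_iff.mp huc (1 / (1000 * (D N : ℝ) * N))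
      (by positivity)
    obtain ⟨M2, hM2⟩ := exists_nat_gt (1 / δ)
    refine ⟨max (4 * N) (max (N0 N) (max M1 (max M2 1))), fun N' hN' => ?_⟩
    have h1 : 4 * N ≤ N' := (le_max_left _ _).trans hN'
    have h2' := (le_max_right _ _).trans hN'
    have h2 : N0 N ≤ N' := (le_max_left _ _).trans h2'
    have h3' := (le_max_right _ _).trans h2'
    have h3 : M1 ≤ N' := (le_max_left _ _).trans h3'
    have h4' := (le_max_right _ _).trans h3'
    have hM2' : M2 ≤ N' := (le_max_left _ _).trans h4'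
    have h4 : 1 ≤ N' := (le_max_right _ _).trans h4'
    have h7 : (0 : ℝ) < N' := by exact_mod_cast h4
    refine ⟨h1, ?_, ?_, ?_⟩
    · intro v hv hv0 x c hx hx'
      have h5 := d4_arc hx hx'
      have h6 := hηs v (by
        obtain ⟨ha, hb⟩ := hv
        simp only [Finset.mem_product, Finset.mem_Icc]
        exact ⟨abs_le.1 ha, abs_le.1 hb⟩) hv0
      have h8 : (9 / η : ℝ) < N' := hM1.trans_le (by exact_mod_cast h3)
      have h9 : 9 / (N' : ℝ) < η := by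
        rw [div_lt_iff₀ hη] at h8
        rw [div_lt_iff₀ h7]
        linarith [mul_comm η (N' : ℝ)]
      linarith
    · intro z z' hzz
      have h8 : (1 / δ : ℝ) < N' := hM2.trans_le (by exact_mod_cast hM2')
      have h9 : 1 / (N' : ℝ) < δ := by
        rw [div_lt_iff₀ hδ] at h8
        rw [div_lt_iff₀ h7]
        linarith [mul_comm δ (N' : ℝ)]
      have h10 := hδu (a := z) (b := z') (by rw [dist_eq_norm]; linarith)
      rw [Real.dist_eq] at h10
      exact h10.le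
    · intro z
      exact d4_ineq a b (P N) (ψ N) hψ0 N (D N) (by omega) (by omega) N' (hψi N' h2) z
  obtain ⟨f, hf1, hf2⟩ := exists_seq_of_forall_finset_exists
    (fun N : ℕ => 1000 ≤ N ∧ Hit a N) r (by
      intro s hs
      have h1 : ∀ N : ℕ, ∃ N1 : ℕ, N ∈ s → ∀ N' : ℕ, N1 ≤ N' → r N N' := by
        intro N
        by_cases hN : N ∈ s
        · obtain ⟨N1, h⟩ := hr N (hs N hN).1 (hs N hN).2
          exact ⟨N1, fun _ => h⟩
        · exact ⟨0, fun h => absurd h hN⟩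
      choose N1 hN1 using h1
      obtain ⟨M, hM, hH⟩ := hhit (max 1000 (s.sup N1))
      refine ⟨M, ⟨(le_max_left _ _).trans hM, hH⟩, fun N hN => ?_⟩
      exact hN1 N hN M ((Finset.le_sup hN).trans ((le_max_right _ _).trans hM)))
  have hf1' : ∀ k, 1 ≤ f k := fun k => le_trans (by norm_num) (hf1 k).1
  refine ⟨f, fun k => D (f k), fun k => B (f k), fun k => P0 (f k), fun k => P (f k),
    fun k => ψ (f k),
    (hf1 0).1, fun k => (hf2 k (k + 1) (Nat.lt_succ_self k)).1, fun k => (hf1 k).2, ?_, ?_,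
    fun k => (hB (f k) (hf1' k)).2.1, ?_, fun k => (hB (f k) (hf1' k)).2.2.2.2,
    fun k z => hP0 (f k) z, fun k => hP0o _ (hf1' k), fun k => hP0f _ (hf1' k), fun k => rfl,
    fun j => (hψ (f j) (hf1 j).1 (hf1 j).2).1, fun j => (hψ (f j) (hf1 j).1 (hf1 j).2).2.1,
    fun j => (hψ (f j) (hf1 j).1 (hf1 j).2).2.2.1, fun j => (hψ (f j) (hf1 j).1 (hf1 j).2).2.2.2.1,
    fun j k hjk => (hf2 j k hjk).2.2.1,
    fun j k hjk => (hf2 j k hjk).2.2.2, fun k => (hf2 k (k + 1) (Nat.lt_succ_self k)).2.1⟩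
  · intro k
    have h := hD (f k) (le_trans (by norm_num) (hf1 k).1) (hf1 k).2
    exact ⟨h.1, h.2.1⟩
  · intro k
    exact (hD (f k) (le_trans (by norm_num) (hf1 k).1) (hf1 k).2).2.2
  · intro k x hx v hv
    refine (hB (f k) (hf1' k)).2.2.2.1 x hx v ?_
    push_cast
    exact hv

end D4
end Geo

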