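import Pool.Agent.Helper183.Geo.Base

set_option autoImplicit false
open MeasureTheory Set
namespace Geo
namespace D5

open scoped ComplexConjugate

/-- indicator function -/
noncomputable def ind (A : Set ℂ) (z : ℂ) : ℝ := A.indicator 1 z

theorem ind_nonneg (A : Set ℂ) (z : ℂ) : 0 ≤ ind A z :=
  Set.indicator_nonneg (fun _ _ => zero_le_one) z

theorem ind_of_mem {A : Set ℂ} {z : ℂ} (h : z ∈ A) : ind A z = 1 := Set.indicator_of_mem h _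

theorem ind_of_notMem {A : Set ℂ} {z : ℂ} (h : z ∉ A) : ind A z = 0 := Set.indicator_of_notMem h _

/-- integrable with integral at most `c` -/
def IB (F : ℂ → ℝ) (c : ℝ) : Prop := Integrable F ∧ ∫ z, F z ≤ c

theorem IB.mono {F : ℂ → ℝ} {c d : ℝ} (h : IB F c) (hcd : c ≤ d) : IB F d := ⟨h.1, h.2.trans hcd⟩

theorem IB.add {F G : ℂ → ℝ} {c d : ℝ} (hF : IB F c) (hG : IB G d) :
    IB (fun z => F z + G z) (c + d) := by
  refine ⟨hF.1.add hG.1, ?_⟩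
  rw [integral_add hF.1 hG.1]
  exact add_le_add hF.2 hG.2

theorem IB.const_mul {F : ℂ → ℝ} {c a : ℝ} (ha : 0 ≤ a) (hF : IB F c) :
    IB (fun z => a * F z) (a * c) := by
  refine ⟨hF.1.const_mul a, ?_⟩
  rw [integral_const_mul]
  exact mul_le_mul_of_nonneg_left hF.2 ha

theorem IB.sum {ι : Type} (s : Finset ι) (F : ι → ℂ → ℝ) (c : ι → ℝ)
    (h : ∀ i ∈ s, IB (F i) (c i)) : IB (fun z => ∑ i ∈ s, F i z) (∑ i ∈ s, c i) := by
  refine ⟨integrable_finsetSum s (fun i hi => (h i hi).1), ?_⟩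
  rw [integral_finsetSum s (fun i hi => (h i hi).1)]
  exact Finset.sum_le_sum (fun i hi => (h i hi).2)

theorem IB.sum_const {ι : Type} (s : Finset ι) (F : ι → ℂ → ℝ) (c : ℝ)
    (h : ∀ i ∈ s, IB (F i) c) : IB (fun z => ∑ i ∈ s, F i z) (s.card * c) := by
  have h1 := IB.sum s F (fun _ => c) h
  rwa [Finset.sum_const, nsmul_eq_mul] at h1

theorem mp_rot (θ : S) : MeasurePreserving (rot θ) (volume : Measure ℂ) volume := by
  have h := LinearIsometryEquiv.measurePreserving (rotation (AddCircle.toCircle θ))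
  exact h

theorem mp_conj : MeasurePreserving (fun z : ℂ => conj z) (volume : Measure ℂ) volume := by
  have h := LinearIsometryEquiv.measurePreserving Complex.conjLIE
  exact h

theorem mp_add (t : ℂ) : MeasurePreserving (fun z : ℂ => z + t) (volume : Measure ℂ) volume :=
  measurePreserving_add_right volume t

theorem IB.comp {F : ℂ → ℝ} {c : ℝ} (hF : IB F c) (g : ℂ → ℂ)
    (hg : MeasurePreserving g (volume : Measure ℂ) volume) : IB (fun z => F (g z)) c := by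
  refine ⟨hg.integrable_comp_of_integrable hF.1, ?_⟩
  have h1 : ∫ z, F (g z) = ∫ z, F z := by
    rw [← integral_map hg.measurable.aemeasurable]
    · rw [hg.map_eq]
    · rw [hg.map_eq]
      exact hF.1.aestronglyMeasurable
  rw [h1]
  exact hF.2

theorem IB_ind (A : Set ℂ) (hA : MeasurableSet A) (hfin : volume A ≠ ⊤) :
    IB (ind A) (volume.real A) := by
  have h1 : Integrable (A.indicator (1 : ℂ → ℝ)) := by
    rw [integrable_indicator_iff hA]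
    exact integrableOn_const hfin
  exact ⟨h1, (integral_indicator_one hA).le⟩

theorem IB_cc (F : ℂ → ℝ) (hc : Continuous F) (hs : HasCompactSupport F) (c : ℝ)
    (hi : ∫ z, F z ≤ c) : IB F c := ⟨hc.integrable_of_hasCompactSupport hs, hi⟩

/-- open annulus -/
def AA (α β : ℝ) : Set ℂ := {w | α < ‖w‖ ∧ ‖w‖ < β}

theorem AA_open (α β : ℝ) : IsOpen (AA α β) :=
  (isOpen_lt continuous_const continuous_norm).inter (isOpen_lt continuous_norm continuous_const)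

theorem AA_fin (α β : ℝ) : volume (AA α β) ≠ ⊤ := by
  have h : AA α β ⊆ Metric.ball (0 : ℂ) β := by
    intro w hw
    rw [mem_ball_zero_iff]
    exact hw.2
  exact ne_top_of_le_ne_top (by
    rw [Complex.volume_ball]
    exact ENNReal.mul_ne_top (ENNReal.pow_ne_top ENNReal.ofReal_ne_top) ENNReal.coe_ne_top)
    (measure_mono h)

theorem AA_vol {α β : ℝ} (h0 : 0 ≤ α) (h1 : α < β) :
    volume.real (AA α β) = Real.pi * (β ^ 2 - α ^ 2) := by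
  have h2 : AA α β = Metric.ball (0 : ℂ) β \ Metric.closedBall (0 : ℂ) α := by
    ext w
    simp only [AA, Set.mem_ofPred_eq, Set.mem_sdiff, mem_ball_zero_iff, mem_closedBall_zero_iff, not_le]
    exact and_comm
  have h3 : Metric.closedBall (0 : ℂ) α ⊆ Metric.ball (0 : ℂ) β :=
    Metric.closedBall_subset_ball h1
  rw [h2, measureReal_sdiff h3 Metric.isClosed_closedBall.measurableSet (by
    rw [Complex.volume_ball]
    exact ENNReal.mul_ne_top (ENNReal.pow_ne_top ENNReal.ofReal_ne_top) ENNReal.coe_ne_top)]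
  unfold Measure.real
  rw [Complex.volume_ball, Complex.volume_closedBall, ENNReal.toReal_mul, ENNReal.toReal_mul,
    ENNReal.toReal_pow, ENNReal.toReal_pow, ENNReal.toReal_ofReal h0,
    ENNReal.toReal_ofReal (h0.trans h1.le)]
  simp only [ENNReal.coe_toReal, NNReal.coe_real_pi]
  ring

theorem rot_sub (θ : S) (z z' : ℂ) : ‖rot θ z - rot θ z'‖ = ‖z - z'‖ := by
  unfold rot
  rw [← mul_sub, norm_mul, Circle.norm_coe, one_mul]

theorem conj_sub (z z' : ℂ) : ‖conj z - conj z'‖ = ‖z - z'‖ := by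
  rw [← map_sub, Complex.norm_conj]

theorem exists_mem_of_ae {U : Set ℂ} (hU : IsOpen U) (hne : U.Nonempty) {P : ℂ → Prop}
    (hP : ∀ᵐ z : ℂ, P z) : ∃ z ∈ U, P z := by
  by_contra hcon
  push Not at hcon
  have h1 : U ⊆ {z | ¬ P z} := fun z hz => hcon z hz
  have h2 : volume U = 0 := measure_mono_null h1 hP
  exact (hU.measure_pos volume hne).ne' h2

/-! the error terms -/

/-- correction term of the lower bound -/
noncomputable def PsiT (a b : ℝ) (M : ℕ) (D : ℕ → ℕ) (ψ : ℕ → ℂ → ℝ) (k : ℕ) (Y : Finset S) (w : ℂ) : ℝ :=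
  ∑ y ∈ Y, ∑ j ∈ Finset.range k,
        ∑ v ∈ (Finset.Ico (-(D j : ℤ)) 0) ×ˢ (Finset.Ico (0 : ℤ) M),
          (ψ j (rot (y + sh a b v) w) +
            ψ j (rot (sh a b v) ((starRingEnd ℂ) (rot (y + sh a b ((M : ℤ) - 1, (M : ℤ) - 1)) w))))

/-- correction term of the upper bound -/
noncomputable def ChiT (a b : ℝ) (M K : ℕ) (χ : ℂ → ℝ) (Y : Finset S) (w : ℂ) : ℝ :=
  ∑ y ∈ Y, ((∑ v ∈ (Finset.Ico (-K : ℤ) K) ×ˢ (Finset.Ico (0 : ℤ) M), χ (rot (y + sh a b v) w)) +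
          ∑ v ∈ (Finset.Ico (-K : ℤ) (M + K)) ×ˢ (Finset.Ico (-K : ℤ) K), χ (rot (y + sh a b v) w))

theorem PsiT_nonneg (a b : ℝ) (M : ℕ) (D : ℕ → ℕ) (ψ : ℕ → ℂ → ℝ) (hψ0 : ∀ j z, 0 ≤ ψ j z) (k : ℕ)
    (Y : Finset S) (w : ℂ) : 0 ≤ PsiT a b M D ψ k Y w :=
  Finset.sum_nonneg fun _ _ => Finset.sum_nonneg fun _ _ => Finset.sum_nonneg fun _ _ =>
    add_nonneg (hψ0 _ _) (hψ0 _ _)

theorem ChiT_nonneg (a b : ℝ) (M K : ℕ) (χ : ℂ → ℝ) (hχ0 : ∀ z, 0 ≤ χ z) (Y : Finset S) (w : ℂ) :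
    0 ≤ ChiT a b M K χ Y w :=
  Finset.sum_nonneg fun _ _ => add_nonneg (Finset.sum_nonneg fun _ _ => hχ0 _)
    (Finset.sum_nonneg fun _ _ => hχ0 _)

theorem card_psi (D M : ℕ) : (((Finset.Ico (-(D : ℤ)) 0) ×ˢ (Finset.Ico (0 : ℤ) M)).card : ℝ) = D * M := by
  rw [Finset.card_product, Int.card_Ico, Int.card_Ico]
  have h1 : ((0 : ℤ) - -(D : ℤ)).toNat = D := by omega
  have h2 : ((M : ℤ) - 0).toNat = M := by omega
  rw [h1, h2]
  push_cast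
  ring

theorem psi_total (N D : ℕ → ℕ) (hN0 : 1000 ≤ N 0) (hN : ∀ k, 4 * N k ≤ N (k + 1))
    (hD : ∀ k, 2 * N k ≤ D k ∧ D k < 3 * N k) (k : ℕ) (M : ℕ) :
    ∑ j ∈ Finset.range k, ((D j : ℝ) * M) * (2 * (1 / (1000 * (D j : ℝ) * N j))) ≤ M / 100 := by
  have hNj : ∀ j, 1000 * 2 ^ j ≤ N j := by
    intro j
    induction j with
    | zero => simpa using hN0
    | succ j ih =>
      have := hN j
      rw [pow_succ]
      omega
  have h1 : ∀ j, ((D j : ℝ) * M) * (2 * (1 / (1000 * (D j : ℝ) * N j))) ≤ M / 1000 * (1 / 2) ^ j := by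
    intro j
    have h2 : (0 : ℝ) < N j := by
      have := hNj j
      have h3 : 0 < 1000 * 2 ^ j := by positivity
      exact_mod_cast (by omega : 0 < N j)
    have h4 : (0 : ℝ) < D j := by
      have h5 := (hD j).1
      have h6 : 0 < N j := by exact_mod_cast h2
      exact_mod_cast (by omega : 0 < D j)
    have h7 : (1000 : ℝ) * 2 ^ j ≤ N j := by exact_mod_cast hNj j
    have h8 : ((D j : ℝ) * M) * (2 * (1 / (1000 * (D j : ℝ) * N j))) = M / 1000 * (2 / N j) := by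
      field_simp
    rw [h8]
    apply mul_le_mul_of_nonneg_left _ (by positivity)
    rw [div_le_iff₀ h2, one_div, inv_pow]
    have h9 : (0 : ℝ) < 2 ^ j := by positivity
    calc (2 : ℝ) ≤ 1000 := by norm_num
      _ = (2 ^ j)⁻¹ * (1000 * 2 ^ j) := by field_simp
      _ ≤ (2 ^ j)⁻¹ * N j := mul_le_mul_of_nonneg_left h7 (by positivity)
  calc ∑ j ∈ Finset.range k, ((D j : ℝ) * M) * (2 * (1 / (1000 * (D j : ℝ) * N j)))
      ≤ ∑ j ∈ Finset.range k, (M : ℝ) / 1000 * (1 / 2) ^ j := Finset.sum_le_sum fun j _ => h1 j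
    _ = (M : ℝ) / 1000 * ∑ j ∈ Finset.range k, (1 / 2 : ℝ) ^ j := by rw [Finset.mul_sum]
    _ ≤ (M : ℝ) / 1000 * 2 := by
        apply mul_le_mul_of_nonneg_left _ (by positivity)
        exact sum_geometric_two_le k
    _ ≤ M / 100 := by
        have : (0 : ℝ) ≤ M := Nat.cast_nonneg M
        linarith

theorem PsiT_near (a b : ℝ) (N D : ℕ → ℕ) (hN0 : 1000 ≤ N 0) (hN : ∀ k, 4 * N k ≤ N (k + 1))
    (hD : ∀ k, 2 * N k ≤ D k ∧ D k < 3 * N k) (ψ : ℕ → ℂ → ℝ)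
    (hψu : ∀ j k, j < k → ∀ z z', ‖z - z'‖ ≤ 1 / (N k : ℝ) → |ψ j z - ψ j z'| ≤ 1 / (1000 * (D j : ℝ) * N j))
    (k : ℕ) (Y : Finset S) (w w0 : ℂ) (hw : ‖w - w0‖ ≤ 1 / (N k : ℝ)) :
    PsiT a b (N k) D ψ k Y w ≤ PsiT a b (N k) D ψ k Y w0 + Y.card * ((N k : ℝ) / 100) := by
  have h1 : PsiT a b (N k) D ψ k Y w ≤ PsiT a b (N k) D ψ k Y w0 +
      ∑ y ∈ Y, ∑ j ∈ Finset.range k, ((D j : ℝ) * (N k : ℕ)) * (2 * (1 / (1000 * (D j : ℝ) * N j))) := by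
    unfold PsiT
    rw [← Finset.sum_add_distrib]
    refine Finset.sum_le_sum fun y _ => ?_
    rw [← Finset.sum_add_distrib]
    refine Finset.sum_le_sum fun j hj => ?_
    have hjk : j < k := Finset.mem_range.1 hj
    rw [← card_psi (D j) (N k), ← nsmul_eq_mul, ← Finset.sum_const, ← Finset.sum_add_distrib]
    refine Finset.sum_le_sum fun v _ => ?_
    have h2 := hψu j k hjk (rot (y + sh a b v) w) (rot (y + sh a b v) w0) (by rw [rot_sub]; exact hw)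
    have h3 := hψu j k hjk
      (rot (sh a b v) ((starRingEnd ℂ) (rot (y + sh a b ((N k : ℤ) - 1, (N k : ℤ) - 1)) w)))
      (rot (sh a b v) ((starRingEnd ℂ) (rot (y + sh a b ((N k : ℤ) - 1, (N k : ℤ) - 1)) w0)))
      (by rw [rot_sub, conj_sub, rot_sub]; exact hw)
    have h4 := (abs_le.1 h2).2
    have h5 := (abs_le.1 h3).2
    linarith
  refine h1.trans ?_
  rw [Finset.sum_const, nsmul_eq_mul]
  have h6 := psi_total N D hN0 hN hD k (N k)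
  have h7 : (0 : ℝ) ≤ Y.card := Nat.cast_nonneg _
  have h8 := mul_le_mul_of_nonneg_left h6 h7
  linarith

theorem PsiT_IB (a b : ℝ) (N D : ℕ → ℕ) (hN0 : 1000 ≤ N 0) (hN : ∀ k, 4 * N k ≤ N (k + 1))
    (hD : ∀ k, 2 * N k ≤ D k ∧ D k < 3 * N k) (ψ : ℕ → ℂ → ℝ)
    (hψc : ∀ j, Continuous (ψ j)) (hψs : ∀ j, HasCompactSupport (ψ j))
    (hψi : ∀ j, ∫ z, ψ j z ≤ 1 / (1000 * (D j : ℝ) * N j))
    (k : ℕ) (M : ℕ) (Y : Finset S) (t : ℂ) :
    IB (fun z => PsiT a b M D ψ k Y (z + t)) (Y.card * ((M : ℝ) / 100)) := by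
  have h1 : IB (fun z => PsiT a b M D ψ k Y (z + t))
      (Y.card * ∑ j ∈ Finset.range k, ((D j : ℝ) * M) * (2 * (1 / (1000 * (D j : ℝ) * N j)))) := by
    unfold PsiT
    apply IB.sum_const
    intro y _
    apply IB.sum
    intro j _
    rw [← card_psi (D j) M]
    apply IB.sum_const
    intro v _
    have h2 := IB_cc (ψ j) (hψc j) (hψs j) _ (hψi j)
    rw [two_mul]
    apply IB.add
    · exact h2.comp (fun z => rot (y + sh a b v) (z + t)) ((mp_rot _).comp (mp_add t))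
    · exact h2.comp (fun z => rot (sh a b v) ((starRingEnd ℂ)
        (rot (y + sh a b ((M : ℤ) - 1, (M : ℤ) - 1)) (z + t))))
        ((mp_rot _).comp (mp_conj.comp ((mp_rot _).comp (mp_add t))))
  refine h1.mono ?_
  exact mul_le_mul_of_nonneg_left (psi_total N D hN0 hN hD k M) (Nat.cast_nonneg _)

theorem card_chi1 (K M : ℕ) : (((Finset.Ico (-K : ℤ) K) ×ˢ (Finset.Ico (0 : ℤ) M)).card : ℝ) = 2 * K * M := by
  rw [Finset.card_product, Int.card_Ico, Int.card_Ico]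
  have h1 : ((K : ℤ) - -(K : ℤ)).toNat = 2 * K := by omega
  have h2 : ((M : ℤ) - 0).toNat = M := by omega
  rw [h1, h2]
  push_cast
  ring

theorem card_chi2 (K M : ℕ) : (((Finset.Ico (-K : ℤ) (M + K)) ×ˢ (Finset.Ico (-K : ℤ) K)).card : ℝ) =
    (M + 2 * K) * (2 * K) := by
  rw [Finset.card_product, Int.card_Ico, Int.card_Ico]
  have h1 : ((K : ℤ) - -(K : ℤ)).toNat = 2 * K := by omega
  have h2 : ((M : ℤ) + K - -(K : ℤ)).toNat = M + 2 * K := by omega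
  rw [h1, h2]
  push_cast
  ring

theorem chi_total (K M : ℕ) (hKM : 4 * K ≤ M) (ε : ℝ) (hε : 0 ≤ ε) :
    (2 * K * M : ℝ) * ε + ((M + 2 * K) * (2 * K) : ℝ) * ε ≤ 8 * K * M * ε := by
  have h1 : (4 : ℝ) * K ≤ M := by exact_mod_cast hKM
  have h2 : (0 : ℝ) ≤ K := Nat.cast_nonneg _
  have h3 : (2 * K * M : ℝ) + ((M + 2 * K) * (2 * K) : ℝ) ≤ 8 * K * M := by nlinarith
  nlinarith [mul_le_mul_of_nonneg_right h3 hε]

theorem ChiT_near (a b : ℝ) (M K : ℕ) (hKM : 4 * K ≤ M) (ε : ℝ) (hε : 0 ≤ ε) (χ : ℂ → ℝ)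
    (hχu : ∀ z z', ‖z - z'‖ ≤ 1 / (M : ℝ) → |χ z - χ z'| ≤ ε)
    (Y : Finset S) (w w0 : ℂ) (hw : ‖w - w0‖ ≤ 1 / (M : ℝ)) :
    ChiT a b M K χ Y w ≤ ChiT a b M K χ Y w0 + Y.card * (8 * K * M * ε) := by
  have key : ∀ (θ : S), χ (rot θ w) ≤ χ (rot θ w0) + ε := by
    intro θ
    have h2 := hχu (rot θ w) (rot θ w0) (by rw [rot_sub]; exact hw)
    linarith [(abs_le.1 h2).2]
  have h1 : ChiT a b M K χ Y w ≤ ChiT a b M K χ Y w0 +
      ∑ y ∈ Y, ((2 * K * M : ℝ) * ε + ((M + 2 * K) * (2 * K) : ℝ) * ε) := by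
    unfold ChiT
    rw [← Finset.sum_add_distrib]
    refine Finset.sum_le_sum fun y _ => ?_
    have h2 : ∑ v ∈ (Finset.Ico (-K : ℤ) K) ×ˢ (Finset.Ico (0 : ℤ) M), χ (rot (y + sh a b v) w) ≤
        ∑ v ∈ (Finset.Ico (-K : ℤ) K) ×ˢ (Finset.Ico (0 : ℤ) M), χ (rot (y + sh a b v) w0) +
        (2 * K * M : ℝ) * ε := by
      rw [← card_chi1 K M, ← nsmul_eq_mul, ← Finset.sum_const, ← Finset.sum_add_distrib]
      exact Finset.sum_le_sum fun v _ => key _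
    have h3 : ∑ v ∈ (Finset.Ico (-K : ℤ) (M + K)) ×ˢ (Finset.Ico (-K : ℤ) K), χ (rot (y + sh a b v) w) ≤
        ∑ v ∈ (Finset.Ico (-K : ℤ) (M + K)) ×ˢ (Finset.Ico (-K : ℤ) K), χ (rot (y + sh a b v) w0) +
        ((M + 2 * K) * (2 * K) : ℝ) * ε := by
      rw [← card_chi2 K M, ← nsmul_eq_mul, ← Finset.sum_const, ← Finset.sum_add_distrib]
      exact Finset.sum_le_sum fun v _ => key _
    linarith
  refine h1.trans ?_
  rw [Finset.sum_const, nsmul_eq_mul]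
  have h6 := chi_total K M hKM ε hε
  have h7 : (0 : ℝ) ≤ Y.card := Nat.cast_nonneg _
  have h8 := mul_le_mul_of_nonneg_left h6 h7
  linarith

theorem ChiT_IB (a b : ℝ) (M K : ℕ) (hKM : 4 * K ≤ M) (ε : ℝ) (hε : 0 ≤ ε) (χ : ℂ → ℝ)
    (hχc : Continuous χ) (hχs : HasCompactSupport χ) (hχi : ∫ z, χ z ≤ ε)
    (Y : Finset S) (t : ℂ) :
    IB (fun z => ChiT a b M K χ Y (z + t)) (Y.card * (8 * K * M * ε)) := by
  have h1 : IB (fun z => ChiT a b M K χ Y (z + t))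
      (Y.card * ((2 * K * M : ℝ) * ε + ((M + 2 * K) * (2 * K) : ℝ) * ε)) := by
    unfold ChiT
    apply IB.sum_const
    intro y _
    have h2 := IB_cc χ hχc hχs _ hχi
    apply IB.add
    · rw [← card_chi1 K M]
      apply IB.sum_const
      intro v _
      exact h2.comp (fun z => rot (y + sh a b v) (z + t)) ((mp_rot _).comp (mp_add t))
    · rw [← card_chi2 K M]
      apply IB.sum_const
      intro v _
      exact h2.comp (fun z => rot (y + sh a b v) (z + t)) ((mp_rot _).comp (mp_add t))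
  refine h1.mono ?_
  exact mul_le_mul_of_nonneg_left (chi_total K M hKM ε hε) (Nat.cast_nonneg _)

/-! the pointwise bound -/

/-- outer annulus -/
def A1 (M : ℕ) : Set ℂ := AA (1 - 1 / (M : ℝ)) (2 + 1 / (M : ℝ))

/-- inner annulus -/
def A2 (M : ℕ) : Set ℂ := AA (1 + 1 / (M : ℝ)) (2 - 1 / (M : ℝ))

theorem mem_A1 {M : ℕ} {z z0 t : ℂ} (hz : ‖z - z0‖ ≤ 1 / (M : ℝ)) (hlt : ‖z - z0‖ < 1 / (M : ℝ))
    (h : z + t ∈ Ann) : z0 + t ∈ A1 M := by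
  have h1 : |‖z + t‖ - ‖z0 + t‖| ≤ ‖z - z0‖ := by
    have := abs_norm_sub_norm_le (z + t) (z0 + t)
    rwa [add_sub_add_right_eq_sub] at this
  have h2 := abs_le.1 h1
  exact ⟨by linarith [h.1], by linarith [h.2]⟩

open Classical in
theorem ite_le_ind {M : ℕ} {z z0 t : ℂ} (hlt : ‖z - z0‖ < 1 / (M : ℝ)) :
    (if z + t ∈ Ann then 1 else 0 : ℝ) ≤ ind (A1 M) (z0 + t) := by
  split_ifs with h
  · rw [ind_of_mem (mem_A1 hlt.le hlt h)]
  · exact ind_nonneg _ _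

theorem sum_comm4 {r s : ℕ} (Y : Finset S) (B : Finset (ℤ × ℤ)) (g : Fin r → S → ℤ × ℤ → Fin s → ℝ) :
    ∑ n, ∑ y ∈ Y, ∑ v ∈ B, ∑ i, g n y v i = ∑ i, ∑ n, ∑ y ∈ Y, ∑ v ∈ B, g n y v i := by
  calc ∑ n, ∑ y ∈ Y, ∑ v ∈ B, ∑ i, g n y v i = ∑ n, ∑ y ∈ Y, ∑ i, ∑ v ∈ B, g n y v i := by
        refine Finset.sum_congr rfl fun n _ => Finset.sum_congr rfl fun y _ => ?_
        exact Finset.sum_comm
    _ = ∑ n, ∑ i, ∑ y ∈ Y, ∑ v ∈ B, g n y v i := by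
        refine Finset.sum_congr rfl fun n _ => ?_
        exact Finset.sum_comm
    _ = ∑ i, ∑ n, ∑ y ∈ Y, ∑ v ∈ B, g n y v i := Finset.sum_comm

/-- the upper bound for the moved pieces at `z0` -/
noncomputable def UpT (a b : ℝ) (M K : ℕ) (ε : ℝ) (χ : ℂ → ℝ) (Y : Finset S) {r : ℕ} (m : Fin r → ℂ)
    (c' : ℂ) (dom : S → ℤ × ℤ → Finset (Fin r)) (im : S → ℤ × ℤ → Finset (Fin r)) (z0 : ℂ) : ℝ :=
  (∑ n, (ChiT a b M K χ Y (z0 + m n) + (Y.card * (2 * K * ε * M + 2) + Y.card * (8 * K * M * ε)) *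
      ind (A1 M) (z0 + m n))) +
    ∑ y ∈ Y, ∑ v ∈ (Finset.Ico (0 : ℤ) M) ×ˢ (Finset.Ico (0 : ℤ) M),
      ((∑ n ∈ (dom y v)ᶜ, ind (A1 M) (z0 + (m n - rot (-(y + sh a b v)) c'))) +
        ∑ n ∈ (im y v)ᶜ, ind (A1 M) (z0 + m n))

open Classical in
theorem pw_up (a b : ℝ) (hup : UpStmt a b) (M K : ℕ) (hKM : 4 * K ≤ M) (ε : ℝ) (hε : 0 ≤ ε)
    (Q : Set ℂ) (hQ : Q ⊆ Ann) (χ : ℂ → ℝ) (hχ0 : ∀ z, 0 ≤ χ z)
    (hχr : ∀ (z : ℂ) (θ θ' : S),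
      |(∑ j ∈ Finset.range M, (if rot (θ + j • (a : S)) z ∈ Q then 1 else 0 : ℝ)) -
        ∑ j ∈ Finset.range M, (if rot (θ' + j • (a : S)) z ∈ Q then 1 else 0 : ℝ)| ≤
        ε * M + ∑ j ∈ Finset.range M, χ (rot (θ + j • (a : S)) z) ∧
      |(∑ j ∈ Finset.range M, (if rot (θ + j • (b : S)) z ∈ Q then 1 else 0 : ℝ)) -
        ∑ j ∈ Finset.range M, (if rot (θ' + j • (b : S)) z ∈ Q then 1 else 0 : ℝ)| ≤
        ε * M + ∑ j ∈ Finset.range M, χ (rot (θ + j • (b : S)) z))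
    (hχu : ∀ z z', ‖z - z'‖ ≤ 1 / (M : ℝ) → |χ z - χ z'| ≤ ε)
    (Y Yc : Finset S) (σ : S → S) (w : S → ℤ × ℤ) (ρ' : S) (hYc : Yc ⊆ Y) (hσ : ∀ y ∈ Yc, σ y ∈ Y)
    (hσi : Set.InjOn σ Yc)
    (hw : ∀ y ∈ Yc, y + ρ' = σ y + ((w y).1 • (a : S) + (w y).2 • (b : S)) ∧ |(w y).1| ≤ K ∧
      |(w y).2| ≤ K)
    (hcard : M ^ 2 * (Y \ Yc).card ≤ Y.card)
    (r : ℕ) (m : Fin r → ℂ) (c' : ℂ) (dom : S → ℤ × ℤ → Finset (Fin r))
    (τ : S → ℤ × ℤ → Fin r → Fin r)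
    (hτ : ∀ y ∈ Y, ∀ v ∈ (Finset.Ico (0 : ℤ) M) ×ˢ (Finset.Ico (0 : ℤ) M), Set.InjOn (τ y v) (dom y v) ∧
      ∀ n ∈ dom y v, m (τ y v n) = m n - rot (-(y + sh a b v)) c')
    (z z0 : ℂ) (hlt : ‖z - z0‖ < 1 / (M : ℝ)) :
    (∑ n, ∑ y ∈ Y, ∑ v ∈ (Finset.Ico (0 : ℤ) M) ×ˢ (Finset.Ico (0 : ℤ) M),
      ((if rot (y + sh a b v) (z + m n) ∈ Q then 1 else 0 : ℝ) -
        (if rot ρ' (rot (y + sh a b v) (z + m n) - c') ∈ Q then 1 else 0))) ≤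
    UpT a b M K ε χ Y m c' dom (fun y v => (dom y v).image (τ y v)) z0 := by
  have h0 := hup M K ε hε Q hQ χ hχ0 hχr Y Yc σ w ρ' hYc hσ hσi hw hcard r m c' dom τ hτ z
  refine (le_abs_self _).trans (h0.trans ?_)
  unfold UpT
  apply add_le_add
  · refine Finset.sum_le_sum fun n _ => ?_
    split_ifs with h
    · rw [ind_of_mem (mem_A1 hlt.le hlt h), mul_one]
      have h1 := ChiT_near a b M K hKM ε hε χ hχu Y (z + m n) (z0 + m n)
        (by rw [add_sub_add_right_eq_sub]; exact hlt.le)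
      have h2 : ChiT a b M K χ Y (z + m n) = ∑ y ∈ Y, ((∑ v ∈ (Finset.Ico (-K : ℤ) K) ×ˢ
          (Finset.Ico (0 : ℤ) M), χ (rot (y + sh a b v) (z + m n))) +
          ∑ v ∈ (Finset.Ico (-K : ℤ) (M + K)) ×ˢ (Finset.Ico (-K : ℤ) K),
            χ (rot (y + sh a b v) (z + m n))) := rfl
      rw [← h2]
      linarith
    · have h1 := ChiT_nonneg a b M K χ hχ0 Y (z0 + m n)
      have h2 := ind_nonneg (A1 M) (z0 + m n)
      have h3 : (0 : ℝ) ≤ Y.card := Nat.cast_nonneg _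
      positivity
  · refine Finset.sum_le_sum fun y _ => Finset.sum_le_sum fun v _ => ?_
    apply add_le_add
    · refine Finset.sum_le_sum fun n _ => ?_
      rw [add_sub_assoc]
      exact ite_le_ind hlt
    · exact Finset.sum_le_sum fun n _ => ite_le_ind hlt

/-- the bound at `z0` -/
noncomputable def EE (a b : ℝ) (M : ℕ) (D : ℕ → ℕ) (ψ : ℕ → ℂ → ℝ) (k K : ℕ) (ε : ℝ) {s : ℕ}
    (χ : Fin s → ℂ → ℝ) (Y : Finset S) {r : ℕ} (m : Fin r → ℂ) (c : Fin s → ℂ)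
    (dom : Fin s → S → ℤ × ℤ → Finset (Fin r)) (im : Fin s → S → ℤ × ℤ → Finset (Fin r)) (z0 : ℂ) : ℝ :=
  800 * (M : ℝ) * Y.card * (∑ n, ind (A1 M \ A2 M) (z0 + m n)) +
   (∑ n, (PsiT a b M D ψ k Y (z0 + m n) + (Y.card * ((M : ℝ) / 100)) * ind (A1 M) (z0 + m n))) +
   ∑ i, UpT a b M K ε (χ i) Y m (c i) (dom i) (im i) z0

open Classical in
theorem pointwise (a b : ℝ) (hup : UpStmt a b) (N D : ℕ → ℕ) (hN0 : 1000 ≤ N 0)
    (hN : ∀ k, 4 * N k ≤ N (k + 1)) (hD : ∀ k, 2 * N k ≤ D k ∧ D k < 3 * N k)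
    (ψ : ℕ → ℂ → ℝ)
    (hψ0 : ∀ j z, 0 ≤ ψ j z)
    (hψu : ∀ j k, j < k → ∀ z z', ‖z - z'‖ ≤ 1 / (N k : ℝ) → |ψ j z - ψ j z'| ≤ 1 / (1000 * (D j : ℝ) * N j))
    (f : ℂ → ℝ) (s : ℕ) (Q : Fin s → Set ℂ) (ρ : Fin s → S) (c : Fin s → ℂ) (hQ : ∀ i, Q i ⊆ Ann)
    (hid : ∀ᵐ z : ℂ, f z + f ((starRingEnd ℂ) z) =
        ∑ i, ((if z ∈ Q i then 1 else 0 : ℝ) - (if rot (ρ i) (z - c i) ∈ Q i then 1 else 0)))
    (k K : ℕ) (hKM : 4 * K ≤ N k)
    (ε : ℝ) (hε : 0 ≤ ε)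
    (χ : Fin s → ℂ → ℝ)
    (hχ0 : ∀ i z, 0 ≤ χ i z)
    (hχr : ∀ i, ∀ (z : ℂ) (θ θ' : S),
      |(∑ j ∈ Finset.range (N k), (if rot (θ + j • (a : S)) z ∈ Q i then 1 else 0 : ℝ)) -
        ∑ j ∈ Finset.range (N k), (if rot (θ' + j • (a : S)) z ∈ Q i then 1 else 0 : ℝ)| ≤
        ε * (N k : ℕ) + ∑ j ∈ Finset.range (N k), χ i (rot (θ + j • (a : S)) z) ∧
      |(∑ j ∈ Finset.range (N k), (if rot (θ + j • (b : S)) z ∈ Q i then 1 else 0 : ℝ)) -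
        ∑ j ∈ Finset.range (N k), (if rot (θ' + j • (b : S)) z ∈ Q i then 1 else 0 : ℝ)| ≤
        ε * (N k : ℕ) + ∑ j ∈ Finset.range (N k), χ i (rot (θ + j • (b : S)) z))
    (hχu : ∀ i z z', ‖z - z'‖ ≤ 1 / (N k : ℝ) → |χ i z - χ i z'| ≤ ε)
    (Y : Finset S)
    (Yc : Fin s → Finset S) (σ : Fin s → S → S) (w : Fin s → S → ℤ × ℤ)
    (hYc : ∀ i, Yc i ⊆ Y) (hσ : ∀ i, ∀ y ∈ Yc i, σ i y ∈ Y) (hσi : ∀ i, Set.InjOn (σ i) (Yc i))
    (hw : ∀ i, ∀ y ∈ Yc i, y + ρ i = σ i y + ((w i y).1 • (a : S) + (w i y).2 • (b : S)) ∧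
      |(w i y).1| ≤ K ∧ |(w i y).2| ≤ K)
    (hcard : ∀ i, (N k) ^ 2 * (Y \ Yc i).card ≤ Y.card)
    (r : ℕ) (m : Fin r → ℂ) (dom : Fin s → S → ℤ × ℤ → Finset (Fin r))
    (τ : Fin s → S → ℤ × ℤ → Fin r → Fin r)
    (hτ : ∀ i, ∀ y ∈ Y, ∀ v ∈ (Finset.Ico (0 : ℤ) (N k)) ×ˢ (Finset.Ico (0 : ℤ) (N k)),
      Set.InjOn (τ i y v) (dom i y v) ∧
      ∀ n ∈ dom i y v, m (τ i y v n) = m n - rot (-(y + sh a b v)) (c i))
    (z0 : ℂ)
    (hlow : ∃ U : Set ℂ, IsOpen U ∧ U.Nonempty ∧ U ⊆ Metric.ball z0 (1 / N k) ∧ ∀ᵐ z : ℂ, z ∈ U →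
      3 / 4 * (N k : ℝ) * Y.card * (∑ n, ind (A2 (N k)) (z0 + m n)) -
      800 * (N k : ℝ) * Y.card * (∑ n, ind (A1 (N k) \ A2 (N k)) (z0 + m n)) -
      (∑ n, if z + m n ∈ Ann then PsiT a b (N k) D ψ k Y (z + m n) else 0) ≤
      ∑ n, ∑ y ∈ Y, ∑ v ∈ (Finset.Ico (0 : ℤ) (N k)) ×ˢ (Finset.Ico (0 : ℤ) (N k)),
        (f (rot (y + sh a b v) (z + m n)) + f ((starRingEnd ℂ) (rot (y + sh a b v) (z + m n))))) :
    3 / 4 * (N k : ℝ) * Y.card * (∑ n, ind (A2 (N k)) (z0 + m n)) ≤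
      EE a b (N k) D ψ k K ε χ Y m c dom (fun i y v => (dom i y v).image (τ i y v)) z0 := by
  obtain ⟨U, hUo, hUne, hUb, hUae⟩ := hlow
  have hid2 : ∀ᵐ z : ℂ, ∀ (n : Fin r) (y : Y) (v : ℤ × ℤ),
      f (rot (y.1 + sh a b v) (z + m n)) + f ((starRingEnd ℂ) (rot (y.1 + sh a b v) (z + m n))) =
        ∑ i, ((if rot (y.1 + sh a b v) (z + m n) ∈ Q i then 1 else 0 : ℝ) -
          (if rot (ρ i) (rot (y.1 + sh a b v) (z + m n) - c i) ∈ Q i then 1 else 0)) := by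
    rw [ae_all_iff]
    intro n
    rw [ae_all_iff]
    intro y
    rw [ae_all_iff]
    intro v
    have hmp : MeasurePreserving (fun z => rot (y.1 + sh a b v) (z + m n)) (volume : Measure ℂ) volume :=
      (mp_rot _).comp (mp_add (m n))
    exact hmp.quasiMeasurePreserving.ae hid
  obtain ⟨z, hzU, hz1, hz2⟩ := exists_mem_of_ae hUo hUne (hUae.and hid2)
  have hz1 := hz1 hzU
  have hlt : ‖z - z0‖ < 1 / (N k : ℝ) := by
    have := hUb hzU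
    rwa [Metric.mem_ball, dist_eq_norm] at this
  have hsum : ∑ n, ∑ y ∈ Y, ∑ v ∈ (Finset.Ico (0 : ℤ) (N k)) ×ˢ (Finset.Ico (0 : ℤ) (N k)),
        (f (rot (y + sh a b v) (z + m n)) + f ((starRingEnd ℂ) (rot (y + sh a b v) (z + m n)))) ≤
      ∑ i, UpT a b (N k) K ε (χ i) Y m (c i) (dom i) (fun y v => (dom i y v).image (τ i y v)) z0 := by
    calc _ = ∑ n, ∑ y ∈ Y, ∑ v ∈ (Finset.Ico (0 : ℤ) (N k)) ×ˢ (Finset.Ico (0 : ℤ) (N k)),
          ∑ i, ((if rot (y + sh a b v) (z + m n) ∈ Q i then 1 else 0 : ℝ) -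
          (if rot (ρ i) (rot (y + sh a b v) (z + m n) - c i) ∈ Q i then 1 else 0)) := by
          refine Finset.sum_congr rfl fun n _ => Finset.sum_congr rfl fun y hy =>
            Finset.sum_congr rfl fun v _ => ?_
          exact hz2 n ⟨y, hy⟩ v
      _ = ∑ i, ∑ n, ∑ y ∈ Y, ∑ v ∈ (Finset.Ico (0 : ℤ) (N k)) ×ˢ (Finset.Ico (0 : ℤ) (N k)),
          ((if rot (y + sh a b v) (z + m n) ∈ Q i then 1 else 0 : ℝ) -
          (if rot (ρ i) (rot (y + sh a b v) (z + m n) - c i) ∈ Q i then 1 else 0)) :=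
          sum_comm4 Y _ _
      _ ≤ _ := by
          refine Finset.sum_le_sum fun i _ => ?_
          exact pw_up a b hup (N k) K hKM ε hε (Q i) (hQ i) (χ i) (hχ0 i) (hχr i) (hχu i) Y (Yc i)
            (σ i) (w i) (ρ i) (hYc i) (hσ i) (hσi i) (hw i) (hcard i) r m (c i) (dom i) (τ i) (hτ i)
            z z0 hlt
  have hpsi : (∑ n, if z + m n ∈ Ann then PsiT a b (N k) D ψ k Y (z + m n) else 0) ≤
      ∑ n, (PsiT a b (N k) D ψ k Y (z0 + m n) +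
        (Y.card * ((N k : ℝ) / 100)) * ind (A1 (N k)) (z0 + m n)) := by
    refine Finset.sum_le_sum fun n _ => ?_
    split_ifs with h
    · rw [ind_of_mem (mem_A1 hlt.le hlt h), mul_one]
      exact PsiT_near a b N D hN0 hN hD ψ hψu k Y (z + m n) (z0 + m n)
        (by rw [add_sub_add_right_eq_sub]; exact hlt.le)
    · have h1 := PsiT_nonneg a b (N k) D ψ hψ0 k Y (z0 + m n)
      have h2 := ind_nonneg (A1 (N k)) (z0 + m n)
      have h3 : (0 : ℝ) ≤ Y.card := Nat.cast_nonneg _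
      positivity
  unfold EE
  linarith

/-! integration -/

theorem V1_le {M : ℕ} (hM : 10 ^ 6 ≤ M) : volume.real (A1 M) ≤ 10 := by
  have hMR : (10 : ℝ) ^ 6 ≤ M := by exact_mod_cast hM
  have hM0 : (0 : ℝ) < M := by linarith [show (0 : ℝ) < 10 ^ 6 by norm_num]
  have h1 : 1 / (M : ℝ) ≤ 1 / 10 ^ 6 := one_div_le_one_div_of_le (by norm_num) hMR
  have h2 : 0 < 1 / (M : ℝ) := by positivity
  unfold A1
  rw [AA_vol (by linarith [show (1 : ℝ) / 10 ^ 6 ≤ 1 by norm_num]) (by linarith)]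
  have h3 : (2 + 1 / (M : ℝ)) ^ 2 - (1 - 1 / (M : ℝ)) ^ 2 = 3 + 6 * (1 / (M : ℝ)) := by ring
  rw [h3]
  have h4 := Real.pi_lt_d2
  have h5 := Real.pi_pos
  have h6 : 3 + 6 * (1 / (M : ℝ)) ≤ 3.001 := by
    have : (6 : ℝ) * (1 / 10 ^ 6) ≤ 0.001 := by norm_num
    linarith
  calc Real.pi * (3 + 6 * (1 / (M : ℝ))) ≤ 3.15 * 3.001 :=
        mul_le_mul h4.le h6 (by positivity) (by norm_num)
    _ ≤ 10 := by norm_num

theorem V2_ge {M : ℕ} (hM : 10 ^ 6 ≤ M) : 9 ≤ volume.real (A2 M) := by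
  have hMR : (10 : ℝ) ^ 6 ≤ M := by exact_mod_cast hM
  have hM0 : (0 : ℝ) < M := by linarith [show (0 : ℝ) < 10 ^ 6 by norm_num]
  have h1 : 1 / (M : ℝ) ≤ 1 / 10 ^ 6 := one_div_le_one_div_of_le (by norm_num) hMR
  have h2 : 0 < 1 / (M : ℝ) := by positivity
  unfold A2
  rw [AA_vol (by linarith) (by linarith [show (1 : ℝ) / 10 ^ 6 ≤ 1 / 4 by norm_num])]
  have h3 : (2 - 1 / (M : ℝ)) ^ 2 - (1 + 1 / (M : ℝ)) ^ 2 = 3 - 6 * (1 / (M : ℝ)) := by ring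
  rw [h3]
  have h4 := Real.pi_gt_d2
  have h6 : 2.999 ≤ 3 - 6 * (1 / (M : ℝ)) := by
    have : (6 : ℝ) * (1 / 10 ^ 6) ≤ 0.001 := by norm_num
    linarith
  calc (9 : ℝ) ≤ 3.14 * 2.999 := by norm_num
    _ ≤ Real.pi * (3 - 6 * (1 / (M : ℝ))) :=
        mul_le_mul h4.le h6 (by norm_num) Real.pi_pos.le

theorem A2_sub_A1 (M : ℕ) : A2 M ⊆ A1 M := by
  intro w hw
  have h : 0 ≤ 1 / (M : ℝ) := by positivity
  exact ⟨by linarith [hw.1], by linarith [hw.2]⟩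

theorem VB_le {M : ℕ} (hM : 10 ^ 6 ≤ M) : volume.real (A1 M \ A2 M) ≤ 40 / M := by
  have hMR : (10 : ℝ) ^ 6 ≤ M := by exact_mod_cast hM
  have hM0 : (0 : ℝ) < M := by linarith [show (0 : ℝ) < 10 ^ 6 by norm_num]
  have h1 : 1 / (M : ℝ) ≤ 1 / 10 ^ 6 := one_div_le_one_div_of_le (by norm_num) hMR
  have h2 : 0 < 1 / (M : ℝ) := by positivity
  rw [measureReal_sdiff (A2_sub_A1 M) (AA_open _ _).measurableSet (AA_fin _ _)]
  unfold A1 A2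
  rw [AA_vol (by linarith) (by linarith [show (1 : ℝ) / 10 ^ 6 ≤ 1 / 4 by norm_num]),
    AA_vol (by linarith [show (1 : ℝ) / 10 ^ 6 ≤ 1 by norm_num]) (by linarith)]
  have h3 : Real.pi * ((2 + 1 / (M : ℝ)) ^ 2 - (1 - 1 / (M : ℝ)) ^ 2) -
      Real.pi * ((2 - 1 / (M : ℝ)) ^ 2 - (1 + 1 / (M : ℝ)) ^ 2) = 12 * Real.pi / M := by
    field_simp
    ring
  rw [h3]
  have h4 := Real.pi_lt_d2
  apply div_le_div_of_nonneg_right _ hM0.le
  linarith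

theorem A1_IB {M : ℕ} (hM : 10 ^ 6 ≤ M) (t : ℂ) : IB (fun z => ind (A1 M) (z + t)) 10 :=
  ((IB_ind (A1 M) (AA_open _ _).measurableSet (AA_fin _ _)).mono (V1_le hM)).comp _ (mp_add t)

theorem AB_IB {M : ℕ} (hM : 10 ^ 6 ≤ M) (t : ℂ) :
    IB (fun z => ind (A1 M \ A2 M) (z + t)) (40 / M) :=
  ((IB_ind (A1 M \ A2 M) ((AA_open _ _).measurableSet.diff (AA_open _ _).measurableSet)
    (ne_top_of_le_ne_top (AA_fin _ _) (measure_mono Set.sdiff_subset))).mono (VB_le hM)).comp _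
    (mp_add t)

theorem card_box (M : ℕ) : (((Finset.Ico (0 : ℤ) M) ×ˢ (Finset.Ico (0 : ℤ) M)).card : ℝ) = (M : ℝ) ^ 2 := by
  rw [Finset.card_product, Int.card_Ico]
  have h2 : ((M : ℤ) - 0).toNat = M := by omega
  rw [h2]
  push_cast
  ring

theorem UpT_IB (a b : ℝ) (M K : ℕ) (hM : 10 ^ 6 ≤ M) (hKM : 4 * K ≤ M) (ε : ℝ) (hε : 0 ≤ ε) (χ : ℂ → ℝ)
    (hχc : Continuous χ) (hχs : HasCompactSupport χ) (hχi : ∫ z, χ z ≤ ε) (Y : Finset S) {r : ℕ}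
    (m : Fin r → ℂ) (c' : ℂ) (dom im : S → ℤ × ℤ → Finset (Fin r))
    (hdom : ∀ y ∈ Y, ∀ v ∈ (Finset.Ico (0 : ℤ) M) ×ˢ (Finset.Ico (0 : ℤ) M),
      M ^ 2 * (dom y v)ᶜ.card ≤ r ∧ M ^ 2 * (im y v)ᶜ.card ≤ r) :
    IB (UpT a b M K ε χ Y m c' dom im) (Y.card * r * (108 * K * M * ε + 40)) := by
  have hMR : (10 : ℝ) ^ 6 ≤ M := by exact_mod_cast hM
  have hM0 : (0 : ℝ) < M := by linarith [show (0 : ℝ) < 10 ^ 6 by norm_num]
  have h1 : IB (UpT a b M K ε χ Y m c' dom im)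
      (((Finset.univ : Finset (Fin r)).card : ℝ) * (Y.card * (8 * K * M * ε) +
        (Y.card * (2 * K * ε * M + 2) + Y.card * (8 * K * M * ε)) * 10) +
      Y.card * (((Finset.Ico (0 : ℤ) M) ×ˢ (Finset.Ico (0 : ℤ) M)).card *
        (r / (M : ℝ) ^ 2 * 10 + r / (M : ℝ) ^ 2 * 10))) := by
    unfold UpT
    apply IB.add
    · apply IB.sum_const
      intro n _
      apply IB.add
      · exact ChiT_IB a b M K hKM ε hε χ hχc hχs hχi Y (m n)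
      · exact IB.const_mul (by positivity) (A1_IB hM (m n))
    · apply IB.sum_const
      intro y hy
      apply IB.sum_const
      intro v hv
      obtain ⟨hd1, hd2⟩ := hdom y hy v hv
      have hd1' : ((dom y v)ᶜ.card : ℝ) ≤ r / (M : ℝ) ^ 2 := by
        rw [le_div_iff₀ (by positivity), mul_comm]
        exact_mod_cast hd1
      have hd2' : ((im y v)ᶜ.card : ℝ) ≤ r / (M : ℝ) ^ 2 := by
        rw [le_div_iff₀ (by positivity), mul_comm]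
        exact_mod_cast hd2
      apply IB.add
      · refine (IB.sum_const _ _ 10 (fun n _ => ?_)).mono
          (mul_le_mul_of_nonneg_right hd1' (by norm_num))
        exact A1_IB hM _
      · refine (IB.sum_const _ _ 10 (fun n _ => ?_)).mono
          (mul_le_mul_of_nonneg_right hd2' (by norm_num))
        exact A1_IB hM _
  refine h1.mono (le_of_eq ?_)
  rw [card_box, Finset.card_univ, Fintype.card_fin]
  field_simp
  ring

theorem EE_IB (a b : ℝ) (N D : ℕ → ℕ) (hN0 : 1000 ≤ N 0)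
    (hN : ∀ k, 4 * N k ≤ N (k + 1)) (hD : ∀ k, 2 * N k ≤ D k ∧ D k < 3 * N k)
    (ψ : ℕ → ℂ → ℝ) (hψc : ∀ j, Continuous (ψ j)) (hψs : ∀ j, HasCompactSupport (ψ j))
    (hψi : ∀ j, ∫ z, ψ j z ≤ 1 / (1000 * (D j : ℝ) * N j))
    (M : ℕ) (hM : 10 ^ 6 ≤ M) (k K : ℕ) (hKM : 4 * K ≤ M) (ε : ℝ) (hε : 0 ≤ ε) {s : ℕ}
    (χ : Fin s → ℂ → ℝ) (hχc : ∀ i, Continuous (χ i)) (hχs : ∀ i, HasCompactSupport (χ i))
    (hχi : ∀ i, ∫ z, χ i z ≤ ε) (Y : Finset S) {r : ℕ}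
    (m : Fin r → ℂ) (c : Fin s → ℂ) (dom im : Fin s → S → ℤ × ℤ → Finset (Fin r))
    (hdom : ∀ i, ∀ y ∈ Y, ∀ v ∈ (Finset.Ico (0 : ℤ) M) ×ˢ (Finset.Ico (0 : ℤ) M),
      M ^ 2 * (dom i y v)ᶜ.card ≤ r ∧ M ^ 2 * (im i y v)ᶜ.card ≤ r) :
    IB (EE a b M D ψ k K ε χ Y m c dom im)
      (Y.card * r * (32000 + 11 * (M / 100) + s * (108 * K * M * ε + 40))) := by
  have hMR : (10 : ℝ) ^ 6 ≤ M := by exact_mod_cast hM
  have hM0 : (0 : ℝ) < M := by linarith [show (0 : ℝ) < 10 ^ 6 by norm_num]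
  have h1 : IB (EE a b M D ψ k K ε χ Y m c dom im)
      (800 * (M : ℝ) * Y.card * (((Finset.univ : Finset (Fin r)).card : ℝ) * (40 / M)) +
        ((Finset.univ : Finset (Fin r)).card : ℝ) * (Y.card * ((M : ℝ) / 100) +
          (Y.card * ((M : ℝ) / 100)) * 10) +
        ((Finset.univ : Finset (Fin s)).card : ℝ) * (Y.card * r * (108 * K * M * ε + 40))) := by
    unfold EE
    apply IB.add
    · apply IB.add
      · apply IB.const_mul (by positivity)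
        apply IB.sum_const
        intro n _
        exact AB_IB hM (m n)
      · apply IB.sum_const
        intro n _
        apply IB.add
        · exact PsiT_IB a b N D hN0 hN hD ψ hψc hψs hψi k M Y (m n)
        · exact IB.const_mul (by positivity) (A1_IB hM (m n))
    · apply IB.sum_const
      intro i _
      exact UpT_IB a b M K hM hKM ε hε (χ i) (hχc i) (hχs i) (hχi i) Y m (c i) (dom i) (im i)
        (hdom i)
  refine h1.mono (le_of_eq ?_)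
  rw [Finset.card_univ, Finset.card_univ, Fintype.card_fin, Fintype.card_fin]
  field_simp
  ring

theorem LHS_int (M : ℕ) (hM : 10 ^ 6 ≤ M) (y : ℝ) (hy : 0 ≤ y) {r : ℕ} (m : Fin r → ℂ) :
    Integrable (fun z0 => 3 / 4 * (M : ℝ) * y * (∑ n, ind (A2 M) (z0 + m n))) ∧
    3 / 4 * (M : ℝ) * y * (r * 9) ≤ ∫ z0, 3 / 4 * (M : ℝ) * y * (∑ n, ind (A2 M) (z0 + m n)) := by
  have hi : ∀ n, Integrable (fun z0 => ind (A2 M) (z0 + m n)) := fun n =>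
    ((IB_ind (A2 M) (AA_open _ _).measurableSet (AA_fin _ _)).comp _ (mp_add (m n))).1
  have hs : Integrable (fun z0 => ∑ n, ind (A2 M) (z0 + m n)) :=
    integrable_finsetSum _ fun n _ => hi n
  refine ⟨hs.const_mul _, ?_⟩
  rw [integral_const_mul, integral_finsetSum _ fun n _ => hi n]
  apply mul_le_mul_of_nonneg_left _ (by positivity)
  have h1 : ∀ n, 9 ≤ ∫ z0, ind (A2 M) (z0 + m n) := by
    intro n
    rw [integral_add_right_eq_self (fun z => ind (A2 M) z) (m n)]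
    have h2 : ∫ z, ind (A2 M) z = volume.real (A2 M) :=
      integral_indicator_one (AA_open _ _).measurableSet
    rw [h2]
    exact V2_ge hM
  calc (r : ℝ) * 9 = ∑ n : Fin r, (9 : ℝ) := by simp
    _ ≤ _ := Finset.sum_le_sum fun n _ => h1 n

theorem final_num (M K s : ℕ) (hM : 10 ^ 6 * (s + 1) ≤ M) (ε : ℝ) (hε2 : (s : ℝ) * K * ε ≤ 1 / 1000)
    (y r : ℝ) (hy : 0 < y) (hr : 0 < r)
    (h : 3 / 4 * (M : ℝ) * y * (r * 9) ≤
      y * r * (32000 + 11 * (M / 100) + s * (108 * K * M * ε + 40))) : False := by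
  have hMR : (10 : ℝ) ^ 6 * (s + 1) ≤ M := by exact_mod_cast hM
  have hs0 : (0 : ℝ) ≤ s := Nat.cast_nonneg s
  have hM0 : (0 : ℝ) < M := by nlinarith
  have h1 : (s : ℝ) * (108 * K * M * ε + 40) = 108 * M * (s * K * ε) + 40 * s := by ring
  rw [h1] at h
  have h2 : 108 * (M : ℝ) * (s * K * ε) ≤ 108 * M * (1 / 1000) :=
    mul_le_mul_of_nonneg_left hε2 (by positivity)
  have h3 : 3 / 4 * (M : ℝ) * y * (r * 9) = y * r * (27 / 4 * M) := by ring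
  rw [h3] at h
  have h4 := le_of_mul_le_mul_left h (mul_pos hy hr)
  have h5 : (10 : ℝ) ^ 6 ≤ M := by nlinarith
  have h6 : (10 : ℝ) ^ 6 * s ≤ M := by nlinarith
  linarith

/-! final assembly -/

theorem card_ind {r : ℕ} (p : Fin r → Prop) [DecidablePred p] (A : Set ℂ) (g : Fin r → ℂ)
    (h : ∀ n, p n ↔ g n ∈ A) : ((Finset.univ.filter p).card : ℝ) = ∑ n, ind A (g n) := by
  rw [Finset.card_filter]
  push_cast
  refine Finset.sum_congr rfl fun n _ => ?_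
  by_cases hp : p n
  · rw [if_pos hp, ind_of_mem ((h n).1 hp)]
  · rw [if_neg hp, ind_of_notMem (fun hg => hp ((h n).2 hg))]

theorem T_card (M K s y : ℕ) (hM : 1 ≤ M) (hK : K ≤ M) (hs : s ≤ M) (hy : y ≤ K * M ^ K) :
    y ≤ M ^ (M + 1) ∧ s * (y * (M * M)) ≤ M ^ (M + 4) := by
  have h1 : K * M ^ K ≤ M * M ^ M := Nat.mul_le_mul hK (Nat.pow_le_pow_right hM hK)
  have h2 : y ≤ M ^ (M + 1) := by
    rw [pow_succ, mul_comm]
    exact hy.trans h1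
  refine ⟨h2, ?_⟩
  calc s * (y * (M * M)) ≤ M * (M ^ (M + 1) * (M * M)) :=
        Nat.mul_le_mul hs (Nat.mul_le_mul h2 le_rfl)
    _ = M ^ (M + 4) := by ring

open Classical in
/-- Nonexistence in the plane. -/
theorem ne2 (a b : ℝ) (hfree : Free a b) (hjord : JordStmt a b) (htr : TransStmt) (hup : UpStmt a b)
    (hwt : WeightStmt) (N D : ℕ → ℕ) (hN0 : 1000 ≤ N 0)
    (hN : ∀ k, 4 * N k ≤ N (k + 1)) (hD : ∀ k, 2 * N k ≤ D k ∧ D k < 3 * N k)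
    (ψ : ℕ → ℂ → ℝ) (hψc : ∀ j, Continuous (ψ j)) (hψs : ∀ j, HasCompactSupport (ψ j))
    (hψ0 : ∀ j z, 0 ≤ ψ j z) (hψi : ∀ j, ∫ z, ψ j z ≤ 1 / (1000 * (D j : ℝ) * N j))
    (hψu : ∀ j k, j < k → ∀ z z', ‖z - z'‖ ≤ 1 / (N k : ℝ) → |ψ j z - ψ j z'| ≤ 1 / (1000 * (D j : ℝ) * N j))
    (f : ℂ → ℝ)
    (hlow : ∀ (k : ℕ) (Y : Finset S), Y.card ≤ (N k) ^ (N k + 1) →
      (∀ y ∈ Y, ∀ y' ∈ Y, ∀ v, y' = y + sh a b v → y = y') →
      ∀ (r : ℕ) (m : Fin r → ℂ), r ≤ ((N k) ^ 2) ^ ((N k) ^ (N k + 4)) → ∀ z0 : ℂ,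
    ∃ U : Set ℂ, IsOpen U ∧ U.Nonempty ∧ U ⊆ Metric.ball z0 (1 / N k) ∧ ∀ᵐ z : ℂ, z ∈ U →
      3 / 4 * (N k : ℝ) * Y.card *
        (Finset.univ.filter (fun n => 1 + 1 / (N k : ℝ) < ‖z0 + m n‖ ∧ ‖z0 + m n‖ < 2 - 1 / (N k : ℝ))).card -
      800 * (N k : ℝ) * Y.card *
        (Finset.univ.filter (fun n => (1 - 1 / (N k : ℝ) < ‖z0 + m n‖ ∧ ‖z0 + m n‖ < 2 + 1 / (N k : ℝ)) ∧
          ¬ (1 + 1 / (N k : ℝ) < ‖z0 + m n‖ ∧ ‖z0 + m n‖ < 2 - 1 / (N k : ℝ)))).card -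
      (∑ n, if z + m n ∈ Ann then ∑ y ∈ Y, ∑ j ∈ Finset.range k,
        ∑ v ∈ (Finset.Ico (-(D j : ℤ)) 0) ×ˢ (Finset.Ico (0 : ℤ) (N k)),
          (ψ j (rot (y + sh a b v) (z + m n)) +
            ψ j (rot (sh a b v) ((starRingEnd ℂ) (rot (y + sh a b ((N k : ℤ) - 1, (N k : ℤ) - 1)) (z + m n)))))
        else 0) ≤
      ∑ n, ∑ y ∈ Y, ∑ v ∈ (Finset.Ico (0 : ℤ) (N k)) ×ˢ (Finset.Ico (0 : ℤ) (N k)),
        (f (rot (y + sh a b v) (z + m n)) + f ((starRingEnd ℂ) (rot (y + sh a b v) (z + m n))))) :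
    ¬ ∃ (s : ℕ) (Q : Fin s → Set ℂ) (ρ : Fin s → S) (c : Fin s → ℂ), (∀ i, Q i ⊆ Ann) ∧
      (∀ i, volume (frontier (Q i)) = 0) ∧
      ∀ᵐ z : ℂ, f z + f ((starRingEnd ℂ) z) =
        ∑ i, ((if z ∈ Q i then 1 else 0 : ℝ) - (if rot (ρ i) (z - c i) ∈ Q i then 1 else 0)) := by
  rintro ⟨s, Q, ρ, c, hQ, hfr, hid⟩
  obtain ⟨K, hK⟩ := htr (a : S) (b : S) (Finset.univ.image ρ)
  set ε : ℝ := 1 / (1000 * ((s : ℝ) + 1) * (K + 1)) with hεd
  have hε : 0 < ε := by positivity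
  have hε2 : (s : ℝ) * K * ε ≤ 1 / 1000 := by
    rw [hεd, mul_one_div, div_le_div_iff₀ (by positivity) (by norm_num)]
    have h1 : (0 : ℝ) ≤ s := Nat.cast_nonneg s
    have h2 : (0 : ℝ) ≤ K := Nat.cast_nonneg K
    nlinarith
  have hbd : ∀ i, Bornology.IsBounded (Q i) := fun i =>
    (Metric.isBounded_ball (x := (0 : ℂ)) (r := 2)).subset (fun z hz => by
      rw [mem_ball_zero_iff]
      exact (hQ i hz).2)
  choose χ N0 hχc hχs hχ0 hχi hχr using fun i => hjord (Q i) (hbd i) (hfr i) ε hε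
  have hunif : ∀ i, ∃ δ > 0, ∀ z z' : ℂ, dist z z' < δ → dist (χ i z) (χ i z') < ε := fun i => by
    have h1 := (hχs i).uniformContinuous_of_continuous (hχc i)
    obtain ⟨δ, hδ, h2⟩ := Metric.uniformContinuous_iff.1 h1 ε hε
    exact ⟨δ, hδ, fun z z' h => h2 h⟩
  choose δ hδ0 hδ using hunif
  have hNk : ∀ j, j + 1 ≤ N j := by
    intro j
    induction j with
    | zero => omega
    | succ j ih =>
      have := hN j
      omega
  set B : ℕ := 10 ^ 6 * (s + 1) + 4 * K + ∑ i, N0 i + ∑ i, (⌈1 / δ i⌉₊ + 1) with hB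
  have hBM : B ≤ N B := le_trans (Nat.le_succ B) (hNk B)
  have hM1 : 10 ^ 6 * (s + 1) ≤ N B := by omega
  have hM6 : 10 ^ 6 ≤ N B := by
    have : 10 ^ 6 * 1 ≤ 10 ^ 6 * (s + 1) := Nat.mul_le_mul_left _ (by omega)
    omega
  have hKM : 4 * K ≤ N B := by omega
  have hN0M : ∀ i, N0 i ≤ N B := by
    intro i
    have h1 : N0 i ≤ ∑ i, N0 i := Finset.single_le_sum (f := N0) (fun _ _ => Nat.zero_le _)
      (Finset.mem_univ i)
    omega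
  have hM0 : (0 : ℝ) < N B := by
    have h1 : (10 : ℝ) ^ 6 ≤ N B := by exact_mod_cast hM6
    linarith [show (0 : ℝ) < 10 ^ 6 by norm_num]
  have hδM : ∀ i, 1 / (N B : ℝ) < δ i := by
    intro i
    have h1 : ⌈1 / δ i⌉₊ + 1 ≤ ∑ i, (⌈1 / δ i⌉₊ + 1) :=
      Finset.single_le_sum (f := fun i => ⌈1 / δ i⌉₊ + 1) (fun _ _ => Nat.zero_le _)
        (Finset.mem_univ i)
    have h2 : ⌈1 / δ i⌉₊ + 1 ≤ N B := by omega
    have h3 : (⌈1 / δ i⌉₊ : ℝ) + 1 ≤ N B := by exact_mod_cast h2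
    have h4 : 1 / δ i ≤ ⌈1 / δ i⌉₊ := Nat.le_ceil _
    rw [one_div_lt hM0 (hδ0 i)]
    linarith
  have hχu : ∀ i z z', ‖z - z'‖ ≤ 1 / (N B : ℝ) → |χ i z - χ i z'| ≤ ε := by
    intro i z z' h
    have h1 := hδ i z z' (by rw [dist_eq_norm]; exact lt_of_le_of_lt h (hδM i))
    rw [Real.dist_eq] at h1
    exact h1.le
  obtain ⟨Y, hYne, hYcard, hYsep, hYc⟩ := hK (N B) (by omega)
  choose Yc σ w hYc1 hσ hσi hw hYcard2 using fun i =>
    hYc (ρ i) (Finset.mem_image_of_mem ρ (Finset.mem_univ i))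
  have hboxcard : ((Finset.Ico (0 : ℤ) (N B)) ×ˢ (Finset.Ico (0 : ℤ) (N B))).card = N B * N B := by
    rw [Finset.card_product, Int.card_Ico]
    have h2 : ((N B : ℤ) - 0).toNat = N B := by omega
    rw [h2]
  obtain ⟨hY1, hT1⟩ := T_card (N B) K s Y.card (by omega) (by omega) (by omega) hYcard
  set T : Finset ℂ := ((Finset.univ : Finset (Fin s)) ×ˢ (Y ×ˢ
    ((Finset.Ico (0 : ℤ) (N B)) ×ˢ (Finset.Ico (0 : ℤ) (N B))))).image
      (fun p => -rot (-(p.2.1 + sh a b p.2.2)) (c p.1)) with hT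
  have hTcard : T.card ≤ (N B) ^ (N B + 4) := by
    refine Finset.card_image_le.trans ?_
    rw [Finset.card_product, Finset.card_product, hboxcard, Finset.card_univ, Fintype.card_fin]
    exact hT1
  obtain ⟨r, m, hr1, hr2, hTd⟩ := hwt T ((N B) ^ 2) (Nat.one_le_pow _ _ (by omega))
  have hr3 : r ≤ ((N B) ^ 2) ^ ((N B) ^ (N B + 4)) :=
    hr2.trans (Nat.pow_le_pow_right (Nat.one_le_pow _ _ (by omega)) hTcard)
  have hex : ∀ (i : Fin s) (y : S) (v : ℤ × ℤ), ∃ (dom : Finset (Fin r)) (τ : Fin r → Fin r),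
      y ∈ Y → v ∈ (Finset.Ico (0 : ℤ) (N B)) ×ˢ (Finset.Ico (0 : ℤ) (N B)) →
      Set.InjOn τ dom ∧ (∀ n ∈ dom, m (τ n) = m n - rot (-(y + sh a b v)) (c i)) ∧
        (N B) ^ 2 * domᶜ.card ≤ r := by
    intro i y v
    by_cases h : y ∈ Y ∧ v ∈ (Finset.Ico (0 : ℤ) (N B)) ×ˢ (Finset.Ico (0 : ℤ) (N B))
    · have hmem : -rot (-(y + sh a b v)) (c i) ∈ T :=
        Finset.mem_image.2 ⟨(i, (y, v)), Finset.mem_product.2 ⟨Finset.mem_univ _,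
          Finset.mem_product.2 ⟨h.1, h.2⟩⟩, rfl⟩
      obtain ⟨dom, τ, h1, h2, h3⟩ := hTd _ hmem
      refine ⟨dom, τ, fun _ _ => ⟨h1, fun n hn => ?_, h3⟩⟩
      rw [h2 n hn, sub_eq_add_neg]
    · exact ⟨∅, id, fun h1 h2 => absurd ⟨h1, h2⟩ h⟩
  choose dom τ hdt using hex
  have hlow' : ∀ z0 : ℂ, ∃ U : Set ℂ, IsOpen U ∧ U.Nonempty ∧ U ⊆ Metric.ball z0 (1 / N B) ∧
      ∀ᵐ z : ℂ, z ∈ U →
      3 / 4 * (N B : ℝ) * Y.card * (∑ n, ind (A2 (N B)) (z0 + m n)) -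
      800 * (N B : ℝ) * Y.card * (∑ n, ind (A1 (N B) \ A2 (N B)) (z0 + m n)) -
      (∑ n, if z + m n ∈ Ann then PsiT a b (N B) D ψ B Y (z + m n) else 0) ≤
      ∑ n, ∑ y ∈ Y, ∑ v ∈ (Finset.Ico (0 : ℤ) (N B)) ×ˢ (Finset.Ico (0 : ℤ) (N B)),
        (f (rot (y + sh a b v) (z + m n)) + f ((starRingEnd ℂ) (rot (y + sh a b v) (z + m n)))) := by
    intro z0
    obtain ⟨U, h1, h2, h3, h4⟩ := hlow B Y hY1
      (fun y hy y' hy' v hv => hYsep y hy y' hy' v.1 v.2 hv) r m hr3 z0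
    refine ⟨U, h1, h2, h3, ?_⟩
    filter_upwards [h4] with z hz hzU
    have h5 := hz hzU
    rw [card_ind (fun n => 1 + 1 / (N B : ℝ) < ‖z0 + m n‖ ∧ ‖z0 + m n‖ < 2 - 1 / (N B : ℝ))
        (A2 (N B)) (fun n => z0 + m n) (fun n => Iff.rfl),
      card_ind (fun n => (1 - 1 / (N B : ℝ) < ‖z0 + m n‖ ∧ ‖z0 + m n‖ < 2 + 1 / (N B : ℝ)) ∧
          ¬ (1 + 1 / (N B : ℝ) < ‖z0 + m n‖ ∧ ‖z0 + m n‖ < 2 - 1 / (N B : ℝ)))
        (A1 (N B) \ A2 (N B)) (fun n => z0 + m n) (fun n => Iff.rfl)] at h5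
    exact h5
  have hpw : ∀ z0 : ℂ, 3 / 4 * (N B : ℝ) * Y.card * (∑ n, ind (A2 (N B)) (z0 + m n)) ≤
      EE a b (N B) D ψ B K ε χ Y m c dom (fun i y v => (dom i y v).image (τ i y v)) z0 := by
    intro z0
    exact pointwise a b hup N D hN0 hN hD ψ hψ0 hψu f s Q ρ c hQ hid B K hKM ε hε.le χ hχ0
      (fun i => hχr i (N B) (hN0M i)) hχu Y Yc σ w hYc1 hσ hσi hw hYcard2 r m dom τ
      (fun i y hy v hv => ⟨(hdt i y v hy hv).1, (hdt i y v hy hv).2.1⟩) z0 (hlow' z0)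
  have hE := EE_IB a b N D hN0 hN hD ψ hψc hψs hψi (N B) hM6 B K hKM ε hε.le χ hχc hχs hχi Y m c dom
    (fun i y v => (dom i y v).image (τ i y v)) (fun i y hy v hv => by
      obtain ⟨h1, -, h3⟩ := hdt i y v hy hv
      refine ⟨h3, ?_⟩
      have h4 : ((dom i y v).image (τ i y v))ᶜ.card = (dom i y v)ᶜ.card := by
        rw [Finset.card_compl, Finset.card_compl, Finset.card_image_of_injOn h1]
      rw [h4]
      exact h3)
  obtain ⟨hL1, hL2⟩ := LHS_int (N B) hM6 Y.card (Nat.cast_nonneg _) m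
  have hfin := (hL2.trans (integral_mono hL1 hE.1 hpw)).trans hE.2
  have hYpos : (0 : ℝ) < Y.card := by exact_mod_cast hYne.card_pos
  have hrpos : (0 : ℝ) < r := by exact_mod_cast (by omega : 0 < r)
  exact final_num (N B) K s hM1 ε hε2 Y.card r hYpos hrpos hfin

end D5
end Geo

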