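import Pool.Agent.Helper183.Geo.Base

set_option autoImplicit false
namespace Geo
namespace D6
open Classical in
/-- weighted Folner sets in the plane for finitely many translations -/
theorem exists_weights (T : Finset ℂ) (X : ℕ) (hX : 1 ≤ X) : ∃ (r : ℕ) (m : Fin r → ℂ), 1 ≤ r ∧
    r ≤ X ^ T.card ∧ ∀ d ∈ T, ∃ (dom : Finset (Fin r)) (τ : Fin r → Fin r), Set.InjOn τ dom ∧
      (∀ n ∈ dom, m (τ n) = m n + d) ∧ X * domᶜ.card ≤ r := by
  have hcard : Fintype.card (T → Fin X) = X ^ T.card := by simp
  let e : (T → Fin X) ≃ Fin (X ^ T.card) := Fintype.equivFinOfCardEq hcard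
  refine ⟨X ^ T.card, fun n => ∑ d : T, (((e.symm n) d : ℕ) : ℂ) * (d : ℂ),
    Nat.one_le_pow _ _ hX, le_rfl, ?_⟩
  intro d hd
  set d' : T := ⟨d, hd⟩ with hd'
  let up : (f : T → Fin X) → ((f d' : ℕ) + 1 < X) → (T → Fin X) := fun f h =>
    Function.update f d' ⟨(f d' : ℕ) + 1, h⟩
  refine ⟨Finset.univ.filter (fun n => ((e.symm n) d' : ℕ) + 1 < X),
    fun n => if h : ((e.symm n) d' : ℕ) + 1 < X then e (up (e.symm n) h) else n, ?_, ?_, ?_⟩
  · intro n hn n' hn' heq
    rw [Finset.coe_filter, Set.mem_setOf_eq] at hn hn'
    simp only [dif_pos hn.2, dif_pos hn'.2] at heq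
    have h1 := e.injective heq
    apply e.symm.injective
    funext t
    have h2 := congrFun h1 t
    by_cases ht : t = d'
    · subst ht
      simp only [up, Function.update_self, Fin.mk.injEq] at h2
      exact Fin.ext (by omega)
    · simp only [up, Function.update_of_ne ht] at h2
      exact h2
  · intro n hn
    rw [Finset.mem_filter] at hn
    simp only [dif_pos hn.2, Equiv.symm_apply_apply]
    rw [← Finset.add_sum_erase Finset.univ _ (Finset.mem_univ d'),
      ← Finset.add_sum_erase Finset.univ (fun t : T => (((e.symm n) t : ℕ) : ℂ) * (t : ℂ))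
        (Finset.mem_univ d')]
    have h1 : ∀ t ∈ Finset.univ.erase d', (((up (e.symm n) hn.2) t : ℕ) : ℂ) * (t : ℂ) =
        (((e.symm n) t : ℕ) : ℂ) * (t : ℂ) := by
      intro t ht
      have ht' : t ≠ d' := Finset.ne_of_mem_erase ht
      simp only [up, Function.update_of_ne ht']
    rw [Finset.sum_congr rfl h1]
    simp only [up, Function.update_self]
    push_cast
    ring
  · have h1 : ((Finset.univ : Finset (Fin X)) ×ˢ
        (Finset.univ.filter (fun n : Fin (X ^ T.card) => ((e.symm n) d' : ℕ) + 1 < X))ᶜ).card ≤
        (Finset.univ : Finset (Fin (X ^ T.card))).card := by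
      apply Finset.card_le_card_of_injOn
        (fun p : Fin X × Fin (X ^ T.card) => e (Function.update (e.symm p.2) d' p.1))
      · intro p _
        exact Finset.mem_coe.2 (Finset.mem_univ _)
      · intro p hp q hq hpq
        rw [Finset.mem_coe, Finset.mem_product, Finset.mem_compl, Finset.mem_filter] at hp hq
        have h2 := e.injective hpq
        have h3 := congrFun h2 d'
        simp only [Function.update_self] at h3
        apply Prod.ext h3
        apply e.symm.injective
        funext t
        by_cases ht : t = d'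
        · subst ht
          have hp2 : ¬ ((e.symm p.2) d' : ℕ) + 1 < X := fun h => hp.2 ⟨Finset.mem_univ _, h⟩
          have hq2 : ¬ ((e.symm q.2) d' : ℕ) + 1 < X := fun h => hq.2 ⟨Finset.mem_univ _, h⟩
          have h4 := ((e.symm p.2) d').isLt
          have h5 := ((e.symm q.2) d').isLt
          exact Fin.ext (by omega)
        · have h4 := congrFun h2 t
          simp only [Function.update_of_ne ht] at h4
          exact h4
    rw [Finset.card_product, Finset.card_univ, Finset.card_univ, Fintype.card_fin,
      Fintype.card_fin] at h1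
    exact h1
end D6
end Geo

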