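import Pool.Agent.Helper183.Geo.Base

set_option autoImplicit false
open MeasureTheory Set
namespace Geo
namespace D7

open scoped ComplexConjugate

theorem ub_inj {s t : ℝ} (hs : s ∈ Ico (0 : ℝ) 1) (ht : t ∈ Ico (0 : ℝ) 1)
    (h : (s : S) = (t : S)) : s = t := by
  refine (AddCircle.coe_eq_coe_iff_of_mem_Ico (p := (1 : ℝ)) (a := 0) ?_ ?_).1 h
  · simpa using hs
  · simpa using ht

theorem ub_open {U : Set S} (hU : IsOpen U) {t : ℝ} (ht : (t : S) ∈ U) :
    ∃ ε > 0, ∀ s : ℝ, |s - t| < ε → (s : S) ∈ U := by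
  have hc : Continuous (fun t : ℝ => (t : S)) := AddCircle.continuous_mk' 1
  have h1 : IsOpen ((fun t : ℝ => (t : S)) ⁻¹' U) := hU.preimage hc
  obtain ⟨ε, hε, h2⟩ := Metric.isOpen_iff.1 h1 t ht
  exact ⟨ε, hε, fun s hs => h2 (by rwa [Metric.mem_ball, Real.dist_eq])⟩

theorem ub_closed (a b : ℝ) : IsClosed ((fun t : ℝ => (t : S)) '' Icc a b) :=
  (isCompact_Icc.image (AddCircle.continuous_mk' 1)).isClosed

theorem ub_isOpen (c l : ℝ) : IsOpen (arcO c l) :=
  QuotientAddGroup.isOpenMap_coe _ isOpen_Ioo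

theorem ub_sub (c l : ℝ) : closure (arcO c l) ⊆ (fun t : ℝ => (t : S)) '' Icc c (c + l) :=
  closure_minimal (image_mono Ioo_subset_Icc_self) (ub_closed _ _)

theorem ub_arc (c l : ℝ) (hc : 0 < c) (hl : c + l < 1) (hl0 : 0 < l) :
    interior (closure (arcO c l)) ⊆ arcO c l := by
  intro y hy
  obtain ⟨t, ht, rfl⟩ := ub_sub c l (interior_subset hy)
  obtain ⟨ε, hε, h⟩ := ub_open isOpen_interior hy
  refine ⟨t, ⟨?_, ?_⟩, rfl⟩
  · by_contra hle
    have htc : t = c := le_antisymm (not_lt.1 hle) ht.1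
    subst htc
    set δ := min (ε / 2) (t / 2) with hδ
    have hδ0 : 0 < δ := lt_min (by linarith) (by linarith)
    have h1 := h (t - δ) (by
      rw [show t - δ - t = -δ by ring, abs_neg, abs_of_pos hδ0]
      exact (min_le_left _ _).trans_lt (by linarith))
    obtain ⟨s, hs, hst⟩ := ub_sub t l (interior_subset h1)
    have h2 : s = t - δ := ub_inj ⟨by linarith [hs.1], by linarith [hs.2]⟩
      ⟨by linarith [min_le_right (ε / 2) (t / 2)], by linarith⟩ hst
    linarith [hs.1]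
  · by_contra hle
    have htc : t = c + l := le_antisymm ht.2 (not_lt.1 hle)
    set δ := min (ε / 2) ((1 - (c + l)) / 2) with hδ
    have hδ0 : 0 < δ := lt_min (by linarith) (by linarith)
    have h1 := h (t + δ) (by
      rw [show t + δ - t = δ by ring, abs_of_pos hδ0]
      exact (min_le_left _ _).trans_lt (by linarith))
    obtain ⟨s, hs, hst⟩ := ub_sub c l (interior_subset h1)
    have h2 : s = t + δ := ub_inj ⟨by linarith [hs.1], by linarith [hs.2]⟩
      ⟨by linarith, by linarith [min_le_right (ε / 2) ((1 - (c + l)) / 2)]⟩ hst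
    linarith [hs.2]

theorem angEq (z : ℂ) : ang z = AddCircle.equivAddCircle (2 * Real.pi) 1 (by positivity)
    one_ne_zero ((Complex.arg z : ℝ) : AddCircle (2 * Real.pi)) := by
  rw [AddCircle.equivAddCircle_apply_mk]; unfold ang; congr 1; field_simp

theorem angMul {x y : ℂ} (hx : x ≠ 0) (hy : y ≠ 0) : ang (x * y) = ang x + ang y := by
  rw [angEq, angEq, angEq, ← map_add]
  congr 1
  exact Complex.arg_mul_coe_angle hx hy

theorem angExp (s : ℝ) : ang (Complex.exp ((2 * Real.pi * s : ℝ) * Complex.I)) = (s : S) := by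
  rw [angEq]
  have h1 : ((Complex.arg (Complex.exp ((2 * Real.pi * s : ℝ) * Complex.I)) : ℝ) : Real.Angle) =
      ((2 * Real.pi * s : ℝ) : Real.Angle) := by
    rw [Complex.exp_mul_I]
    have := Complex.arg_cos_add_sin_mul_I_coe_angle ((2 * Real.pi * s : ℝ) : Real.Angle)
    rw [Real.Angle.cos_coe, Real.Angle.sin_coe] at this
    rw [← Complex.ofReal_cos, ← Complex.ofReal_sin]
    exact this
  have h2 : ((Complex.arg (Complex.exp ((2 * Real.pi * s : ℝ) * Complex.I)) : ℝ) : AddCircle (2 * Real.pi)) =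
      ((2 * Real.pi * s : ℝ) : AddCircle (2 * Real.pi)) := h1
  rw [h2, AddCircle.equivAddCircle_apply_mk]
  congr 1
  field_simp

theorem angPos {r : ℝ} (hr : 0 < r) {z : ℂ} : ang (r * z) = ang z := by
  unfold ang
  rw [Complex.arg_real_mul z hr]

theorem angCont {z : ℂ} (hz : z ≠ 0) : ContinuousAt ang z := by
  have h1 : ang = (AddCircle.homeomorphAddCircle (2 * Real.pi) 1 (by positivity)
    one_ne_zero) ∘ (fun z => ((Complex.arg z : ℝ) : AddCircle (2 * Real.pi))) := by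
    ext z; exact angEq z
  rw [h1]
  refine ContinuousAt.comp ?_ (Complex.continuousAt_arg_coe_angle hz)
  exact (Homeomorph.continuous _).continuousAt

/-- closed annulus -/
def CAnn : Set ℂ := {z | 1 ≤ ‖z‖ ∧ ‖z‖ ≤ 2}

theorem CAnn_closed : IsClosed CAnn := by
  have : CAnn = {z : ℂ | 1 ≤ ‖z‖} ∩ {z : ℂ | ‖z‖ ≤ 2} := rfl
  rw [this]
  exact (isClosed_le continuous_const continuous_norm).inter (isClosed_le continuous_norm continuous_const)

theorem Ann_open : IsOpen Ann := by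
  have : Ann = {z : ℂ | 1 < ‖z‖} ∩ {z : ℂ | ‖z‖ < 2} := rfl
  rw [this]
  exact (isOpen_lt continuous_const continuous_norm).inter (isOpen_lt continuous_norm continuous_const)

/-- closed sector -/
def Sec (T : Set S) : Set ℂ := {z | z ∈ CAnn ∧ ang z ∈ T}

theorem CAnn_ne {z : ℂ} (hz : z ∈ CAnn) : z ≠ 0 := by
  rintro rfl
  have := hz.1
  simp at this
  linarith

theorem Sec_closed {T : Set S} (hT : IsClosed T) : IsClosed (Sec T) := by
  have h1 : ContinuousOn ang CAnn := fun z hz => (angCont (CAnn_ne hz)).continuousWithinAt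
  exact h1.preimage_isClosed_of_isClosed CAnn_closed hT

theorem SecO_open {T : Set S} (hT : IsOpen T) : IsOpen {z | z ∈ Ann ∧ ang z ∈ T} := by
  have h1 : ContinuousOn ang Ann := fun z hz => (angCont (CAnn_ne ⟨hz.1.le, hz.2.le⟩)).continuousWithinAt
  exact h1.isOpen_inter_preimage Ann_open hT

theorem rot_open {U : Set ℂ} (hU : IsOpen U) {y : ℂ} (hy : y ∈ U) (hy0 : y ≠ 0) :
    ∃ ε > 0, ∀ s : ℝ, |s| < ε → ∃ z ∈ U, ‖z‖ = ‖y‖ ∧ ang z = ang y + (s : S) := by
  have hc : Continuous (fun s : ℝ => y * Complex.exp ((2 * Real.pi * s : ℝ) * Complex.I)) := by fun_prop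
  have h1 : IsOpen ((fun s : ℝ => y * Complex.exp ((2 * Real.pi * s : ℝ) * Complex.I)) ⁻¹' U) :=
    hU.preimage hc
  have h0 : (0 : ℝ) ∈ ((fun s : ℝ => y * Complex.exp ((2 * Real.pi * s : ℝ) * Complex.I)) ⁻¹' U) := by
    simpa using hy
  obtain ⟨ε, hε, h2⟩ := Metric.isOpen_iff.1 h1 0 h0
  refine ⟨ε, hε, fun s hs => ⟨_, h2 (a := s) (by rwa [Metric.mem_ball, Real.dist_eq, sub_zero]), ?_, ?_⟩⟩
  · simp only [norm_mul, Complex.norm_exp_ofReal_mul_I, mul_one]
  · show ang (y * _) = _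
    rw [angMul hy0 (Complex.exp_ne_zero _), angExp]

theorem scal_open {U : Set ℂ} (hU : IsOpen U) {y : ℂ} (hy : y ∈ U) :
    ∃ ε > 0, ∀ s : ℝ, |s| < ε → ((1 + s : ℝ) : ℂ) * y ∈ U := by
  have hc : Continuous (fun s : ℝ => ((1 + s : ℝ) : ℂ) * y) := by fun_prop
  have h1 := hU.preimage hc
  obtain ⟨ε, hε, h2⟩ := Metric.isOpen_iff.1 h1 0 (by simpa using hy)
  exact ⟨ε, hε, fun s hs => h2 (a := s) (by rwa [Metric.mem_ball, Real.dist_eq, sub_zero])⟩

theorem int_CAnn {U : Set ℂ} (hU : IsOpen U) (hUC : U ⊆ CAnn) : U ⊆ Ann := by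
  intro y hy
  have hyC := hUC hy
  obtain ⟨ε, hε, h⟩ := scal_open hU hy
  set δ := min (ε / 2) (1 / 2) with hδ
  have hδ0 : 0 < δ := lt_min (by linarith) (by norm_num)
  have hδ1 : δ < ε := (min_le_left _ _).trans_lt (by linarith)
  have hδ2 : δ ≤ 1 / 2 := min_le_right _ _
  constructor
  · by_contra hle
    have h1 : ‖y‖ = 1 := le_antisymm (not_lt.1 hle) hyC.1
    have h2 := (hUC (h (-δ) (by rwa [abs_neg, abs_of_pos hδ0]))).1
    rw [norm_mul, h1, Complex.norm_real, Real.norm_eq_abs, abs_of_pos (by linarith)] at h2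
    linarith
  · by_contra hle
    have h1 : ‖y‖ = 2 := le_antisymm hyC.2 (not_lt.1 hle)
    have h2 := (hUC (h δ (by rwa [abs_of_pos hδ0]))).2
    rw [norm_mul, h1, Complex.norm_real, Real.norm_eq_abs, abs_of_pos (by linarith)] at h2
    linarith

theorem ray_null (t : ℝ) : volume {z : ℂ | z ≠ 0 ∧ ang z = (t : S)} = 0 := by
  set w : ℂ := Complex.exp ((2 * Real.pi * t : ℝ) * Complex.I) with hw
  have hsub : {z : ℂ | z ≠ 0 ∧ ang z = (t : S)} ⊆ (Submodule.span ℝ {w} : Submodule ℝ ℂ) := by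
    rintro z ⟨hz, hzt⟩
    rw [SetLike.mem_coe, Submodule.mem_span_singleton]
    have h1 : ang (z * w⁻¹) = 0 := by
      have h2 : ang (z * w⁻¹ * w) = ang (z * w⁻¹) + ang w :=
        angMul (mul_ne_zero hz (inv_ne_zero (Complex.exp_ne_zero _))) (Complex.exp_ne_zero _)
      rw [mul_assoc, inv_mul_cancel₀ (Complex.exp_ne_zero _), mul_one, hzt, hw, angExp] at h2
      rw [hw]
      exact (left_eq_add.mp (by rw [add_comm] at h2; exact h2))
    have h2 : Complex.arg (z * w⁻¹) = 0 := by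
      unfold ang at h1
      rw [AddCircle.coe_eq_zero_iff] at h1
      obtain ⟨n, hn⟩ := h1
      have h3 := Complex.neg_pi_lt_arg (z * w⁻¹)
      have h4 := Complex.arg_le_pi (z * w⁻¹)
      have hpi := Real.pi_pos
      simp only [zsmul_eq_mul, mul_one] at hn
      have h5 : Complex.arg (z * w⁻¹) = 2 * Real.pi * n := by rw [hn]; field_simp
      rw [h5] at h3 h4
      have h6 : (-1 : ℝ) < n := by nlinarith
      have h7 : (n : ℝ) < 1 := by nlinarith
      have h8 : n = 0 := by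
        have h9 : -1 < n := by exact_mod_cast h6
        have h10 : n < 1 := by exact_mod_cast h7
        omega
      rw [h5, h8]; simp
    rw [Complex.arg_eq_zero_iff] at h2
    refine ⟨(z * w⁻¹).re, ?_⟩
    have h3 : (((z * w⁻¹).re : ℝ) : ℂ) = z * w⁻¹ := by
      apply Complex.ext
      · simp
      · rw [h2.2]; simp
    rw [Complex.real_smul, h3, mul_assoc, inv_mul_cancel₀ (Complex.exp_ne_zero _), mul_one]
  apply measure_mono_null hsub
  apply Measure.addHaar_submodule
  intro htop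
  have h1 : Module.finrank ℝ (Submodule.span ℝ {w} : Submodule ℝ ℂ) ≤ 1 := by
    have := finrank_span_le_card (R := ℝ) ({w} : Set ℂ)
    simpa using this
  rw [htop, finrank_top, Complex.finrank_real_complex] at h1
  omega

theorem secArc {V : Set ℂ} (hV : IsOpen V) (c l : ℝ) (hc : 0 < c) (hl : c + l < 1) (hl0 : 0 < l)
    (hVS : V ⊆ Sec ((fun t : ℝ => (t : S)) '' Icc c (c + l))) :
    V ⊆ {z | z ∈ Ann ∧ ang z ∈ arcO c l} := by
  intro y hy
  have hyA : y ∈ Ann := int_CAnn hV (fun z hz => (hVS hz).1) hy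
  refine ⟨hyA, ?_⟩
  have hy0 : y ≠ 0 := CAnn_ne (hVS hy).1
  obtain ⟨t, ht, hty⟩ := (hVS hy).2
  simp only at hty
  obtain ⟨ε, hε, h⟩ := rot_open hV hy hy0
  refine ⟨t, ⟨?_, ?_⟩, hty⟩
  · by_contra hle
    have htc : t = c := le_antisymm (not_lt.1 hle) ht.1
    set δ := min (ε / 2) (c / 2) with hδ
    have hδ0 : 0 < δ := lt_min (by linarith) (by linarith)
    obtain ⟨z, hz, -, hza⟩ := h (-δ) (by
      rw [abs_neg, abs_of_pos hδ0]
      exact (min_le_left _ _).trans_lt (by linarith))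
    obtain ⟨s, hs, hst⟩ := (hVS hz).2
    simp only at hst
    rw [hza, ← hty, ← AddCircle.coe_add] at hst
    have h2 : s = t + -δ := ub_inj ⟨by linarith [hs.1], by linarith [hs.2]⟩
      ⟨by linarith [min_le_right (ε / 2) (c / 2)], by linarith⟩ hst
    linarith [hs.1]
  · by_contra hle
    have htc : t = c + l := le_antisymm ht.2 (not_lt.1 hle)
    set δ := min (ε / 2) ((1 - (c + l)) / 2) with hδ
    have hδ0 : 0 < δ := lt_min (by linarith) (by linarith)
    obtain ⟨z, hz, -, hza⟩ := h δ (by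
      rw [abs_of_pos hδ0]
      exact (min_le_left _ _).trans_lt (by linarith))
    obtain ⟨s, hs, hst⟩ := (hVS hz).2
    simp only at hst
    rw [hza, ← hty, ← AddCircle.coe_add] at hst
    have h2 : s = t + δ := ub_inj ⟨by linarith [hs.1], by linarith [hs.2]⟩
      ⟨by linarith, by linarith [min_le_right (ε / 2) ((1 - (c + l)) / 2)]⟩ hst
    linarith [hs.2]

/-- a union of regular open sets in small sectors accumulating at one ray is a body -/
theorem union_bodyC (N : ℕ → ℕ) (hN0 : 1000 ≤ N 0) (hN : ∀ k, 4 * N k ≤ N (k + 1)) (p : ℝ)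
    (hp : p = 1 / 8 ∨ p = 5 / 8) (P : ℕ → Set ℂ) (hreg : ∀ k, interior (closure (P k)) = P k)
    (hnull : ∀ k, volume (frontier (P k)) = 0) (hA : ∀ k, P k ⊆ Ann)
    (harc : ∀ k, ∀ z ∈ P k, ang z ∈ arcC (p + 3 / N k) (6 / N k)) :
    Body ({z | z ∈ Ann ∧ ang z ∈ arcO (1 / 4) (1 / 4)} ∪ ⋃ k, P k) := by
  -- numbers
  have hNk : ∀ k, 1000 * 4 ^ k ≤ N k := by
    intro k
    induction k with
    | zero => simpa using hN0
    | succ k ih => rw [pow_succ]; linarith [hN k]
  have hmono : Monotone N := monotone_nat_of_le_succ (fun k => by linarith [hN k])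
  have hlt : ∀ i j, i < j → 4 * N i ≤ N j := fun i j hij => (hN i).trans (hmono hij)
  have hR : ∀ k, (1000 : ℝ) ≤ N k := by
    intro k
    have h1 : 1000 ≤ N k := by
      calc 1000 ≤ 1000 * 4 ^ k := by
            have : 1 ≤ 4 ^ k := Nat.one_le_pow _ _ (by norm_num)
            linarith
        _ ≤ N k := hNk k
    exact_mod_cast h1
  have hpos : ∀ k, (0 : ℝ) < N k := fun k => by linarith [hR k]
  have h9 : ∀ k, (9 : ℝ) / N k ≤ 9 / 1000 := fun k =>
    div_le_div_of_nonneg_left (by norm_num) (by norm_num) (hR k)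
  have h3 : ∀ k, (0 : ℝ) < 3 / N k := fun k => div_pos (by norm_num) (hpos k)
  have h39 : ∀ k, (3 : ℝ) / N k + 6 / N k = 9 / N k := fun k => by rw [← add_div]; norm_num
  have hsep : ∀ i j, i < j → (9 : ℝ) / N j < 3 / N i := by
    intro i j hij
    have h1 : (4 : ℝ) * N i ≤ N j := by exact_mod_cast hlt i j hij
    rw [div_lt_div_iff₀ (hpos j) (hpos i)]
    nlinarith [hpos i]
  have hp1 : 1 / 8 ≤ p := by rcases hp with h | h <;> rw [h] <;> norm_num
  have hp2 : p ≤ 5 / 8 := by rcases hp with h | h <;> rw [h] <;> norm_num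
  have hpI : ∀ t : ℝ, |t - p| ≤ 1 / 100 → ¬ (1 / 4 ≤ t ∧ t ≤ 1 / 2) := by
    rintro t ht ⟨h1, h2⟩
    rw [abs_le] at ht
    rcases hp with h | h
    · rw [h] at ht; linarith [ht.2]
    · rw [h] at ht; linarith [ht.1]
  -- sets
  set e : ℝ → S := fun t : ℝ => (t : S) with he
  have hec : Continuous e := AddCircle.continuous_mk' 1
  set I : Set ℂ := {z | z ∈ Ann ∧ ang z ∈ arcO (1 / 4) (1 / 4)} with hI
  set CI : Set ℂ := Sec (e '' Icc (1 / 4) (1 / 4 + 1 / 4)) with hCI
  have hCIc : IsClosed CI := Sec_closed (ub_closed _ _)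
  set A : ℕ → Set ℂ := fun m => Sec (e '' Icc p (p + 9 / N m)) with hAdef
  have hAc : ∀ m, IsClosed (A m) := fun m => Sec_closed (ub_closed _ _)
  set J : ℕ → Set ℂ := fun k => Sec (arcC (p + 3 / N k) (6 / N k)) with hJ
  have hJc : ∀ k, IsClosed (J k) := fun k => Sec_closed (ub_closed _ _)
  have hAC : ∀ z ∈ Ann, z ∈ CAnn := fun z hz => ⟨hz.1.le, hz.2.le⟩
  have hPJ0 : ∀ k, P k ⊆ J k := fun k z hz => ⟨hAC z (hA k hz), harc k z hz⟩
  have hPJ : ∀ k, closure (P k) ⊆ J k := fun k => closure_minimal (hPJ0 k) (hJc k)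
  have hJA : ∀ m k, m ≤ k → J k ⊆ A m := by
    rintro m k hmk z ⟨hzC, t, ht, htz⟩
    refine ⟨hzC, t, ⟨by linarith [ht.1, h3 k], ?_⟩, htz⟩
    have h1 := ht.2
    rw [add_assoc, h39] at h1
    have h2 : (9 : ℝ) / N k ≤ 9 / N m :=
      div_le_div_of_nonneg_left (by norm_num) (hpos m) (by exact_mod_cast hmono hmk)
    linarith
  have hIop : IsOpen I := SecO_open (ub_isOpen _ _)
  have hICI0 : I ⊆ CI := by
    rintro z ⟨hz, t, ht, htz⟩
    exact ⟨hAC z hz, t, ⟨ht.1.le, ht.2.le⟩, htz⟩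
  have hICI : closure I ⊆ CI := closure_minimal hICI0 hCIc
  have hPop : ∀ k, IsOpen (P k) := fun k => by rw [← hreg k]; exact isOpen_interior
  set W : Set ℂ := I ∪ ⋃ k, P k with hW
  have hWop : IsOpen W := hIop.union (isOpen_iUnion hPop)
  have hWA : W ⊆ Ann := by
    rintro z (hz | hz)
    · exact hz.1
    · obtain ⟨k, hk⟩ := mem_iUnion.1 hz
      exact hA k hk
  have hWC : closure W ⊆ CAnn := closure_minimal (fun z hz => hAC z (hWA hz)) CAnn_closed
  -- range facts
  have hCI0 : ∀ t : ℝ, t ∈ Icc (1 / 4 : ℝ) (1 / 4 + 1 / 4) → t ∈ Ico (0 : ℝ) 1 := fun t ht =>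
    ⟨by linarith [ht.1], by linarith [ht.2]⟩
  have hA0 : ∀ m, ∀ t : ℝ, t ∈ Icc p (p + 9 / N m) → t ∈ Ico (0 : ℝ) 1 := fun m t ht =>
    ⟨by linarith [ht.1], by linarith [ht.2, h9 m]⟩
  have hJ0 : ∀ m, ∀ t : ℝ, t ∈ Icc (p + 3 / N m) (p + 3 / N m + 6 / N m) → t ∈ Ico (0 : ℝ) 1 :=
    fun m t ht => ⟨by linarith [ht.1, h3 m], by linarith [ht.2, h9 m, h39 m]⟩
  have hACI : ∀ y, y ∈ A 0 → y ∉ CI := by
    rintro y ⟨-, t, ht, hty⟩ ⟨-, s, hs, hsy⟩
    have h1 : s = t := ub_inj (hCI0 s hs) (hA0 0 t ht) (hsy.trans hty.symm)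
    subst h1
    refine hpI s ?_ ⟨hs.1, by linarith [hs.2]⟩
    rw [abs_le]
    exact ⟨by linarith [ht.1], by linarith [ht.2, h9 0]⟩
  -- closure covering
  have hcov : ∀ m, closure W ⊆ closure I ∪ (⋃ j ∈ Finset.range m, closure (P j)) ∪ A m := by
    intro m
    have hcl : IsClosed (closure I ∪ (⋃ j ∈ Finset.range m, closure (P j)) ∪ A m) :=
      (isClosed_closure.union (isClosed_biUnion_finset (fun j _ => isClosed_closure))).union (hAc m)
    refine closure_minimal ?_ hcl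
    rintro y (hy | hy)
    · exact Or.inl (Or.inl (subset_closure hy))
    · obtain ⟨k, hk⟩ := mem_iUnion.1 hy
      by_cases hkm : k < m
      · refine Or.inl (Or.inr ?_)
        exact mem_biUnion (Finset.mem_coe.2 (Finset.mem_range.2 hkm)) (subset_closure hk)
      · exact Or.inr (hJA m k (not_lt.1 hkm) (hPJ0 k hk))
  have hclW : ∀ y ∈ closure W, y ∈ closure I ∨ (∃ k, y ∈ closure (P k)) ∨
      (y ∈ CAnn ∧ ang y = e p) := by
    intro y hy
    by_contra hcon
    push Not at hcon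
    obtain ⟨h1, h2, h3'⟩ := hcon
    have hyA : ∀ m, y ∈ A m := by
      intro m
      rcases hcov m hy with (h | h) | h
      · exact absurd h h1
      · simp only [mem_iUnion] at h
        obtain ⟨j, _, hj⟩ := h
        exact absurd hj (h2 j)
      · exact h
    obtain ⟨hyC, t, ht, hty⟩ := hyA 0
    have hle : ∀ m, t ≤ p + 9 / N m := by
      intro m
      obtain ⟨-, s, hs, hsy⟩ := hyA m
      have h4 : s = t := ub_inj (hA0 m s hs) (hA0 0 t ht) (hsy.trans hty.symm)
      rw [← h4]; exact hs.2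
    have htp : t = p := by
      refine le_antisymm ?_ ht.1
      refine le_of_forall_pos_le_add ?_
      intro ε hε
      obtain ⟨m, hm⟩ := exists_nat_gt (9 / ε)
      have h5 : (m : ℝ) ≤ N m := by
        have : m ≤ N m := by
          calc m ≤ 4 ^ m := (Nat.lt_pow_self (by norm_num)).le
            _ ≤ 1000 * 4 ^ m := Nat.le_mul_of_pos_left _ (by norm_num)
            _ ≤ N m := hNk m
        exact_mod_cast this
      have h6 : (9 : ℝ) / N m ≤ ε := by
        rw [div_le_iff₀ (hpos m)]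
        rw [div_lt_iff₀ hε] at hm
        nlinarith
      linarith [hle m]
    exact h3' hyC (by rw [← hty, htp])
  -- the ray at p is not interior
  have hpint : ∀ y ∈ interior (closure W), ang y ≠ e p := by
    intro y hpi hyp
    have hy0 : y ≠ 0 := CAnn_ne (hWC (interior_subset hpi))
    obtain ⟨ε, hε, h⟩ := rot_open isOpen_interior hpi hy0
    set δ := min (ε / 2) (1 / 100) with hδ
    have hδ0 : 0 < δ := lt_min (by linarith) (by norm_num)
    have hδ1 : δ ≤ 1 / 100 := min_le_right _ _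
    obtain ⟨z, hz, -, hza⟩ := h (-δ) (by
      rw [abs_neg, abs_of_pos hδ0]
      exact (min_le_left _ _).trans_lt (by linarith))
    rw [hyp, he] at hza
    simp only [← AddCircle.coe_add] at hza
    have h2 := hcov 0 (interior_subset hz)
    have hpd : p + -δ ∈ Ico (0 : ℝ) 1 := ⟨by linarith, by linarith⟩
    rcases h2 with (h2 | h2) | h2
    · obtain ⟨-, s, hs, hst⟩ := hICI h2
      have h4 : s = p + -δ := ub_inj (hCI0 s hs) hpd (hst.trans hza)
      refine hpI s ?_ ⟨hs.1, by linarith [hs.2]⟩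
      rw [h4, show p + -δ - p = -δ by ring, abs_neg, abs_of_pos hδ0]
      exact hδ1
    · simp at h2
    · obtain ⟨-, s, hs, hst⟩ := h2
      have h4 : s = p + -δ := ub_inj (hA0 0 s hs) hpd (hst.trans hza)
      linarith [hs.1]
  refine ⟨?_, Subset.antisymm ?_ hWop.subset_interior_closure, ?_⟩
  · refine Metric.isBounded_ball.subset (s := W) (t := Metric.ball (0 : ℂ) 2) ?_
    intro z hz
    rw [mem_ball_zero_iff]
    exact (hWA hz).2
  · intro y hy
    rcases hclW y (interior_subset hy) with h | ⟨k, hk⟩ | h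
    · left
      have hyA : y ∉ A 0 := fun h1 => hACI y h1 (hICI h)
      have hopen : IsOpen (interior (closure W) ∩ (A 0)ᶜ) := isOpen_interior.inter (hAc 0).isOpen_compl
      refine secArc hopen _ _ (by norm_num) (by norm_num) (by norm_num) ?_ ⟨hy, hyA⟩
      rintro z ⟨hz1, hz2⟩
      rcases hcov 0 (interior_subset hz1) with (h2 | h2) | h2
      · exact hICI h2
      · simp at h2
      · exact absurd h2 hz2
    · right
      refine mem_iUnion.2 ⟨k, ?_⟩
      rw [← hreg k]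
      have hyJ := hPJ k hk
      set F : Set ℂ := CI ∪ (⋃ j ∈ Finset.range k, J j) ∪ A (k + 1) with hF
      have hFc : IsClosed F :=
        (hCIc.union (isClosed_biUnion_finset (fun j _ => hJc j))).union (hAc _)
      have hyF : y ∉ F := by
        rintro ((h1 | h1) | h1)
        · exact hACI y (hJA 0 k (Nat.zero_le _) hyJ) h1
        · simp only [mem_iUnion] at h1
          obtain ⟨j, hj, hyj⟩ := h1
          have hjk : j < k := Finset.mem_range.1 hj
          obtain ⟨-, s, hs, hsy⟩ := hyJ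
          obtain ⟨-, t, ht, hty⟩ := hyj
          have h4 : s = t := ub_inj (hJ0 k s hs) (hJ0 j t ht) (hsy.trans hty.symm)
          linarith [hs.2, ht.1, hsep j k hjk, h39 k]
        · obtain ⟨-, s, hs, hsy⟩ := hyJ
          obtain ⟨-, t, ht, hty⟩ := h1
          have h4 : s = t := ub_inj (hJ0 k s hs) (hA0 (k + 1) t ht) (hsy.trans hty.symm)
          linarith [hs.1, ht.2, hsep k (k + 1) (Nat.lt_succ_self k)]
      have hopen : IsOpen (interior (closure W) ∩ Fᶜ) := isOpen_interior.inter hFc.isOpen_compl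
      refine mem_interior.2 ⟨_, ?_, hopen, ⟨hy, hyF⟩⟩
      rintro z ⟨hz1, hz2⟩
      rcases hcov (k + 1) (interior_subset hz1) with (h2 | h2) | h2
      · exact absurd (Or.inl (Or.inl (hICI h2))) hz2
      · simp only [mem_iUnion] at h2
        obtain ⟨j, hj, hzj⟩ := h2
        rcases Nat.lt_succ_iff_lt_or_eq.1 (Finset.mem_range.1 hj) with hjk | hjk
        · refine absurd (Or.inl (Or.inr ?_)) hz2
          exact mem_biUnion (Finset.mem_coe.2 (Finset.mem_range.2 hjk)) (hPJ j hzj)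
        · rw [hjk] at hzj; exact hzj
      · exact absurd (Or.inr h2) hz2
    · exact absurd h.2 (hpint y hy)
  · have hfr : frontier W ⊆ (Metric.sphere (0 : ℂ) 1 ∪ Metric.sphere (0 : ℂ) 2) ∪
        ({z : ℂ | z ≠ 0 ∧ ang z = ((1 / 4 : ℝ) : S)} ∪ ({z : ℂ | z ≠ 0 ∧ ang z = ((1 / 2 : ℝ) : S)} ∪
        {z : ℂ | z ≠ 0 ∧ ang z = (p : S)})) ∪ ⋃ k, frontier (P k) := by
      intro y hy
      rw [hWop.frontier_eq] at hy
      have hyC := hWC hy.1
      have hy0 : y ≠ 0 := CAnn_ne hyC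
      rcases hclW y hy.1 with h | ⟨k, hk⟩ | h
      · left
        obtain ⟨-, t, ht, hty⟩ := hICI h
        by_cases hn1 : ‖y‖ = 1
        · left; left; rwa [mem_sphere_zero_iff_norm]
        by_cases hn2 : ‖y‖ = 2
        · left; right; rwa [mem_sphere_zero_iff_norm]
        right
        by_cases h1 : t = 1 / 4
        · left; refine ⟨hy0, ?_⟩; rw [← hty, h1]
        by_cases h2 : t = 1 / 2
        · right; left; refine ⟨hy0, ?_⟩; rw [← hty, h2]
        exfalso
        apply hy.2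
        left
        refine ⟨⟨lt_of_le_of_ne hyC.1 (Ne.symm hn1), lt_of_le_of_ne hyC.2 hn2⟩, ?_⟩
        exact ⟨t, ⟨lt_of_le_of_ne ht.1 (Ne.symm h1), lt_of_le_of_ne ht.2 (by
          intro h3; apply h2; rw [h3]; norm_num)⟩, hty⟩
      · right
        refine mem_iUnion.2 ⟨k, ?_⟩
        rw [(hPop k).frontier_eq]
        exact ⟨hk, fun h => hy.2 (Or.inr (mem_iUnion.2 ⟨k, h⟩))⟩
      · left; right; right; right
        exact ⟨hy0, h.2⟩
    refine measure_mono_null hfr ?_
    rw [measure_union_null_iff, measure_union_null_iff, measure_union_null_iff,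
      measure_union_null_iff, measure_union_null_iff]
    exact ⟨⟨⟨Measure.addHaar_sphere _ _ _, Measure.addHaar_sphere _ _ _⟩,
      ray_null _, ray_null _, ray_null _⟩, measure_iUnion_null hnull⟩

/-- finite approximation property of regularizations -/
theorem regularizeC {P0 : ℕ → Set ℂ} (ho : ∀ k, IsOpen (P0 k)) {G : Type*} (act : G → ℂ ≃ₜ ℂ)
    (x : ℂ) (Rel : Finset (ℕ × G)) (h : ∀ r ∈ Rel, act r.2 x ∈ interior (closure (P0 r.1))) :
    ∃ x', ∀ r ∈ Rel, act r.2 x' ∈ P0 r.1 := by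
  classical
  have key : ∀ (R : Finset (ℕ × G)) (V : Set ℂ), IsOpen V → V.Nonempty →
      (∀ r ∈ R, ∀ y ∈ V, act r.2 y ∈ closure (P0 r.1)) → ∃ x' ∈ V, ∀ r ∈ R, act r.2 x' ∈ P0 r.1 := by
    intro R
    induction R using Finset.induction_on with
    | empty =>
      rintro V - ⟨y, hy⟩ -
      exact ⟨y, hy, by simp⟩
    | insert r R hr ih =>
      rintro V hV ⟨y, hy⟩ hcl
      have h1 : act r.2 y ∈ closure (P0 r.1) := hcl r (Finset.mem_insert_self _ _) y hy
      have hop : IsOpen ((act r.2) '' V) := (act r.2).isOpenMap V hV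
      obtain ⟨z, ⟨w, hw, rfl⟩, hz⟩ := mem_closure_iff.1 h1 _ hop ⟨y, hy, rfl⟩
      obtain ⟨x', hx', hx''⟩ := ih (V ∩ (act r.2) ⁻¹' (P0 r.1))
        (hV.inter ((ho r.1).preimage (act r.2).continuous)) ⟨w, hw, hz⟩
        (fun r' hr' y' hy' => hcl r' (Finset.mem_insert_of_mem hr') y' hy'.1)
      refine ⟨x', hx'.1, ?_⟩
      intro r' hr'
      rcases Finset.mem_insert.1 hr' with h2 | h2
      · rw [h2]; exact hx'.2
      · exact hx'' r' h2
  have hV : IsOpen (⋂ r ∈ Rel, (act r.2) ⁻¹' (interior (closure (P0 r.1)))) :=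
    isOpen_biInter_finset (fun r _ => isOpen_interior.preimage (act r.2).continuous)
  obtain ⟨x', _, hx'⟩ := key Rel _ hV ⟨x, by simpa using h⟩ (by
    intro r hr y hy
    simp only [mem_iInter] at hy
    exact interior_subset (hy r hr))
  exact ⟨x', hx'⟩

end D7
end Geo

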