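import Pool.Agent.Helper183.Geo.Base

set_option autoImplicit false
open MeasureTheory Set
namespace Geo
namespace D8a

open scoped ComplexConjugate

/-- a bijection of the annulus moving each point by one of finitely many rotations gives an equidecomposition -/
theorem arbEq_of_bij (a b : ℝ) (A B : Set ℂ) (m : ℕ) (hA : A ⊆ Ann) (hB : B ⊆ Ann) (φ : Ann → Ann)
    (hφ : BijOn φ (Subtype.val ⁻¹' A) (Subtype.val ⁻¹' B))
    (h : ∀ x ∈ (Subtype.val ⁻¹' A : Set Ann), ∃ v, le v m ∧ (φ x : ℂ) = rot (sh a b v) (x : ℂ)) :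
    ArbEq A B := by
  classical
  choose! v hv using h
  set V : Finset (ℤ × ℤ) := (Finset.Icc (-(m : ℤ)) m) ×ˢ (Finset.Icc (-(m : ℤ)) m) with hV
  have hmemV : ∀ w : ℤ × ℤ, le w m → w ∈ V := by
    rintro w ⟨h1, h2⟩
    rw [hV, Finset.mem_product, Finset.mem_Icc, Finset.mem_Icc]
    exact ⟨abs_le.1 h1, abs_le.1 h2⟩
  set e := V.equivFin with he
  have hg : ∀ i, ∀ z : ℂ, (rotation (AddCircle.toCircle (sh a b (e.symm i : ℤ × ℤ)))).toIsometryEquiv z =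
      rot (sh a b (e.symm i : ℤ × ℤ)) z := fun i z => rfl
  have hkey : ∀ i, ∀ z, ∀ hz : z ∈ A, v ⟨z, hA hz⟩ = (e.symm i : ℤ × ℤ) →
      (φ ⟨z, hA hz⟩ : ℂ) =
        (rotation (AddCircle.toCircle (sh a b (e.symm i : ℤ × ℤ)))).toIsometryEquiv z := by
    intro i z hz h1
    rw [hg, ← h1]
    exact (hv ⟨z, hA hz⟩ hz).2
  refine ⟨V.card, fun i => {z | ∃ hz : z ∈ A, v ⟨z, hA hz⟩ = (e.symm i : ℤ × ℤ)},
    fun i => (rotation (AddCircle.toCircle (sh a b (e.symm i : ℤ × ℤ)))).toIsometryEquiv,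
    ?_, ?_, ?_, ?_⟩
  · intro i j hij
    rw [Set.disjoint_left]
    rintro z ⟨hz, h1⟩ ⟨hz', h2⟩
    exact hij (e.symm.injective (Subtype.ext (h1.symm.trans h2)))
  · ext z
    simp only [mem_iUnion]
    constructor
    · intro hz
      refine ⟨e ⟨v ⟨z, hA hz⟩, hmemV _ (hv ⟨z, hA hz⟩ hz).1⟩, hz, ?_⟩
      rw [Equiv.symm_apply_apply]
    · rintro ⟨i, hz, _⟩
      exact hz
  · intro i j hij
    rw [Set.disjoint_left]
    rintro w ⟨z, ⟨hz, h1⟩, rfl⟩ ⟨z', ⟨hz', h2⟩, h3⟩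
    have h4 : φ ⟨z', hA hz'⟩ = φ ⟨z, hA hz⟩ := by
      apply Subtype.ext
      rw [hkey i z hz h1, hkey j z' hz' h2]
      exact h3
    have h5 := hφ.injOn (show (⟨z', hA hz'⟩ : Ann) ∈ Subtype.val ⁻¹' A from hz')
      (show (⟨z, hA hz⟩ : Ann) ∈ Subtype.val ⁻¹' A from hz) h4
    rw [h5] at h2
    exact hij (e.symm.injective (Subtype.ext (h1.symm.trans h2)))
  · ext w
    simp only [mem_iUnion]
    constructor
    · intro hw
      obtain ⟨x, hx, hxw⟩ := hφ.surjOn (show (⟨w, hB hw⟩ : Ann) ∈ Subtype.val ⁻¹' B from hw)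
      have hxA : (x : ℂ) ∈ A := hx
      refine ⟨e ⟨v x, hmemV _ (hv x hx).1⟩, (x : ℂ), ⟨hxA, ?_⟩, ?_⟩
      · rw [Equiv.symm_apply_apply]
      · show (rotation (AddCircle.toCircle (sh a b
          (e.symm (e ⟨v x, hmemV _ (hv x hx).1⟩) : ℤ × ℤ)))).toIsometryEquiv (x : ℂ) = w
        rw [hg, Equiv.symm_apply_apply, ← (hv x hx).2, hxw]
    · rintro ⟨i, z, ⟨hz, h1⟩, rfl⟩
      show (rotation (AddCircle.toCircle (sh a b
          (e.symm i : ℤ × ℤ)))).toIsometryEquiv z ∈ B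
      rw [← hkey i z hz h1]
      exact hφ.mapsTo (show (⟨z, hA hz⟩ : Ann) ∈ Subtype.val ⁻¹' A from hz)

end D8a
end Geo

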