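import Pool.Agent.Helper183.Geo.Base

set_option autoImplicit false
open MeasureTheory Set
namespace Geo
namespace D9

open scoped ComplexConjugate

theorem rot_conj (t : S) (z : ℂ) : conj (rot t z) = rot (-t) (conj z) := by
  unfold rot
  rw [map_mul, ← Circle.coe_inv_eq_conj, AddCircle.toCircle_neg]

theorem rot_rot (s t : S) (z : ℂ) : rot s (rot t z) = rot (s + t) z := by
  unfold rot
  rw [AddCircle.toCircle_add]
  push_cast
  ring

theorem rot_zero (z : ℂ) : rot 0 z = z := by
  unfold rot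
  simp

theorem mem_iso (e : Bool) (t : S) (c : ℂ) (Q : Set ℂ) (z : ℂ) :
    z ∈ isoC (e, t, c) '' Q ↔ (if e then rot (-t) (z - c) ∈ Q else conj (rot (-t) (z - c)) ∈ Q) := by
  cases e with
  | true =>
    simp only [isoC, if_true, Set.mem_image]
    constructor
    · rintro ⟨q, hq, rfl⟩
      rw [add_sub_cancel_right, rot_rot, neg_add_cancel, rot_zero]
      exact hq
    · intro h
      refine ⟨_, h, ?_⟩
      rw [rot_rot, add_neg_cancel, rot_zero, sub_add_cancel]
  | false =>
    simp only [isoC, Bool.false_eq_true, if_false, Set.mem_image]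
    constructor
    · rintro ⟨q, hq, rfl⟩
      rw [add_sub_cancel_right, rot_rot, neg_add_cancel, rot_zero, Complex.conj_conj]
      exact hq
    · intro h
      refine ⟨_, h, ?_⟩
      rw [Complex.conj_conj, rot_rot, add_neg_cancel, rot_zero, sub_add_cancel]

open Classical in
/-- From pieces to moves: symmetrization with respect to complex conjugation. -/
theorem moves (A B : Set ℂ) (l : ℕ) (Q : Fin l → Set ℂ) (g : Fin l → Bool × S × ℂ) (hQ : ∀ i, Q i ⊆ Ann)
    (hQf : ∀ i, volume (frontier (Q i)) = 0)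
    (hA : ∀ᵐ z : ℂ, (if z ∈ A then 1 else 0 : ℝ) = ∑ i, (if z ∈ Q i then 1 else 0 : ℝ))
    (hB : ∀ᵐ z : ℂ, (if z ∈ B then 1 else 0 : ℝ) = ∑ i, (if z ∈ isoC (g i) '' Q i then 1 else 0 : ℝ)) :
    ∃ (s : ℕ) (Q' : Fin s → Set ℂ) (ρ : Fin s → S) (c : Fin s → ℂ), (∀ i, Q' i ⊆ Ann) ∧
      (∀ i, volume (frontier (Q' i)) = 0) ∧
      ∀ᵐ z : ℂ, ((if z ∈ A then 1 else 0 : ℝ) - (if z ∈ B then 1 else 0)) +
        ((if (starRingEnd ℂ) z ∈ A then 1 else 0 : ℝ) - (if (starRingEnd ℂ) z ∈ B then 1 else 0)) =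
        ∑ i, ((if z ∈ Q' i then 1 else 0 : ℝ) - (if rot (ρ i) (z - c i) ∈ Q' i then 1 else 0)) := by
  -- conjugation
  have hmp : MeasurePreserving (fun z : ℂ => conj z) volume volume := by
    have := Complex.conjLIE.measurePreserving
    exact this
  have hae : ∀ P : ℂ → Prop, (∀ᵐ z : ℂ, P z) → ∀ᵐ z : ℂ, P (conj z) := fun P hP =>
    hmp.quasiMeasurePreserving.ae hP
  let Qb : Fin l → Set ℂ := fun i => (fun z : ℂ => conj z) ⁻¹' (Q i)
  have hQb : ∀ i, Qb i ⊆ Ann := by
    intro i z hz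
    have h := hQ i hz
    simpa [Ann] using h
  have hQbf : ∀ i, volume (frontier (Qb i)) = 0 := by
    intro i
    have h1 : frontier (Qb i) = (fun z : ℂ => conj z) ⁻¹' (frontier (Q i)) := by
      have := Complex.conjLIE.toHomeomorph.preimage_frontier (Q i)
      exact this.symm
    rw [h1, hmp.measure_preimage isClosed_frontier.measurableSet.nullMeasurableSet]
    exact hQf i
  let Q2 : Fin l × Bool → Set ℂ := fun p => if (p.2 = (g p.1).1) then Qb p.1 else Q p.1
  let r2 : Fin l × Bool → S := fun p => if p.2 then (g p.1).2.1 else -(g p.1).2.1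
  let c2 : Fin l × Bool → ℂ := fun p => if p.2 then conj (g p.1).2.2 else (g p.1).2.2
  have hQ2 : ∀ p, Q2 p ⊆ Ann := by
    intro p
    simp only [Q2]
    split_ifs
    · exact hQb _
    · exact hQ _
  have hQ2f : ∀ p, volume (frontier (Q2 p)) = 0 := by
    intro p
    simp only [Q2]
    split_ifs
    · exact hQbf _
    · exact hQf _
  let e := Fintype.equivFin (Fin l × Bool)
  refine ⟨Fintype.card (Fin l × Bool), fun i => Q2 (e.symm i), fun i => r2 (e.symm i),
    fun i => c2 (e.symm i), fun i => hQ2 _, fun i => hQ2f _, ?_⟩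
  filter_upwards [hA, hB, hae _ hA, hae _ hB] with z h1 h2 h3 h4
  rw [h1, h2, h3, h4]
  rw [Equiv.sum_comp e.symm (fun p => ((if z ∈ Q2 p then 1 else 0 : ℝ) -
    (if rot (r2 p) (z - c2 p) ∈ Q2 p then 1 else 0)))]
  rw [Fintype.sum_prod_type, ← Finset.sum_sub_distrib, ← Finset.sum_sub_distrib,
    ← Finset.sum_add_distrib]
  refine Finset.sum_congr rfl fun i _ => ?_
  rw [Fintype.sum_bool]
  obtain ⟨b, t, c, hg⟩ : ∃ b t c, g i = (b, t, c) := ⟨_, _, _, rfl⟩
  have hm := fun w => mem_iso b t c (Q i) w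
  simp only [Q2, r2, c2, Qb, hg, hm]
  have hc : ∀ w : ℂ, conj (rot t (w - conj c)) = rot (-t) (conj w - c) := by
    intro w
    rw [rot_conj, map_sub, Complex.conj_conj]
  have hc' : ∀ w : ℂ, conj (rot (-t) (conj w - c)) = rot t (w - conj c) := by
    intro w
    rw [rot_conj, map_sub, Complex.conj_conj, neg_neg]
  cases b with
  | true =>
    simp only [if_true, Set.mem_preimage, hc, Bool.false_eq_true, if_false]
    ring
  | false =>
    simp only [if_true, Set.mem_preimage, hc', Bool.false_eq_true, if_false, Bool.true_eq_false,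
      reduceCtorEq]
    ring

end D9
end Geo

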