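import Pool.Agent.Helper183.Geo.Base

set_option autoImplicit false
open MeasureTheory Set
namespace Geo
namespace L1

open scoped ComplexConjugate

theorem rot_rot' (s t : S) (z : ℂ) : rot s (rot t z) = rot (s + t) z := by
  unfold rot; rw [AddCircle.toCircle_add]; push_cast; ring

theorem rot_map_add' (s : S) (z w : ℂ) : rot s (z + w) = rot s z + rot s w := by
  unfold rot; ring

theorem rot_zero' (z : ℂ) : rot 0 z = z := by
  unfold rot; rw [AddCircle.toCircle_zero]; simp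

theorem norm_rot' (s : S) (z : ℂ) : ‖rot s z‖ = ‖z‖ := by
  unfold rot; rw [norm_mul, Circle.norm_coe, one_mul]

theorem rot_conj' (s : S) (z : ℂ) : rot s (conj z) = conj (rot (-s) z) := by
  unfold rot
  rw [map_mul, AddCircle.toCircle_neg]
  congr 1
  rw [Circle.coe_inv_eq_conj]
  simp

theorem sh_add' (a b : ℝ) (v w : ℤ × ℤ) : sh a b (v + w) = sh a b v + sh a b w := by
  unfold sh; simp only [Prod.fst_add, Prod.snd_add, add_smul]; abel

theorem sh_neg' (a b : ℝ) (v : ℤ × ℤ) : sh a b (-v) = - sh a b v := by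
  unfold sh; simp only [Prod.fst_neg, Prod.snd_neg, neg_smul]; abel

theorem sh_sub' (a b : ℝ) (v w : ℤ × ℤ) : sh a b (v - w) = sh a b v - sh a b w := by
  unfold sh; simp only [Prod.fst_sub, Prod.snd_sub, sub_smul]; abel

theorem mp_rot' (θ : S) (c : ℂ) : MeasurePreserving (fun z : ℂ => rot θ (z + c)) volume volume := by
  have h1 : MeasurePreserving (fun z : ℂ => z + c) volume volume := measurePreserving_add_right volume c
  have h2 : MeasurePreserving (rotation (AddCircle.toCircle θ)) volume volume :=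
    (rotation (AddCircle.toCircle θ)).measurePreserving
  have h3 := h2.comp h1
  have h4 : (fun z : ℂ => rot θ (z + c)) = ⇑(rotation (AddCircle.toCircle θ)) ∘ fun z => z + c := by
    funext z; simp [rot, rotation_apply]
  rw [h4]; exact h3

theorem mp_conj' (θ : S) (c : ℂ) :
    MeasurePreserving (fun z : ℂ => conj (rot θ (z + c))) volume volume := by
  have h2 : MeasurePreserving (Complex.conjLIE) volume volume :=
    Complex.conjLIE.measurePreserving
  have h3 := h2.comp (mp_rot' θ c)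
  have h4 : (fun z : ℂ => conj (rot θ (z + c))) = ⇑Complex.conjLIE ∘ fun z => rot θ (z + c) := by
    funext z; simp
  rw [h4]; exact h3

open Classical in
/-- Lower bound for the configuration sum in the plane. -/
theorem lower_plane (a b : ℝ) (hfree : Free a b) (N D : ℕ → ℕ) (hN0 : 1000 ≤ N 0)
    (hN : ∀ k, 4 * N k ≤ N (k + 1)) (hD : ∀ k, 2 * N k ≤ D k ∧ D k < 3 * N k)
    (Bs P0 P : ℕ → Set ℂ) (ψ : ℕ → ℂ → ℝ) (hψ0 : ∀ j z, 0 ≤ ψ j z)
    (hrich : ∀ k, RichForC a b (Bs k) (GhatC (N k)) (64 * (N k) ^ 2) (1 / N k))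
    (hP0 : ∀ k, ∀ z ∈ P0 k, ∃ v, inBox v (N k) ∧ rot (-(sh a b v)) z ∈ Bs k)
    (hPP0 : ∀ k, volume (P k \ P0 k) = 0)
    (f : ℂ → ℝ) (hf0 : ∀ z, z ∉ Ann → f z = 0)
    (hact : ∀ k, ∀ w ∈ Ann, w ∈ Bs k →
      (∀ v, rot (sh a b v) w ∈ P k → rot (sh a b v) w ∈ P0 k) →
      7 / 8 * (N k : ℝ) - (∑ j ∈ Finset.range k,
        ∑ v ∈ (Finset.Ico (-(D j : ℤ)) 0) ×ˢ (Finset.Ico (0 : ℤ) (N k)), ψ j (rot (sh a b v) w)) ≤
      ∑ v ∈ (Finset.Ico (0 : ℤ) (N k)) ×ˢ (Finset.Ico (0 : ℤ) (N k)), f (rot (sh a b v) w))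
    (hina : ∀ k, ∀ w ∈ Ann,
      (∀ v, inBox v (N k) → rot (sh a b v) w ∉ P k ∧ rot (sh a b (v - ((D k : ℤ), 0))) w ∉ P k) →
      -(1 / 8 * (N k : ℝ)) - (∑ j ∈ Finset.range k,
        ∑ v ∈ (Finset.Ico (-(D j : ℤ)) 0) ×ˢ (Finset.Ico (0 : ℤ) (N k)), ψ j (rot (sh a b v) w)) ≤
      ∑ v ∈ (Finset.Ico (0 : ℤ) (N k)) ×ˢ (Finset.Ico (0 : ℤ) (N k)), f (rot (sh a b v) w))
    (hbdd : ∀ k w, |∑ v ∈ (Finset.Ico (0 : ℤ) (N k)) ×ˢ (Finset.Ico (0 : ℤ) (N k)), f (rot (sh a b v) w)| ≤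
      400 * (N k : ℝ))
    (k : ℕ) (Y : Finset S) (hY : Y.card ≤ (N k) ^ (N k + 1))
    (hYd : ∀ y ∈ Y, ∀ y' ∈ Y, ∀ v, y' = y + sh a b v → y = y')
    (r : ℕ) (m : Fin r → ℂ) (hr : r ≤ ((N k) ^ 2) ^ ((N k) ^ (N k + 4))) (z0 : ℂ) :
    ∃ U : Set ℂ, IsOpen U ∧ U.Nonempty ∧ U ⊆ Metric.ball z0 (1 / N k) ∧ ∀ᵐ z : ℂ, z ∈ U →
      3 / 4 * (N k : ℝ) * Y.card *
        (Finset.univ.filter (fun n => 1 + 1 / (N k : ℝ) < ‖z0 + m n‖ ∧ ‖z0 + m n‖ < 2 - 1 / (N k : ℝ))).card -
      800 * (N k : ℝ) * Y.card *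
        (Finset.univ.filter (fun n => (1 - 1 / (N k : ℝ) < ‖z0 + m n‖ ∧ ‖z0 + m n‖ < 2 + 1 / (N k : ℝ)) ∧
          ¬ (1 + 1 / (N k : ℝ) < ‖z0 + m n‖ ∧ ‖z0 + m n‖ < 2 - 1 / (N k : ℝ)))).card -
      (∑ n, if z + m n ∈ Ann then ∑ y ∈ Y, ∑ j ∈ Finset.range k,
        ∑ v ∈ (Finset.Ico (-(D j : ℤ)) 0) ×ˢ (Finset.Ico (0 : ℤ) (N k)),
          (ψ j (rot (y + sh a b v) (z + m n)) +
            ψ j (rot (sh a b v) ((starRingEnd ℂ) (rot (y + sh a b ((N k : ℤ) - 1, (N k : ℤ) - 1)) (z + m n)))))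
        else 0) ≤
      ∑ n, ∑ y ∈ Y, ∑ v ∈ (Finset.Ico (0 : ℤ) (N k)) ×ˢ (Finset.Ico (0 : ℤ) (N k)),
        (f (rot (y + sh a b v) (z + m n)) + f ((starRingEnd ℂ) (rot (y + sh a b v) (z + m n)))) := by
  classical
  set M : ℕ := N k with hM
  have hN1 : ∀ j, 1000 ≤ N j := by
    intro j
    induction j with
    | zero => exact hN0
    | succ j ih => have := hN j; omega
  have hMpos : 1000 ≤ M := hN1 k
  have hMR : (0 : ℝ) < M := by exact_mod_cast (by omega : 0 < M)
  have hρ : (0 : ℝ) < 1 / (M : ℝ) := by positivity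
  set ρ : ℝ := 1 / (M : ℝ) with hρd
  set good : Fin r → Prop := fun n => 1 + ρ < ‖z0 + m n‖ ∧ ‖z0 + m n‖ < 2 - ρ with hgood
  set G : Finset (Bool × S × ℂ) :=
    (Y ×ˢ (Finset.univ.filter good)).image (fun p => (true, p.1, rot p.1 (m p.2))) with hG
  set Zs : Finset (Bool × S × ℂ) :=
    (Y ×ˢ ((Finset.univ : Finset (Fin r)) ×ˢ
      ((Finset.Ico (0 : ℤ) (5 * M)) ×ˢ (Finset.Ico (0 : ℤ) (5 * M))))).image
      (fun p => (false, -p.1 - sh a b p.2.2, rot (-p.1 - sh a b p.2.2) (conj (m p.2.1)))) with hZ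
  have hGc : G.card ≤ Y.card * r := by
    refine Finset.card_image_le.trans ?_
    rw [Finset.card_product]
    refine Nat.mul_le_mul_left _ ?_
    refine (Finset.card_filter_le _ _).trans ?_
    simp
  have hZc : Zs.card ≤ 25 * M ^ 2 * (Y.card * r) := by
    refine Finset.card_image_le.trans ?_
    rw [Finset.card_product, Finset.card_product, Finset.card_product]
    simp only [Finset.card_univ, Fintype.card_fin, Int.card_Ico, sub_zero]
    have : (5 * (M : ℤ)).toNat = 5 * M := by omega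
    rw [this]
    apply le_of_eq; ring
  have hcard : G.card * (2 * (64 * M ^ 2) + 1) ^ 2 + Zs.card ≤ GhatC M := by
    have h1 : Y.card * r ≤ M ^ (M + 1) * (M ^ 2) ^ (M ^ (M + 4)) := Nat.mul_le_mul hY hr
    calc G.card * (2 * (64 * M ^ 2) + 1) ^ 2 + Zs.card
        ≤ (Y.card * r) * (2 * (64 * M ^ 2) + 1) ^ 2 + 25 * M ^ 2 * (Y.card * r) :=
          Nat.add_le_add (Nat.mul_le_mul_right _ hGc) hZc
      _ = (Y.card * r) * ((2 * (64 * M ^ 2) + 1) ^ 2 + 25 * M ^ 2) := by ring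
      _ ≤ M ^ (M + 1) * (M ^ 2) ^ (M ^ (M + 4)) * ((2 * (64 * M ^ 2) + 1) ^ 2 + 25 * M ^ 2) :=
          Nat.mul_le_mul_right _ h1
      _ = GhatC M := rfl
  have hnear : ∀ z ∈ Metric.ball z0 ρ, ∀ n, |‖z + m n‖ - ‖z0 + m n‖| < ρ := by
    intro z hz n
    have h1 := abs_norm_sub_norm_le (z + m n) (z0 + m n)
    have h2 : z + m n - (z0 + m n) = z - z0 := by ring
    rw [h2] at h1
    have h3 : ‖z - z0‖ < ρ := by rwa [Metric.mem_ball, dist_eq_norm] at hz
    linarith
  have hAgood : ∀ z ∈ Metric.ball z0 ρ, ∀ n, good n → z + m n ∈ Ann := by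
    intro z hz n hn
    have h1 := abs_lt.mp (hnear z hz n)
    exact ⟨by linarith [hn.1, h1.1], by linarith [hn.2, h1.2]⟩
  have hAnnrot : ∀ (s : S) (z : ℂ), z ∈ Ann → rot s z ∈ Ann := by
    intro s z hz
    exact ⟨by rw [norm_rot']; exact hz.1, by rw [norm_rot']; exact hz.2⟩
  have hAnnrot' : ∀ (s : S) (z : ℂ), rot s z ∈ Ann → z ∈ Ann := by
    intro s z hz
    exact ⟨by have := hz.1; rwa [norm_rot'] at this, by have := hz.2; rwa [norm_rot'] at this⟩
  have hAnnconj : ∀ (z : ℂ), z ∈ Ann → conj z ∈ Ann := by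
    intro z hz
    exact ⟨by rw [Complex.norm_conj]; exact hz.1, by rw [Complex.norm_conj]; exact hz.2⟩
  have hAnnconj' : ∀ (z : ℂ), conj z ∈ Ann → z ∈ Ann := by
    intro z hz
    exact ⟨by have := hz.1; rwa [Complex.norm_conj] at this, by have := hz.2; rwa [Complex.norm_conj] at this⟩
  obtain ⟨U, hUo, hUne, hUball, hU⟩ := hrich k G Zs (by
      intro g hg z hz v _ he
      rw [hG, Finset.mem_image] at hg
      rw [hZ, Finset.mem_image] at hz
      obtain ⟨p, _, rfl⟩ := hg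
      obtain ⟨q, _, rfl⟩ := hz
      have := congrArg Prod.fst he
      simp at this) (by
      intro g hg g' hg' v he
      rw [hG, Finset.mem_image] at hg hg'
      obtain ⟨p, hp, rfl⟩ := hg
      obtain ⟨q, hq, rfl⟩ := hg'
      rw [Finset.mem_product] at hp hq
      simp only [Prod.mk.injEq, true_and] at he
      obtain ⟨h1, h2⟩ := he
      have h3 : p.1 = q.1 := hYd p.1 hp.1 q.1 hq.1 v h1
      rw [← h3] at h1 h2
      have h4 : sh a b v = 0 := by
        have : p.1 + 0 = p.1 + sh a b v := by rw [add_zero]; exact h1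
        exact (add_left_cancel this).symm
      rw [h4, rot_zero'] at h2
      rw [← h3, h2]) hcard z0 (by
      intro g hg z hz
      rw [hG, Finset.mem_image] at hg
      obtain ⟨p, hp, rfl⟩ := hg
      rw [Finset.mem_product, Finset.mem_filter] at hp
      simp only [isoC, if_true]
      rw [← rot_map_add']
      exact hAnnrot _ _ (hAgood z hz p.2 hp.2.2))
  refine ⟨U, hUo, hUne, hUball, ?_⟩
  have hae : ∀ᵐ z : ℂ, ∀ y ∈ Y, ∀ (n : Fin r) (v : ℤ × ℤ),
      (rot (y + sh a b v) (z + m n) ∈ P k → rot (y + sh a b v) (z + m n) ∈ P0 k) ∧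
      (conj (rot (y + sh a b v) (z + m n)) ∈ P k → conj (rot (y + sh a b v) (z + m n)) ∈ P0 k) := by
    have h0 : ∀ y ∈ (Y : Set S), ∀ᵐ z : ℂ, ∀ (n : Fin r) (v : ℤ × ℤ),
      (rot (y + sh a b v) (z + m n) ∈ P k → rot (y + sh a b v) (z + m n) ∈ P0 k) ∧
      (conj (rot (y + sh a b v) (z + m n)) ∈ P k → conj (rot (y + sh a b v) (z + m n)) ∈ P0 k) := by
      intro y _
      rw [ae_all_iff]; intro n
      rw [ae_all_iff]; intro v
      have h1 := (mp_rot' (y + sh a b v) (m n)).quasiMeasurePreserving.preimage_null (hPP0 k)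
      have h2 := (mp_conj' (y + sh a b v) (m n)).quasiMeasurePreserving.preimage_null (hPP0 k)
      have h3 := measure_eq_zero_iff_ae_notMem.mp h1
      have h4 := measure_eq_zero_iff_ae_notMem.mp h2
      filter_upwards [h3, h4] with z h5 h6
      constructor
      · intro h7
        by_contra h8
        exact h5 ⟨h7, h8⟩
      · intro h7
        by_contra h8
        exact h6 ⟨h7, h8⟩
    exact (ae_ball_iff (Finset.countable_toSet Y)).mpr h0
  filter_upwards [hae] with z hz hzU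
  have hzball := hUball hzU
  obtain ⟨hzG, hzZ⟩ := hU z hzU
  -- the box
  set Bx : Finset (ℤ × ℤ) := (Finset.Ico (0 : ℤ) M) ×ˢ (Finset.Ico (0 : ℤ) M) with hBx
  have hgood_case : ∀ n, good n → ∀ y ∈ Y,
      3 / 4 * (M : ℝ) - (∑ j ∈ Finset.range k,
        ∑ v ∈ (Finset.Ico (-(D j : ℤ)) 0) ×ˢ (Finset.Ico (0 : ℤ) M),
          (ψ j (rot (y + sh a b v) (z + m n)) +
            ψ j (rot (sh a b v) (conj (rot (y + sh a b ((M : ℤ) - 1, (M : ℤ) - 1)) (z + m n)))))) ≤
      ∑ v ∈ Bx, (f (rot (y + sh a b v) (z + m n)) + f (conj (rot (y + sh a b v) (z + m n)))) := by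
    intro n hn y hy
    have hzn : z + m n ∈ Ann := hAgood z hzball n hn
    -- plus part
    have hplus := hact k (rot y (z + m n)) (hAnnrot _ _ hzn) (by
      have h1 := hzG (true, y, rot y (m n)) (by
        rw [hG, Finset.mem_image]
        exact ⟨(y, n), by rw [Finset.mem_product, Finset.mem_filter]; exact ⟨hy, Finset.mem_univ _, hn⟩, rfl⟩)
      simp only [isoC, if_true] at h1
      rwa [← rot_map_add'] at h1) (by
      intro v h
      rw [rot_rot', add_comm] at h ⊢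
      exact (hz y hy n v).1 h)
    -- minus part
    set w' : ℂ := conj (rot (y + sh a b ((M : ℤ) - 1, (M : ℤ) - 1)) (z + m n)) with hw'
    have hw'A : w' ∈ Ann := hAnnconj _ (hAnnrot _ _ hzn)
    have hrotw : ∀ v : ℤ × ℤ, rot (sh a b v) w' =
        conj (rot (y + sh a b (((M : ℤ) - 1, (M : ℤ) - 1) - v)) (z + m n)) := by
      intro v
      rw [hw', rot_conj', rot_rot']
      congr 2
      rw [sh_sub']
      abel
    have hexcl : ∀ s : ℤ × ℤ, 0 ≤ s.1 → s.1 < 5 * M → 0 ≤ s.2 → s.2 < 5 * M →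
        conj (rot (y + sh a b s) (z + m n)) ∉ Bs k := by
      intro s h1 h2 h3 h4 h5
      refine hzZ (false, -y - sh a b s, rot (-y - sh a b s) (conj (m n))) ?_ ?_
      · rw [hZ, Finset.mem_image]
        refine ⟨(y, n, s), ?_, rfl⟩
        rw [Finset.mem_product, Finset.mem_product, Finset.mem_product, Finset.mem_Ico, Finset.mem_Ico]
        exact ⟨hy, Finset.mem_univ _, ⟨h1, h2⟩, ⟨h3, h4⟩⟩
      · simp only [isoC]
        rw [if_neg (by simp), ← rot_map_add', ← map_add, rot_conj']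
        have : -(-y - sh a b s) = y + sh a b s := by abel
        rw [this]; exact h5
    have hnotP : ∀ s : ℤ × ℤ, 0 ≤ s.1 → s.1 < 4 * M → 0 ≤ s.2 → s.2 < 4 * M →
        conj (rot (y + sh a b s) (z + m n)) ∉ P k := by
      intro s h1 h2 h3 h4 h5
      have h6 := (hz y hy n s).2 h5
      obtain ⟨u, hu, h7⟩ := hP0 k _ h6
      rw [rot_conj', rot_rot'] at h7
      have h8 : - -(sh a b u) + (y + sh a b s) = y + sh a b (s + u) := by
        rw [sh_add']; abel
      rw [h8] at h7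
      obtain ⟨hu1, hu2, hu3, hu4⟩ := hu
      refine hexcl (s + u) ?_ ?_ ?_ ?_ h7
      · simp only [Prod.fst_add]; omega
      · simp only [Prod.fst_add]; omega
      · simp only [Prod.snd_add]; omega
      · simp only [Prod.snd_add]; omega
    have hminus := hina k w' hw'A (by
      intro v hv
      obtain ⟨hv1, hv2, hv3, hv4⟩ := hv
      have hDk := hD k
      rw [hrotw, hrotw]
      constructor
      · refine hnotP _ ?_ ?_ ?_ ?_
        · simp only [Prod.fst_sub]; omega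
        · simp only [Prod.fst_sub]; omega
        · simp only [Prod.snd_sub]; omega
        · simp only [Prod.snd_sub]; omega
      · refine hnotP _ ?_ ?_ ?_ ?_
        · simp only [Prod.fst_sub]; omega
        · simp only [Prod.fst_sub]; omega
        · simp only [Prod.snd_sub]; omega
        · simp only [Prod.snd_sub]; omega)
    have hsum1 : ∑ v ∈ Bx, f (rot (sh a b v) (rot y (z + m n))) =
        ∑ v ∈ Bx, f (rot (y + sh a b v) (z + m n)) := by
      refine Finset.sum_congr rfl fun v _ => ?_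
      rw [rot_rot', add_comm]
    have hsum2 : ∑ v ∈ Bx, f (rot (sh a b v) w') =
        ∑ v ∈ Bx, f (conj (rot (y + sh a b v) (z + m n))) := by
      refine Finset.sum_nbij' (fun v => ((M : ℤ) - 1, (M : ℤ) - 1) - v)
        (fun v => ((M : ℤ) - 1, (M : ℤ) - 1) - v) ?_ ?_ ?_ ?_ ?_
      · intro v hv
        rw [hBx, Finset.mem_product, Finset.mem_Ico, Finset.mem_Ico] at hv ⊢
        simp only [Prod.fst_sub, Prod.snd_sub]
        omega
      · intro v hv
        rw [hBx, Finset.mem_product, Finset.mem_Ico, Finset.mem_Ico] at hv ⊢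
        simp only [Prod.fst_sub, Prod.snd_sub]
        omega
      · intro v _; simp
      · intro v _; simp
      · intro v _
        rw [hrotw]
    have hsum3 : ∑ j ∈ Finset.range k,
        ∑ v ∈ (Finset.Ico (-(D j : ℤ)) 0) ×ˢ (Finset.Ico (0 : ℤ) M),
          ψ j (rot (sh a b v) (rot y (z + m n))) =
        ∑ j ∈ Finset.range k,
        ∑ v ∈ (Finset.Ico (-(D j : ℤ)) 0) ×ˢ (Finset.Ico (0 : ℤ) M),
          ψ j (rot (y + sh a b v) (z + m n)) := by
      refine Finset.sum_congr rfl fun j _ => Finset.sum_congr rfl fun v _ => ?_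
      rw [rot_rot', add_comm]
    simp only [Finset.sum_add_distrib]
    rw [← hsum1, ← hsum2, ← hsum3]
    linarith
  have hbd_case : ∀ n, ∀ y ∈ Y, -(800 * (M : ℝ)) ≤
      ∑ v ∈ Bx, (f (rot (y + sh a b v) (z + m n)) + f (conj (rot (y + sh a b v) (z + m n)))) := by
    intro n y hy
    set w' : ℂ := conj (rot (y + sh a b ((M : ℤ) - 1, (M : ℤ) - 1)) (z + m n)) with hw'
    have hrotw : ∀ v : ℤ × ℤ, rot (sh a b v) w' =
        conj (rot (y + sh a b (((M : ℤ) - 1, (M : ℤ) - 1) - v)) (z + m n)) := by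
      intro v
      rw [hw', rot_conj', rot_rot']
      congr 2
      rw [sh_sub']
      abel
    have hsum1 : ∑ v ∈ Bx, f (rot (sh a b v) (rot y (z + m n))) =
        ∑ v ∈ Bx, f (rot (y + sh a b v) (z + m n)) := by
      refine Finset.sum_congr rfl fun v _ => ?_
      rw [rot_rot', add_comm]
    have hsum2 : ∑ v ∈ Bx, f (rot (sh a b v) w') =
        ∑ v ∈ Bx, f (conj (rot (y + sh a b v) (z + m n))) := by
      refine Finset.sum_nbij' (fun v => ((M : ℤ) - 1, (M : ℤ) - 1) - v)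
        (fun v => ((M : ℤ) - 1, (M : ℤ) - 1) - v) ?_ ?_ ?_ ?_ ?_
      · intro v hv
        rw [hBx, Finset.mem_product, Finset.mem_Ico, Finset.mem_Ico] at hv ⊢
        simp only [Prod.fst_sub, Prod.snd_sub]
        omega
      · intro v hv
        rw [hBx, Finset.mem_product, Finset.mem_Ico, Finset.mem_Ico] at hv ⊢
        simp only [Prod.fst_sub, Prod.snd_sub]
        omega
      · intro v _; simp
      · intro v _; simp
      · intro v _
        rw [hrotw]
    have h1 := (abs_le.mp (hbdd k (rot y (z + m n)))).1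
    have h2 := (abs_le.mp (hbdd k w')).1
    simp only [Finset.sum_add_distrib]
    rw [← hsum1, ← hsum2]
    linarith
  have hterm : ∀ n : Fin r,
      (if good n then 3 / 4 * (M : ℝ) * Y.card else 0) -
      (if ((1 - ρ < ‖z0 + m n‖ ∧ ‖z0 + m n‖ < 2 + ρ) ∧ ¬ good n) then 800 * (M : ℝ) * Y.card else 0) -
      (if z + m n ∈ Ann then ∑ y ∈ Y, ∑ j ∈ Finset.range k,
        ∑ v ∈ (Finset.Ico (-(D j : ℤ)) 0) ×ˢ (Finset.Ico (0 : ℤ) M),
          (ψ j (rot (y + sh a b v) (z + m n)) +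
            ψ j (rot (sh a b v) (conj (rot (y + sh a b ((M : ℤ) - 1, (M : ℤ) - 1)) (z + m n)))))
        else 0) ≤
      ∑ y ∈ Y, ∑ v ∈ Bx,
        (f (rot (y + sh a b v) (z + m n)) + f (conj (rot (y + sh a b v) (z + m n)))) := by
    intro n
    by_cases hn : good n
    · rw [if_pos hn, if_neg (by tauto), if_pos (hAgood z hzball n hn), sub_zero]
      have h1 := Finset.sum_le_sum (fun y hy => hgood_case n hn y hy)
      rw [Finset.sum_sub_distrib, Finset.sum_const, nsmul_eq_mul] at h1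
      linarith
    · rw [if_neg hn]
      by_cases hb : (1 - ρ < ‖z0 + m n‖ ∧ ‖z0 + m n‖ < 2 + ρ)
      · rw [if_pos ⟨hb, hn⟩]
        have h1 := Finset.sum_le_sum (fun y hy => hbd_case n y hy)
        rw [Finset.sum_const, nsmul_eq_mul] at h1
        have h2 : 0 ≤ (if z + m n ∈ Ann then ∑ y ∈ Y, ∑ j ∈ Finset.range k,
            ∑ v ∈ (Finset.Ico (-(D j : ℤ)) 0) ×ˢ (Finset.Ico (0 : ℤ) M),
              (ψ j (rot (y + sh a b v) (z + m n)) +
                ψ j (rot (sh a b v) (conj (rot (y + sh a b ((M : ℤ) - 1, (M : ℤ) - 1)) (z + m n)))))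
            else 0) := by
          split_ifs
          · refine Finset.sum_nonneg fun y _ => Finset.sum_nonneg fun j _ =>
              Finset.sum_nonneg fun v _ => ?_
            exact add_nonneg (hψ0 _ _) (hψ0 _ _)
          · exact le_rfl
        linarith
      · rw [if_neg (by tauto)]
        have hnA : z + m n ∉ Ann := by
          intro h
          have h1 := abs_lt.mp (hnear z hzball n)
          apply hb
          exact ⟨by linarith [h.1, h1.2], by linarith [h.2, h1.1]⟩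
        rw [if_neg hnA]
        have h0 : ∑ y ∈ Y, ∑ v ∈ Bx,
            (f (rot (y + sh a b v) (z + m n)) + f (conj (rot (y + sh a b v) (z + m n)))) = 0 := by
          refine Finset.sum_eq_zero fun y _ => Finset.sum_eq_zero fun v _ => ?_
          rw [hf0 _ (fun h => hnA (hAnnrot' _ _ h)),
            hf0 _ (fun h => hnA (hAnnrot' _ _ (hAnnconj' _ h)))]
          simp
        rw [h0]; simp
  have hfin := Finset.sum_le_sum (fun n (_ : n ∈ (Finset.univ : Finset (Fin r))) => hterm n)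
  rw [Finset.sum_sub_distrib, Finset.sum_sub_distrib] at hfin
  have hs1 : ∑ n : Fin r, (if good n then 3 / 4 * (M : ℝ) * Y.card else 0) =
      3 / 4 * (M : ℝ) * Y.card * (Finset.univ.filter good).card := by
    rw [← Finset.sum_filter, Finset.sum_const, nsmul_eq_mul]; ring
  have hs2 : ∑ n : Fin r, (if ((1 - ρ < ‖z0 + m n‖ ∧ ‖z0 + m n‖ < 2 + ρ) ∧ ¬ good n) then
      800 * (M : ℝ) * Y.card else 0) =
      800 * (M : ℝ) * Y.card * (Finset.univ.filter
        (fun n => (1 - ρ < ‖z0 + m n‖ ∧ ‖z0 + m n‖ < 2 + ρ) ∧ ¬ good n)).card := by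
    rw [← Finset.sum_filter, Finset.sum_const, nsmul_eq_mul]; ring
  rw [hs1, hs2] at hfin
  exact hfin

end L1
end Geo

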