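import Pool.Agent.Helper183.Geo.C1
import Pool.Agent.Helper183.Geo.C2
import Pool.Agent.Helper183.Geo.C3
import Pool.Agent.Helper183.Geo.C4
import Pool.Agent.Helper183.Geo.C6
import Pool.Agent.Helper183.Geo.C7
import Pool.Agent.Helper183.Geo.C8
import Pool.Agent.Helper183.Geo.C9
import Pool.Agent.Helper183.Geo.C10
import Pool.Agent.Helper183.Geo.C11
import Pool.Agent.Helper183.Geo.C12
import Pool.Agent.Helper183.Geo.C13
import Pool.Agent.Helper183.Geo.C14
import Pool.Agent.Helper183.Geo.C15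
set_option autoImplicit false
open MeasureTheory Set
namespace Geo

theorem cutStmt : CutStmt := fun K N D hN0 hN hD Bs Sr hsep hsub hsrc hsnk F =>
  C1.cut_bound K N D hN0 hN hD Bs Sr hsep hsub hsrc hsnk F

theorem matchStmt : MatchStmt := fun C s hs A B hcut hden => C2.matching_of_cut C s hs A B hcut hden

theorem hitStmt (a : ℝ) (ha : Irrational a) (m : ℕ) : ∃ N : ℕ, m ≤ N ∧ Hit a N := C3.exists_hit a ha m

theorem unifStmt (a : ℝ) (ha : Irrational a) : UnifStmt a := fun P hP ε hε =>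
  C4.birkhoff_jordan a ha P hP ε hε

theorem transStmt : TransStmt := by
  intro a b C
  obtain ⟨K, hK⟩ := C6.exists_transversal a b C
  refine ⟨K, fun N hN => ?_⟩
  obtain ⟨Y, h1, h2, h3, h4⟩ := hK N hN
  refine ⟨Y, h1, h2, h3, fun c hc => ?_⟩
  obtain ⟨Yc, σ, w, e1, e2, e3, e4, e5⟩ := h4 c hc
  refine ⟨Yc, σ, w, e1, e2, e3, e4, ?_⟩
  have e6 : ∀ (i1 i2 : DecidableEq S), (@SDiff.sdiff (Finset S) (@Finset.instSDiff S i1) Y Yc) =
      (@SDiff.sdiff (Finset S) (@Finset.instSDiff S i2) Y Yc) := by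
    intro i1 i2
    rw [Subsingleton.elim i1 i2]
  rw [e6 _ (fun a b => Classical.propDecidable (a = b))]
  exact e5

theorem shiftStmt (a b : ℝ) : ShiftStmt a b :=
  fun h ψ h0 h1 hψ N K ε hε hra hrb Y Yc σ w c hsub hσ hinj hw hexit =>
  C11.shift_bound a b h ψ h0 h1 hψ N K ε hε hra hrb Y Yc σ w c hsub hσ hinj hw hexit

theorem richStmt (a b : ℝ) (hfree : Free a b) (n L : ℕ) (ρ : ℝ) (hρ : 0 < ρ) :
    ∃ B : Set S, IsOpen B ∧ volume (frontier B) = 0 ∧
      (∀ x ∈ B, ∀ v, le v L → v ≠ 0 → x + sh a b v ∉ B) ∧ RichFor a b B n L ρ :=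
  C8.exists_rich (fun n ρ hρ => C7.exists_indep n ρ hρ) a b hfree n L ρ hρ

theorem sqrt_free : Free (Real.sqrt 2) (Real.sqrt 3) := by
  intro m n k h
  have h2 : Real.sqrt 2 ^ 2 = 2 := Real.sq_sqrt (by norm_num)
  have h3 : Real.sqrt 3 ^ 2 = 3 := Real.sq_sqrt (by norm_num)
  have i2 : Irrational (Real.sqrt 2) := irrational_sqrt_two
  have i3 : Irrational (Real.sqrt 3) := by
    have := Nat.Prime.irrational_sqrt (p := 3) (by norm_num)
    simpa using this
  have i6 : Irrational (Real.sqrt 6) := by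
    apply irrational_nrt_of_notint_nrt 2 6
    · rw [Real.sq_sqrt (by norm_num)]; norm_num
    · rintro ⟨y, hy⟩
      have h1 : Real.sqrt 6 ^ 2 = 6 := Real.sq_sqrt (by norm_num)
      rw [hy] at h1
      have h4 : (y ^ 2 : ℤ) = 6 := by exact_mod_cast h1
      have h5 : y ≤ 2 := by nlinarith
      have h6 : -2 ≤ y := by nlinarith
      interval_cases y <;> omega
    · norm_num
  -- m √2 = k - n √3
  by_cases hn : n = 0
  · subst hn
    by_cases hm : m = 0
    · exact ⟨hm, rfl⟩
    · exfalso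
      apply (i2.intCast_mul hm)
      exact ⟨k, by push_cast; simpa using h.symm⟩
  · exfalso
    by_cases hk : k = 0
    · subst hk
      -- m √2 = - n √3 ; multiply by √3 : m √6 = -3 n
      have h6 : Real.sqrt 6 = Real.sqrt 2 * Real.sqrt 3 := by
        rw [← Real.sqrt_mul (by norm_num)]; norm_num
      have h7 : (m : ℝ) * Real.sqrt 6 = -3 * n := by
        rw [h6]
        have : (m : ℝ) * (Real.sqrt 2 * Real.sqrt 3) + n * (Real.sqrt 3 ^ 2) = 0 := by
          have := congrArg (fun t => t * Real.sqrt 3) h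
          simp only [Int.cast_zero, zero_mul] at this
          nlinarith
        rw [h3] at this
        linarith
      by_cases hm : m = 0
      · subst hm
        simp at h7
        exact hn (by exact_mod_cast h7)
      · apply (i6.intCast_mul hm)
        exact ⟨-3 * n, by push_cast; exact h7.symm⟩
    · -- m √2 = k - n √3: square: 2 m^2 = k^2 + 3 n^2 - 2 k n √3
      have h8 : 2 * (k : ℝ) * n * Real.sqrt 3 = k ^ 2 + 3 * n ^ 2 - 2 * m ^ 2 := by
        have h9 : (m : ℝ) * Real.sqrt 2 = k - n * Real.sqrt 3 := by linarith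
        have h10 : ((m : ℝ) * Real.sqrt 2) ^ 2 = (k - n * Real.sqrt 3) ^ 2 := by rw [h9]
        rw [mul_pow, h2] at h10
        nlinarith
      have h11 : (2 * k * n : ℤ) ≠ 0 := by positivity
      apply (i3.intCast_mul h11)
      exact ⟨k ^ 2 + 3 * n ^ 2 - 2 * m ^ 2, by push_cast; exact h8.symm⟩

theorem sum_geo (N : ℕ → ℕ) (hN0 : 1000 ≤ N 0) (hN : ∀ k, 4 * N k ≤ N (k + 1)) (k : ℕ) :
    (∑ j ∈ Finset.range k, (N k : ℝ) / (8 * N j)) + 1 ≤ N k / 8 := by
  have hpos : ∀ k, 1000 ≤ N k := by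
    intro k
    induction k with
    | zero => exact hN0
    | succ k ih => have := hN k; omega
  have h1 : ∀ k : ℕ, (∑ j ∈ Finset.range k, (1 : ℝ) / (8 * N j)) ≤ 1 / (4 * N 0) - 1 / (4 * N k) := by
    intro k
    induction k with
    | zero => simp
    | succ k ih =>
      rw [Finset.sum_range_succ]
      have h2 : (1000 : ℝ) ≤ N k := by exact_mod_cast hpos k
      have h3 : (4 : ℝ) * N k ≤ N (k + 1) := by exact_mod_cast hN k
      have h4 : (1 : ℝ) / (4 * N (k + 1)) ≤ 1 / (4 * (4 * N k)) := by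
        apply one_div_le_one_div_of_le
        · positivity
        · linarith
      have h5 : (1 : ℝ) / (8 * N k) = 1 / (4 * N k) - 1 / (8 * N k) := by
        field_simp; norm_num
      have h6 : (1 : ℝ) / (4 * (4 * N k)) ≤ 1 / (8 * N k) := by
        apply one_div_le_one_div_of_le
        · positivity
        · nlinarith
      linarith
  have h2 : (1000 : ℝ) ≤ N k := by exact_mod_cast hpos k
  have h3 : (∑ j ∈ Finset.range k, (N k : ℝ) / (8 * N j)) =
      N k * ∑ j ∈ Finset.range k, (1 : ℝ) / (8 * N j) := by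
    rw [Finset.mul_sum]
    apply Finset.sum_congr rfl
    intro j _
    ring
  rw [h3]
  have h4 : (1 : ℝ) / (4 * N 0) ≤ 1 / 4000 := by
    apply one_div_le_one_div_of_le
    · norm_num
    · have : (1000 : ℝ) ≤ N 0 := by exact_mod_cast hN0
      linarith
  have h5 : (0 : ℝ) ≤ 1 / (4 * N k) := by positivity
  have h6 := h1 k
  nlinarith

theorem arcO_sub (c l : ℝ) : arcO c l ⊆ arcC c l := Set.image_mono Ioo_subset_Icc_self

theorem arcC_closed (c l : ℝ) : IsClosed (arcC c l) :=
  (isCompact_Icc.image (AddCircle.continuous_mk' (1 : ℝ))).isClosed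

theorem arcC_shift {x : S} {c l d l' t : ℝ} (s : S) (hs : s = (t : S)) (hx : x ∈ arcC c l)
    (h1 : d ≤ c + t) (h2 : c + t + l ≤ d + l') : x + s ∈ arcC d l' := by
  obtain ⟨u, ⟨hu1, hu2⟩, rfl⟩ := hx
  refine ⟨u + t, ⟨by linarith, by linarith⟩, ?_⟩
  rw [hs]
  exact AddCircle.coe_add _ _ _

open Classical in
theorem circle_example (a b : ℝ) (hfree : Free a b) (ha : Irrational a) (hb : Irrational b) :
    ∃ A B : Set S, interior (closure A) = A ∧ volume (frontier A) = 0 ∧ A ⊆ arcO (1 / 16) (7 / 8) ∧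
      interior (closure B) = B ∧ volume (frontier B) = 0 ∧ B ⊆ arcO (1 / 16) (7 / 8) ∧
      (∃ (m : ℕ) (φ : S → S), BijOn φ A B ∧ ∀ x ∈ A, ∃ v, le v m ∧ φ x = x + sh a b v) ∧
      ¬ ∃ (l : ℕ) (Q : Fin l → Set S) (g : Fin l → Bool × S), (∀ i, volume (frontier (Q i)) = 0) ∧
        (∀ᵐ x : S, (if x ∈ A then 1 else 0 : ℝ) = ∑ i, (if x ∈ Q i then 1 else 0 : ℝ)) ∧
        (∀ᵐ x : S, (if x ∈ B then 1 else 0 : ℝ) = ∑ i, (if x ∈ isoS (g i) '' Q i then 1 else 0 : ℝ)) := by
  classical
  obtain ⟨N, D, Bs, P0, P, hN0, hN, hNhit, hD, hDa, hiso, hrich, hP0, hP0o, hP0n, hP, hE, hsmall⟩ :=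
    C13.exists_system a b hfree (hitStmt a ha) (unifStmt b hb) (richStmt a b hfree)
  have hN0' : 100 ≤ N 0 := by omega
  have hpos : ∀ k, 1000 ≤ N k := by
    intro k
    induction k with
    | zero => exact hN0
    | succ k ih => have := hN k; omega
  have hposR : ∀ k, (1000 : ℝ) ≤ N k := fun k => by exact_mod_cast hpos k
  have h3 : ∀ k, 3 / (N k : ℝ) ≤ 3 / 1000 := fun k => by
    exact div_le_div_of_nonneg_left (by norm_num) (by norm_num) (hposR k)
  have h3' : ∀ k, 0 < 3 / (N k : ℝ) := fun k => by have := hposR k; positivity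
  have h6 : ∀ k, 6 / (N k : ℝ) = 2 * (3 / (N k : ℝ)) := fun k => by ring
  have hPsub : ∀ k, P0 k ⊆ P k := fun k => by
    rw [hP k]; exact interior_maximal subset_closure (hP0o k)
  have hPreg : ∀ k, interior (closure (P k)) = P k := fun k => by
    rw [hP k]; exact interior_closure_idem
  have hPn : ∀ k, volume (frontier (P k)) = 0 := fun k => by
    apply measure_mono_null _ (hP0n k)
    rw [hP k]
    exact frontier_interior_subset.trans frontier_closure_subset
  have harc : ∀ k, ∀ x ∈ P k, x ∈ arcC (1 / 8 + 3 / N k) (3 / N k) := by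
    intro k x hx
    rw [hP k] at hx
    have h1 : closure (P0 k) ⊆ arcC (1 / 8 + 3 / N k) (3 / N k) := by
      apply closure_minimal _ (arcC_closed _ _)
      intro y hy
      exact arcO_sub _ _ ((hP0 k y).1 hy).1
    exact h1 (interior_subset hx)
  set I : Set S := arcO (1 / 4) (1 / 4) with hI
  have hIP : ∀ k x, x ∈ P k → x ∉ I := by
    intro k x hx hxI
    have h1 := harc k x hx
    have h2 : x ∈ arcC (1 / 8 + 1 / 8) (1 / 4) := by
      have := arcO_sub _ _ hxI
      norm_num at this ⊢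
      exact this
    exact C9.arc_disj h2 h1 (h3' k).le (by have := h3 k; linarith) (by norm_num)
  have hMarc : ∀ k x, x + sh a b (-((D k : ℤ), 0)) ∈ P k → x ∈ arcC (5 / 8 + 3 / N k) (6 / N k) := by
    intro k x hx
    have h1 := harc k _ hx
    obtain ⟨t, ht0, ht1, ht⟩ := hDa k
    have h2 : x = (x + sh a b (-((D k : ℤ), 0))) + (D k) • (a : S) := by
      simp [sh]
    rw [h2]
    apply arcC_shift _ ht h1
    · linarith
    · rw [h6 k]; linarith
  have hIM : ∀ k x, x + sh a b (-((D k : ℤ), 0)) ∈ P k → x ∉ I := by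
    intro k x hx hxI
    have h1 := hMarc k x hx
    have h2 : x ∈ arcC (1 / 4 + 0) (1 / 4) := by
      have := arcO_sub _ _ hxI
      norm_num at this ⊢
      exact this
    have h1' : x ∈ arcC (1 / 4 + (3 / 8 + 3 / N k)) (6 / N k) := by
      have e : (1 / 4 + (3 / 8 + 3 / N k) : ℝ) = 5 / 8 + 3 / N k := by ring
      rw [e]; exact h1
    exact C9.arc_disj h1' h2 le_rfl (by have := h3' k; linarith) (by
      rw [h6 k]; have := h3 k; linarith)
  have act0 : ∀ x : S, x + sh a b 0 = x := fun x => by simp [sh]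
  have actadd : ∀ (u v : ℤ × ℤ) (x : S), x + sh a b (u + v) = (x + sh a b v) + sh a b u := by
    intro u v x
    simp only [sh, Prod.fst_add, Prod.snd_add, add_smul]
    abel
  have hshneg : ∀ v, sh a b (-v) = - sh a b v := by
    intro v; simp only [sh, Prod.fst_neg, Prod.snd_neg, neg_smul]; abel
  have hDq : ∀ k, ∃ t : ℝ, 0 ≤ t ∧ t ≤ 3 / N k ∧ (D k) • (a : S) = ((5 / 8 - 1 / 8 + t : ℝ) : S) := by
    intro k
    obtain ⟨t, ht0, ht1, ht⟩ := hDa k
    refine ⟨t, ht0, ht1, ?_⟩
    rw [ht]; norm_num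
  set A : Set S := I ∪ ⋃ k, P k with hA
  set B : Set S := I ∪ ⋃ k, {x | x + sh a b (-((D k : ℤ), 0)) ∈ P k} with hB
  -- bodies
  have hAu := C14.union_body N hN0 hN (1 / 8) (Or.inl rfl) P hPreg hPn (fun k x hx => by
    have h1 := harc k x hx
    have h2 := h6 k
    have h4 := h3' k
    exact C9.arc_mono le_rfl (by linarith) h1)
  have hMreg : ∀ k, interior (closure {x | x + sh a b (-((D k : ℤ), 0)) ∈ P k}) =
      {x | x + sh a b (-((D k : ℤ), 0)) ∈ P k} := by
    intro k
    have h1 : {x | x + sh a b (-((D k : ℤ), 0)) ∈ P k} =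
      (Homeomorph.addRight (sh a b (-((D k : ℤ), 0)))) ⁻¹' (P k) := rfl
    rw [h1, ← Homeomorph.preimage_closure, ← Homeomorph.preimage_interior, hPreg k]
  have hMn : ∀ k, volume (frontier {x | x + sh a b (-((D k : ℤ), 0)) ∈ P k}) = 0 := by
    intro k
    have h1 : {x | x + sh a b (-((D k : ℤ), 0)) ∈ P k} =
      (Homeomorph.addRight (sh a b (-((D k : ℤ), 0)))) ⁻¹' (P k) := rfl
    rw [h1, ← Homeomorph.preimage_frontier]
    exact (measure_preimage_add_right volume _ _).trans (hPn k)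
  have hBu := C14.union_body N hN0 hN (5 / 8) (Or.inr rfl)
    (fun k => {x | x + sh a b (-((D k : ℤ), 0)) ∈ P k}) hMreg hMn (fun k x hx => hMarc k x hx)
  have hPv : ∀ k, volume (P k \ P0 k) = 0 := by
    intro k
    apply measure_mono_null _ (hP0n k)
    intro x hx
    have h1 : x ∈ closure (P0 k) := by
      have := hx.1; rw [hP k] at this; exact interior_subset this
    exact ⟨h1, fun h => hx.2 (interior_subset h)⟩
  have hbox := C10.box_lower a b hfree (X := S) (fun v x => x + sh a b v) act0 actadd id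
    (fun v x => rfl) N D hN0' hN hNhit hD (1 / 8) (5 / 8) hDq Bs P0 P hiso
    (fun k x => by
      rw [hP0 k x]
      simp only [hshneg, ← sub_eq_add_neg, id])
    hPsub harc I hIP hIM hsmall A B hA hB
  refine ⟨A, B, hAu.1, hAu.2.1, hAu.2.2, hBu.1, hBu.2.1, hBu.2.2, ?_, ?_⟩
  · exact C9.arb_equidec cutStmt matchStmt a b hfree (hitStmt a ha) (X := S) (fun v x => x + sh a b v)
      act0 actadd id (fun v x => rfl) N D hN0' hN hNhit hD (1 / 8) (5 / 8) hDq Bs P0 P hiso
      (fun k x hx => by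
        obtain ⟨v, hv, hv2⟩ := ((hP0 k x).1 hx).2
        exact ⟨v, hv, by simpa only [hshneg, ← sub_eq_add_neg] using hv2⟩)
      harc
      (fun x Rel hRel => C14.regularize (P0 := P0) hP0o (fun v : ℤ × ℤ => Homeomorph.addRight (sh a b v)) x Rel
        (fun r hr => by rw [← hP]; exact hRel r hr))
      (1 / 4) I (fun x => Iff.rfl) hIP hIM
  · have hsum : ∀ k x, (∑ j ∈ Finset.range k,
        |∑ v ∈ (Finset.Ico (0 : ℤ) (N k)) ×ˢ (Finset.Ico (0 : ℤ) (N k)),
          ((if x + sh a b v ∈ P j then 1 else 0 : ℝ) -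
            (if x + sh a b (v - ((D j : ℤ), 0)) ∈ P j then 1 else 0))|) + 1 ≤ N k / 8 := by
      intro k x
      refine le_trans ?_ (sum_geo N hN0 hN k)
      gcongr with j hj
      exact hE j k (Finset.mem_range.1 hj) x
    apply C12.ne1 a b hfree (unifStmt a ha) (unifStmt b hb) transStmt (shiftStmt a b) N D hN0' hN hD
      Bs P0 P hrich (fun k x hx => ((hP0 k x).1 hx).2) hPv A B
    · intro k x hx hx2
      have h1 := (hbox k x).1 hx hx2
      have h2 := hsum k x
      beta_reduce at h1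
      linarith
    · intro k x hx
      have h1 := (hbox k x).2 hx
      have h2 := hsum k x
      beta_reduce at h1
      linarith

theorem line_example : ∃ A B : Set ℝ, Body A ∧ Body B ∧ ArbEq A B ∧ ¬ BodyEq A B := by
  have ha : Irrational (Real.sqrt 2) := irrational_sqrt_two
  have hb : Irrational (Real.sqrt 3) := by
    have := Nat.Prime.irrational_sqrt (p := 3) (by norm_num)
    simpa using this
  obtain ⟨A, B, h1, h2, h3, h4, h5, h6, h7, h8⟩ := circle_example _ _ sqrt_free ha hb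
  exact C15.transfer_line _ _ A B h1 h2 h3 h4 h5 h6 h7 h8

end Geo
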