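import Pool.Agent.Helper183.Geo.Base
set_option autoImplicit false
open MeasureTheory Set
namespace Geo

section
variable {X Y : Type*} [PseudoMetricSpace X] [MeasureSpace X] [PseudoMetricSpace Y] [MeasureSpace Y]

theorem body_image (e : X ≃ᵢ Y) (he : ∀ s : Set X, volume s = 0 → volume (e '' s) = 0) {A : Set X}
    (hA : Body A) : Body (e '' A) := by
  obtain ⟨h1, h2, h3⟩ := hA
  refine ⟨e.isometry.lipschitz.isBounded_image h1, ?_, ?_⟩
  · have h4 := e.toHomeomorph.image_closure A
    have h5 := e.toHomeomorph.image_interior (closure A)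
    have h6 : (e.toHomeomorph : X → Y) = e := rfl
    rw [h6] at h4 h5
    rw [← h4, ← h5, h2]
  · have h4 := e.toHomeomorph.image_frontier A
    have h6 : (e.toHomeomorph : X → Y) = e := rfl
    rw [h6] at h4
    rw [← h4]
    exact he _ h3

theorem bodyEq_image (e : X ≃ᵢ Y) (he : ∀ s : Set X, volume s = 0 → volume (e '' s) = 0) {A B : Set X}
    (h : BodyEq A B) : BodyEq (e '' A) (e '' B) := by
  obtain ⟨k, P, g, h1, h2, h3, h4, h5⟩ := h
  have hh : (e.toHomeomorph : X → Y) = e := rfl
  have hcl : ∀ s : Set X, e '' interior (closure s) = interior (closure (e '' s)) := by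
    intro s
    have h4 := e.toHomeomorph.image_closure s
    have h5 := e.toHomeomorph.image_interior (closure s)
    rw [hh] at h4 h5
    rw [← h4, ← h5]
  have hg : ∀ i, ((e.symm.trans (g i)).trans e) '' (e '' P i) = e '' (g i '' P i) := by
    intro i
    rw [image_image, image_image]
    apply image_congr
    intro x _
    simp
  refine ⟨k, fun i => e '' P i, fun i => (e.symm.trans (g i)).trans e, fun i => body_image e he (h1 i),
    ?_, ?_, ?_, ?_⟩
  · intro i j hij
    exact (disjoint_image_iff e.injective).2 (h2 hij)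
  · rw [h3, hcl, image_iUnion]
  · intro i j hij
    simp only [hg]
    exact (disjoint_image_iff e.injective).2 (h4 hij)
  · simp only [hg]
    rw [h5, hcl, image_iUnion]

theorem arbEq_image (e : X ≃ᵢ Y) {A B : Set X}
    (h : ArbEq A B) : ArbEq (e '' A) (e '' B) := by
  obtain ⟨k, P, g, h2, h3, h4, h5⟩ := h
  have hg : ∀ i, ((e.symm.trans (g i)).trans e) '' (e '' P i) = e '' (g i '' P i) := by
    intro i
    rw [image_image, image_image]
    apply image_congr
    intro x _
    simp
  refine ⟨k, fun i => e '' P i, fun i => (e.symm.trans (g i)).trans e, ?_, ?_, ?_, ?_⟩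
  · intro i j hij
    exact (disjoint_image_iff e.injective).2 (h2 hij)
  · rw [h3, image_iUnion]
  · intro i j hij
    simp only [hg]
    exact (disjoint_image_iff e.injective).2 (h4 hij)
  · simp only [hg]
    rw [h5, image_iUnion]

theorem transfer (e : X ≃ᵢ Y) (he : ∀ s : Set X, volume s = 0 → volume (e '' s) = 0)
    (he' : ∀ s : Set Y, volume s = 0 → volume (e.symm '' s) = 0)
    (h : ∃ A B : Set X, Body A ∧ Body B ∧ ArbEq A B ∧ ¬ BodyEq A B) :
    ∃ A B : Set Y, Body A ∧ Body B ∧ ArbEq A B ∧ ¬ BodyEq A B := by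
  obtain ⟨A, B, h1, h2, h3, h4⟩ := h
  refine ⟨e '' A, e '' B, body_image e he h1, body_image e he h2, arbEq_image e h3, fun h5 => h4 ?_⟩
  have h6 := bodyEq_image e.symm he' h5
  have h7 : ∀ s : Set X, e.symm '' (e '' s) = s := by
    intro s
    rw [image_image]
    simp
  rwa [h7, h7] at h6

end

theorem transfer_lin {X : Type*} [NormedAddCommGroup X] [InnerProductSpace ℝ X] [FiniteDimensional ℝ X]
    [MeasurableSpace X] [BorelSpace X] {n : ℕ} (b : OrthonormalBasis (Fin n) ℝ X)
    (h : ∃ A B : Set X, Body A ∧ Body B ∧ ArbEq A B ∧ ¬ BodyEq A B) :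
    ∃ A B : Set (EuclideanSpace ℝ (Fin n)), Body A ∧ Body B ∧ ArbEq A B ∧ ¬ BodyEq A B := by
  have hb := b.measurePreserving_repr
  have hb' := b.measurePreserving_repr_symm
  apply transfer b.repr.toIsometryEquiv _ _ h
  · intro s hs
    have h1 : (b.repr.toIsometryEquiv : X → EuclideanSpace ℝ (Fin n)) '' s = b.repr.symm ⁻¹' s := by
      ext y
      constructor
      · rintro ⟨x, hx, rfl⟩
        simpa using hx
      · intro hy
        exact ⟨b.repr.symm y, hy, by simp⟩
    rw [h1]
    exact hb'.quasiMeasurePreserving.preimage_null hs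
  · intro s hs
    have h1 : (b.repr.toIsometryEquiv.symm : EuclideanSpace ℝ (Fin n) → X) '' s = b.repr ⁻¹' s := by
      ext y
      constructor
      · rintro ⟨x, hx, rfl⟩
        have : b.repr (b.repr.toIsometryEquiv.symm x) = x := b.repr.apply_symm_apply x
        rw [mem_preimage, this]
        exact hx
      · intro hy
        exact ⟨b.repr y, hy, b.repr.symm_apply_apply y⟩
    rw [h1]
    exact hb.quasiMeasurePreserving.preimage_null hs

end Geo
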