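import Pool.Agent.Helper183.Geo.Base

set_option autoImplicit false
open MeasureTheory Set
namespace Geo
namespace U1

open scoped ComplexConjugate

lemma rot_add (s t : S) (z : ℂ) : rot (s + t) z = rot s (rot t z) := by
  unfold rot
  rw [AddCircle.toCircle_add]
  push_cast
  ring

lemma rot_sub' (s : S) (z w : ℂ) : rot s (z - w) = rot s z - rot s w := by
  unfold rot
  ring

lemma rot_zero' (z : ℂ) : rot 0 z = z := by
  unfold rot
  simp

lemma norm_rot (s : S) (z : ℂ) : ‖rot s z‖ = ‖z‖ := by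
  unfold rot
  rw [norm_mul, Circle.norm_coe, one_mul]

lemma rot_mem_Ann (s : S) (z : ℂ) : rot s z ∈ Ann ↔ z ∈ Ann := by
  unfold Ann
  simp only [Set.mem_setOf_eq, norm_rot]

open Classical in
/-- Upper bound: effect of moving one piece by a plane isometry, summed over a configuration. -/
theorem upper_one (a b : ℝ) (hsh : ShiftStmt a b) (N K X : ℕ) (ε : ℝ) (hε : 0 ≤ ε) (Q : Set ℂ) (hQ : Q ⊆ Ann)
    (ψ : ℂ → ℝ) (hψ : ∀ z, 0 ≤ ψ z)
    (hrow : ∀ (z : ℂ) (θ θ' : S),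
      |(∑ j ∈ Finset.range N, (if rot (θ + j • (a : S)) z ∈ Q then 1 else 0 : ℝ)) -
        ∑ j ∈ Finset.range N, (if rot (θ' + j • (a : S)) z ∈ Q then 1 else 0 : ℝ)| ≤
        ε * N + ∑ j ∈ Finset.range N, ψ (rot (θ + j • (a : S)) z) ∧
      |(∑ j ∈ Finset.range N, (if rot (θ + j • (b : S)) z ∈ Q then 1 else 0 : ℝ)) -
        ∑ j ∈ Finset.range N, (if rot (θ' + j • (b : S)) z ∈ Q then 1 else 0 : ℝ)| ≤
        ε * N + ∑ j ∈ Finset.range N, ψ (rot (θ + j • (b : S)) z))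
    (Y Yc : Finset S) (σ : S → S) (w : S → ℤ × ℤ) (ρ' : S) (hsub : Yc ⊆ Y) (hσ : ∀ y ∈ Yc, σ y ∈ Y)
    (hinj : Set.InjOn σ Yc)
    (hw : ∀ y ∈ Yc, y + ρ' = σ y + ((w y).1 • (a : S) + (w y).2 • (b : S)) ∧ |(w y).1| ≤ K ∧ |(w y).2| ≤ K)
    (hexit : N ^ 2 * (Y \ Yc).card ≤ Y.card)
    (r : ℕ) (m : Fin r → ℂ) (c' : ℂ) (dom : S → ℤ × ℤ → Finset (Fin r)) (τ : S → ℤ × ℤ → Fin r → Fin r)
    (hτ : ∀ y ∈ Y, ∀ v ∈ (Finset.Ico (0 : ℤ) N) ×ˢ (Finset.Ico (0 : ℤ) N), Set.InjOn (τ y v) (dom y v) ∧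
      ∀ n ∈ dom y v, m (τ y v n) = m n - rot (-(y + sh a b v)) c')
    (z : ℂ) :
    |∑ n, ∑ y ∈ Y, ∑ v ∈ (Finset.Ico (0 : ℤ) N) ×ˢ (Finset.Ico (0 : ℤ) N),
      ((if rot (y + sh a b v) (z + m n) ∈ Q then 1 else 0 : ℝ) -
        (if rot ρ' (rot (y + sh a b v) (z + m n) - c') ∈ Q then 1 else 0))| ≤
    (∑ n, if z + m n ∈ Ann then
      (Y.card * (2 * K * ε * N + 2) +
        ∑ y ∈ Y, ((∑ v ∈ (Finset.Ico (-K : ℤ) K) ×ˢ (Finset.Ico (0 : ℤ) N), ψ (rot (y + sh a b v) (z + m n))) +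
          ∑ v ∈ (Finset.Ico (-K : ℤ) (N + K)) ×ˢ (Finset.Ico (-K : ℤ) K), ψ (rot (y + sh a b v) (z + m n))))
      else 0) +
    ∑ y ∈ Y, ∑ v ∈ (Finset.Ico (0 : ℤ) N) ×ˢ (Finset.Ico (0 : ℤ) N),
      ((∑ n ∈ (dom y v)ᶜ, (if z + m n - rot (-(y + sh a b v)) c' ∈ Ann then 1 else 0 : ℝ)) +
        ∑ n ∈ ((dom y v).image (τ y v))ᶜ, (if z + m n ∈ Ann then 1 else 0 : ℝ)) := by
  classical
  -- abbreviations
  set B : Finset (ℤ × ℤ) := (Finset.Ico (0 : ℤ) N) ×ˢ (Finset.Ico (0 : ℤ) N) with hB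
  let q : ℂ → ℝ := fun x => if x ∈ Q then 1 else 0
  let an : ℂ → ℝ := fun x => if x ∈ Ann then 1 else 0
  have hq0 : ∀ x, 0 ≤ q x := fun x => by
    show (0:ℝ) ≤ if x ∈ Q then 1 else 0
    split_ifs <;> norm_num
  have hq1 : ∀ x, q x ≤ 1 := fun x => by
    show (if x ∈ Q then (1:ℝ) else 0) ≤ 1
    split_ifs <;> norm_num
  have hqan : ∀ x, q x ≤ an x := fun x => by
    show (if x ∈ Q then (1:ℝ) else 0) ≤ if x ∈ Ann then 1 else 0
    by_cases h : x ∈ Q
    · rw [if_pos h, if_pos (hQ h)]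
    · rw [if_neg h]; split_ifs <;> norm_num
  have hanrot : ∀ s x, an (rot s x) = an x := fun s x => by
    show (if rot s x ∈ Ann then (1:ℝ) else 0) = if x ∈ Ann then 1 else 0
    simp only [rot_mem_Ann]
  -- the per-cell identity
  have key : ∀ y ∈ Y, ∀ v ∈ B,
      |(∑ n, (q (rot (y + sh a b v) (z + m n)) - q (rot ρ' (rot (y + sh a b v) (z + m n) - c')))) -
        ∑ n, (q (rot (y + sh a b v) (z + m n)) - q (rot (y + sh a b v + ρ') (z + m n)))| ≤
      (∑ n ∈ (dom y v)ᶜ, an (z + m n - rot (-(y + sh a b v)) c')) +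
        ∑ n ∈ ((dom y v).image (τ y v))ᶜ, an (z + m n) := by
    intro y hy v hv
    obtain ⟨hinjτ, hτm⟩ := hτ y hy v hv
    set R := y + sh a b v with hR
    have e1 : ∀ n, rot ρ' (rot R (z + m n) - c') = rot (R + ρ') (z + m n - rot (-R) c') := by
      intro n
      rw [rot_sub' (R + ρ'), ← rot_add (R + ρ') (-R) c', rot_sub' ρ', ← rot_add]
      congr 2
      · rw [add_comm]
      · abel
    have e2 : ∑ n, q (rot ρ' (rot R (z + m n) - c')) =
        ∑ n, q (rot (R + ρ') (z + m n)) -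
          ∑ n ∈ ((dom y v).image (τ y v))ᶜ, q (rot (R + ρ') (z + m n)) +
          ∑ n ∈ (dom y v)ᶜ, q (rot (R + ρ') (z + m n - rot (-R) c')) := by
      simp_rw [e1]
      rw [← Finset.sum_add_sum_compl (dom y v) (fun n => q (rot (R + ρ') (z + m n - rot (-R) c')))]
      rw [← Finset.sum_add_sum_compl ((dom y v).image (τ y v)) (fun n => q (rot (R + ρ') (z + m n)))]
      rw [Finset.sum_image hinjτ]
      have : ∑ n ∈ dom y v, q (rot (R + ρ') (z + m n - rot (-R) c')) =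
          ∑ n ∈ dom y v, q (rot (R + ρ') (z + m (τ y v n))) := by
        apply Finset.sum_congr rfl
        intro n hn
        rw [hτm n hn]
        congr 2
        ring
      rw [this]
      ring
    rw [Finset.sum_sub_distrib, Finset.sum_sub_distrib, e2]
    have e3 : ∑ n, q (rot R (z + m n)) -
        (∑ n, q (rot (R + ρ') (z + m n)) -
          ∑ n ∈ ((dom y v).image (τ y v))ᶜ, q (rot (R + ρ') (z + m n)) +
          ∑ n ∈ (dom y v)ᶜ, q (rot (R + ρ') (z + m n - rot (-R) c'))) -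
        (∑ n, q (rot R (z + m n)) - ∑ n, q (rot (R + ρ') (z + m n))) =
        (∑ n ∈ ((dom y v).image (τ y v))ᶜ, q (rot (R + ρ') (z + m n))) -
          ∑ n ∈ (dom y v)ᶜ, q (rot (R + ρ') (z + m n - rot (-R) c')) := by ring
    rw [e3]
    have b1 : ∑ n ∈ ((dom y v).image (τ y v))ᶜ, q (rot (R + ρ') (z + m n)) ≤
        ∑ n ∈ ((dom y v).image (τ y v))ᶜ, an (z + m n) := by
      apply Finset.sum_le_sum
      intro n _
      rw [← hanrot (R + ρ') (z + m n)]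
      exact hqan _
    have b2 : ∑ n ∈ (dom y v)ᶜ, q (rot (R + ρ') (z + m n - rot (-R) c')) ≤
        ∑ n ∈ (dom y v)ᶜ, an (z + m n - rot (-R) c') := by
      apply Finset.sum_le_sum
      intro n _
      rw [← hanrot (R + ρ') (z + m n - rot (-R) c')]
      exact hqan _
    have b3 : 0 ≤ ∑ n ∈ ((dom y v).image (τ y v))ᶜ, q (rot (R + ρ') (z + m n)) :=
      Finset.sum_nonneg (fun n _ => hq0 _)
    have b4 : 0 ≤ ∑ n ∈ (dom y v)ᶜ, q (rot (R + ρ') (z + m n - rot (-R) c')) :=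
      Finset.sum_nonneg (fun n _ => hq0 _)
    rw [abs_le]
    constructor <;> linarith
  -- the shift part
  have shift : ∀ n, |∑ y ∈ Y, ∑ v ∈ B, (q (rot (y + sh a b v) (z + m n)) - q (rot (y + sh a b v + ρ') (z + m n)))| ≤
      (if z + m n ∈ Ann then
      (Y.card * (2 * K * ε * N + 2) +
        ∑ y ∈ Y, ((∑ v ∈ (Finset.Ico (-K : ℤ) K) ×ˢ (Finset.Ico (0 : ℤ) N), ψ (rot (y + sh a b v) (z + m n))) +
          ∑ v ∈ (Finset.Ico (-K : ℤ) (N + K)) ×ˢ (Finset.Ico (-K : ℤ) K), ψ (rot (y + sh a b v) (z + m n))))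
      else 0) := by
    intro n
    by_cases hz : z + m n ∈ Ann
    · rw [if_pos hz]
      have := hsh (fun x => q (rot x (z + m n))) (fun x => ψ (rot x (z + m n))) (fun x => hq0 _)
        (fun x => hq1 _) (fun x => hψ _) N K ε hε (fun p p' => (hrow (z + m n) p p').1)
        (fun p p' => (hrow (z + m n) p p').2) Y Yc σ w ρ' hsub hσ hinj hw hexit
      refine le_trans (le_of_eq ?_) this
      rw [← abs_neg]
      congr 1
      rw [← Finset.sum_neg_distrib]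
      apply Finset.sum_congr rfl
      intro y _
      rw [← Finset.sum_neg_distrib]
      apply Finset.sum_congr rfl
      intro v _
      ring
    · rw [if_neg hz]
      have h0 : ∀ s, q (rot s (z + m n)) = 0 := by
        intro s
        show (if rot s (z + m n) ∈ Q then (1:ℝ) else 0) = 0
        rw [if_neg]
        intro h
        exact hz ((rot_mem_Ann s _).1 (hQ h))
      simp only [h0, sub_self, Finset.sum_const_zero, abs_zero, le_refl]
  -- combine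
  have swap1 : ∑ n, ∑ y ∈ Y, ∑ v ∈ B, (q (rot (y + sh a b v) (z + m n)) - q (rot ρ' (rot (y + sh a b v) (z + m n) - c'))) =
      ∑ y ∈ Y, ∑ v ∈ B, ∑ n, (q (rot (y + sh a b v) (z + m n)) - q (rot ρ' (rot (y + sh a b v) (z + m n) - c'))) := by
    rw [Finset.sum_comm]
    apply Finset.sum_congr rfl
    intro y _
    rw [Finset.sum_comm]
  have swap2 : ∑ n, ∑ y ∈ Y, ∑ v ∈ B, (q (rot (y + sh a b v) (z + m n)) - q (rot (y + sh a b v + ρ') (z + m n))) =
      ∑ y ∈ Y, ∑ v ∈ B, ∑ n, (q (rot (y + sh a b v) (z + m n)) - q (rot (y + sh a b v + ρ') (z + m n))) := by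
    rw [Finset.sum_comm]
    apply Finset.sum_congr rfl
    intro y _
    rw [Finset.sum_comm]
  have diff : |(∑ n, ∑ y ∈ Y, ∑ v ∈ B, (q (rot (y + sh a b v) (z + m n)) - q (rot ρ' (rot (y + sh a b v) (z + m n) - c')))) -
      ∑ n, ∑ y ∈ Y, ∑ v ∈ B, (q (rot (y + sh a b v) (z + m n)) - q (rot (y + sh a b v + ρ') (z + m n)))| ≤
      ∑ y ∈ Y, ∑ v ∈ B, ((∑ n ∈ (dom y v)ᶜ, an (z + m n - rot (-(y + sh a b v)) c')) +
        ∑ n ∈ ((dom y v).image (τ y v))ᶜ, an (z + m n)) := by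
    rw [swap1, swap2, ← Finset.sum_sub_distrib]
    refine (Finset.abs_sum_le_sum_abs _ _).trans ?_
    apply Finset.sum_le_sum
    intro y hy
    rw [← Finset.sum_sub_distrib]
    refine (Finset.abs_sum_le_sum_abs _ _).trans ?_
    apply Finset.sum_le_sum
    intro v hv
    exact key y hy v hv
  have shiftsum : |∑ n, ∑ y ∈ Y, ∑ v ∈ B, (q (rot (y + sh a b v) (z + m n)) - q (rot (y + sh a b v + ρ') (z + m n)))| ≤
      ∑ n, (if z + m n ∈ Ann then
      (Y.card * (2 * K * ε * N + 2) +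
        ∑ y ∈ Y, ((∑ v ∈ (Finset.Ico (-K : ℤ) K) ×ˢ (Finset.Ico (0 : ℤ) N), ψ (rot (y + sh a b v) (z + m n))) +
          ∑ v ∈ (Finset.Ico (-K : ℤ) (N + K)) ×ˢ (Finset.Ico (-K : ℤ) K), ψ (rot (y + sh a b v) (z + m n))))
      else 0) := by
    refine (Finset.abs_sum_le_sum_abs _ _).trans ?_
    apply Finset.sum_le_sum
    intro n _
    exact shift n
  have tri := abs_add_le ((∑ n, ∑ y ∈ Y, ∑ v ∈ B, (q (rot (y + sh a b v) (z + m n)) - q (rot ρ' (rot (y + sh a b v) (z + m n) - c')))) -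
      ∑ n, ∑ y ∈ Y, ∑ v ∈ B, (q (rot (y + sh a b v) (z + m n)) - q (rot (y + sh a b v + ρ') (z + m n))))
      (∑ n, ∑ y ∈ Y, ∑ v ∈ B, (q (rot (y + sh a b v) (z + m n)) - q (rot (y + sh a b v + ρ') (z + m n))))
  rw [sub_add_cancel] at tri
  have := tri.trans (add_le_add diff shiftsum)
  rw [add_comm] at this
  exact this

end U1
end Geo

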