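import Pool.Agent.Helper183.Geo.One
import Pool.Agent.Helper183.Geo.C9b
import Pool.Agent.Helper183.Geo.D1
import Pool.Agent.Helper183.Geo.D2
import Pool.Agent.Helper183.Geo.D3
import Pool.Agent.Helper183.Geo.D4
import Pool.Agent.Helper183.Geo.D5
import Pool.Agent.Helper183.Geo.D6
import Pool.Agent.Helper183.Geo.D7
import Pool.Agent.Helper183.Geo.D9
import Pool.Agent.Helper183.Geo.U1
import Pool.Agent.Helper183.Geo.L1
import Pool.Agent.Helper183.Geo.D8a
import Pool.Agent.Helper183.Geo.D10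
import Pool.Agent.Helper183.Geo.Transfer
set_option autoImplicit false
open MeasureTheory Set
namespace Geo

theorem upStmt (a b : ℝ) : UpStmt a b := by
  intro N K ε hε Q hQ ψ hψ hrow Y Yc σ w ρ' hsub hσ hinj hw hexit r m c' dom τ hτ z
  exact U1.upper_one a b (shiftStmt a b) N K 0 ε hε Q hQ ψ hψ hrow Y Yc σ w ρ' hsub hσ hinj hw
    (by convert hexit) r m c' dom τ hτ z

theorem jordStmt (a b : ℝ) (ha : Irrational a) (hb : Irrational b) : JordStmt a b :=
  D3.jordan_rows a b (fun φ ε hε => C4.birkhoff_cont a ha φ ε hε)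
    (fun φ ε hε => C4.birkhoff_cont b hb φ ε hε)

theorem weightStmt : WeightStmt := fun T X hX => D6.exists_weights T X hX

theorem richStmtC (a b : ℝ) (hfree : Free a b) (n L : ℕ) (ρ : ℝ) (hρ : 0 < ρ) :
    ∃ B : Set ℂ, IsOpen B ∧ B ⊆ Ann ∧ volume (frontier B) = 0 ∧
      (∀ z ∈ B, ∀ v, le v L → v ≠ 0 → rot (sh a b v) z ∉ B) ∧ RichForC a b B n L ρ :=
  D2.exists_richC (fun n ρ hρ => D1.exists_indepC n ρ hρ) a b hfree n L ρ hρ

theorem per_box (N : ℕ) : per ((Finset.Ico (0 : ℤ) N) ×ˢ (Finset.Ico (0 : ℤ) N)) ≤ 4 * N := by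
  have key : ∀ (p : ℤ × ℤ → Prop) (dp : DecidablePred p) (g : ℤ × ℤ → ℤ),
      (∀ v ∈ (Finset.Ico (0 : ℤ) N) ×ˢ (Finset.Ico (0 : ℤ) N), g v ∈ Finset.Ico (0 : ℤ) N) →
      (∀ v ∈ (Finset.Ico (0 : ℤ) N) ×ˢ (Finset.Ico (0 : ℤ) N), p v →
        ∀ w ∈ (Finset.Ico (0 : ℤ) N) ×ˢ (Finset.Ico (0 : ℤ) N), p w → g v = g w → v = w) →
      (((Finset.Ico (0 : ℤ) N) ×ˢ (Finset.Ico (0 : ℤ) N)).filter p).card ≤ N := by
    intro p dp g h1 h2
    have h3 := Finset.card_le_card_of_injOn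
      (s := ((Finset.Ico (0 : ℤ) N) ×ˢ (Finset.Ico (0 : ℤ) N)).filter p) (t := Finset.Ico (0 : ℤ) N) g
      (fun v hv => h1 v (Finset.mem_filter.1 hv).1)
      (fun v hv w hw => h2 v (Finset.mem_filter.1 hv).1 (Finset.mem_filter.1 hv).2 w
        (Finset.mem_filter.1 hw).1 (Finset.mem_filter.1 hw).2)
    simpa using h3
  unfold per
  refine (add_le_add (add_le_add (add_le_add ?_ ?_) ?_) ?_).trans (by omega : N + N + N + N ≤ 4 * N)
  · refine key _ _ Prod.snd (fun v hv => (Finset.mem_product.1 hv).2) ?_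
    rintro ⟨x, y⟩ h1 h2 ⟨x', y'⟩ h3 h4 h5
    simp only [Finset.mem_product, Finset.mem_Ico] at h1 h2 h3 h4 h5
    ext <;> simp only <;> omega
  · refine key _ _ Prod.snd (fun v hv => (Finset.mem_product.1 hv).2) ?_
    rintro ⟨x, y⟩ h1 h2 ⟨x', y'⟩ h3 h4 h5
    simp only [Finset.mem_product, Finset.mem_Ico] at h1 h2 h3 h4 h5
    ext <;> simp only <;> omega
  · refine key _ _ Prod.fst (fun v hv => (Finset.mem_product.1 hv).1) ?_
    rintro ⟨x, y⟩ h1 h2 ⟨x', y'⟩ h3 h4 h5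
    simp only [Finset.mem_product, Finset.mem_Ico] at h1 h2 h3 h4 h5
    ext <;> simp only <;> omega
  · refine key _ _ Prod.fst (fun v hv => (Finset.mem_product.1 hv).1) ?_
    rintro ⟨x, y⟩ h1 h2 ⟨x', y'⟩ h3 h4 h5
    simp only [Finset.mem_product, Finset.mem_Ico] at h1 h2 h3 h4 h5
    ext <;> simp only <;> omega

theorem sum_geo2 (N : ℕ → ℕ) (hN0 : 1000 ≤ N 0) (hN : ∀ k, 4 * N k ≤ N (k + 1)) (k : ℕ) :
    (∑ j ∈ Finset.range k, (N k : ℝ) / (16 * N j)) + 1 ≤ N k / 8 := by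
  refine le_trans ?_ (sum_geo N hN0 hN k)
  have hpos : ∀ k, 1000 ≤ N k := by
    intro k
    induction k with
    | zero => exact hN0
    | succ k ih => have := hN k; omega
  gcongr with j hj
  · have := hpos j
    positivity
  · norm_num

theorem ang_rot {z : ℂ} (hz : z ≠ 0) (t : S) : ang (rot t z) = ang z + t := by
  unfold rot
  rw [D7.angMul (Circle.coe_ne_zero _) hz, add_comm]
  congr 1
  induction t using QuotientAddGroup.induction_on with
  | H s =>
    have h1 : ((AddCircle.toCircle (s : S) : Circle) : ℂ) =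
        Complex.exp ((2 * Real.pi * s : ℝ) * Complex.I) := by
      rw [AddCircle.toCircle_apply_mk, Circle.coe_exp]
      congr 2
      push_cast
      ring
    show ang ((AddCircle.toCircle (s : S) : Circle) : ℂ) = (s : S)
    rw [h1]
    exact D7.angExp s

theorem norm_rot (t : S) (z : ℂ) : ‖rot t z‖ = ‖z‖ := by
  unfold rot
  rw [norm_mul, Circle.norm_coe, one_mul]

theorem rot_ann {t : S} {z : ℂ} : rot t z ∈ Ann ↔ z ∈ Ann := by
  unfold Ann
  simp only [mem_ofPred_eq, norm_rot]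

theorem ann_ne {z : ℂ} (hz : z ∈ Ann) : z ≠ 0 := by
  rintro rfl
  have := hz.1
  simp at this
  linarith

open Classical in
theorem plane_example_aux (a b : ℝ) (hfree : Free a b) (ha : Irrational a) (hb : Irrational b) :
    ∃ A B : Set ℂ, Body A ∧ Body B ∧ ArbEq A B ∧ ¬ BodyEq A B := by
  obtain ⟨N, D, Bs, P0, P, ψ, hN0, hN, hNhit, hD, hDa, hBA, hiso, hrich, hP0, hP0o, hP0n, hP,
    hψc, hψs, hψ0, hψi, hψu, hE, hsmall⟩ :=
    D4.exists_systemC a b hfree (hitStmt a ha) (jordStmt a b ha hb) (richStmtC a b hfree)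
  have hN0' : 100 ≤ N 0 := by omega
  have hpos : ∀ k, 1000 ≤ N k := by
    intro k
    induction k with
    | zero => exact hN0
    | succ k ih => have := hN k; omega
  have hposR : ∀ k, (1000 : ℝ) ≤ N k := fun k => by exact_mod_cast hpos k
  have h3 : ∀ k, 3 / (N k : ℝ) ≤ 3 / 1000 := fun k => by
    exact div_le_div_of_nonneg_left (by norm_num) (by norm_num) (hposR k)
  have h3' : ∀ k, 0 < 3 / (N k : ℝ) := fun k => by have := hposR k; positivity
  have h6 : ∀ k, 6 / (N k : ℝ) = 2 * (3 / (N k : ℝ)) := fun k => by ring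
  have hPsub : ∀ k, P0 k ⊆ P k := fun k => by
    rw [hP k]; exact interior_maximal subset_closure (hP0o k)
  have hPreg : ∀ k, interior (closure (P k)) = P k := fun k => by
    rw [hP k]; exact interior_closure_idem
  have hPn : ∀ k, volume (frontier (P k)) = 0 := fun k => by
    apply measure_mono_null _ (hP0n k)
    rw [hP k]
    exact frontier_interior_subset.trans frontier_closure_subset
  have hPA : ∀ k, P k ⊆ Ann := by
    intro k
    apply D7.int_CAnn (by rw [hP k]; exact isOpen_interior)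
    rw [hP k]
    refine interior_subset.trans (closure_minimal (fun z hz => ?_) D7.CAnn_closed)
    have h1 := ((hP0 k z).1 hz).1
    exact ⟨h1.1.le, h1.2.le⟩
  have harc : ∀ k, ∀ z ∈ P k, ang z ∈ arcC (1 / 8 + 3 / N k) (3 / N k) := by
    intro k z hz
    have hzA := hPA k hz
    rw [hP k] at hz
    have hz' := interior_subset hz
    by_contra hcon
    have h1 : ContinuousAt ang z := D7.angCont (ann_ne hzA)
    have h2 : (arcC (1 / 8 + 3 / N k) (3 / N k))ᶜ ∈ nhds (ang z) :=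
      (arcC_closed _ _).isOpen_compl.mem_nhds hcon
    have h3 := h1.preimage_mem_nhds h2
    obtain ⟨w, hw1, hw2⟩ := mem_closure_iff_nhds.1 hz' _ h3
    exact hw1 (arcO_sub _ _ ((hP0 k w).1 hw2).2.1)
  set I : Set ℂ := {z | z ∈ Ann ∧ ang z ∈ arcO (1 / 4) (1 / 4)} with hI
  have hIP : ∀ k z, z ∈ P k → z ∉ I := by
    intro k x hx hxI
    have h1 := harc k x hx
    have h2 : ang x ∈ arcC (1 / 8 + 1 / 8) (1 / 4) := by
      have := arcO_sub _ _ hxI.2
      norm_num at this ⊢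
      exact this
    exact C9.arc_disj h2 h1 (h3' k).le (by have := h3 k; linarith) (by norm_num)
  have hshneg : ∀ v, sh a b (-v) = - sh a b v := by
    intro v; simp only [sh, Prod.fst_neg, Prod.snd_neg, neg_smul]; abel
  have hshD : ∀ k, sh a b (-((D k : ℤ), 0)) = - ((D k) • (a : S)) := by
    intro k; rw [hshneg]; simp [sh]
  have hMA : ∀ k z, rot (sh a b (-((D k : ℤ), 0))) z ∈ P k → z ∈ Ann := fun k z hz =>
    rot_ann.1 (hPA k hz)
  have hMarc : ∀ k z, rot (sh a b (-((D k : ℤ), 0))) z ∈ P k → ang z ∈ arcC (5 / 8 + 3 / N k) (6 / N k) := by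
    intro k x hx
    have h1 := harc k _ hx
    obtain ⟨t, ht0, ht1, ht⟩ := hDa k
    rw [ang_rot (ann_ne (hMA k x hx))] at h1
    have h2 : ang x = (ang x + sh a b (-((D k : ℤ), 0))) + (D k) • (a : S) := by
      rw [hshD]; abel
    rw [h2]
    apply arcC_shift _ ht h1
    · linarith
    · rw [h6 k]; linarith
  have hIM : ∀ k z, rot (sh a b (-((D k : ℤ), 0))) z ∈ P k → z ∉ I := by
    intro k x hx hxI
    have h1 := hMarc k x hx
    have h2 : ang x ∈ arcC (1 / 4 + 0) (1 / 4) := by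
      have := arcO_sub _ _ hxI.2
      norm_num at this ⊢
      exact this
    have h1' : ang x ∈ arcC (1 / 4 + (3 / 8 + 3 / N k)) (6 / N k) := by
      have e : (1 / 4 + (3 / 8 + 3 / N k) : ℝ) = 5 / 8 + 3 / N k := by ring
      rw [e]; exact h1
    exact C9.arc_disj h1' h2 le_rfl (by have := h3' k; linarith) (by
      rw [h6 k]; have := h3 k; linarith)
  have hshadd : ∀ u v : ℤ × ℤ, sh a b (u + v) = sh a b u + sh a b v := by
    intro u v
    simp only [sh, Prod.fst_add, Prod.snd_add, add_smul]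
    abel
  have hsh0 : sh a b 0 = 0 := by simp [sh]
  -- the action on the annulus
  let act : ℤ × ℤ → Ann → Ann := fun v x => ⟨rot (sh a b v) x.1, rot_ann.2 x.2⟩
  have act0 : ∀ x, act 0 x = x := fun x => Subtype.ext (by
    show rot (sh a b 0) x.1 = x.1
    rw [hsh0, D2.rot_zero])
  have actadd : ∀ (u v : ℤ × ℤ) (x : Ann), act (u + v) x = act u (act v x) := by
    intro u v x
    apply Subtype.ext
    show rot (sh a b (u + v)) x.1 = rot (sh a b u) (rot (sh a b v) x.1)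
    rw [hshadd, D2.rot_add]
  let arg : Ann → S := fun x => ang x.1
  have harg : ∀ v x, arg (act v x) = arg x + sh a b v := fun v x => ang_rot (ann_ne x.2) _
  have hDq : ∀ k, ∃ t : ℝ, 0 ≤ t ∧ t ≤ 3 / N k ∧ (D k) • (a : S) = ((5 / 8 - 1 / 8 + t : ℝ) : S) := by
    intro k
    obtain ⟨t, ht0, ht1, ht⟩ := hDa k
    refine ⟨t, ht0, ht1, ?_⟩
    rw [ht]; norm_num
  let Bs' : ℕ → Set Ann := fun k => {x | x.1 ∈ Bs k}
  let P0' : ℕ → Set Ann := fun k => {x | x.1 ∈ P0 k}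
  let P' : ℕ → Set Ann := fun k => {x | x.1 ∈ P k}
  let I' : Set Ann := {x | x.1 ∈ I}
  obtain ⟨A, hA⟩ : ∃ A : Set ℂ, A = I ∪ ⋃ k, P k := ⟨_, rfl⟩
  obtain ⟨B, hB⟩ : ∃ B : Set ℂ, B = I ∪ ⋃ k, {z | rot (sh a b (-((D k : ℤ), 0))) z ∈ P k} := ⟨_, rfl⟩
  have hAA : A ⊆ Ann := by
    rw [hA]
    rintro z (hz | hz)
    · exact hz.1
    · obtain ⟨k, hk⟩ := mem_iUnion.1 hz
      exact hPA k hk
  have hBB : B ⊆ Ann := by
    rw [hB]
    rintro z (hz | hz)
    · exact hz.1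
    · obtain ⟨k, hk⟩ := mem_iUnion.1 hz
      exact hMA k z hk
  have hA' : (Subtype.val ⁻¹' A : Set Ann) = I' ∪ ⋃ k, P' k := by
    ext x
    simp only [hA, mem_preimage, mem_union, mem_iUnion]
    rfl
  have hB' : (Subtype.val ⁻¹' B : Set Ann) = I' ∪ ⋃ k, {x | act (-((D k : ℤ), 0)) x ∈ P' k} := by
    ext x
    simp only [hB, mem_preimage, mem_union, mem_iUnion]
    rfl
  have hiso' : ∀ k, ∀ x ∈ Bs' k, ∀ v, le v (64 * (N k : ℤ) ^ 2) → v ≠ 0 → act v x ∉ Bs' k :=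
    fun k x hx v hv hv0 => hiso k x.1 hx v hv hv0
  have hP0' : ∀ k x, x ∈ P0' k ↔ arg x ∈ arcO (1 / 8 + 3 / N k) (3 / N k) ∧
      ∃ v, inBox v (N k) ∧ act (-v) x ∈ Bs' k := by
    intro k x
    show x.1 ∈ P0 k ↔ ang x.1 ∈ _ ∧ ∃ v, inBox v (N k) ∧ rot (sh a b (-v)) x.1 ∈ Bs k
    rw [hP0 k x.1]
    simp only [hshneg]
    exact ⟨fun h => h.2, fun h => ⟨x.2, h⟩⟩
  have hap : ∀ (x : Ann) (Rel : Finset (ℕ × (ℤ × ℤ))), (∀ r ∈ Rel, act r.2 x ∈ P' r.1) →
      ∃ x', ∀ r ∈ Rel, act r.2 x' ∈ P0' r.1 := by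
    intro x Rel hRel
    rcases Rel.eq_empty_or_nonempty with h | ⟨r0, hr0⟩
    · exact ⟨x, fun r hr => by rw [h] at hr; simp at hr⟩
    · obtain ⟨x', hx'⟩ := D7.regularizeC (P0 := P0) hP0o (fun v : ℤ × ℤ => D2.rotH (sh a b v)) x.1 Rel
        (fun r hr => by rw [← hP]; exact hRel r hr)
      have h1 : rot (sh a b r0.2) x' ∈ Ann := ((hP0 _ _).1 (hx' r0 hr0)).1
      exact ⟨⟨x', rot_ann.1 h1⟩, fun r hr => hx' r hr⟩
  -- bodies
  have hAu := D7.union_bodyC N hN0 hN (1 / 8) (Or.inl rfl) P hPreg hPn hPA (fun k x hx => by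
    have h1 := harc k x hx
    have h2 := h6 k
    have h4 := h3' k
    exact C9.arc_mono le_rfl (by linarith) h1)
  have hMpre : ∀ k, {z | rot (sh a b (-((D k : ℤ), 0))) z ∈ P k} =
      (D2.rotH (sh a b (-((D k : ℤ), 0)))) ⁻¹' (P k) := fun k => rfl
  have hMreg : ∀ k, interior (closure {z | rot (sh a b (-((D k : ℤ), 0))) z ∈ P k}) =
      {z | rot (sh a b (-((D k : ℤ), 0))) z ∈ P k} := by
    intro k
    rw [hMpre, ← Homeomorph.preimage_closure, ← Homeomorph.preimage_interior, hPreg k]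
  have hMn : ∀ k, volume (frontier {z | rot (sh a b (-((D k : ℤ), 0))) z ∈ P k}) = 0 := by
    intro k
    rw [hMpre, ← Homeomorph.preimage_frontier]
    have h1 := D5.mp_rot (sh a b (-((D k : ℤ), 0)))
    exact h1.quasiMeasurePreserving.preimage_null (hPn k)
  have hBu := D7.union_bodyC N hN0 hN (5 / 8) (Or.inr rfl)
    (fun k => {z | rot (sh a b (-((D k : ℤ), 0))) z ∈ P k}) hMreg hMn hMA (fun k x hx => hMarc k x hx)
  have hPv : ∀ k, volume (P k \ P0 k) = 0 := by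
    intro k
    apply measure_mono_null _ (hP0n k)
    intro x hx
    have h1 : x ∈ closure (P0 k) := by
      have := hx.1; rw [hP k] at this; exact interior_subset this
    exact ⟨h1, fun h => hx.2 (interior_subset h)⟩
  refine ⟨A, B, by rw [hA]; exact hAu, by rw [hB]; exact hBu, ?_, ?_⟩
  · obtain ⟨m, φ, h1, h2⟩ := C9.arb_equidec cutStmt matchStmt a b hfree (hitStmt a ha) (X := Ann) act
      act0 actadd arg harg N D hN0' hN hNhit hD (1 / 8) (5 / 8) hDq Bs' P0' P' hiso'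
      (fun k x hx => ((hP0' k x).1 hx).2)
      (fun k x hx => harc k x.1 hx) hap
      (1 / 4) I' (fun x => ⟨fun h => h.2, fun h => ⟨x.2, h⟩⟩) (fun k x hx => hIP k x.1 hx)
      (fun k x hx => hIM k x.1 hx)
    rw [← hA', ← hB'] at h1
    rw [← hA'] at h2
    refine D8a.arbEq_of_bij a b A B m hAA hBB φ h1 ?_
    intro x hx
    obtain ⟨v, hv1, hv2⟩ := h2 x hx
    exact ⟨v, hv1, congrArg Subtype.val hv2⟩
  · intro hbe
    obtain ⟨l, Q, g, hQ1, hQ2, hQ3, hQ4⟩ := D10.bodyEq_unpack A B hAA hbe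
    have hmv := D9.moves A B l Q g hQ1 hQ2 hQ3 hQ4
    set f : ℂ → ℝ := fun z => (if z ∈ A then 1 else 0 : ℝ) - (if z ∈ B then 1 else 0) with hf
    have hf0 : ∀ z, z ∉ Ann → f z = 0 := by
      intro z hz
      simp only [hf]
      rw [if_neg (fun h => hz (hAA h)), if_neg (fun h => hz (hBB h)), sub_zero]
    have hbox := C10.box_lower a b hfree (X := Ann) act act0 actadd arg harg N D hN0' hN hNhit hD
      (1 / 8) (5 / 8) hDq Bs' P0' P' hiso' hP0' (fun k x hx => hPsub k hx)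
      (fun k x hx => harc k x.1 hx) I' (fun k x hx => hIP k x.1 hx) (fun k x hx => hIM k x.1 hx)
      hsmall (Subtype.val ⁻¹' A) (Subtype.val ⁻¹' B) hA' hB'
    have hsum : ∀ k (w : ℂ), (∑ j ∈ Finset.range k,
        |∑ v ∈ (Finset.Ico (0 : ℤ) (N k)) ×ˢ (Finset.Ico (0 : ℤ) (N k)),
          ((if rot (sh a b v) w ∈ P j then 1 else 0 : ℝ) -
            (if rot (sh a b (v - ((D j : ℤ), 0))) w ∈ P j then 1 else 0))|) + 1 ≤ N k / 8 +
          ∑ j ∈ Finset.range k, ∑ v ∈ (Finset.Ico (-(D j : ℤ)) 0) ×ˢ (Finset.Ico (0 : ℤ) (N k)),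
            ψ j (rot (sh a b v) w) := by
      intro k w
      have h1 := sum_geo2 N hN0 hN k
      have h2 : (∑ j ∈ Finset.range k,
        |∑ v ∈ (Finset.Ico (0 : ℤ) (N k)) ×ˢ (Finset.Ico (0 : ℤ) (N k)),
          ((if rot (sh a b v) w ∈ P j then 1 else 0 : ℝ) -
            (if rot (sh a b (v - ((D j : ℤ), 0))) w ∈ P j then 1 else 0))|) ≤
          ∑ j ∈ Finset.range k, ((N k : ℝ) / (16 * N j) +
            ∑ v ∈ (Finset.Ico (-(D j : ℤ)) 0) ×ˢ (Finset.Ico (0 : ℤ) (N k)),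
            ψ j (rot (sh a b v) w)) := by
        apply Finset.sum_le_sum
        intro j hj
        exact hE j k (Finset.mem_range.1 hj) w
      rw [Finset.sum_add_distrib] at h2
      linarith
    have hcutp := C9b.cut_pts cutStmt a b (X := Ann) act actadd arg harg N D hN0' hN hNhit hD
      (1 / 8) (5 / 8) hDq Bs' P0' P' hiso' (fun k x hx => ((hP0' k x).1 hx).2)
      (fun k x hx => harc k x.1 hx) hap I' (fun k x hx => hIP k x.1 hx) (fun k x hx => hIM k x.1 hx)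
      (Subtype.val ⁻¹' A) (Subtype.val ⁻¹' B) hA' hB'
    have hbdd : ∀ k w, |∑ v ∈ (Finset.Ico (0 : ℤ) (N k)) ×ˢ (Finset.Ico (0 : ℤ) (N k)),
        f (rot (sh a b v) w)| ≤ 400 * (N k : ℝ) := by
      intro k w
      by_cases hw : w ∈ Ann
      · have h1 : |∑ v ∈ (Finset.Ico (0 : ℤ) (N k)) ×ˢ (Finset.Ico (0 : ℤ) (N k)),
          ((if rot (sh a b v) w ∈ A then 1 else 0 : ℤ) - (if rot (sh a b v) w ∈ B then 1 else 0))| ≤
            100 * (per ((Finset.Ico (0 : ℤ) (N k)) ×ˢ (Finset.Ico (0 : ℤ) (N k))) : ℤ) :=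
          hcutp ⟨w, hw⟩ ((Finset.Ico (0 : ℤ) (N k)) ×ˢ (Finset.Ico (0 : ℤ) (N k)))
        have h2 := per_box (N k)
        have h3 : (100 * (per ((Finset.Ico (0 : ℤ) (N k)) ×ˢ (Finset.Ico (0 : ℤ) (N k))) : ℤ)) ≤
            400 * (N k : ℤ) := by omega
        have h4 := h1.trans h3
        have h5 : ((|∑ v ∈ (Finset.Ico (0 : ℤ) (N k)) ×ˢ (Finset.Ico (0 : ℤ) (N k)),
          ((if rot (sh a b v) w ∈ A then 1 else 0 : ℤ) - (if rot (sh a b v) w ∈ B then 1 else 0))| : ℤ) : ℝ) ≤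
            ((400 * (N k : ℤ) : ℤ) : ℝ) := by exact_mod_cast h4
        push_cast at h5
        exact h5
      · rw [Finset.sum_eq_zero]
        · simp
        · intro v _
          exact hf0 _ (fun h => hw (rot_ann.1 h))
    refine D5.ne2 a b hfree (jordStmt a b ha hb) transStmt (upStmt a b) weightStmt N D hN0 hN hD
      ψ hψc hψs hψ0 hψi hψu f ?_ hmv
    intro k Y hY hYd r m hr z0
    refine L1.lower_plane a b hfree N D hN0 hN hD Bs P0 P ψ hψ0 hrich
      (fun k x hx => ((hP0 k x).1 hx).2.2) hPv f hf0 ?_ ?_ hbdd k Y hY hYd r m hr z0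
    · intro k w hw hwB hw2
      have h1 : (N k : ℝ) - (∑ j ∈ Finset.range k,
        |∑ v ∈ (Finset.Ico (0 : ℤ) (N k)) ×ˢ (Finset.Ico (0 : ℤ) (N k)),
          ((if rot (sh a b v) w ∈ P j then 1 else 0 : ℝ) -
            (if rot (sh a b (v - ((D j : ℤ), 0))) w ∈ P j then 1 else 0))|) - 1 ≤
        ∑ v ∈ (Finset.Ico (0 : ℤ) (N k)) ×ˢ (Finset.Ico (0 : ℤ) (N k)), f (rot (sh a b v) w) :=
        (hbox k ⟨w, hw⟩).1 hwB (fun v hv => hw2 v hv)
      have h2 := hsum k w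
      linarith
    · intro k w hw hw2
      have h1 : - (∑ j ∈ Finset.range k,
        |∑ v ∈ (Finset.Ico (0 : ℤ) (N k)) ×ˢ (Finset.Ico (0 : ℤ) (N k)),
          ((if rot (sh a b v) w ∈ P j then 1 else 0 : ℝ) -
            (if rot (sh a b (v - ((D j : ℤ), 0))) w ∈ P j then 1 else 0))|) - 1 ≤
        ∑ v ∈ (Finset.Ico (0 : ℤ) (N k)) ×ˢ (Finset.Ico (0 : ℤ) (N k)), f (rot (sh a b v) w) :=
        (hbox k ⟨w, hw⟩).2 (fun v hv => hw2 v hv)
      have h2 := hsum k w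
      linarith

theorem plane_example : ∃ A B : Set ℂ, Body A ∧ Body B ∧ ArbEq A B ∧ ¬ BodyEq A B := by
  have ha : Irrational (Real.sqrt 2) := irrational_sqrt_two
  have hb : Irrational (Real.sqrt 3) := by
    have := Nat.Prime.irrational_sqrt (p := 3) (by norm_num)
    simpa using this
  exact plane_example_aux _ _ sqrt_free ha hb

end Geo
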